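import Pool.Agent.Lib.Art.Defs

/-! # Extension lemma: port of HypLow/Ext (helper38) -/

namespace Pool.Agent.Art

variable {ι : Type*} {adj : ι → ι → Prop} {K V : Type*} [Field K] [AddCommGroup V] [Module K V]

theorem ext_flat {X : Set ι} (hX : Good adj X) {t : ι → Module.End K V}
    (hsurj : ∀ x ∈ X, Function.Surjective (t x)) (hS : ASys adj X t) (W : Submodule K V)
    (h1 : ∀ x ∈ X, ∀ y ∈ X, ∀ w ∈ W, t x w = t y w)
    (h2 : ∀ x ∈ X, ∀ y ∈ X, ∀ w, t x w - t y w ∈ W) :
    ∀ x ∈ X, ∀ y ∈ X, t x = t y := by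
  -- `δ * t z = δ * t w`
  have hl : ∀ x ∈ X, ∀ y ∈ X, ∀ z ∈ X, ∀ w ∈ X,
      (t x - t y) * t z = (t x - t y) * t w := by
    intro x hx y hy z hz w hw
    ext v
    have h3 := h1 x hx y hy _ (h2 z hz w hw v)
    simp only [map_sub] at h3
    simp only [Module.End.mul_apply, LinearMap.sub_apply]
    have h4 : t x (t z v) - t y (t z v) - (t x (t w v) - t y (t w v)) =
      (t x (t z v) - t x (t w v)) - (t y (t z v) - t y (t w v)) := by abel
    rw [← sub_eq_zero, h4, h3, sub_self]
  have hr : ∀ x ∈ X, ∀ y ∈ X, ∀ z ∈ X, ∀ w ∈ X,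
      t z * (t x - t y) = t w * (t x - t y) := by
    intro x hx y hy z hz w hw
    ext v
    simp only [Module.End.mul_apply, LinearMap.sub_apply]
    exact h1 z hz w hw _ (h2 x hx y hy v)
  -- for far points `δ` commutes with everything
  have hfar : ∀ x ∈ X, ∀ y ∈ X, Far adj x y → ∀ z ∈ X,
      (t x - t y) * t z = t z * (t x - t y) := by
    intro x hx y hy hxy z hz
    have h3 : (t x - t y) * t y = t y * (t x - t y) := by
      rw [sub_mul, mul_sub, hS.comm x hx y hy hxy]
    rw [hl x hx y hy z hz y hy, h3, hr x hx y hy y hy z hz]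
  refine conn_const hX.conn t fun x hx y hy hxy => ?_
  obtain ⟨z, hz, hxz, hyz⟩ := hX.far x hx y hy hxy
  have hc : (t x - t y) * t y = t y * (t x - t y) := by
    have h3 := hfar x hx z hz hxz y hy
    have h4 := hfar y hy z hz hyz y hy
    have h5 : t x - t y = (t x - t z) - (t y - t z) := by abel
    rw [h5, sub_mul, mul_sub, h3, h4]
  -- `δ ^ 2 = 0`
  have hd : (t x - t y) * (t x - t y) = 0 := by
    ext v
    simp only [Module.End.mul_apply, LinearMap.sub_apply, LinearMap.zero_apply]
    have h3 := h1 x hx y hy _ (h2 x hx y hy v)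
    rw [← h3, sub_self]
  -- the braid relation
  have hb := hS.braid x hx y hy hxy
  have h3 : t x = t y + (t x - t y) := by abel
  generalize t x - t y = d at hc hd h3
  have h5 : d * (t y * t y) = 0 := by
    rw [h3] at hb
    have h6 : (t y + d) * t y * (t y + d) = t y * (t y + d) * t y + d * (t y * t y) := by
      have e1 : t y * t y * d = d * (t y * t y) := by
        rw [mul_assoc, ← hc, ← mul_assoc, ← hc, mul_assoc]
      have e2 : d * t y * d = 0 := by
        rw [mul_assoc, ← hc, ← mul_assoc, hd, zero_mul]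
      have e3 : t y * d * t y = d * (t y * t y) := by rw [← hc, mul_assoc]
      calc (t y + d) * t y * (t y + d) = t y * t y * t y + t y * t y * d + d * (t y * t y) + d * t y * d := by
            noncomm_ring
        _ = t y * t y * t y + t y * d * t y + d * (t y * t y) := by rw [e1, e2, e3, add_zero]
        _ = _ := by noncomm_ring
    rw [h6] at hb
    exact add_eq_left.1 hb
  have h6 : d = 0 := by
    ext v
    obtain ⟨v1, rfl⟩ := hsurj y hy v
    obtain ⟨v2, rfl⟩ := hsurj y hy v1
    have := congrArg (fun g : Module.End K V => g v2) h5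
    simpa only [Module.End.mul_apply, LinearMap.zero_apply] using this
  rw [h3, h6, add_zero]

/-- restriction -/
theorem ASys.restrict {B : Set ι} {t : ι → Module.End K V} (hS : ASys adj B t)
    (W : Submodule K V) (hW : ∀ x ∈ B, ∀ w ∈ W, t x w ∈ W) :
    ∃ t' : ι → Module.End K W, ASys adj B t' ∧ ∀ x ∈ B, ∀ w : W, (t' x w : V) = t x w := by
  classical
  refine ⟨fun x => if h : x ∈ B then (t x).restrict (hW x h) else 0, ?_, ?_⟩
  · have key : ∀ x ∈ B, ∀ w : W, (((if h : x ∈ B then (t x).restrict (hW x h) else 0 :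
        Module.End K W) w : W) : V) = t x w := by
      intro x hx w
      rw [dif_pos hx]
      rfl
    refine ⟨?_, ?_⟩
    · intro x hx y hy h
      ext w
      have e := LinearMap.congr_fun (hS.comm x hx y hy h) (w : V)
      simp only [Module.End.mul_apply] at e ⊢
      rw [key x hx, key y hy, key y hy, key x hx]
      exact e
    · intro x hx y hy h
      ext w
      have e := LinearMap.congr_fun (hS.braid x hx y hy h) (w : V)
      simp only [Module.End.mul_apply] at e ⊢
      rw [key x hx, key y hy, key x hx, key y hy, key x hx, key y hy]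
      exact e
  · intro x hx w
    show (((if h : x ∈ B then (t x).restrict (hW x h) else 0 : Module.End K W) w : W) : V) = t x w
    rw [dif_pos hx]
    rfl

/-- quotient -/
theorem ASys.quot [FiniteDimensional K V] {B : Set ι} {t : ι → Module.End K V}
    (hS : ASys adj B t) (hinj : ∀ x ∈ B, Function.Injective (t x)) (W : Submodule K V)
    (hW : ∀ x ∈ B, ∀ w ∈ W, t x w ∈ W) :
    ∃ t' : ι → Module.End K (V ⧸ W), ASys adj B t' ∧
      (∀ x ∈ B, Function.Injective (t' x)) ∧ ∀ x ∈ B, ∀ w, t' x (W.mkQ w) = W.mkQ (t x w) := by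
  classical
  obtain ⟨t', key'⟩ : ∃ t' : ι → Module.End K (V ⧸ W),
      ∀ x ∈ B, ∀ w : V, t' x (W.mkQ w) = W.mkQ (t x w) := by
    refine ⟨fun x => if h : x ∈ B then W.mapQ W (t x) (fun w hw => hW x h w hw) else 0, ?_⟩
    intro x hx w
    dsimp only
    rw [dif_pos hx]
    exact Submodule.mapQ_apply W W (t x) w
  refine ⟨t', ?_, ?_, key'⟩
  · refine ⟨?_, ?_⟩
    · intro x hx y hy hxy
      refine LinearMap.ext fun z => ?_
      obtain ⟨w, rfl⟩ := Submodule.mkQ_surjective W z
      have h := LinearMap.congr_fun (hS.comm x hx y hy hxy) w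
      simp only [Module.End.mul_apply] at h ⊢
      rw [key' y hy, key' x hx, key' x hx, key' y hy, h]
    · intro x hx y hy hxy
      refine LinearMap.ext fun z => ?_
      obtain ⟨w, rfl⟩ := Submodule.mkQ_surjective W z
      have h := LinearMap.congr_fun (hS.braid x hx y hy hxy) w
      simp only [Module.End.mul_apply] at h ⊢
      rw [key' x hx, key' y hy, key' x hx, key' y hy, key' x hx, key' y hy, h]
  · intro x hx z z' hzz
    obtain ⟨w, rfl⟩ := Submodule.mkQ_surjective W z
    obtain ⟨w', rfl⟩ := Submodule.mkQ_surjective W z'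
    have h1 := (key' x hx w).symm.trans (hzz.trans (key' x hx w'))
    have h2 : t x (w - w') ∈ W := by
      rw [map_sub]
      exact (Submodule.Quotient.eq W).1 h1
    have h3 : Function.Injective ((t x).restrict (hW x hx)) := by
      intro a b hab
      apply Subtype.ext
      apply hinj x hx
      exact congrArg Subtype.val hab
    obtain ⟨a, ha⟩ := LinearMap.surjective_of_injective h3 ⟨_, h2⟩
    have h4 : t x (a : V) = t x (w - w') := congrArg Subtype.val ha
    have h5 : (a : V) = w - w' := hinj x hx h4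
    refine (Submodule.Quotient.eq W).2 ?_
    rw [← h5]
    exact a.2

end Pool.Agent.Art
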