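import Pool.Agent.Lib.Art.ASub

/-! # Products of differences: port of HypQ/Mix -/

namespace Pool.Agent.Art

variable {ι : Type*} {adj : ι → ι → Prop} {K V : Type*} [Field K] [AddCommGroup V] [Module K V]

/-- `P` is a product of differences `t u - t v`, one for each set `X` of the list,
with `u, v ∈ X` -/
def Mix (t : ι → Module.End K V) : List (Set ι) → Module.End K V → Prop
  | [], P => P = 1
  | X :: L, P => ∃ u ∈ X, ∃ v ∈ X, ∃ Q, Mix t L Q ∧ P = (t u - t v) * Q

/-- pairwise far good sets -/
structure Sets (adj : ι → ι → Prop) (L : List (Set ι)) : Prop where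
  good : ∀ X ∈ L, Good adj X
  far : L.Pairwise fun X Y => ∀ x ∈ X, ∀ y ∈ Y, Far adj x y

/-- the union -/
def un (L : List (Set ι)) : Set ι := {x | ∃ X ∈ L, x ∈ X}

/-- the iterated `NX` -/
private def mix_F (t : ι → Module.End K V) : List (Set ι) → Submodule K V → Submodule K V
  | [], S => S
  | X :: L, S => NX X t (mix_F t L S)

private theorem mix_F_mono (t : ι → Module.End K V) (L : List (Set ι)) {S S' : Submodule K V}
    (h : S ≤ S') : mix_F t L S ≤ mix_F t L S' := by
  induction L with
  | nil => exact h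
  | cons X L ih => exact NX_mono (subset_refl _) ih

/-- products map into the iterated `NX` -/
private theorem mix_mem (t : ι → Module.End K V) (L : List (Set ι)) (S : Submodule K V) :
    ∀ P, Mix t L P → ∀ w ∈ S, P w ∈ mix_F t L S := by
  induction L with
  | nil =>
    intro P hP w hw
    have hP' : P = 1 := hP
    rw [hP']
    exact hw
  | cons X L ih =>
    intro P hP w hw
    obtain ⟨u, hu, v, hv, Q, hQ, rfl⟩ := hP
    have := mem_NX (t := t) hu hv (ih Q hQ w hw)
    rwa [Module.End.mul_apply, LinearMap.sub_apply]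

/-- the iterated `NX` is the span of the images of the products -/
private theorem mix_F_le (t : ι → Module.End K V) (L : List (Set ι)) (S S' : Submodule K V)
    (h : ∀ P, Mix t L P → ∀ w ∈ S, P w ∈ S') : mix_F t L S ≤ S' := by
  induction L generalizing S' with
  | nil =>
    intro w hw
    have := h 1 rfl w hw
    simpa using this
  | cons X L ih =>
    refine NX_le_iff.2 fun u hu v hv w hw => ?_
    have h1 : mix_F t L S ≤ S'.comap (t u - t v) := by
      refine ih _ fun Q hQ z hz => ?_
      have := h ((t u - t v) * Q) ⟨u, hu, v, hv, Q, hQ, rfl⟩ z hz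
      rwa [Module.End.mul_apply] at this
    have h2 := h1 hw
    rwa [Submodule.mem_comap, LinearMap.sub_apply] at h2

/-- an operator which commutes with all `t y` and preserves `S` preserves the iterated `NX` -/
private theorem mix_F_stable (t : ι → Module.End K V) (L : List (Set ι)) (S : Submodule K V)
    (T : Module.End K V) (hT : ∀ x ∈ un L, T * t x = t x * T) (hTS : ∀ w ∈ S, T w ∈ S) :
    ∀ w ∈ mix_F t L S, T w ∈ mix_F t L S := by
  induction L with
  | nil => exact hTS
  | cons X L ih =>
    have h1 := ih fun x hx => hT x (by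
      obtain ⟨X', hX', hx'⟩ := hx
      exact ⟨X', List.mem_cons_of_mem _ hX', hx'⟩)
    exact NX_map T (fun x hx => hT x ⟨X, List.mem_cons_self, hx⟩) h1

/-- the iterated `NX` commutes with `NX X` if `X` commutes with everything -/
private theorem mix_F_swap (t : ι → Module.End K V) (L : List (Set ι)) (X : Set ι)
    (S : Submodule K V) (hX : ∀ x ∈ X, ∀ y ∈ un L, t x * t y = t y * t x) :
    mix_F t L (NX X t S) = NX X t (mix_F t L S) := by
  induction L with
  | nil => rfl
  | cons Y L ih =>
    have h1 := ih fun x hx y hy => hX x hx y (by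
      obtain ⟨Y', hY', hy'⟩ := hy
      exact ⟨Y', List.mem_cons_of_mem _ hY', hy'⟩)
    show NX Y t (mix_F t L (NX X t S)) = NX X t (NX Y t (mix_F t L S))
    rw [h1]
    exact NX_swap (fun x hx y hy => (hX y hy x ⟨Y, List.mem_cons_self, hx⟩).symm) _

/-- the iterated `NX` is idempotent -/
private theorem mix_F_idem [FiniteDimensional K V] (t : ι → Module.End K V) (L : List (Set ι))
    (hL : Sets adj L) (hinj : ∀ x ∈ un L, Function.Injective (t x)) (hS : ASys adj (un L) t)
    (S : Submodule K V) (hW : ∀ x ∈ un L, ∀ w ∈ S, t x w ∈ S) :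
    mix_F t L (mix_F t L S) = mix_F t L S := by
  induction L with
  | nil => rfl
  | cons X L ih =>
    have hsub : ∀ x ∈ un L, x ∈ un (X :: L) := by
      intro x hx
      obtain ⟨X', hX', hx'⟩ := hx
      exact ⟨X', List.mem_cons_of_mem _ hX', hx'⟩
    have hsubb : ∀ x ∈ X, x ∈ un (X :: L) := fun x hx => ⟨X, List.mem_cons_self, hx⟩
    have hfar := List.pairwise_cons.1 hL.far
    have hcomm : ∀ x ∈ X, ∀ y ∈ un L, t x * t y = t y * t x := by
      intro x hx y hy
      obtain ⟨X', hX', hy'⟩ := hy
      exact hS.comm x (hsubb x hx) y (hsub y ⟨X', hX', hy'⟩) (hfar.1 X' hX' x hx y hy')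
    have hL' : Sets adj L := ⟨fun X' hX' => hL.good X' (List.mem_cons_of_mem _ hX'), hfar.2⟩
    have h1 := ih hL' (fun x hx => hinj x (hsub x hx)) (hS.mono hsub)
      (fun x hx => hW x (hsub x hx))
    show NX X t (mix_F t L (NX X t (mix_F t L S))) = NX X t (mix_F t L S)
    rw [mix_F_swap t L X (mix_F t L S) hcomm, h1]
    refine NX_idem (hL.good X List.mem_cons_self) (fun x hx => hinj x (hsubb x hx))
      (hS.mono hsubb) ?_
    intro x hx
    exact mix_F_stable t L S (t x) (hcomm x hx) (hW x (hsubb x hx))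

theorem mix_ext [FiniteDimensional K V] {t : ι → Module.End K V} {L : List (Set ι)}
    (hL : Sets adj L) (hinj : ∀ x ∈ un L, Function.Injective (t x)) (hS : ASys adj (un L) t)
    {W : Submodule K V} (hW : ∀ x ∈ un L, ∀ w ∈ W, t x w ∈ W)
    (h1 : ∀ P, Mix t L P → ∀ w ∈ W, P w = 0) (h2 : ∀ P, Mix t L P → ∀ w, P w ∈ W) :
    ∀ P, Mix t L P → P = 0 := by
  have hidem := mix_F_idem t L hL hinj hS ⊤ (fun x _ w _ => Submodule.mem_top)
  have hle : mix_F t L ⊤ ≤ W := mix_F_le t L ⊤ W fun P hP w _ => h2 P hP w
  have hbot : mix_F t L W ≤ ⊥ := mix_F_le t L W ⊥ fun P hP w hw => by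
    rw [h1 P hP w hw]
    exact Submodule.zero_mem _
  have hzero : mix_F t L ⊤ ≤ ⊥ := by
    rw [← hidem]
    exact (mix_F_mono t L hle).trans hbot
  intro P hP
  refine LinearMap.ext fun w => ?_
  have := hzero (mix_mem t L ⊤ P hP w Submodule.mem_top)
  rw [Submodule.mem_bot] at this
  simpa using this

end Pool.Agent.Art
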