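import Pool.Agent.Lib.Art.AMixDim

/-! # The rank of one operator of a system with a nonzero product -/

namespace Pool.Agent.Art

universe v

variable {ι : Type*} {adj : ι → ι → Prop} {K : Type*} [Field K]

/-- A minimal subspace `U` stable under `A` and the `A`-equivariant maps from `U` to `V`. -/
theorem rank_hom {V : Type*} [AddCommGroup V] [Module K V] [FiniteDimensional K V] [Nontrivial V]
    (A B : Set (Module.End K V)) (hAB : ∀ S ∈ A, ∀ T ∈ B, S * T = T * S)
    (hirr : ∀ W : Submodule K V, (∀ S ∈ A, ∀ w ∈ W, S w ∈ W) → (∀ T ∈ B, ∀ w ∈ W, T w ∈ W) →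
      W = ⊥ ∨ W = ⊤) :
    ∃ (U : Submodule K V) (H : Submodule K (U →ₗ[K] V)), U ≠ ⊥ ∧ (∀ S ∈ A, ∀ z ∈ U, S z ∈ U) ∧
      (∀ U' ≤ U, (∀ S ∈ A, ∀ z ∈ U', S z ∈ U') → U' = ⊥ ∨ U' = U) ∧
      (∀ φ ∈ H, ∀ S ∈ A, ∀ z z' : U, (z' : V) = S z → φ z' = S (φ z)) ∧
      (∀ φ ∈ H, ∀ T ∈ B, T ∘ₗ φ ∈ H) ∧
      (∀ P : Module.End K V, (∀ φ ∈ H, P ∘ₗ φ = 0) → P = 0) := by
  obtain ⟨U, hU, hst, hmin⟩ : ∃ U : Submodule K V, U ≠ ⊥ ∧ (∀ S ∈ A, ∀ z ∈ U, S z ∈ U) ∧
      ∀ U' ≤ U, (∀ S ∈ A, ∀ z ∈ U', S z ∈ U') → U' = ⊥ ∨ U' = U := by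
    have wf : WellFounded (fun a b : Submodule K V => a < b) := wellFounded_lt
    have hne : ({M | M ≠ ⊥ ∧ ∀ S ∈ A, ∀ z ∈ M, S z ∈ M} : Set (Submodule K V)).Nonempty :=
      ⟨⊤, top_ne_bot, fun S _ z _ => Submodule.mem_top⟩
    have h1 := wf.min_mem _ hne
    refine ⟨wf.min _ hne, h1.1, h1.2, ?_⟩
    intro M' hM' hp
    by_cases hb : M' = ⊥
    · exact Or.inl hb
    · refine Or.inr ?_
      by_contra hne'
      exact wf.not_lt_min {M | M ≠ ⊥ ∧ ∀ S ∈ A, ∀ z ∈ M, S z ∈ M} (x := M') ⟨hb, hp⟩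
        (lt_of_le_of_ne hM' hne')
  let H : Submodule K (U →ₗ[K] V) :=
    { carrier := {φ | ∀ S ∈ A, ∀ z z' : U, (z' : V) = S z → φ z' = S (φ z)}
      add_mem' := by
        intro φ ψ hφ hψ S hS z z' h
        rw [LinearMap.add_apply, LinearMap.add_apply, map_add, hφ S hS z z' h, hψ S hS z z' h]
      zero_mem' := by
        intro S _ z z' _
        rw [LinearMap.zero_apply, LinearMap.zero_apply, map_zero]
      smul_mem' := by
        intro c φ hφ S hS z z' h
        rw [LinearMap.smul_apply, LinearMap.smul_apply, map_smul, hφ S hS z z' h] }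
  have hHm : ∀ φ : U →ₗ[K] V, φ ∈ H ↔
      ∀ S ∈ A, ∀ z z' : U, (z' : V) = S z → φ z' = S (φ z) := fun _ => Iff.rfl
  have hHB : ∀ φ ∈ H, ∀ T ∈ B, T ∘ₗ φ ∈ H := by
    intro φ hφ T hT S hS z z' h
    rw [LinearMap.comp_apply, LinearMap.comp_apply, (hHm φ).1 hφ S hS z z' h]
    have := congrArg (fun f : Module.End K V => f (φ z)) (hAB S hS T hT)
    exact this.symm
  refine ⟨U, H, hU, hst, hmin, fun φ hφ => (hHm φ).1 hφ, hHB, ?_⟩
  intro P hP
  have hsub : U.subtype ∈ H := fun S hS z z' h => h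
  let W : Submodule K V := ⨆ φ : H, LinearMap.range (φ : U →ₗ[K] V)
  have hWle : ∀ φ ∈ H, LinearMap.range φ ≤ W := fun φ hφ =>
    le_iSup (fun φ : H => LinearMap.range (φ : U →ₗ[K] V)) ⟨φ, hφ⟩
  have hW : W = ⊤ := by
    have h1 : ∀ S ∈ A, ∀ w ∈ W, S w ∈ W := by
      intro S hS
      have : W ≤ W.comap S := by
        refine iSup_le ?_
        rintro ⟨φ, hφ⟩ _ ⟨z, rfl⟩
        refine hWle φ hφ ⟨⟨S z, hst S hS z z.2⟩, ?_⟩
        exact (hHm φ).1 hφ S hS z _ rfl
      exact fun w hw => this hw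
    have h2 : ∀ T ∈ B, ∀ w ∈ W, T w ∈ W := by
      intro T hT
      have : W ≤ W.comap T := by
        refine iSup_le ?_
        rintro ⟨φ, hφ⟩ _ ⟨z, rfl⟩
        exact hWle (T ∘ₗ φ) (hHB φ hφ T hT) ⟨z, rfl⟩
      exact fun w hw => this hw
    rcases hirr W h1 h2 with h | h
    · exfalso
      refine hU ?_
      rw [eq_bot_iff, ← h]
      have := hWle U.subtype hsub
      rwa [Submodule.range_subtype] at this
    · exact h
  have hker : W ≤ LinearMap.ker P := by
    refine iSup_le ?_
    rintro ⟨φ, hφ⟩ _ ⟨z, rfl⟩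
    have := congrArg (fun f : U →ₗ[K] V => f z) (hP φ hφ)
    exact this
  rw [hW] at hker
  refine LinearMap.ext fun v => ?_
  exact hker (Submodule.mem_top (x := v))

/-- If one operator of a connected set is a scalar on a stable subspace, then all are. -/
theorem rank_scalar {V : Type*} [AddCommGroup V] [Module K V] {X : Set ι} (hX : Good adj X)
    {t : ι → Module.End K V} (hinj : ∀ x ∈ X, Function.Injective (t x)) (hS : ASys adj X t)
    {U : Submodule K V} (hU : U ≠ ⊥) (hst : ∀ x ∈ X, ∀ z ∈ U, t x z ∈ U) {u : ι} (hu : u ∈ X)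
    {c : K} (hc : ∀ z ∈ U, t u z = c • z) : ∀ x ∈ X, ∀ z ∈ U, t x z = c • z := by
  have hc0 : c ≠ 0 := by
    intro h0
    obtain ⟨z, hz, hz0⟩ := Submodule.exists_mem_ne_zero_of_ne_bot hU
    refine hz0 (hinj u hu ?_)
    rw [hc z hz, h0, zero_smul, map_zero]
  intro x hx
  have := hX.conn u hu x hx
  induction this with
  | refl => exact hc
  | @tail a b _ h1 ih =>
    intro z hz
    have e := LinearMap.congr_fun (hS.braid a h1.1 b h1.2.1 h1.2.2) z
    simp only [Module.End.mul_apply] at e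
    rw [ih h1.1 z hz, map_smul, map_smul, ih h1.1 _ (hst b h1.2.1 z hz), map_smul] at e
    have e3 : t b (t b z) = t b (c • z) := by
      rw [map_smul]
      exact smul_right_injective V hc0 e.symm
    exact hinj b h1.2.1 e3

/-- If the product `(t u - t v) (t w - t w')` is not zero for some `u, v ∈ X` and `w, w' ∈ Y`, then
`t u₀ - ν` has rank at least `k`, for all `u₀ ∈ X` and all scalars `ν`. -/
theorem mix_rank {X Y : Set ι} {k : ℕ} (hL : Sets adj [X, Y]) (hN : ANab.{v} K adj Y k)
    {u₀ : ι} (hu₀ : u₀ ∈ X) (ν : K) :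
    ∀ (V : Type v) [AddCommGroup V] [Module K V] [FiniteDimensional K V]
      (t : ι → Module.End K V), (∀ x ∈ un [X, Y], Function.Injective (t x)) →
      ASys adj (un [X, Y]) t → ∀ P, Mix t [X, Y] P → P ≠ 0 →
      k ≤ Module.finrank K (LinearMap.range (t u₀ - ν • (1 : Module.End K V))) := by
  have hX : ∀ x ∈ X, x ∈ un [X, Y] := fun x hx => ⟨X, List.mem_cons_self, hx⟩
  have hY : ∀ x ∈ Y, x ∈ un [X, Y] := fun x hx =>
    ⟨Y, List.mem_cons_of_mem _ List.mem_cons_self, hx⟩
  have hXg : Good adj X := hL.good X List.mem_cons_self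
  have hfar : ∀ x ∈ X, ∀ y ∈ Y, Far adj x y := (List.pairwise_cons.1 hL.far).1 Y
    List.mem_cons_self
  suffices hs : ∀ (N : ℕ) (V : Type v) [AddCommGroup V] [Module K V] [FiniteDimensional K V]
      (t : ι → Module.End K V), Module.finrank K V ≤ N →
      (∀ x ∈ un [X, Y], Function.Injective (t x)) →
      ASys adj (un [X, Y]) t → ∀ P, Mix t [X, Y] P → P ≠ 0 →
      k ≤ Module.finrank K (LinearMap.range (t u₀ - ν • (1 : Module.End K V))) by
    intro V _ _ _ t h1 h2 P h3 h4
    exact hs _ V t le_rfl h1 h2 P h3 h4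
  intro N
  induction N with
  | zero =>
    intro V _ _ _ t hN0 _ _ P hP hP0
    exfalso
    have h1 : Subsingleton V := Module.finrank_zero_iff.1 (Nat.le_zero.1 hN0)
    exact hP0 (LinearMap.ext fun z => Subsingleton.elim _ _)
  | succ N ihN =>
    intro V _ _ _ t hVN hinj hS P hP hP0
    have hnt : Nontrivial V := by
      by_contra h2
      rw [not_nontrivial_iff_subsingleton] at h2
      exact hP0 (LinearMap.ext fun z => Subsingleton.elim _ _)
    by_cases hirr : ∀ W : Submodule K V, (∀ x ∈ un [X, Y], ∀ w ∈ W, t x w ∈ W) →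
        W = ⊥ ∨ W = ⊤
    · -- irreducible
      obtain ⟨U, H, hU0, hUst, hUmin, hHeq, hHst, hH0⟩ := rank_hom
        (K := K) (V := V) {S | ∃ x ∈ X, S = t x} {T | ∃ x ∈ Y, T = t x} (by
          rintro S ⟨x, hx, rfl⟩ T ⟨y, hy, rfl⟩
          exact hS.comm x (hX x hx) y (hY y hy) (hfar x hx y hy)) (by
          intro W h1 h2
          refine hirr W ?_
          rintro x ⟨c, hc, hx⟩ w hw
          rcases List.mem_cons.1 hc with rfl | hc
          · exact h1 (t x) ⟨x, hx, rfl⟩ w hw
          · rw [List.mem_singleton.1 hc] at hx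
            exact h2 (t x) ⟨x, hx, rfl⟩ w hw)
      obtain ⟨u, hu, v, hv, Q, hQ, hPQ⟩ := hP
      obtain ⟨w, hw, w', hw', Q₁, hQ₁, hQQ⟩ := hQ
      have hQ₁' : Q₁ = 1 := hQ₁
      rw [hQ₁', mul_one] at hQQ
      have hUst' : ∀ x ∈ X, ∀ z ∈ U, t x z ∈ U := fun x hx z hz => hUst (t x) ⟨x, hx, rfl⟩ z hz
      have heq : ∀ φ ∈ H, ∀ x (hx : x ∈ X), ∀ z : U, φ ⟨t x z, hUst' x hx z z.2⟩ = t x (φ z) :=
        fun φ hφ x hx z => hHeq φ hφ (t x) ⟨x, hx, rfl⟩ z ⟨t x z, hUst' x hx z z.2⟩ rfl
      -- `t u₀` is not the scalar `ν` on `U`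
      have hz : ∃ z ∈ U, t u₀ z ≠ ν • z := by
        by_contra hcon
        push Not at hcon
        have hall := rank_scalar hXg (fun x hx => hinj x (hX x hx)) (hS.mono hX) hU0 hUst' hu₀
          hcon
        have h1 : t u - t v = 0 := by
          refine hH0 (t u - t v) ?_
          intro φ hφ
          refine LinearMap.ext fun z => ?_
          show t u (φ z) - t v (φ z) = 0
          rw [← heq φ hφ u hu z, ← heq φ hφ v hv z, ← map_sub]
          have h4 : ((⟨t u z, hUst' u hu z z.2⟩ : U) - ⟨t v z, hUst' v hv z z.2⟩) = 0 := by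
            apply Subtype.ext
            show t u (z : V) - t v (z : V) = 0
            rw [hall u hu z z.2, hall v hv z z.2, sub_self]
          rw [h4, map_zero]
        exact hP0 (by rw [hPQ, h1, zero_mul])
      obtain ⟨z, hzU, hz⟩ := hz
      -- `Y` is not flat on `H`
      obtain ⟨t', hS', hinj', key⟩ := mixDim_sys (hS.mono hY) (fun x hx => hinj x (hY x hx))
        (H := H) (fun φ hφ x hx => hHst φ hφ (t x) ⟨x, hx, rfl⟩)
      have hkH : k ≤ Module.finrank K H := by
        by_contra hlt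
        have h1 := hN H t' hinj' hS' (not_le.1 hlt) w hw w' hw'
        have h2 : t w - t w' = 0 := by
          refine hH0 _ ?_
          intro φ hφ
          have h3 := key w hw ⟨φ, hφ⟩
          have h4 := key w' hw' ⟨φ, hφ⟩
          rw [h1, h4] at h3
          show (t w - t w') ∘ₗ φ = 0
          rw [LinearMap.sub_comp]
          exact sub_eq_zero.2 h3.symm
        exact hP0 (by rw [hPQ, hQQ, h2, mul_zero])
      -- the evaluation
      let z₀ : U := ⟨z, hzU⟩
      let z₁ : U := ⟨t u₀ z, hUst' u₀ hu₀ z hzU⟩ - ν • z₀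
      have hz₁ : z₁ ≠ 0 := by
        intro h0
        apply hz
        have h1 := congrArg (fun x : U => (x : V)) h0
        exact sub_eq_zero.1 h1
      have hev : ∀ φ : H, (φ : U →ₗ[K] V) z₁ =
          (t u₀ - ν • (1 : Module.End K V)) ((φ : U →ₗ[K] V) z₀) := by
        intro φ
        rw [map_sub, map_smul, heq φ φ.2 u₀ hu₀ z₀]
        rfl
      let ev : H →ₗ[K] LinearMap.range (t u₀ - ν • (1 : Module.End K V)) :=
        { toFun := fun φ => ⟨(φ : U →ₗ[K] V) z₁, by rw [hev]; exact LinearMap.mem_range_self _ _⟩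
          map_add' := fun φ ψ => Subtype.ext rfl
          map_smul' := fun c φ => Subtype.ext rfl }
      have hevinj : Function.Injective ev := by
        rw [← LinearMap.ker_eq_bot, eq_bot_iff]
        intro φ hφ
        rw [Submodule.mem_bot]
        have h0 : (φ : U →ₗ[K] V) z₁ = 0 := congrArg Subtype.val (LinearMap.mem_ker.1 hφ)
        have h1 := hUmin ((LinearMap.ker (φ : U →ₗ[K] V)).map U.subtype)
          (Submodule.map_subtype_le _ _) (by
            rintro S ⟨x, hx, rfl⟩ _ ⟨y, hy, rfl⟩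
            refine ⟨⟨t x y, hUst' x hx y y.2⟩, ?_, rfl⟩
            show (φ : U →ₗ[K] V) ⟨t x y, hUst' x hx y y.2⟩ = 0
            rw [heq φ φ.2 x hx y]
            have hy' : (φ : U →ₗ[K] V) y = 0 := hy
            rw [hy', map_zero])
        rcases h1 with h1 | h1
        · exfalso
          apply hz₁
          have h2 : (z₁ : V) ∈ (LinearMap.ker (φ : U →ₗ[K] V)).map U.subtype := ⟨z₁, h0, rfl⟩
          rw [h1, Submodule.mem_bot] at h2
          exact Subtype.ext h2
        · apply Subtype.ext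
          refine LinearMap.ext fun y => ?_
          have h2 : (y : V) ∈ (LinearMap.ker (φ : U →ₗ[K] V)).map U.subtype := by
            rw [h1]
            exact y.2
          obtain ⟨y', hy', hyy⟩ := h2
          have e : y' = y := Subtype.ext hyy
          subst e
          exact hy'
      exact hkH.trans (LinearMap.finrank_le_finrank_of_injective hevinj)
    · push Not at hirr
      obtain ⟨W, hW, hW0, hW1⟩ := hirr
      by_cases h1 : ∀ P, Mix t [X, Y] P → ∀ w ∈ W, P w = 0
      · by_cases h2 : ∀ P, Mix t [X, Y] P → ∀ w, P w ∈ W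
        · exact absurd (mix_ext hL hinj hS hW h1 h2 P hP) hP0
        · push Not at h2
          obtain ⟨P₁, hP₁, w, hw⟩ := h2
          obtain ⟨t', hS', hinj', key⟩ := hS.quot hinj W hW
          obtain ⟨P', hP', hPP⟩ := mixDim_quot key hP₁
          have hlt : Module.finrank K (V ⧸ W) + Module.finrank K W = Module.finrank K V :=
            Submodule.finrank_quotient_add_finrank W
          have hpos : 0 < Module.finrank K W := by
            rw [Nat.pos_iff_ne_zero]
            intro h0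
            exact hW0 (Submodule.finrank_eq_zero.1 h0)
          have h3 := ihN (V ⧸ W) t' (by omega) hinj' hS' P' hP' (by
            intro h0
            apply hw
            have h4 := hPP w
            rw [h0] at h4
            exact (Submodule.Quotient.mk_eq_zero W).1 h4.symm)
          refine h3.trans ?_
          have h4 : LinearMap.range (t' u₀ - ν • (1 : Module.End K (V ⧸ W))) ≤
              (LinearMap.range (t u₀ - ν • (1 : Module.End K V))).map W.mkQ := by
            rintro _ ⟨y, rfl⟩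
            obtain ⟨y, rfl⟩ := W.mkQ_surjective y
            refine ⟨(t u₀ - ν • (1 : Module.End K V)) y, LinearMap.mem_range_self _ _, ?_⟩
            show W.mkQ (t u₀ y - ν • y) = t' u₀ (W.mkQ y) - ν • W.mkQ y
            rw [map_sub, map_smul, key u₀ (hX u₀ hu₀)]
          exact (Submodule.finrank_mono h4).trans (Submodule.finrank_map_le _ _)
      · push Not at h1
        obtain ⟨P₁, hP₁, w, hw, hPw⟩ := h1
        obtain ⟨t', hS', key⟩ := hS.restrict W hW
        obtain ⟨P', hP', hPP⟩ := mixDim_restrict key hP₁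
        have hlt : Module.finrank K W < Module.finrank K V :=
          Submodule.finrank_lt hW1
        have h3 := ihN W t' (by omega) (by
          intro x hx a a' h
          apply Subtype.ext
          apply hinj x hx
          rw [← key x hx, ← key x hx, h]) hS' P' hP' (by
            intro h0
            apply hPw
            have h4 := hPP ⟨w, hw⟩
            rw [h0] at h4
            exact h4.symm)
        refine h3.trans ?_
        have h4 : (LinearMap.range (t' u₀ - ν • (1 : Module.End K W))).map W.subtype ≤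
            LinearMap.range (t u₀ - ν • (1 : Module.End K V)) := by
          rintro _ ⟨_, ⟨y, rfl⟩, rfl⟩
          refine ⟨(y : V), ?_⟩
          show t u₀ (y : V) - ν • (y : V) = ((t' u₀ y - ν • y : W) : V)
          rw [Submodule.coe_sub, Submodule.coe_smul, key u₀ (hX u₀ hu₀)]
        have h5 := Submodule.finrank_mono h4
        rwa [Submodule.finrank_map_subtype_eq] at h5

/-- the conclusion for differences -/
theorem mix_rank_zero {X Y : Set ι} {k : ℕ} (hX : Good adj X) (hY : Good adj Y)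
    (hfar : ∀ x ∈ X, ∀ y ∈ Y, Far adj x y) (hN : ANab.{v} K adj Y k) {V : Type v}
    [AddCommGroup V] [Module K V] [FiniteDimensional K V] {t : ι → Module.End K V}
    (hinj : ∀ x ∈ X ∪ Y, Function.Injective (t x)) (hS : ASys adj (X ∪ Y) t)
    {u₀ : ι} (hu₀ : u₀ ∈ X) {ν : K}
    (hr : Module.finrank K (LinearMap.range (t u₀ - ν • (1 : Module.End K V))) < k) :
    ∀ u ∈ X, ∀ v ∈ X, ∀ w ∈ Y, ∀ w' ∈ Y, (t u - t v) * (t w - t w') = 0 := by
  intro u hu v hv w hw w' hw'
  by_contra hne
  have hun : un [X, Y] ⊆ X ∪ Y := by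
    rintro x ⟨b, hb, hx⟩
    rcases List.mem_cons.1 hb with rfl | h
    · exact Or.inl hx
    · rw [List.mem_singleton.1 h] at hx
      exact Or.inr hx
  have hL : Sets adj [X, Y] := by
    refine ⟨fun b hb => ?_, List.pairwise_pair.2 hfar⟩
    rcases List.mem_cons.1 hb with rfl | h
    · exact hX
    · rw [List.mem_singleton.1 h]
      exact hY
  have h := mix_rank hL hN hu₀ ν V t (fun x hx => hinj x (hun hx)) (hS.mono hun)
    ((t u - t v) * (t w - t w'))
    ⟨u, hu, v, hv, t w - t w', ⟨w, hw, w', hw', 1, rfl, (mul_one _).symm⟩, rfl⟩ hne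
  omega

end Pool.Agent.Art
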