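import Pool.Agent.Lib.Art.AExt

/-! # The operator `NX` on stable subspaces: port of HypQ/NSub and HypQ/NIdem -/

namespace Pool.Agent.Art

variable {ι : Type*} {adj : ι → ι → Prop} {K V : Type*} [Field K] [AddCommGroup V] [Module K V]
  {t : ι → Module.End K V}

/-- the span of the `t u w - t v w`, `u, v ∈ X`, `w ∈ W` -/
def NX (X : Set ι) (t : ι → Module.End K V) (W : Submodule K V) : Submodule K V :=
  Submodule.span K {z | ∃ u ∈ X, ∃ v ∈ X, ∃ w ∈ W, z = t u w - t v w}

theorem mem_NX {X : Set ι} {W : Submodule K V} {u v : ι} (hu : u ∈ X)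
    (hv : v ∈ X) {w : V} (hw : w ∈ W) : t u w - t v w ∈ NX X t W :=
  Submodule.subset_span ⟨u, hu, v, hv, w, hw, rfl⟩

theorem NX_le_iff {X : Set ι} {W W' : Submodule K V} :
    NX X t W ≤ W' ↔ ∀ u ∈ X, ∀ v ∈ X, ∀ w ∈ W, t u w - t v w ∈ W' := by
  constructor
  · intro h u hu v hv w hw
    exact h (mem_NX hu hv hw)
  · intro h
    refine Submodule.span_le.2 ?_
    rintro z ⟨u, hu, v, hv, w, hw, rfl⟩
    exact h u hu v hv w hw

theorem NX_mono {X X' : Set ι} (hX : X ⊆ X') {W W' : Submodule K V} (hW : W ≤ W') :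
    NX X t W ≤ NX X' t W' :=
  NX_le_iff.2 fun _ hu _ hv _ hw => mem_NX (hX hu) (hX hv) (hW hw)

theorem NX_le_of_edges {X : Set ι} (hX : Good adj X) {W W' : Submodule K V}
    (h : ∀ x ∈ X, ∀ y ∈ X, adj x y → ∀ w ∈ W, t x w - t y w ∈ W') : NX X t W ≤ W' := by
  refine NX_le_iff.2 fun x hx y hy w hw => ?_
  have key := conn_const hX.conn (fun x => W'.mkQ (t x w)) (fun x hx y hy hxy => by
    have := h x hx y hy hxy w hw
    simp only [Submodule.mkQ_apply]
    exact (Submodule.Quotient.eq W').2 this) x hx y hy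
  simp only [Submodule.mkQ_apply] at key
  exact (Submodule.Quotient.eq W').1 key

theorem NX_map {X : Set ι} (T : Module.End K V) (hT : ∀ x ∈ X, T * t x = t x * T)
    {W W' : Submodule K V} (h : ∀ w ∈ W, T w ∈ W') : ∀ z ∈ NX X t W, T z ∈ NX X t W' := by
  have hle : NX X t W ≤ (NX X t W').comap T := by
    refine NX_le_iff.2 fun u hu v hv w hw => ?_
    rw [Submodule.mem_comap, map_sub]
    have h1 : T (t u w) = t u (T w) := by
      rw [← Module.End.mul_apply, hT u hu, Module.End.mul_apply]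
    have h2 : T (t v w) = t v (T w) := by
      rw [← Module.End.mul_apply, hT v hv, Module.End.mul_apply]
    rw [h1, h2]
    exact mem_NX hu hv (h w hw)
  exact fun z hz => hle hz

theorem NX_stable {X : Set ι} (hX : Good adj X) (hS : ASys adj X t)
    {W : Submodule K V} (hW : ∀ x ∈ X, ∀ w ∈ W, t x w ∈ W) :
    ∀ x ∈ X, ∀ w ∈ NX X t W, t x w ∈ NX X t W := by
  intro x hx
  have hle : NX X t W ≤ (NX X t W).comap (t x) := by
    refine NX_le_of_edges hX fun y hy z hz hyz w hw => ?_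
    rw [Submodule.mem_comap]
    obtain ⟨v, hv, hyv, hzv⟩ := hX.far y hy z hz hyz
    have h1 : t v (t y w) = t y (t v w) := by
      rw [← Module.End.mul_apply, ← hS.comm y hy v hv hyv, Module.End.mul_apply]
    have h2 : t v (t z w) = t z (t v w) := by
      rw [← Module.End.mul_apply, ← hS.comm z hz v hv hzv, Module.End.mul_apply]
    have h3 : t x (t y w - t z w) =
        (t x (t y w - t z w) - t v (t y w - t z w)) + (t y (t v w) - t z (t v w)) := by
      rw [map_sub (t v), h1, h2]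
      abel
    rw [h3]
    exact Submodule.add_mem _
      (mem_NX hx hv (Submodule.sub_mem _ (hW y hy w hw) (hW z hz w hw)))
      (mem_NX hy hz (hW v hv w hw))
  exact fun w hw => hle hw

theorem NX_idem [FiniteDimensional K V] {X : Set ι} (hX : Good adj X)
    (hinj : ∀ x ∈ X, Function.Injective (t x)) (hS : ASys adj X t)
    {W : Submodule K V} (hW : ∀ x ∈ X, ∀ w ∈ W, t x w ∈ W) :
    NX X t (NX X t W) = NX X t W := by
  classical
  obtain ⟨W1, hW1⟩ : ∃ W1, W1 = NX X t W := ⟨_, rfl⟩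
  obtain ⟨W2, hW2⟩ : ∃ W2, W2 = NX X t W1 := ⟨_, rfl⟩
  have s1 : ∀ x ∈ X, ∀ w ∈ W1, t x w ∈ W1 := by
    rw [hW1]; exact NX_stable hX hS hW
  have s2 : ∀ x ∈ X, ∀ w ∈ W2, t x w ∈ W2 := by
    rw [hW2]; exact NX_stable hX hS s1
  have h21 : W2 ≤ W1 := by
    rw [hW2]
    exact NX_le_iff.2 fun x hx y hy w hw => W1.sub_mem (s1 x hx w hw) (s1 y hy w hw)
  have h10 : W1 ≤ W := by
    rw [hW1]
    exact NX_le_iff.2 fun x hx y hy w hw => W.sub_mem (hW x hx w hw) (hW y hy w hw)
  rw [← hW1, ← hW2]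
  refine le_antisymm h21 ?_
  -- the system on `W`
  obtain ⟨t1, hS1, ht1⟩ := hS.restrict W hW
  have hinj1 : ∀ x ∈ X, Function.Injective (t1 x) := by
    intro x hx w w' h
    apply Subtype.ext
    apply hinj x hx
    rw [← ht1 x hx, ← ht1 x hx, h]
  -- the quotient
  obtain ⟨Q, hQ⟩ : ∃ Q : Submodule K W, ∀ w : W, w ∈ Q ↔ (w : V) ∈ W2 :=
    ⟨W2.comap W.subtype, fun w => Iff.rfl⟩
  obtain ⟨t2, hS2, hinj2, ht2⟩ := hS1.quot hinj1 Q fun x hx w hw => by
    rw [hQ, ht1 x hx]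
    exact s2 x hx _ ((hQ w).1 hw)
  obtain ⟨P, hP⟩ : ∃ P : Submodule K (W ⧸ Q), P = (W1.comap W.subtype).map Q.mkQ := ⟨_, rfl⟩
  have hflat := ext_flat hX (fun x hx => LinearMap.injective_iff_surjective.1 (hinj2 x hx)) hS2 P
    (by
      intro x hx y hy q hq
      rw [hP] at hq
      obtain ⟨w, hw, rfl⟩ := hq
      rw [ht2 x hx, ht2 y hy, ← sub_eq_zero, ← map_sub]
      refine (Submodule.Quotient.mk_eq_zero Q).2 ((hQ _).2 ?_)
      rw [AddSubgroupClass.coe_sub, ht1 x hx, ht1 y hy, hW2]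
      exact mem_NX hx hy hw)
    (by
      intro x hx y hy q
      obtain ⟨w, rfl⟩ := Submodule.mkQ_surjective Q q
      rw [ht2 x hx, ht2 y hy, ← map_sub, hP]
      refine ⟨_, ?_, rfl⟩
      show ((t1 x w - t1 y w : W) : V) ∈ W1
      rw [AddSubgroupClass.coe_sub, ht1 x hx, ht1 y hy, hW1]
      exact mem_NX hx hy w.2)
  rw [hW1]
  refine NX_le_iff.2 fun x hx y hy w hw => ?_
  have h := LinearMap.congr_fun (hflat x hx y hy) (Q.mkQ ⟨w, hw⟩)
  rw [ht2 x hx, ht2 y hy, ← sub_eq_zero, ← map_sub] at h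
  have h' := (hQ _).1 ((Submodule.Quotient.mk_eq_zero Q).1 h)
  rw [AddSubgroupClass.coe_sub, ht1 x hx, ht1 y hy] at h'
  exact h'

private theorem NX_swap_le {X Y : Set ι} (h : ∀ x ∈ X, ∀ y ∈ Y, t x * t y = t y * t x)
    (W : Submodule K V) : NX X t (NX Y t W) ≤ NX Y t (NX X t W) := by
  refine NX_le_iff.2 fun u hu v hv w hw => ?_
  have hle : NX Y t W ≤ (NX Y t (NX X t W)).comap (t u - t v) := by
    refine NX_le_iff.2 fun a ha b hb w hw => ?_
    rw [Submodule.mem_comap, LinearMap.sub_apply]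
    have e1 : ∀ x ∈ X, ∀ y ∈ Y, t x (t y w) = t y (t x w) := fun x hx y hy => by
      rw [← Module.End.mul_apply, h x hx y hy, Module.End.mul_apply]
    have h3 : t u (t a w - t b w) - t v (t a w - t b w) =
        t a (t u w - t v w) - t b (t u w - t v w) := by
      simp only [map_sub]
      rw [e1 u hu a ha, e1 u hu b hb, e1 v hv a ha, e1 v hv b hb]
      abel
    rw [h3]
    exact mem_NX ha hb (mem_NX hu hv hw)
  have := hle hw
  rwa [Submodule.mem_comap, LinearMap.sub_apply] at this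

theorem NX_swap {X Y : Set ι} (h : ∀ x ∈ X, ∀ y ∈ Y, t x * t y = t y * t x)
    (W : Submodule K V) : NX X t (NX Y t W) = NX Y t (NX X t W) :=
  le_antisymm (NX_swap_le h W) (NX_swap_le (fun y hy x hx => (h x hx y hy).symm) W)

theorem NX_union {X Y : Set ι} (h : (X ∩ Y).Nonempty) (W : Submodule K V) :
    NX (X ∪ Y) t W = NX X t W ⊔ NX Y t W := by
  obtain ⟨c, hcX, hcY⟩ := h
  refine le_antisymm ?_ (sup_le (NX_mono Set.subset_union_left le_rfl)
    (NX_mono Set.subset_union_right le_rfl))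
  have key : ∀ x ∈ X ∪ Y, ∀ w ∈ W, t x w - t c w ∈ NX X t W ⊔ NX Y t W := by
    intro x hx w hw
    rcases hx with hx | hx
    · exact Submodule.mem_sup_left (mem_NX hx hcX hw)
    · exact Submodule.mem_sup_right (mem_NX hx hcY hw)
  refine NX_le_iff.2 fun u hu v hv w hw => ?_
  have h3 : t u w - t v w = (t u w - t c w) - (t v w - t c w) := by abel
  rw [h3]
  exact Submodule.sub_mem _ (key u hu w hw) (key v hv w hw)

theorem eq_stable {X : Set ι} (hX : Good adj X) (hS : ASys adj X t)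
    {z : V} (hz : ∀ x ∈ X, ∀ y ∈ X, t x z = t y z) :
    ∀ w ∈ X, ∀ x ∈ X, ∀ y ∈ X, t x (t w z) = t y (t w z) := by
  intro w hw
  refine conn_const hX.conn (fun x => t x (t w z)) fun x hx y hy hxy => ?_
  obtain ⟨v, hv, hxv, hyv⟩ := hX.far x hx y hy hxy
  have h1 : t x (t v z) = t v (t x z) := by
    rw [← Module.End.mul_apply, hS.comm x hx v hv hxv, Module.End.mul_apply]
  have h2 : t y (t v z) = t v (t y z) := by
    rw [← Module.End.mul_apply, hS.comm y hy v hv hyv, Module.End.mul_apply]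
  change t x (t w z) = t y (t w z)
  rw [hz w hw v hv, h1, h2, hz x hx y hy]

end Pool.Agent.Art
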