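import Mathlib

/-! # Continuous matrix representations: the action on column vectors -/

open Matrix

namespace Pool.Agent.Art

variable {K : Type*} [Field K] {P : Type*} [Group P] {r : ℕ}

/-- the action on column vectors -/
noncomputable def act (ρ : P →* GL (Fin r) K) : P →* Module.End K (Fin r → K) where
  toFun g := Matrix.mulVecLin (ρ g : Matrix (Fin r) (Fin r) K)
  map_one' := by
    refine LinearMap.ext fun w => ?_
    show (((ρ 1 : GL (Fin r) K)) : Matrix (Fin r) (Fin r) K) *ᵥ w = w
    rw [map_one, Units.val_one, Matrix.one_mulVec]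
  map_mul' g h := by
    refine LinearMap.ext fun w => ?_
    show (((ρ (g * h) : GL (Fin r) K)) : Matrix (Fin r) (Fin r) K) *ᵥ w =
      (ρ g : Matrix (Fin r) (Fin r) K) *ᵥ ((ρ h : Matrix (Fin r) (Fin r) K) *ᵥ w)
    rw [map_mul, Units.val_mul, Matrix.mulVec_mulVec]

theorem act_apply (ρ : P →* GL (Fin r) K) (g : P) (w : Fin r → K) :
    act ρ g w = (ρ g : Matrix (Fin r) (Fin r) K) *ᵥ w := rfl

theorem act_inj (ρ : P →* GL (Fin r) K) (g : P) : Function.Injective (act ρ g) := by
  intro v w h
  have h1 : act ρ g⁻¹ (act ρ g v) = act ρ g⁻¹ (act ρ g w) := by rw [h]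
  rw [← Module.End.mul_apply, ← Module.End.mul_apply, ← map_mul, inv_mul_cancel, map_one] at h1
  exact h1

theorem act_mul_inv (ρ : P →* GL (Fin r) K) (g : P) : act ρ g * act ρ g⁻¹ = 1 := by
  rw [← map_mul, mul_inv_cancel, map_one]

theorem act_inv_mul (ρ : P →* GL (Fin r) K) (g : P) : act ρ g⁻¹ * act ρ g = 1 := by
  rw [← map_mul, inv_mul_cancel, map_one]

theorem eq_one_of_act (ρ : P →* GL (Fin r) K) (g : P) (h : act ρ g = 1) : ρ g = 1 := by
  apply Units.ext
  rw [Units.val_one]
  apply Matrix.toLin'.injective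
  rw [Matrix.toLin'_one]
  exact h

theorem inv_stable (ρ : P →* GL (Fin r) K) (g : P) (W : Submodule K (Fin r → K))
    (h : ∀ w ∈ W, act ρ g w ∈ W) : ∀ w ∈ W, act ρ g⁻¹ w ∈ W := by
  have h1 : Function.Injective ((act ρ g).restrict h) := by
    intro v w hvw
    apply Subtype.ext
    apply act_inj ρ g
    have h2 := congrArg Subtype.val hvw
    exact h2
  have h3 := LinearMap.injective_iff_surjective.1 h1
  intro w hw
  obtain ⟨v, hv⟩ := h3 ⟨w, hw⟩
  have h4 : act ρ g v = w := congrArg Subtype.val hv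
  rw [← h4, ← Module.End.mul_apply, ← map_mul, inv_mul_cancel, map_one]
  exact v.2

variable [TopologicalSpace K] [IsTopologicalRing K] [T2Space K] [TopologicalSpace P]
  [IsTopologicalGroup P]

omit [IsTopologicalGroup P] in
theorem isClosed_stable (ρ : P →* GL (Fin r) K) (hρ : Continuous ρ)
    (W : Submodule K (Fin r → K)) (w : Fin r → K) : IsClosed {g : P | act ρ g w ∈ W} := by
  have h1 : {g : P | act ρ g w ∈ W} = ⋂ f ∈ (W.dualAnnihilator : Set (Module.Dual K (Fin r → K))),
      {g : P | f (act ρ g w) = 0} := by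
    ext g
    rw [Set.mem_iInter₂]
    show act ρ g w ∈ W ↔ _
    exact (Subspace.forall_mem_dualAnnihilator_apply_eq_zero_iff W (act ρ g w)).symm
  rw [h1]
  refine isClosed_biInter fun f _ => ?_
  refine isClosed_eq ?_ continuous_const
  refine (LinearMap.continuous_on_pi f).comp ?_
  have h2 : Continuous fun g : P => ((ρ g : GL (Fin r) K) : Matrix (Fin r) (Fin r) K) :=
    Units.continuous_val.comp hρ
  exact h2.matrix_mulVec continuous_const

theorem stable_all (ρ : P →* GL (Fin r) K) (hρ : Continuous ρ) {S : Set P}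
    (hS : (Subgroup.closure S).topologicalClosure = ⊤) (W : Submodule K (Fin r → K))
    (hW : ∀ g ∈ S, ∀ w ∈ W, act ρ g w ∈ W) : ∀ g, ∀ w ∈ W, act ρ g w ∈ W := by
  let H : Subgroup P :=
    { carrier := {g | ∀ w ∈ W, act ρ g w ∈ W}
      one_mem' := fun w hw => by rw [map_one]; exact hw
      mul_mem' := fun {a b} ha hb w hw => by
        rw [map_mul]
        exact ha _ (hb w hw)
      inv_mem' := fun {a} ha => inv_stable ρ a W ha }
  have hcl : IsClosed (H : Set P) := by
    have h1 : (H : Set P) = ⋂ w ∈ (W : Set (Fin r → K)), {g : P | act ρ g w ∈ W} := by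
      ext g
      rw [Set.mem_iInter₂]
      rfl
    rw [h1]
    exact isClosed_biInter fun w _ => isClosed_stable ρ hρ W w
  have h2 : (Subgroup.closure S).topologicalClosure ≤ H :=
    Subgroup.topologicalClosure_minimal _ ((Subgroup.closure_le H).2 fun g hg => hW g hg) hcl
  intro g
  have h3 : g ∈ (Subgroup.closure S).topologicalClosure := by rw [hS]; exact Subgroup.mem_top g
  exact h2 h3

omit [IsTopologicalRing K] in
theorem trivial_all (ρ : P →* GL (Fin r) K) (hρ : Continuous ρ) {S : Set P}
    (hS : (Subgroup.closure S).topologicalClosure = ⊤) (h : ∀ g ∈ S, ρ g = 1) :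
    ∀ g, ρ g = 1 := by
  have hcl : IsClosed (ρ.ker : Set P) := by
    have h1 : (ρ.ker : Set P) = ρ ⁻¹' {1} := by
      ext g
      rfl
    rw [h1]
    exact isClosed_singleton.preimage hρ
  have h2 : (Subgroup.closure S).topologicalClosure ≤ ρ.ker :=
    Subgroup.topologicalClosure_minimal _
      ((Subgroup.closure_le ρ.ker).2 fun g hg => MonoidHom.mem_ker.2 (h g hg)) hcl
  intro g
  have h3 : g ∈ (Subgroup.closure S).topologicalClosure := by rw [hS]; exact Subgroup.mem_top g
  exact MonoidHom.mem_ker.1 (h2 h3)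

end Pool.Agent.Art
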