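import Pool.Agent.Lib.Art.Crossed

/-! # Chains with `C 1 = 0`: the Burau representation -/

namespace Pool.Agent.Art

variable {K V : Type*} [Field K] [AddCommGroup V] [Module K V]
variable {s : ℤ → Module.End K V} {m : ℤ}

theorem cE_zero [FiniteDimensional K V]
    (hinj : ∀ x ∈ Set.Icc 1 m, Function.Injective (s x)) (hS : ASys hum (Set.Icc 1 m) s)
    (hfar : ∀ x ∈ Set.Icc 1 m, ∀ y ∈ Set.Icc 1 m, Far hum x y → (s x - 1) * (s y - 1) = 0)
    (hC : cE s 1 = 0) : ∀ n : ℕ, (n : ℤ) + 2 ≤ m → cE s ((n : ℤ) + 1) = 0 := by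
  have hsurj : ∀ x ∈ Set.Icc 1 m, Function.Surjective (s x) := fun x hx =>
    LinearMap.injective_iff_surjective.1 (hinj x hx)
  intro n
  induction n with
  | zero =>
    intro _
    norm_num
    exact hC
  | succ n ih =>
    intro hn
    push_cast at hn ⊢
    have h := swap_up hinj hS hfar (i := (n : ℤ) + 1) (by omega) (by omega)
    rw [ih (by omega), mul_zero] at h
    refine LinearMap.ext fun y => ?_
    obtain ⟨y1, rfl⟩ := hsurj ((n : ℤ) + 1) ⟨by omega, by omega⟩ y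
    obtain ⟨y2, rfl⟩ := hsurj ((n : ℤ) + 1 + 1) ⟨by omega, by omega⟩ y1
    obtain ⟨y3, rfl⟩ := hsurj ((n : ℤ) + 1 + 2) ⟨by omega, by omega⟩ y2
    exact (LinearMap.congr_fun h y3).symm

/-- the vectors `u (n + 1)` -/
def wB (s : ℤ → Module.End K V) (u1 : V) : ℕ → V
  | 0 => u1
  | n + 1 => wB s u1 n - s ((n : ℤ) + 2) (wB s u1 n)

theorem bur_seq (hS : ASys hum (Set.Icc 1 m) s)
    (hC : ∀ n : ℕ, (n : ℤ) + 2 ≤ m → cE s ((n : ℤ) + 1) = 0) {u1 z1 : V} {lam : K}
    (hz : u1 = s 1 z1 - z1) (hlam : s 1 u1 - u1 = lam • u1) :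
    ∀ n : ℕ, (n : ℤ) + 1 ≤ m →
      (∃ z, wB s u1 n = s ((n : ℤ) + 1) z - z) ∧
      (s ((n : ℤ) + 1) (wB s u1 n) - wB s u1 n = lam • wB s u1 n) ∧
      ((n : ℤ) + 2 ≤ m → s ((n : ℤ) + 1) (wB s u1 (n + 1)) - wB s u1 (n + 1) =
        (1 + lam) • wB s u1 n) := by
  -- the relation between two neighbours
  have third : ∀ n : ℕ, (n : ℤ) + 2 ≤ m → ∀ u z : V, u = s ((n : ℤ) + 1) z - z →
      s ((n : ℤ) + 1) u - u = lam • u →
      (s ((n : ℤ) + 1) (u - s ((n : ℤ) + 2) u) - (u - s ((n : ℤ) + 2) u) = (1 + lam) • u) ∧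
      (s ((n : ℤ) + 2) (u - s ((n : ℤ) + 2) u) - (u - s ((n : ℤ) + 2) u) =
        lam • (u - s ((n : ℤ) + 2) u)) := by
    intro n hn u z hu hl
    have c1 := hC n hn
    have e : (n : ℤ) + 1 + 1 = n + 2 := by ring
    have c2 := cE_eq (hS.braid ((n : ℤ) + 1) ⟨by omega, by omega⟩ ((n : ℤ) + 1 + 1)
      ⟨by omega, by omega⟩ (hum_chain (by omega)))
    rw [c1] at c2
    unfold cE at c1
    rw [e] at c1 c2
    generalize s ((n : ℤ) + 1) = a at *
    generalize s ((n : ℤ) + 2) = b at *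
    have d1 : (a z - z) + (a (a z - z) - (a z - z)) +
        (a (b (a z - z) - (a z - z)) - (b (a z - z) - (a z - z))) = 0 :=
      LinearMap.congr_fun c1 z
    rw [← hu] at d1
    have d2 : (0 : V) = (b u - u) + (b (b u - u) - (b u - u)) +
        (b (a (b u - u) - (b u - u)) - (a (b u - u) - (b u - u))) :=
      LinearMap.congr_fun c2 u
    have f1 : a (u - b u) - (u - b u) = (1 + lam) • u := by
      have k : a (u - b u) - (u - b u) = u + (a u - u) - (u + (a u - u) +
          (a (b u - u) - (b u - u))) := by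
        rw [map_sub, map_sub]
        abel
      rw [k, d1, hl, add_smul, one_smul, sub_zero]
    refine ⟨f1, ?_⟩
    -- second
    have k1 : a (b u - u) - (b u - u) = -((1 + lam) • u) := by
      rw [← f1, map_sub, map_sub]
      abel
    rw [k1] at d2
    have k2 : b (u - b u) - (u - b u) = -(b (b u - u) - (b u - u)) := by
      rw [map_sub, map_sub]
      abel
    have k3 : b (b u - u) - (b u - u) = -(b u - u) + (1 + lam) • (b u - u) := by
      have k4 : b (-((1 + lam) • u)) - -((1 + lam) • u) = -((1 + lam) • (b u - u)) := by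
        rw [map_neg, map_smul, smul_sub]
        abel
      rw [k4] at d2
      have k5 : (b (b u - u) - (b u - u)) = ((b u - u) + (b (b u - u) - (b u - u)) +
          -((1 + lam) • (b u - u))) - (b u - u) + (1 + lam) • (b u - u) := by abel
      rw [k5, ← d2]
      abel
    rw [k2, k3, add_smul, one_smul]
    have k6 : u - b u = -(b u - u) := by abel
    rw [k6, smul_neg]
    abel
  intro n
  induction n with
  | zero =>
    intro h1
    have e0 : (((0 : ℕ) : ℤ) + 1) = 1 := by norm_num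
    refine ⟨⟨z1, ?_⟩, ?_, ?_⟩
    · rw [e0]
      exact hz
    · rw [e0]
      exact hlam
    · intro h2
      have h3 := third 0 h2 u1 z1 (by rw [e0]; exact hz) (by rw [e0]; exact hlam)
      exact h3.1
  | succ n ih =>
    intro hn
    push_cast at hn
    obtain ⟨⟨z, i1⟩, i2, i3⟩ := ih (by omega)
    have h3 := third n (by omega) _ z i1 i2
    have e1 : ((n + 1 : ℕ) : ℤ) + 1 = (n : ℤ) + 2 := by push_cast; ring
    have w1 : wB s u1 (n + 1) = wB s u1 n - s ((n : ℤ) + 2) (wB s u1 n) := rfl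
    have a1 : ∃ z, wB s u1 (n + 1) = s (((n + 1 : ℕ) : ℤ) + 1) z - z := by
      refine ⟨-(wB s u1 n), ?_⟩
      rw [e1, w1, map_neg]
      abel
    have a2 : s (((n + 1 : ℕ) : ℤ) + 1) (wB s u1 (n + 1)) - wB s u1 (n + 1) =
        lam • wB s u1 (n + 1) := by
      rw [e1, w1]
      exact h3.2
    refine ⟨a1, a2, ?_⟩
    intro h4
    obtain ⟨z', hz'⟩ := a1
    exact (third (n + 1) h4 _ z' hz' a2).1

/-- the Burau representation -/
theorem bur_main [IsAlgClosed K] [FiniteDimensional K V] {M : ℕ} (hM : 3 ≤ M)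
    (hinj : ∀ x ∈ Set.Icc (1 : ℤ) M, Function.Injective (s x))
    (hS : ASys hum (Set.Icc (1 : ℤ) M) s)
    (hirr : ∀ W : Submodule K V, (∀ x ∈ Set.Icc (1 : ℤ) M, ∀ w ∈ W, s x w ∈ W) → W = ⊥ ∨ W = ⊤)
    (hfar : ∀ x ∈ Set.Icc (1 : ℤ) M, ∀ y ∈ Set.Icc (1 : ℤ) M, Far hum x y →
      (s x - 1) * (s y - 1) = 0)
    (h12 : s 1 ≠ s 2) (hC : cE s 1 = 0) :
    ∃ (q : K) (u : ℤ → V), q ≠ 0 ∧ (∀ x : ℤ, 1 ≤ x → x ≤ M → u x ≠ 0) ∧
      Submodule.span K (Set.range fun i : Fin M => u ((i : ℕ) + 1)) = ⊤ ∧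
      (∀ x : ℤ, 1 ≤ x → x ≤ M → s x (u x) = u x - (1 + q) • u x) ∧
      (∀ x : ℤ, 1 ≤ x → x + 1 ≤ M → s (x + 1) (u x) = u x - u (x + 1)) ∧
      (∀ x : ℤ, 1 ≤ x → x + 1 ≤ M → s x (u (x + 1)) = u (x + 1) - q • u x) ∧
      ∀ x y : ℤ, 1 ≤ x → x ≤ M → 1 ≤ y → y ≤ M → (x + 2 ≤ y ∨ y + 2 ≤ x) → s x (u y) = u y := by
  have hC' := cE_zero hinj hS hfar hC
  -- `s 1 ≠ 1`
  have hs1 : s 1 - 1 ≠ 0 := by
    intro h
    apply h12
    have h1 : s 1 = 1 := sub_eq_zero.1 h
    have b := hS.braid 1 ⟨by omega, by omega⟩ 2 ⟨by omega, by omega⟩ (Or.inl ⟨by omega, by omega⟩)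
    rw [h1, one_mul, mul_one] at b
    rw [h1]
    have h2 : s 2 * 1 = s 2 * s 2 := by rw [mul_one]; exact b
    exact left_cancel (hinj 2 ⟨by omega, by omega⟩) h2
  set L : Submodule K V := LinearMap.range (s 1 - 1) with hL
  have hmap : ∀ z ∈ L, (s 1 - 1) z ∈ L := fun z _ => ⟨z, rfl⟩
  have hne : Nontrivial L := by
    rw [Submodule.nontrivial_iff_ne_bot]
    intro h
    exact hs1 (LinearMap.range_eq_bot.1 h)
  obtain ⟨lam, hlam⟩ := Module.End.exists_eigenvalue ((s 1 - 1).restrict hmap)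
  obtain ⟨v, hv⟩ := hlam.exists_hasEigenvector
  have h1 := hv.apply_eq_smul
  have h2 : s 1 (v : V) - (v : V) = lam • (v : V) := congrArg Subtype.val h1
  have hv0 : (v : V) ≠ 0 := fun h => hv.2 (Subtype.ext h)
  obtain ⟨z1, hz1⟩ := v.2
  have hz1' : (v : V) = s 1 z1 - z1 := hz1.symm
  have seq := bur_seq hS hC' hz1' h2
  set w : ℕ → V := wB s (v : V) with hw
  -- `q`
  have hq : -(1 + lam) ≠ 0 := by
    intro h
    have h3 : lam = -1 := by
      have := neg_eq_zero.1 h
      exact (neg_eq_of_add_eq_zero_right this).symm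
    rw [h3, neg_one_smul] at h2
    have h4 : s 1 (v : V) = 0 := by
      have h5 : s 1 (v : V) = (s 1 (v : V) - v) + v := by abel
      rw [h5, h2, neg_add_cancel]
    exact hv0 (hinj 1 ⟨by omega, by omega⟩ (by rw [h4, map_zero]))
  have hw0 : ∀ n : ℕ, (n : ℤ) + 1 ≤ M → w n ≠ 0 := by
    intro n
    induction n with
    | zero => intro _; exact hv0
    | succ n ih =>
      intro hn h
      push_cast at hn
      have h3 := (seq n (by omega)).2.2 (by omega)
      rw [h, map_zero, sub_zero] at h3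
      rcases smul_eq_zero.1 h3.symm with h5 | h5
      · exact hq (by rw [h5, neg_zero])
      · exact ih (by omega) h5
  have conv : ∀ x : ℤ, 1 ≤ x → ((x - 1).toNat : ℤ) + 1 = x := by
    intro x hx
    omega
  have far : ∀ x y : ℤ, 1 ≤ x → x ≤ M → 1 ≤ y → y ≤ M → (x + 2 ≤ y ∨ y + 2 ≤ x) →
      s x (w (y - 1).toNat) = w (y - 1).toNat := by
    intro x y hx hxM hy hyM hxy
    obtain ⟨z, hz⟩ := (seq (y - 1).toNat (by omega)).1
    rw [conv y hy] at hz
    have h3 := LinearMap.congr_fun (hfar x ⟨hx, hxM⟩ y ⟨hy, hyM⟩ (far_chain hx hy hxy)) z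
    have h4 : s x (s y z - z) - (s y z - z) = 0 := h3
    rw [hz]
    exact sub_eq_zero.1 h4
  have self : ∀ x : ℤ, 1 ≤ x → x ≤ M →
      s x (w (x - 1).toNat) = w (x - 1).toNat - (1 + -(1 + lam)) • w (x - 1).toNat := by
    intro x hx hxM
    have h3 := (seq (x - 1).toNat (by omega)).2.1
    rw [conv x hx] at h3
    have h4 : (1 + -(1 + lam)) = -lam := by ring
    rw [h4, neg_smul, sub_neg_eq_add, ← h3]
    abel
  have nxt : ∀ x : ℤ, 1 ≤ x → x + 1 ≤ M →
      s (x + 1) (w (x - 1).toNat) = w (x - 1).toNat - w (x + 1 - 1).toNat := by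
    intro x hx hxM
    have e : (x + 1 - 1).toNat = (x - 1).toNat + 1 := by omega
    have e2 : (((x - 1).toNat : ℕ) : ℤ) + 2 = x + 1 := by omega
    rw [e]
    have h3 : w ((x - 1).toNat + 1) = w (x - 1).toNat - s ((((x - 1).toNat : ℕ) : ℤ) + 2)
      (w (x - 1).toNat) := rfl
    rw [h3, e2]
    abel
  have prv : ∀ x : ℤ, 1 ≤ x → x + 1 ≤ M →
      s x (w (x + 1 - 1).toNat) = w (x + 1 - 1).toNat - (-(1 + lam)) • w (x - 1).toNat := by
    intro x hx hxM
    have e : (x + 1 - 1).toNat = (x - 1).toNat + 1 := by omega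
    have h3 := (seq (x - 1).toNat (by omega)).2.2 (by omega)
    rw [conv x hx] at h3
    rw [e, neg_smul, sub_neg_eq_add]
    have h4 : s x (w ((x - 1).toNat + 1)) - w ((x - 1).toNat + 1) =
      (1 + lam) • w (x - 1).toNat := h3
    rw [← h4]
    abel
  have hmem : ∀ x : ℤ, 1 ≤ x → x ≤ M → w (x - 1).toNat ∈
      Submodule.span K (Set.range fun i : Fin M => w (((i : ℕ) : ℤ) + 1 - 1).toNat) := by
    intro x h0 h1
    refine Submodule.subset_span ⟨⟨(x - 1).toNat, by omega⟩, ?_⟩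
    show w ((((x - 1).toNat : ℕ) : ℤ) + 1 - 1).toNat = w (x - 1).toNat
    congr 1
    omega
  refine ⟨-(1 + lam), fun x => w (x - 1).toNat, hq, ?_, ?_, self, nxt, prv, far⟩
  · intro x hx hxM
    exact hw0 _ (by omega)
  · have hst : ∀ x ∈ Set.Icc (1 : ℤ) M,
        ∀ z ∈ Submodule.span K (Set.range fun i : Fin M => w (((i : ℕ) : ℤ) + 1 - 1).toNat),
          s x z ∈ Submodule.span K
            (Set.range fun i : Fin M => w (((i : ℕ) : ℤ) + 1 - 1).toNat) := by
      intro x hx z hz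
      obtain ⟨hx1, hx2⟩ := hx
      induction hz using Submodule.span_induction with
      | mem z hz =>
        obtain ⟨i, rfl⟩ := hz
        have hi := i.2
        show s x (w (((i : ℕ) : ℤ) + 1 - 1).toNat) ∈ _
        by_cases c1 : x = ((i : ℕ) : ℤ) + 1
        · rw [← c1, self x hx1 hx2]
          exact Submodule.sub_mem _ (hmem x hx1 hx2) (Submodule.smul_mem _ _ (hmem x hx1 hx2))
        · by_cases c2 : x = ((i : ℕ) : ℤ) + 1 + 1
          · have h := nxt (((i : ℕ) : ℤ) + 1) (by omega) (by omega)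
            rw [← c2] at h
            rw [h]
            exact Submodule.sub_mem _ (hmem _ (by omega) (by omega)) (hmem _ hx1 hx2)
          · by_cases c3 : x + 1 = ((i : ℕ) : ℤ) + 1
            · have h := prv x hx1 (by omega)
              rw [c3] at h
              rw [h]
              exact Submodule.sub_mem _ (hmem _ (by omega) (by omega))
                (Submodule.smul_mem _ _ (hmem _ hx1 hx2))
            · rw [far x (((i : ℕ) : ℤ) + 1) hx1 hx2 (by omega) (by omega) (by omega)]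
              exact hmem _ (by omega) (by omega)
      | zero => rw [map_zero]; exact Submodule.zero_mem _
      | add a b _ _ ha hb => rw [map_add]; exact Submodule.add_mem _ ha hb
      | smul c a _ ha => rw [map_smul]; exact Submodule.smul_mem _ _ ha
    rcases hirr _ hst with h | h
    · exfalso
      have h3 := hmem 1 (by omega) (by omega)
      rw [h] at h3
      exact hw0 _ (by omega) ((Submodule.mem_bot K).1 h3)
    · exact h

end Pool.Agent.Art
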