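import Pool.Agent.Lib.Art.Defs

/-! # Chains: good sets, moves, crossing (page mcg70, section 2 and (Q), (Q0), (E), (E0)) -/

namespace Pool.Agent.Art

variable {K V : Type*} [Field K] [AddCommGroup V] [Module K V] {t : ℤ → Module.End K V}

theorem hum_succ {i : ℤ} (hi : 1 ≤ i) : hum i (i + 1) := by
  unfold hum
  omega

theorem hum_pred {i : ℤ} (hi : 1 ≤ i) : hum (i + 1) i := by
  unfold hum
  omega

theorem hum_pos {x y : ℤ} (hx : 1 ≤ x) (hy : 1 ≤ y) (h : hum x y) : y = x + 1 ∨ x = y + 1 := by
  unfold hum at h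
  omega

theorem far_hum {x y : ℤ} (hx : 1 ≤ x) (hy : 1 ≤ y) (h : x + 2 ≤ y ∨ y + 2 ≤ x) :
    Far hum x y := by
  unfold Far hum
  omega

theorem far_hum_zero {x : ℤ} (hx : 1 ≤ x) (h : x ≠ 4) : Far hum 0 x := by
  unfold Far hum
  omega

theorem far_hum_zero' {x : ℤ} (hx : 1 ≤ x) (h : x ≠ 4) : Far hum x 0 := by
  unfold Far hum
  omega

theorem conn_Icc {a b : ℤ} (ha : 1 ≤ a) : ∀ x ∈ Set.Icc a b, ∀ y ∈ Set.Icc a b,
    Relation.ReflTransGen (fun x y => x ∈ Set.Icc a b ∧ y ∈ Set.Icc a b ∧ hum x y) x y := by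
  have up : ∀ k : ℕ, ∀ x ∈ Set.Icc a b, x + k ≤ b → Relation.ReflTransGen
      (fun x y => x ∈ Set.Icc a b ∧ y ∈ Set.Icc a b ∧ hum x y) x (x + k) := by
    intro k
    induction k with
    | zero =>
      intro x _ _
      rw [Nat.cast_zero, add_zero]
    | succ k ih =>
      intro x hx hk
      push_cast at hk
      refine (ih x hx (by omega)).tail ⟨⟨by have := hx.1; omega, by omega⟩,
        ⟨by have := hx.1; push_cast; omega, by push_cast; omega⟩, ?_⟩
      have := hx.1
      unfold hum
      push_cast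
      omega
  have down : ∀ k : ℕ, ∀ x ∈ Set.Icc a b, x + k ≤ b → Relation.ReflTransGen
      (fun x y => x ∈ Set.Icc a b ∧ y ∈ Set.Icc a b ∧ hum x y) (x + k) x := by
    intro k
    induction k with
    | zero =>
      intro x _ _
      rw [Nat.cast_zero, add_zero]
    | succ k ih =>
      intro x hx hk
      push_cast at hk
      refine Relation.ReflTransGen.head ⟨⟨by have := hx.1; push_cast; omega, by push_cast; omega⟩,
        ⟨by have := hx.1; omega, by omega⟩, ?_⟩ (ih x hx (by omega))
      have := hx.1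
      unfold hum
      push_cast
      omega
  intro x hx y hy
  rcases le_total x y with h | h
  · have := up (y - x).toNat x hx (by have := hy.2; omega)
    have e : x + ((y - x).toNat : ℤ) = y := by omega
    rwa [e] at this
  · have := down (x - y).toNat y hy (by have := hx.2; omega)
    have e : y + ((x - y).toNat : ℤ) = x := by omega
    rwa [e] at this

theorem good_Icc {a b : ℤ} (ha : 1 ≤ a) (hb : a + 4 ≤ b) : Good hum (Set.Icc a b) := by
  refine ⟨hum_symm, conn_Icc ha, ?_⟩
  intro x hx y hy hxy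
  obtain ⟨hx1, hx2⟩ := hx
  obtain ⟨hy1, hy2⟩ := hy
  have h := hum_pos (by omega) (by omega) hxy
  by_cases hc : x + 2 ≤ b ∧ y + 2 ≤ b
  · exact ⟨b, ⟨by omega, le_rfl⟩, far_hum (by omega) (by omega) (by omega),
      far_hum (by omega) (by omega) (by omega)⟩
  · exact ⟨a, ⟨le_rfl, by omega⟩, far_hum (by omega) (by omega) (by omega),
      far_hum (by omega) (by omega) (by omega)⟩

/-- one move: `p ~ q ~ r`, `p` and `r` commute -/
theorem move3 {p q r D : Module.End K V} (hp : Function.Surjective p) (hq : Function.Surjective q)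
    (hr : Function.Surjective r) (hpq : p * q * p = q * p * q) (hqr : q * r * q = r * q * r)
    (hpr : p * r = r * p) (dp : D * p = p * D) (dq : D * q = q * D) (dr : D * r = r * D)
    (h0 : (p - q) * D = 0) : (q - r) * D = 0 := by
  have g1 : q * (p * q * r) = p * q * r * p := by
    calc q * (p * q * r) = q * p * q * r := by simp only [mul_assoc]
      _ = p * q * p * r := by rw [hpq]
      _ = p * q * (p * r) := by simp only [mul_assoc]
      _ = p * q * r * p := by rw [hpr]; simp only [mul_assoc]
  have g2 : r * (p * q * r) = p * q * r * q := by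
    calc r * (p * q * r) = r * p * (q * r) := by simp only [mul_assoc]
      _ = p * r * (q * r) := by rw [hpr]
      _ = p * (r * q * r) := by simp only [mul_assoc]
      _ = p * (q * r * q) := by rw [hqr]
      _ = p * q * r * q := by simp only [mul_assoc]
  have dg : D * (p * q * r) = p * q * r * D := by
    calc D * (p * q * r) = D * p * q * r := by simp only [mul_assoc]
      _ = p * (D * q) * r := by rw [dp]; simp only [mul_assoc]
      _ = p * q * (D * r) := by rw [dq]; simp only [mul_assoc]
      _ = p * q * r * D := by rw [dr]; simp only [mul_assoc]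
  have e : (q - r) * D * (p * q * r) = 0 := by
    calc (q - r) * D * (p * q * r) = (q - r) * (D * (p * q * r)) := by rw [mul_assoc]
      _ = (q * (p * q * r) - r * (p * q * r)) * D := by rw [dg, ← mul_assoc, sub_mul]
      _ = p * q * r * ((p - q) * D) := by rw [g1, g2, ← mul_sub, mul_assoc]
      _ = 0 := by rw [h0, mul_zero]
  refine LinearMap.ext fun y => ?_
  obtain ⟨y1, rfl⟩ := hp y
  obtain ⟨y2, rfl⟩ := hq y1
  obtain ⟨y3, rfl⟩ := hr y2
  exact LinearMap.congr_fun e y3

/-- (M1) -/
theorem chain_move {a b : ℤ} (ha : 1 ≤ a) (hsurj : ∀ x ∈ Set.Icc a b, Function.Surjective (t x))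
    (hS : ASys hum (Set.Icc a b) t) (D : Module.End K V)
    (hD : ∀ x ∈ Set.Icc a b, D * t x = t x * D)
    (h : ∃ i, a ≤ i ∧ i + 1 ≤ b ∧ (t i - t (i + 1)) * D = 0) :
    ∀ x ∈ Set.Icc a b, ∀ y ∈ Set.Icc a b, (t x - t y) * D = 0 := by
  have neg : ∀ p q : Module.End K V, (p - q) * D = 0 → (q - p) * D = 0 := by
    intro p q h0
    rw [← neg_sub, neg_mul, h0, neg_zero]
  have up : ∀ i, a ≤ i → i + 2 ≤ b → (t i - t (i + 1)) * D = 0 →
      (t (i + 1) - t (i + 1 + 1)) * D = 0 := by
    intro i h1 h2 h3
    have m0 : i ∈ Set.Icc a b := ⟨h1, by omega⟩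
    have m1 : i + 1 ∈ Set.Icc a b := ⟨by omega, by omega⟩
    have m2 : i + 1 + 1 ∈ Set.Icc a b := ⟨by omega, by omega⟩
    exact move3 (hsurj _ m0) (hsurj _ m1) (hsurj _ m2)
      (hS.braid _ m0 _ m1 (hum_succ (by omega))) (hS.braid _ m1 _ m2 (hum_succ (by omega)))
      (hS.comm _ m0 _ m2 (far_hum (by omega) (by omega) (by omega))) (hD _ m0) (hD _ m1)
      (hD _ m2) h3
  have down : ∀ i, a ≤ i → i + 2 ≤ b → (t (i + 1) - t (i + 1 + 1)) * D = 0 →
      (t i - t (i + 1)) * D = 0 := by
    intro i h1 h2 h3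
    have m0 : i ∈ Set.Icc a b := ⟨h1, by omega⟩
    have m1 : i + 1 ∈ Set.Icc a b := ⟨by omega, by omega⟩
    have m2 : i + 1 + 1 ∈ Set.Icc a b := ⟨by omega, by omega⟩
    exact neg _ _ (move3 (hsurj _ m2) (hsurj _ m1) (hsurj _ m0)
      (hS.braid _ m2 _ m1 (hum_pred (by omega))) (hS.braid _ m1 _ m0 (hum_pred (by omega)))
      (hS.comm _ m2 _ m0 (far_hum (by omega) (by omega) (by omega))) (hD _ m2) (hD _ m1)
      (hD _ m0) (neg _ _ h3))
  obtain ⟨i, hi1, hi2, hi⟩ := h
  have ups : ∀ k : ℕ, i + k + 1 ≤ b → (t (i + k) - t (i + k + 1)) * D = 0 := by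
    intro k
    induction k with
    | zero =>
      intro _
      rw [Nat.cast_zero, add_zero]
      exact hi
    | succ k ih =>
      intro hk
      push_cast at hk ⊢
      rw [← add_assoc]
      exact up (i + k) (by omega) (by omega) (ih (by omega))
  have downs : ∀ k : ℕ, a ≤ i - k → (t (i - k) - t (i - k + 1)) * D = 0 := by
    intro k
    induction k with
    | zero =>
      intro _
      rw [Nat.cast_zero, sub_zero]
      exact hi
    | succ k ih =>
      intro hk
      push_cast at hk ⊢
      refine down (i - (k + 1)) hk (by omega) ?_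
      have e : i - ((k : ℤ) + 1) + 1 = i - k := by ring
      rw [e]
      exact ih (by omega)
  have all : ∀ j, a ≤ j → j + 1 ≤ b → (t j - t (j + 1)) * D = 0 := by
    intro j h1 h2
    rcases le_total i j with h | h
    · have := ups (j - i).toNat (by omega)
      have e : i + ((j - i).toNat : ℤ) = j := by omega
      rwa [e] at this
    · have := downs (i - j).toNat (by omega)
      have e : i - ((i - j).toNat : ℤ) = j := by omega
      rwa [e] at this
  have hc := conn_const (conn_Icc (b := b) ha) (fun x => t x * D) (fun x hx y hy hxy => by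
    have h1 := hum_pos (by have := hx.1; omega) (by have := hy.1; omega) hxy
    show t x * D = t y * D
    rcases h1 with h1 | h1
    · have h2 := all x hx.1 (by have := hy.2; omega)
      rw [← h1, sub_mul, sub_eq_zero] at h2
      exact h2
    · have h2 := all y hy.1 (by have := hx.2; omega)
      rw [← h1, sub_mul, sub_eq_zero] at h2
      exact h2.symm)
  intro x hx y hy
  rw [sub_mul, sub_eq_zero]
  exact hc x hx y hy

/-- (C) for four consecutive generators in any monoid -/
theorem crossing {M : Type*} [Monoid M] {a b c d : M} (hab : a * b * a = b * a * b)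
    (hbc : b * c * b = c * b * c) (hcd : c * d * c = d * c * d) (hac : a * c = c * a)
    (had : a * d = d * a) (hbd : b * d = d * b) :
    (a * b * c * d) * (a * b * c * d) * a = c * ((a * b * c * d) * (a * b * c * d)) ∧
    (a * b * c * d) * (a * b * c * d) * b = d * ((a * b * c * d) * (a * b * c * d)) ∧
    (a * b * c * d) * (a * b * c * d) * d = a * ((a * b * c * d) * (a * b * c * d)) := by
  have s1 : a * b * c * d * a = b * (a * b * c * d) := by
    calc a * b * c * d * a = a * b * c * (d * a) := by simp only [mul_assoc]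
      _ = a * b * (c * a) * d := by rw [← had]; simp only [mul_assoc]
      _ = a * b * a * c * d := by rw [← hac]; simp only [mul_assoc]
      _ = b * (a * b * c * d) := by rw [hab]; simp only [mul_assoc]
  have s2 : a * b * c * d * b = c * (a * b * c * d) := by
    calc a * b * c * d * b = a * b * c * (d * b) := by simp only [mul_assoc]
      _ = a * (b * c * b) * d := by rw [← hbd]; simp only [mul_assoc]
      _ = a * c * b * c * d := by rw [hbc]; simp only [mul_assoc]
      _ = c * (a * b * c * d) := by rw [hac]; simp only [mul_assoc]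
  have s3 : a * b * c * d * c = d * (a * b * c * d) := by
    calc a * b * c * d * c = a * b * (c * d * c) := by simp only [mul_assoc]
      _ = a * (b * d) * c * d := by rw [hcd]; simp only [mul_assoc]
      _ = a * d * b * c * d := by rw [hbd]; simp only [mul_assoc]
      _ = d * (a * b * c * d) := by rw [had]; simp only [mul_assoc]
  have s4 : (a * b * c * d) * (a * b * c * d) = b * c * d * (a * b * c * d) * d := by
    calc (a * b * c * d) * (a * b * c * d) = (a * b * c * d * a) * b * c * d := by
          simp only [mul_assoc]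
      _ = b * (a * b * c * d * b) * c * d := by rw [s1]; simp only [mul_assoc]
      _ = b * c * (a * b * c * d * c) * d := by rw [s2]; simp only [mul_assoc]
      _ = b * c * d * (a * b * c * d) * d := by rw [s3]; simp only [mul_assoc]
  refine ⟨?_, ?_, ?_⟩
  · rw [mul_assoc, s1, ← mul_assoc, s2, mul_assoc]
  · rw [mul_assoc, s2, ← mul_assoc, s3, mul_assoc]
  · calc (a * b * c * d) * (a * b * c * d) * d
        = a * (b * c * d * (a * b * c * d) * d) := by simp only [mul_assoc]
      _ = a * ((a * b * c * d) * (a * b * c * d)) := by rw [← s4]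

/-- (Q): differences of far edges of the chain `[1, m]` have product zero -/
def QQ (t : ℤ → Module.End K V) (m : ℤ) : Prop :=
  ∀ u v w z : ℤ, 1 ≤ u → 1 ≤ v → w ≤ m → z ≤ m → u + 2 ≤ w → v + 2 ≤ w → u + 2 ≤ z →
    v + 2 ≤ z → (t u - t v) * (t w - t z) = 0

/-- differences commute with far operators -/
theorem diff_comm1 {B : Set ℤ} (hS : ASys hum B t) {x z w : ℤ} (hx : x ∈ B)
    (hz : z ∈ B) (hw : w ∈ B) (h1 : Far hum x z) (h2 : Far hum x w) :
    (t z - t w) * t x = t x * (t z - t w) := by
  rw [sub_mul, mul_sub, hS.comm x hx z hz h1, hS.comm x hx w hw h2]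

theorem diff_comm2 {B : Set ℤ} (hS : ASys hum B t) {x y z w : ℤ} (hx : x ∈ B)
    (hy : y ∈ B) (hz : z ∈ B) (hw : w ∈ B) (h1 : Far hum x z) (h2 : Far hum x w)
    (h3 : Far hum y z) (h4 : Far hum y w) :
    (t x - t y) * (t z - t w) = (t z - t w) * (t x - t y) := by
  rw [sub_mul, ← diff_comm1 hS hx hz hw h1 h2, ← diff_comm1 hS hy hz hw h3 h4, ← mul_sub]

/-- (Q) from one pair -/
theorem qq_of_pair {m : ℤ} (hsurj : ∀ x ∈ Set.Icc 1 m, Function.Surjective (t x))
    (hS : ASys hum (Set.Icc 1 m) t)
    (h : ∃ i j, 1 ≤ i ∧ i + 3 ≤ j ∧ j + 1 ≤ m ∧ (t i - t (i + 1)) * (t j - t (j + 1)) = 0) :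
    QQ t m := by
  obtain ⟨i, j, hi, hij, hj, h0⟩ := h
  have sub : ∀ a b : ℤ, 1 ≤ a → b ≤ m → Set.Icc a b ⊆ Set.Icc 1 m := fun a b h1 h2 x hx =>
    ⟨by have := hx.1; omega, by have := hx.2; omega⟩
  have mem : ∀ x : ℤ, 1 ≤ x → x ≤ m → x ∈ Set.Icc 1 m := fun x h1 h2 => ⟨h1, h2⟩
  -- the left edge `(1, 2)`
  have h1 : (t 1 - t (1 + 1)) * (t j - t (j + 1)) = 0 := by
    have k := chain_move (t := t) (a := 1) (b := j - 2) le_rfl
      (fun x hx => hsurj x (sub _ _ le_rfl (by omega) hx)) (hS.mono (sub _ _ le_rfl (by omega)))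
      (t j - t (j + 1)) (fun x hx => diff_comm1 hS (mem x hx.1 (by have := hx.2; omega))
        (mem _ (by omega) (by omega)) (mem _ (by omega) (by omega))
        (far_hum hx.1 (by omega) (by have := hx.2; omega))
        (far_hum hx.1 (by omega) (by have := hx.2; omega))) ⟨i, hi, by omega, h0⟩
    exact k 1 ⟨le_rfl, by omega⟩ (1 + 1) ⟨by omega, by omega⟩
  -- all right differences
  have h2 : ∀ w z : ℤ, 4 ≤ w → w ≤ m → 4 ≤ z → z ≤ m → (t 1 - t (1 + 1)) * (t w - t z) = 0 := by
    have k := chain_move (t := t) (a := 4) (b := m) (by omega)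
      (fun x hx => hsurj x (sub _ _ (by omega) le_rfl hx)) (hS.mono (sub _ _ (by omega) le_rfl))
      (t 1 - t (1 + 1)) (fun x hx => diff_comm1 hS (mem x (by have := hx.1; omega) hx.2)
        (mem _ (by omega) (by omega)) (mem _ (by omega) (by omega))
        (far_hum (by have := hx.1; omega) (by omega) (by have := hx.1; omega))
        (far_hum (by have := hx.1; omega) (by omega) (by have := hx.1; omega)))
      ⟨j, by omega, hj, by
        rw [diff_comm2 hS (mem _ (by omega) (by omega)) (mem _ (by omega) (by omega))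
          (mem _ (by omega) (by omega)) (mem _ (by omega) (by omega))
          (far_hum (by omega) (by omega) (by omega)) (far_hum (by omega) (by omega) (by omega))
          (far_hum (by omega) (by omega) (by omega)) (far_hum (by omega) (by omega) (by omega))]
        exact h1⟩
    intro w z hw1 hw2 hz1 hz2
    rw [diff_comm2 hS (mem _ (by omega) (by omega)) (mem _ (by omega) (by omega))
      (mem w (by omega) (by omega)) (mem z (by omega) (by omega))
      (far_hum (by omega) (by omega) (by omega)) (far_hum (by omega) (by omega) (by omega))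
      (far_hum (by omega) (by omega) (by omega)) (far_hum (by omega) (by omega) (by omega))]
    exact k w ⟨hw1, hw2⟩ z ⟨hz1, hz2⟩
  intro u v w z hu hv hw hz e1 e2 e3 e4
  by_cases huv : u = v
  · subst huv
    rw [sub_self, zero_mul]
  · have k := chain_move (t := t) (a := 1) (b := max u v) le_rfl
      (fun x hx => hsurj x (sub _ _ le_rfl (by omega) hx)) (hS.mono (sub _ _ le_rfl (by omega)))
      (t w - t z) (fun x hx => diff_comm1 hS (mem x hx.1 (by have := hx.2; omega))
        (mem _ (by omega) (by omega)) (mem _ (by omega) (by omega))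
        (far_hum hx.1 (by omega) (by have := hx.2; omega))
        (far_hum hx.1 (by omega) (by have := hx.2; omega)))
      ⟨1, le_rfl, by omega, h2 w z (by omega) hw (by omega) hz⟩
    exact k u ⟨hu, by omega⟩ v ⟨hv, by omega⟩

/-- (Q0) -/
theorem qq_zero {m : ℤ} (hm : 11 ≤ m) (hsurj : ∀ x ∈ Set.Icc 0 m, Function.Surjective (t x))
    (hS : ASys hum (Set.Icc 0 m) t) (hQ : QQ t m) :
    (∀ w z : ℤ, 6 ≤ w → 6 ≤ z → w ≤ m → z ≤ m → (t 0 - t 4) * (t w - t z) = 0) ∧
      (t 0 - t 4) * (t 1 - t 2) = 0 := by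
  have mem : ∀ x : ℤ, 0 ≤ x → x ≤ m → x ∈ Set.Icc 0 m := fun x h1 h2 => ⟨h1, h2⟩
  have m0 := mem 0 (by omega) (by omega)
  have m1 := mem 1 (by omega) (by omega)
  have m2 := mem 2 (by omega) (by omega)
  have m3 := mem 3 (by omega) (by omega)
  have m4 := mem 4 (by omega) (by omega)
  have m5 := mem 5 (by omega) (by omega)
  have h34 : hum 3 4 := by unfold hum; omega
  have h54 : hum 5 4 := by unfold hum; omega
  have h40 : hum 4 0 := by unfold hum; omega
  have neg : ∀ p q D : Module.End K V, (p - q) * D = 0 → (q - p) * D = 0 := by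
    intro p q D h0
    rw [← neg_sub, neg_mul, h0, neg_zero]
  constructor
  · intro w z hw hz hwm hzm
    have mw := mem w (by omega) hwm
    have mz := mem z (by omega) hzm
    refine neg _ _ _ (move3 (hsurj 3 m3) (hsurj 4 m4) (hsurj 0 m0) (hS.braid 3 m3 4 m4 h34)
      (hS.braid 4 m4 0 m0 h40) (hS.comm 3 m3 0 m0 (far_hum_zero' (by omega) (by omega)))
      (diff_comm1 hS m3 mw mz (far_hum (by omega) (by omega) (by omega))
        (far_hum (by omega) (by omega) (by omega)))
      (diff_comm1 hS m4 mw mz (far_hum (by omega) (by omega) (by omega))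
        (far_hum (by omega) (by omega) (by omega)))
      (diff_comm1 hS m0 mw mz (far_hum_zero (by omega) (by omega))
        (far_hum_zero (by omega) (by omega)))
      (hQ 3 4 w z (by omega) (by omega) hwm hzm (by omega) (by omega) (by omega) (by omega)))
  · have h1 := hQ 1 2 5 4 (by omega) (by omega) (by omega) (by omega) (by omega) (by omega)
      (by omega) (by omega)
    rw [diff_comm2 hS m1 m2 m5 m4 (far_hum (by omega) (by omega) (by omega))
      (far_hum (by omega) (by omega) (by omega)) (far_hum (by omega) (by omega) (by omega))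
      (far_hum (by omega) (by omega) (by omega))] at h1
    exact neg _ _ _ (move3 (hsurj 5 m5) (hsurj 4 m4) (hsurj 0 m0) (hS.braid 5 m5 4 m4 h54)
      (hS.braid 4 m4 0 m0 h40) (hS.comm 5 m5 0 m0 (far_hum_zero' (by omega) (by omega)))
      (diff_comm1 hS m5 m1 m2 (far_hum (by omega) (by omega) (by omega))
        (far_hum (by omega) (by omega) (by omega)))
      (diff_comm1 hS m4 m1 m2 (far_hum (by omega) (by omega) (by omega))
        (far_hum (by omega) (by omega) (by omega)))
      (diff_comm1 hS m0 m1 m2 (far_hum_zero (by omega) (by omega))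
        (far_hum_zero (by omega) (by omega))) h1)

/-- (E) -/
theorem cross_eq {m : ℤ} (_hm : 11 ≤ m) (hsurj : ∀ x ∈ Set.Icc 1 m, Function.Surjective (t x))
    (hS : ASys hum (Set.Icc 1 m) t) (hQ : QQ t m) :
    ∀ u v : ℤ, 3 ≤ u → u ≤ m - 2 → 3 ≤ v → v ≤ m - 2 → (t 1 - t m) * (t u - t v) = 0 := by
  have mem : ∀ x : ℤ, 1 ≤ x → x ≤ m → x ∈ Set.Icc 1 m := fun x h1 h2 => ⟨h1, h2⟩
  -- the edges
  have edge : ∀ i : ℤ, 1 ≤ i → i + 5 ≤ m → (t 1 - t m) * (t (i + 2) - t (i + 3)) = 0 := by
    intro i hi him
    have b0 := mem i (by omega) (by omega)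
    have b1 := mem (i + 1) (by omega) (by omega)
    have b2 := mem (i + 2) (by omega) (by omega)
    have b3 := mem (i + 3) (by omega) (by omega)
    have b5 := mem (i + 5) (by omega) (by omega)
    have bm := mem m (by omega) le_rfl
    have ad : ∀ x : ℤ, 1 ≤ x → ∀ y, y = x + 1 → hum x y := fun x hx y hy => by
      rw [hy]
      exact hum_succ hx
    have fr : ∀ x y : ℤ, 1 ≤ x → x + 2 ≤ y → Far hum x y := fun x y h1 h2 =>
      far_hum h1 (by omega) (by omega)
    obtain ⟨g1, g2, g3⟩ := crossing (hS.braid i b0 (i + 1) b1 (ad i hi _ rfl))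
      (hS.braid (i + 1) b1 (i + 2) b2 (ad (i + 1) (by omega) _ (by ring)))
      (hS.braid (i + 2) b2 (i + 3) b3 (ad (i + 2) (by omega) _ (by ring)))
      (hS.comm i b0 (i + 2) b2 (fr _ _ hi (by omega)))
      (hS.comm i b0 (i + 3) b3 (fr _ _ hi (by omega)))
      (hS.comm (i + 1) b1 (i + 3) b3 (fr _ _ (by omega) (by omega)))
    have f0 := hS.comm i b0 (i + 5) b5 (fr _ _ (by omega) (by omega))
    have f1 := hS.comm (i + 1) b1 (i + 5) b5 (fr _ _ (by omega) (by omega))
    have f2 := hS.comm (i + 2) b2 (i + 5) b5 (fr _ _ (by omega) (by omega))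
    have f3 := hS.comm (i + 3) b3 (i + 5) b5 (fr _ _ (by omega) (by omega))
    have c1 : t i * t (i + 1) * t (i + 2) * t (i + 3) * t (i + 5) =
        t (i + 5) * (t i * t (i + 1) * t (i + 2) * t (i + 3)) := by
      calc t i * t (i + 1) * t (i + 2) * t (i + 3) * t (i + 5)
          = t i * t (i + 1) * t (i + 2) * (t (i + 3) * t (i + 5)) := by simp only [mul_assoc]
        _ = t i * t (i + 1) * (t (i + 2) * t (i + 5)) * t (i + 3) := by
            rw [f3]; simp only [mul_assoc]
        _ = t i * (t (i + 1) * t (i + 5)) * t (i + 2) * t (i + 3) := by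
            rw [f2]; simp only [mul_assoc]
        _ = t i * t (i + 5) * t (i + 1) * t (i + 2) * t (i + 3) := by
            rw [f1]; simp only [mul_assoc]
        _ = t (i + 5) * (t i * t (i + 1) * t (i + 2) * t (i + 3)) := by
            rw [f0]; simp only [mul_assoc]
    have sg : Function.Surjective (t i * t (i + 1) * t (i + 2) * t (i + 3)) := by
      intro y
      obtain ⟨y1, rfl⟩ := hsurj i b0 y
      obtain ⟨y2, rfl⟩ := hsurj _ b1 y1
      obtain ⟨y3, rfl⟩ := hsurj _ b2 y2
      obtain ⟨y4, rfl⟩ := hsurj _ b3 y3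
      exact ⟨y4, rfl⟩
    generalize hc : t i * t (i + 1) * t (i + 2) * t (i + 3) = c at g1 g2 g3 c1 sg
    have g5 : c * c * t (i + 5) = t (i + 5) * (c * c) := by
      rw [mul_assoc, c1, ← mul_assoc, c1, mul_assoc]
    -- the base: `t (i+3) = t (i+5)` on the image of `t i - t (i+1)`
    have base : (t (i + 3) - t (i + 5)) * (t i - t (i + 1)) = 0 := by
      rw [diff_comm2 hS b3 b5 b0 b1 (far_hum (by omega) (by omega) (by omega))
        (far_hum (by omega) (by omega) (by omega)) (far_hum (by omega) (by omega) (by omega))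
        (far_hum (by omega) (by omega) (by omega))]
      exact hQ i (i + 1) (i + 3) (i + 5) hi (by omega) (by omega) (by omega) (by omega)
        (by omega) (by omega) (by omega)
    have cr : (t i - t (i + 5)) * (t (i + 2) - t (i + 3)) = 0 := by
      have e : (t i - t (i + 5)) * (t (i + 2) - t (i + 3)) * (c * c) = 0 := by
        calc (t i - t (i + 5)) * (t (i + 2) - t (i + 3)) * (c * c)
            = (t i - t (i + 5)) * (t (i + 2) * (c * c) - t (i + 3) * (c * c)) := by
              rw [mul_assoc, sub_mul (t (i + 2))]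
          _ = (t i * (c * c) - t (i + 5) * (c * c)) * (t i - t (i + 1)) := by
              rw [← g1, ← g2, ← mul_sub (c * c), ← mul_assoc, sub_mul (t i)]
          _ = c * c * ((t (i + 3) - t (i + 5)) * (t i - t (i + 1))) := by
              rw [← g3, ← g5, ← mul_sub (c * c), mul_assoc]
          _ = 0 := by rw [base, mul_zero]
      refine LinearMap.ext fun y => ?_
      obtain ⟨y1, rfl⟩ := sg y
      obtain ⟨y2, rfl⟩ := sg y1
      exact LinearMap.congr_fun e y2
    -- the two ends
    have l1 : (t 1 - t i) * (t (i + 2) - t (i + 3)) = 0 :=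
      hQ 1 i (i + 2) (i + 3) le_rfl hi (by omega) (by omega) (by omega) (by omega) (by omega)
        (by omega)
    have r1 : (t (i + 5) - t m) * (t (i + 2) - t (i + 3)) = 0 := by
      rw [diff_comm2 hS b5 bm b2 b3 (far_hum (by omega) (by omega) (by omega))
        (far_hum (by omega) (by omega) (by omega)) (far_hum (by omega) (by omega) (by omega))
        (far_hum (by omega) (by omega) (by omega))]
      exact hQ (i + 2) (i + 3) (i + 5) m (by omega) (by omega) (by omega) (by omega) (by omega)
        (by omega) (by omega) (by omega)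
    have e : t 1 - t m = (t 1 - t i) + (t i - t (i + 5)) + (t (i + 5) - t m) := by abel
    rw [e, add_mul, add_mul, l1, cr, r1, add_zero, add_zero]
  have hc := conn_const (conn_Icc (a := 3) (b := m - 2) (by omega)) (fun x => (t 1 - t m) * t x)
    (fun x hx y hy hxy => by
      have h1 := hum_pos (by have := hx.1; omega) (by have := hy.1; omega) hxy
      show (t 1 - t m) * t x = (t 1 - t m) * t y
      rcases h1 with h1 | h1
      · have h2 := edge (x - 2) (by have := hx.1; omega) (by have := hy.2; omega)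
        have e1 : x - 2 + 2 = x := by ring
        have e2 : x - 2 + 3 = y := by omega
        rw [e1, e2, mul_sub, sub_eq_zero] at h2
        exact h2
      · have h2 := edge (y - 2) (by have := hy.1; omega) (by have := hx.2; omega)
        have e1 : y - 2 + 2 = y := by ring
        have e2 : y - 2 + 3 = x := by omega
        rw [e1, e2, mul_sub, sub_eq_zero] at h2
        exact h2.symm)
  intro u v hu1 hu2 hv1 hv2
  rw [mul_sub, sub_eq_zero]
  exact hc u ⟨hu1, hu2⟩ v ⟨hv1, hv2⟩

/-- (E0) -/
theorem cross_eq_zero {m : ℤ} (hm : 11 ≤ m) (hsurj : ∀ x ∈ Set.Icc 0 m, Function.Surjective (t x))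
    (hS : ASys hum (Set.Icc 0 m) t) (hQ : QQ t m) :
    (t 1 - t m) * (t 0 - t 4) = 0 := by
  have mem : ∀ x : ℤ, 0 ≤ x → x ≤ m → x ∈ Set.Icc 0 m := fun x h1 h2 => ⟨h1, h2⟩
  have m0 := mem 0 (by omega) (by omega)
  have m1 := mem 1 (by omega) (by omega)
  have m3 := mem 3 (by omega) (by omega)
  have m4 := mem 4 (by omega) (by omega)
  have mm := mem m (by omega) le_rfl
  have hsub : Set.Icc 1 m ⊆ Set.Icc 0 m := fun x hx => ⟨by have := hx.1; omega, hx.2⟩
  have h0 := cross_eq hm (fun x hx => hsurj x (hsub hx)) (hS.mono hsub) hQ 3 4 (by omega)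
    (by omega) (by omega) (by omega)
  have f : ∀ x : ℤ, 5 + x ≤ m → x ≠ 2 → 0 ≤ x → x ≠ 1 →
      (t 1 - t m) * t x = t x * (t 1 - t m) := by
    intro x h1 h2 h3 h4
    refine diff_comm1 hS (mem x h3 (by omega)) m1 mm ?_ ?_
    · unfold Far hum
      omega
    · unfold Far hum
      omega
  have h34 : hum 3 4 := by unfold hum; omega
  have h40 : hum 4 0 := by unfold hum; omega
  -- transpose: `(t 3 - t 4) * D = 0` with `D = t 1 - t m`
  have h1 : (t 3 - t 4) * (t 1 - t m) = 0 := by
    rw [sub_mul, ← f 3 (by omega) (by omega) (by omega) (by omega),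
      ← f 4 (by omega) (by omega) (by omega) (by omega), ← mul_sub]
    exact h0
  have h2 := move3 (hsurj 3 m3) (hsurj 4 m4) (hsurj 0 m0) (hS.braid 3 m3 4 m4 h34)
      (hS.braid 4 m4 0 m0 h40) (hS.comm 3 m3 0 m0 (far_hum_zero' (by omega) (by omega)))
      (f 3 (by omega) (by omega) (by omega) (by omega))
      (f 4 (by omega) (by omega) (by omega) (by omega))
      (f 0 (by omega) (by omega) (by omega) (by omega)) h1
  rw [mul_sub, f 0 (by omega) (by omega) (by omega) (by omega),
    f 4 (by omega) (by omega) (by omega) (by omega), ← sub_mul, ← neg_sub, neg_mul, h2, neg_zero]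

end Pool.Agent.Art
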