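import Pool.Agent.Lib.Art.Defs

/-! # Lower bound for chains, edges (page mcg70, section 4) -/

namespace Pool.Agent.Art

variable {K V : Type*} [Field K] [AddCommGroup V] [Module K V]

/-- commuting and the braid relation give equality -/
theorem eq_of_comm_braid {a b : Module.End K V} (ha : Function.Injective a)
    (hb : Function.Injective b) (hc : a * b = b * a) (hbr : a * b * a = b * a * b) : a = b := by
  have h1 : a * b * a = a * b * b := by
    rw [hbr, ← hc]
  refine LinearMap.ext fun v => ?_
  have h2 := LinearMap.congr_fun h1 v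
  simp only [Module.End.mul_apply] at h2
  exact hb (ha h2)

/-- a statement about vertices which passes along the edges holds everywhere -/
theorem hum_induct {m β : ℤ} (hm : 11 ≤ m) (hβ : β = 0 ∨ β = 1) (f : ℤ → Prop)
    (hstep : ∀ v ∈ Set.Icc β m, ∀ w ∈ Set.Icc β m, hum v w → f v → f w) {x : ℤ}
    (hx : x ∈ Set.Icc β m) (hfx : f x) : ∀ y ∈ Set.Icc β m, f y := by
  have up : ∀ n : ℕ, ∀ v : ℤ, 1 ≤ v → v + n ≤ m → f v → f (v + n) := by
    intro n
    induction n with
    | zero => intro v _ _ h; simpa using h
    | succ n ih =>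
      intro v h1 h2 h
      have h3 := ih v h1 (by push_cast at h2; omega) h
      have h4 : f (v + n + 1) := by
        refine hstep (v + n) ⟨by omega, by push_cast at h2; omega⟩ (v + n + 1)
          ⟨by omega, by push_cast at h2; omega⟩ (Or.inl ⟨by omega, rfl⟩) h3
      have h5 : v + ((n + 1 : ℕ) : ℤ) = v + n + 1 := by push_cast; ring
      rw [h5]; exact h4
  have down : ∀ n : ℕ, ∀ v : ℤ, 1 ≤ v → v + n ≤ m → f (v + n) → f v := by
    intro n
    induction n with
    | zero => intro v _ _ h; simpa using h
    | succ n ih =>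
      intro v h1 h2 h
      have h5 : v + ((n + 1 : ℕ) : ℤ) = v + n + 1 := by push_cast; ring
      rw [h5] at h
      have h4 : f (v + n) := by
        refine hstep (v + n + 1) ⟨by omega, by push_cast at h2; omega⟩ (v + n)
          ⟨by omega, by push_cast at h2; omega⟩ (Or.inr (Or.inl ⟨by omega, rfl⟩)) h
      exact ih v h1 (by push_cast at h2; omega) h4
  have h4 : f 4 := by
    rcases lt_or_ge x 1 with h | h
    · have h0 : x = 0 := by have := hx.1; omega
      have hb0 : β = 0 := by have := hx.1; omega
      subst h0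
      exact hstep 0 hx 4 ⟨by omega, by omega⟩ (Or.inr (Or.inr (Or.inl ⟨rfl, rfl⟩))) hfx
    · rcases le_total x 4 with h' | h'
      · have := up (4 - x).toNat x h (by have := hx.2; omega) hfx
        have e : x + ((4 - x).toNat : ℤ) = 4 := by omega
        rwa [e] at this
      · have e : (4 : ℤ) + ((x - 4).toNat : ℤ) = x := by omega
        refine down (x - 4).toNat 4 (by omega) (by have := hx.2; omega) ?_
        rw [e]; exact hfx
  intro y hy
  rcases lt_or_ge y 1 with h | h
  · have h0 : y = 0 := by have := hy.1; omega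
    have hb0 : β = 0 := by have := hy.1; omega
    subst h0
    exact hstep 4 ⟨by omega, by omega⟩ 0 hy (Or.inr (Or.inr (Or.inr ⟨rfl, rfl⟩))) h4
  · rcases le_total y 4 with h' | h'
    · have e : y + ((4 - y).toNat : ℤ) = 4 := by omega
      refine down (4 - y).toNat y h (by have := hy.2; omega) ?_
      rw [e]; exact h4
    · have := up (y - 4).toNat 4 (by omega) (by have := hy.2; omega) h4
      have e : (4 : ℤ) + ((y - 4).toNat : ℤ) = y := by omega
      rwa [e] at this

/-- if one edge of `[β, m]` is flat then all are (conjugation by `t i * t (i+1) * t (i+2)`,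
`t 3 * t 4 * t 0`; or: commuting and braid relation give equality) -/
theorem edge_neT {m β : ℤ} (hm : 11 ≤ m) (hβ : β = 0 ∨ β = 1) {t : ℤ → Module.End K V}
    (hinj : ∀ x ∈ Set.Icc β m, Function.Injective (t x)) (hS : ASys hum (Set.Icc β m) t)
    (hnf : ∃ x ∈ Set.Icc β m, ∃ y ∈ Set.Icc β m, t x ≠ t y) :
    ∀ x ∈ Set.Icc β m, ∀ y ∈ Set.Icc β m, hum x y → t x ≠ t y := by
  intro x hx y hy hxy he
  -- the third vertex
  have key : ∀ u ∈ Set.Icc β m, ∀ v ∈ Set.Icc β m, ∀ w ∈ Set.Icc β m, hum u v → t u = t v →
      hum v w → t w = t v := by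
    intro u hu v hv w hw huv he hvw
    by_cases huw : u = w
    · subst huw; exact he
    · have hfar : Far hum u w := by
        refine ⟨huw, ?_⟩
        unfold hum at *
        omega
      have hc := hS.comm u hu w hw hfar
      rw [he] at hc
      exact (eq_of_comm_braid (hinj v hv) (hinj w hw) hc (hS.braid v hv w hw hvw)).symm
  let f : ℤ → Prop := fun v => t v = t x ∧ ∀ w ∈ Set.Icc β m, hum v w → t w = t v
  have hfx : f x := by
    refine ⟨rfl, fun w hw hxw => ?_⟩
    exact key y hy x hx w hw (hum_symm _ _ hxy) he.symm hxw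
  have hstep : ∀ v ∈ Set.Icc β m, ∀ w ∈ Set.Icc β m, hum v w → f v → f w := by
    intro v hv w hw hvw hfv
    have h1 := hfv.2 w hw hvw
    refine ⟨h1.trans hfv.1, fun u hu hwu => ?_⟩
    exact key v hv w hw u hu hvw h1.symm hwu
  have hall := hum_induct hm hβ f hstep hx hfx
  obtain ⟨a, ha, b, hb, hab⟩ := hnf
  exact hab ((hall a ha).1.trans (hall b hb).1.symm)

/-- if `P Q = 0` and `P + P² + P Q P = Q + Q² + Q P Q`, `1 + P`, `1 + Q` injective then `P = Q` -/
theorem eq_of_mul_zero [FiniteDimensional K V] {s t : Module.End K V} (hs : Function.Injective s)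
    (ht : Function.Injective t) (hz : (s - 1) * (t - 1) = 0) (hbr : s * t * s = t * s * t) :
    s = t := by
  have h1 : (s - 1) * s = (t - 1) * t := by
    have e1 : s * t = s + t - 1 := by
      have h2 : s * t - (s + t - 1) = (s - 1) * (t - 1) := by noncomm_ring
      rw [hz] at h2
      exact sub_eq_zero.mp h2
    have e2 : s * t * s = s * s + t * s - s := by
      rw [e1]; noncomm_ring
    have e3 : t * s * t = t * s + t * t - t := by
      rw [mul_assoc, e1]; noncomm_ring
    rw [e2, e3] at hbr
    have h3 : (s - 1) * s - (t - 1) * t = (s * s + t * s - s) - (t * s + t * t - t) := by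
      noncomm_ring
    rw [hbr, sub_self] at h3
    exact sub_eq_zero.mp h3
  have hss : Function.Surjective s := LinearMap.injective_iff_surjective.mp hs
  have htt : Function.Surjective t := LinearMap.injective_iff_surjective.mp ht
  have h2 : (s - 1) * (s - 1) = 0 := by
    have h4 : (s - 1) * (s - 1) * s = 0 := by
      rw [mul_assoc, h1, ← mul_assoc, hz, zero_mul]
    refine LinearMap.ext fun v => ?_
    obtain ⟨w, rfl⟩ := hss v
    have := LinearMap.congr_fun h4 w
    simpa [Module.End.mul_apply] using this
  have h3 : (t - 1) * (t - 1) = 0 := by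
    have h4 : (t - 1) * (t - 1) * t = 0 := by
      have e : (t - 1) * (t - 1) * t = (t - 1) * t * (t - 1) := by noncomm_ring
      rw [e, ← h1]
      have e' : (s - 1) * s * (t - 1) = s * ((s - 1) * (t - 1)) := by noncomm_ring
      rw [e', hz, mul_zero]
    refine LinearMap.ext fun v => ?_
    obtain ⟨w, rfl⟩ := htt v
    have := LinearMap.congr_fun h4 w
    simpa [Module.End.mul_apply] using this
  have e1 : (s - 1) * s = s - 1 := by
    have : (s - 1) * s = (s - 1) * (s - 1) + (s - 1) := by noncomm_ring
    rw [this, h2, zero_add]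
  have e2 : (t - 1) * t = t - 1 := by
    have : (t - 1) * t = (t - 1) * (t - 1) + (t - 1) := by noncomm_ring
    rw [this, h3, zero_add]
  rw [e1, e2] at h1
  exact sub_left_injective h1

/-- section 4 -/
theorem chain_dim [FiniteDimensional K V] {m : ℤ} (hm : 2 ≤ m) {s : ℤ → Module.End K V}
    (hinj : ∀ x ∈ Set.Icc 1 m, Function.Injective (s x)) (hS : ASys hum (Set.Icc 1 m) s)
    (hne : ∀ x, 1 ≤ x → x + 1 ≤ m → s x ≠ s (x + 1))
    (hfar : ∀ x ∈ Set.Icc 1 m, ∀ y ∈ Set.Icc 1 m, Far hum x y → (s x - 1) * (s y - 1) = 0) :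
    m - 1 ≤ (Module.finrank K V : ℤ) := by
  let F : ℕ → Submodule K V := fun n => ⨅ i ∈ Set.Icc (1 : ℤ) n, LinearMap.ker (s i - 1)
  have hmem : ∀ n v, v ∈ F n ↔ ∀ i ∈ Set.Icc (1 : ℤ) n, (s i - 1) v = 0 := by
    intro n v
    simp only [F, Submodule.mem_iInf, LinearMap.mem_ker]
  have hstep : ∀ n : ℕ, (n : ℤ) + 2 ≤ m → F (n + 1) < F n := by
    intro n hn
    refine lt_of_le_of_ne ?_ ?_
    · intro v hv
      rw [hmem] at hv ⊢
      intro i hi
      exact hv i ⟨hi.1, by have := hi.2; push_cast; omega⟩
    · intro he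
      refine hne (n + 1) (by omega) (by omega) ?_
      have hz : (s (n + 1) - 1) * (s (n + 1 + 1) - 1) = 0 := by
        refine LinearMap.ext fun v => ?_
        have h1 : (s ((n : ℤ) + 1 + 1) - 1) v ∈ F n := by
          rw [hmem]
          intro i hi
          have h2 := hfar i ⟨hi.1, by have := hi.2; omega⟩ ((n : ℤ) + 1 + 1) ⟨by omega, by omega⟩
            ⟨by have := hi.2; omega, by
              have h3 := hi.1
              have h4 := hi.2
              unfold hum
              omega⟩
          exact LinearMap.congr_fun h2 v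
        rw [← he, hmem] at h1
        exact h1 (n + 1) ⟨by omega, by push_cast; omega⟩
      refine eq_of_mul_zero (hinj _ ⟨by omega, by omega⟩) (hinj _ ⟨by omega, by omega⟩) hz ?_
      exact hS.braid _ ⟨by omega, by omega⟩ _ ⟨by omega, by omega⟩ (Or.inl ⟨by omega, rfl⟩)
  have hdim : ∀ n : ℕ, (n : ℤ) + 1 ≤ m → Module.finrank K (F n) + n ≤ Module.finrank K V := by
    intro n
    induction n with
    | zero =>
      intro _
      simpa using Submodule.finrank_le (F 0)
    | succ n ih =>
      intro h
      have h1 := ih (by push_cast at h; omega)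
      have h2 := Submodule.finrank_lt_finrank_of_lt (hstep n (by push_cast at h; omega))
      omega
  have := hdim (m - 1).toNat (by omega)
  omega

end Pool.Agent.Art
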