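import Pool.Agent.Lib.Art.ChainRec

/-!
# The chain: every system on `[1, m]`, `m ≥ 4`, of dimension `< m - 1` is flat

Compare Formanek's theorem on the representations of the braid groups of small dimension.
-/

namespace Pool.Agent.Art

universe v

variable {K : Type*} [Field K] {V : Type v} [AddCommGroup V] [Module K V]

/-- commuting operators with the braid relation are equal -/
private theorem cf_eq {p q : Module.End K V} (hp : Function.Surjective p)
    (hq : Function.Injective q) (hc : p * q = q * p) (hb : p * q * p = q * p * q) : p = q := by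
  refine LinearMap.ext fun w => ?_
  obtain ⟨u, rfl⟩ := hp w
  apply hq
  have h1 : p * q * p = q * p * p := by rw [hc]
  have h2 : q * p * q = q * q * p := by rw [mul_assoc, hc, ← mul_assoc]
  rw [h1, h2] at hb
  exact LinearMap.congr_fun hb u

/-- one flat edge makes a chain flat -/
theorem cf_all {a b : ℤ} (ha : 1 ≤ a) {t : ℤ → Module.End K V}
    (hinj : ∀ x ∈ Set.Icc a b, Function.Injective (t x))
    (hsurj : ∀ x ∈ Set.Icc a b, Function.Surjective (t x)) (hS : ASys hum (Set.Icc a b) t)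
    {x : ℤ} (hx : a ≤ x) (hx' : x + 1 ≤ b) (h : t x = t (x + 1)) :
    ∀ y ∈ Set.Icc a b, ∀ z ∈ Set.Icc a b, t y = t z := by
  have mem : ∀ y : ℤ, a ≤ y → y ≤ b → y ∈ Set.Icc a b := fun y h1 h2 => ⟨h1, h2⟩
  have up : ∀ y, a ≤ y → y + 2 ≤ b → t y = t (y + 1) → t (y + 1) = t (y + 2) := by
    intro y h1 h2 h3
    refine cf_eq (hsurj _ (mem _ (by omega) (by omega))) (hinj _ (mem _ (by omega) h2)) ?_
      (hS.braid _ (mem _ (by omega) (by omega)) _ (mem _ (by omega) h2)
        (Or.inl ⟨by omega, by omega⟩))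
    rw [← h3]
    exact hS.comm _ (mem _ h1 (by omega)) _ (mem _ (by omega) h2)
      (far_hum (by omega) (by omega) (Or.inl le_rfl))
  have down : ∀ y, a ≤ y → y + 2 ≤ b → t (y + 1) = t (y + 2) → t y = t (y + 1) := by
    intro y h1 h2 h3
    refine cf_eq (hsurj _ (mem _ (by omega) (by omega))) (hinj _ (mem _ (by omega) (by omega))) ?_
      (hS.braid _ (mem _ (by omega) (by omega)) _ (mem _ (by omega) (by omega))
        (Or.inl ⟨by omega, by omega⟩))
    rw [h3]
    exact hS.comm _ (mem _ h1 (by omega)) _ (mem _ (by omega) h2)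
      (far_hum (by omega) (by omega) (Or.inl le_rfl))
  have hup : ∀ k : ℕ, x + k + 1 ≤ b → t (x + k) = t (x + k + 1) := by
    intro k
    induction k with
    | zero => intro _; simpa using h
    | succ k ih =>
      intro hk
      push_cast at hk
      have h3 := up (x + k) (by omega) (by omega) (ih (by omega))
      have e1 : x + ((k + 1 : ℕ) : ℤ) = x + k + 1 := by push_cast; ring
      have e2 : x + (k : ℤ) + 1 + 1 = x + k + 2 := by ring
      rw [e1, e2]
      exact h3
  have hdown : ∀ k : ℕ, a ≤ x - k → t (x - k) = t (x - k + 1) := by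
    intro k
    induction k with
    | zero => intro _; simpa using h
    | succ k ih =>
      intro hk
      push_cast at hk
      have h4 := ih (by omega)
      have e1 : x - ((k + 1 : ℕ) : ℤ) = x - k - 1 := by push_cast; ring
      have e2 : x - (k : ℤ) - 1 + 1 = x - k := by ring
      have e3 : x - (k : ℤ) - 1 + 2 = x - k + 1 := by ring
      rw [e1]
      refine down (x - k - 1) (by omega) (by omega) ?_
      rw [e2, e3]
      exact h4
  have hedge : ∀ y, a ≤ y → y + 1 ≤ b → t y = t (y + 1) := by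
    intro y h1 h2
    by_cases h3 : x ≤ y
    · have h4 := hup (y - x).toNat (by omega)
      have e : x + ((y - x).toNat : ℤ) = y := by omega
      rwa [e] at h4
    · have h4 := hdown (x - y).toNat (by omega)
      have e : x - ((x - y).toNat : ℤ) = y := by omega
      rwa [e] at h4
  refine conn_const (conn_Icc ha) t ?_
  intro y hy z hz hyz
  rw [Set.mem_Icc] at hy hz
  rcases hum_pos (by omega) (by omega) hyz with h1 | h1
  · subst h1
    exact hedge y hy.1 hz.2
  · subst h1
    exact (hedge z hz.1 hy.2).symm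

/-- extension of flat by flat is flat, for chains of length at least four -/
theorem cf_ext {a b : ℤ} (ha : 1 ≤ a) (hab : a + 3 ≤ b) {t : ℤ → Module.End K V}
    (hinj : ∀ x ∈ Set.Icc a b, Function.Injective (t x))
    (hsurj : ∀ x ∈ Set.Icc a b, Function.Surjective (t x)) (hS : ASys hum (Set.Icc a b) t)
    (W : Submodule K V) (h1 : ∀ x ∈ Set.Icc a b, ∀ y ∈ Set.Icc a b, ∀ w ∈ W, t x w = t y w)
    (h2 : ∀ x ∈ Set.Icc a b, ∀ y ∈ Set.Icc a b, ∀ w, t x w - t y w ∈ W) :
    ∀ x ∈ Set.Icc a b, ∀ y ∈ Set.Icc a b, t x = t y := by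
  have m0 : a ∈ Set.Icc a b := ⟨le_rfl, by omega⟩
  have m1 : a + 1 ∈ Set.Icc a b := ⟨by omega, by omega⟩
  have m3 : a + 3 ∈ Set.Icc a b := ⟨by omega, by omega⟩
  have c0 := hS.comm a m0 (a + 3) m3 (far_hum (by omega) (by omega) (Or.inl (by omega)))
  have c1 := hS.comm (a + 1) m1 (a + 3) m3 (far_hum (by omega) (by omega) (Or.inl (by omega)))
  refine cf_all ha hinj hsurj hS le_rfl (by omega) (cf_eq (hsurj _ m0) (hinj _ m1) ?_
    (hS.braid _ m0 _ m1 (Or.inl ⟨by omega, rfl⟩)))
  refine LinearMap.ext fun v => ?_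
  -- `δ = t a - t (a + 1)`
  have d1 : ∀ w ∈ W, (t a - t (a + 1)) w = 0 := fun w hw => by
    rw [LinearMap.sub_apply, h1 _ m0 _ m1 w hw, sub_self]
  have e1 : (t a - t (a + 1)) (t (a + 1) v) = (t a - t (a + 1)) (t (a + 3) v) := by
    have h := d1 _ (h2 _ m1 _ m3 v)
    rw [map_sub] at h
    exact sub_eq_zero.1 h
  have e2 : (t a - t (a + 1)) (t (a + 3) v) = t (a + 3) ((t a - t (a + 1)) v) := by
    have h := LinearMap.congr_fun c0 v
    have h' := LinearMap.congr_fun c1 v
    simp only [Module.End.mul_apply] at h h'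
    rw [LinearMap.sub_apply, LinearMap.sub_apply, map_sub, h, h']
  have e3 : t (a + 3) ((t a - t (a + 1)) v) = t (a + 1) ((t a - t (a + 1)) v) :=
    h1 _ m3 _ m1 _ (h2 _ m0 _ m1 v)
  have e4 := e1.trans (e2.trans e3)
  rw [LinearMap.sub_apply, LinearMap.sub_apply, map_sub] at e4
  exact sub_left_inj.1 e4

/-- the same on a stable subspace -/
theorem cf_ext_on [FiniteDimensional K V] {a b : ℤ} (ha : 1 ≤ a) (hab : a + 3 ≤ b)
    {t : ℤ → Module.End K V}
    (hinj : ∀ x ∈ Set.Icc a b, Function.Injective (t x)) (hS : ASys hum (Set.Icc a b) t)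
    (U W : Submodule K V) (hU : ∀ x ∈ Set.Icc a b, ∀ w ∈ U, t x w ∈ U)
    (h1 : ∀ x ∈ Set.Icc a b, ∀ y ∈ Set.Icc a b, ∀ w ∈ W, t x w = t y w)
    (h2 : ∀ x ∈ Set.Icc a b, ∀ y ∈ Set.Icc a b, ∀ w ∈ U, t x w - t y w ∈ W) :
    ∀ x ∈ Set.Icc a b, ∀ y ∈ Set.Icc a b, ∀ w ∈ U, t x w = t y w := by
  obtain ⟨t', hS', ht'⟩ := hS.restrict U hU
  have hinj' : ∀ x ∈ Set.Icc a b, Function.Injective (t' x) := by
    intro x hx v w h
    apply Subtype.ext
    apply hinj x hx
    rw [← ht' x hx, ← ht' x hx, h]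
  have key := cf_ext ha hab hinj' (fun x hx => LinearMap.injective_iff_surjective.1 (hinj' x hx))
    hS' (W.comap U.subtype)
    (fun x hx y hy w hw => by
      apply Subtype.ext
      rw [ht' x hx, ht' y hy]
      exact h1 x hx y hy _ hw)
    (fun x hx y hy w => by
      show ((t' x w - t' y w : U) : V) ∈ W
      rw [Submodule.coe_sub, ht' x hx, ht' y hy]
      exact h2 x hx y hy _ w.2)
  intro x hx y hy w hw
  have h := congrArg (fun g : Module.End K U => ((g ⟨w, hw⟩ : U) : V)) (key x hx y hy)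
  simpa only [ht' x hx, ht' y hy] using h

/-- the operators of two adjacent vertices are conjugate -/
private theorem cf_rank_edge [FiniteDimensional K V]
    {a b : Module.End K V} (ha : Function.Injective a) (hb : Function.Injective b)
    (hab : a * b * a = b * a * b) (ν : K) :
    Module.finrank K (LinearMap.range (a - ν • (1 : Module.End K V))) =
      Module.finrank K (LinearMap.range (b - ν • (1 : Module.End K V))) := by
  have hsurj : Function.Surjective (a * b) := by
    intro y
    obtain ⟨y1, rfl⟩ := LinearMap.injective_iff_surjective.1 ha y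
    obtain ⟨y2, rfl⟩ := LinearMap.injective_iff_surjective.1 hb y1
    exact ⟨y2, rfl⟩
  have hinj : Function.Injective (a * b) := LinearMap.injective_iff_surjective.2 hsurj
  have e : (b - ν • (1 : Module.End K V)) * (a * b) = (a * b) * (a - ν • (1 : Module.End K V)) := by
    rw [sub_mul, mul_sub, smul_mul_assoc, one_mul, mul_smul_comm, mul_one, ← mul_assoc, ← hab]
  have h1 : (LinearMap.range (a - ν • (1 : Module.End K V))).map (a * b) =
      LinearMap.range (b - ν • (1 : Module.End K V)) := by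
    ext z
    constructor
    · rintro ⟨_, ⟨y, rfl⟩, rfl⟩
      refine ⟨(a * b) y, ?_⟩
      exact LinearMap.congr_fun e y
    · rintro ⟨y, rfl⟩
      obtain ⟨y', rfl⟩ := hsurj y
      refine ⟨(a - ν • (1 : Module.End K V)) y', ⟨y', rfl⟩, ?_⟩
      exact (LinearMap.congr_fun e y').symm
  rw [← h1]
  exact (LinearEquiv.finrank_eq (Submodule.equivMapOfInjective _ hinj _))

/-- a space of dimension at most one is spanned by any nonzero vector -/
private theorem cf_span [FiniteDimensional K V] {W : Submodule K V} (h : Module.finrank K W ≤ 1)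
    {e : V} (he : e ∈ W) (he0 : e ≠ 0) {w : V} (hw : w ∈ W) : ∃ c : K, w = c • e := by
  have h1 : Module.finrank K W = 1 := by
    have h2 : 0 < Module.finrank K W := by
      have : Nontrivial W := ⟨⟨⟨e, he⟩, 0, fun h => he0 (congrArg Subtype.val h)⟩⟩
      exact Module.finrank_pos
    omega
  obtain ⟨c, hc⟩ := exists_smul_eq_of_finrank_eq_one h1 (x := (⟨e, he⟩ : W))
    (fun h => he0 (congrArg Subtype.val h)) ⟨w, hw⟩
  exact ⟨c, (congrArg Subtype.val hc).symm⟩

/-- commuting operators of rank one with nonzero product are proportional -/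
private theorem cf_prop [FiniteDimensional K V] {A B : Module.End K V}
    (hA : Module.finrank K (LinearMap.range A) ≤ 1)
    (hB : Module.finrank K (LinearMap.range B) ≤ 1) (hc : A * B = B * A) (h : A * B ≠ 0) :
    ∃ c : K, c ≠ 0 ∧ A = c • B := by
  obtain ⟨v0, hv0⟩ : ∃ v, (A * B) v ≠ 0 := by
    by_contra hcon
    push Not at hcon
    exact h (LinearMap.ext hcon)
  obtain ⟨e, he⟩ : ∃ e, e = A (B v0) := ⟨_, rfl⟩
  have he0 : e ≠ 0 := by rw [he]; exact hv0
  have heA : e ∈ LinearMap.range A := ⟨B v0, he.symm⟩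
  have heB' : e = B (A v0) := by rw [he]; exact LinearMap.congr_fun hc v0
  have heB : e ∈ LinearMap.range B := ⟨A v0, heB'.symm⟩
  have hAw : ∀ w, ∃ c : K, A w = c • e := fun w => cf_span hA heA he0 ⟨w, rfl⟩
  have hBw : ∀ w, ∃ c : K, B w = c • e := fun w => cf_span hB heB he0 ⟨w, rfl⟩
  choose f hf using hAw
  choose g hg using hBw
  have h1 : g v0 * f e = 1 := by
    have h2 : e = (g v0 * f e) • e := by
      conv_lhs => rw [he, hg, map_smul, hf, smul_smul]
    have h3 : (g v0 * f e - 1) • e = 0 := by rw [sub_smul, one_smul, ← h2, sub_self]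
    exact sub_eq_zero.1 ((smul_eq_zero.1 h3).resolve_right he0)
  have h2 : f v0 * g e = 1 := by
    have h2 : e = (f v0 * g e) • e := by
      conv_lhs => rw [heB', hf, map_smul, hg, smul_smul]
    have h3 : (f v0 * g e - 1) • e = 0 := by rw [sub_smul, one_smul, ← h2, sub_self]
    exact sub_eq_zero.1 ((smul_eq_zero.1 h3).resolve_right he0)
  have hfe : f e ≠ 0 := right_ne_zero_of_mul_eq_one h1
  have hge : g e ≠ 0 := right_ne_zero_of_mul_eq_one h2
  refine ⟨f e / g e, div_ne_zero hfe hge, LinearMap.ext fun w => ?_⟩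
  have h3 := LinearMap.congr_fun hc w
  simp only [Module.End.mul_apply] at h3
  rw [hg w, hf w, map_smul, map_smul, hf e, hg e, smul_smul, smul_smul] at h3
  have h4 : g w * f e = f w * g e := by
    have h5 : (g w * f e - f w * g e) • e = 0 := by rw [sub_smul, h3, sub_self]
    exact sub_eq_zero.1 ((smul_eq_zero.1 h5).resolve_right he0)
  show A w = (f e / g e) • B w
  rw [hf, hg, smul_smul]
  congr 1
  field_simp
  rw [← h4]
  ring

/-- a chain which is not flat, with one operator of rank at most one from a scalar -/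
theorem cf_rank [FiniteDimensional K V] {a b : ℤ} (ha : 1 ≤ a) (hab : a + 3 ≤ b)
    {t : ℤ → Module.End K V}
    (hinj : ∀ x ∈ Set.Icc a b, Function.Injective (t x)) (hS : ASys hum (Set.Icc a b) t)
    (hnf : ¬ ∀ x ∈ Set.Icc a b, ∀ y ∈ Set.Icc a b, t x = t y) {x₀ : ℤ} (hx₀ : x₀ ∈ Set.Icc a b)
    {ν : K} (hr : Module.finrank K (LinearMap.range (t x₀ - ν • (1 : Module.End K V))) ≤ 1) :
    b - a ≤ (Module.finrank K V : ℤ) := by
  have mem : ∀ y : ℤ, a ≤ y → y ≤ b → y ∈ Set.Icc a b := fun y h1 h2 => ⟨h1, h2⟩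
  have hsurj : ∀ x ∈ Set.Icc a b, Function.Surjective (t x) := fun x hx =>
    LinearMap.injective_iff_surjective.1 (hinj x hx)
  have hrk : ∀ x ∈ Set.Icc a b,
      Module.finrank K (LinearMap.range (t x - ν • (1 : Module.End K V))) ≤ 1 := by
    intro x hx
    have h := conn_const (conn_Icc ha)
      (fun x => Module.finrank K (LinearMap.range (t x - ν • (1 : Module.End K V))))
      (fun y hy z hz hyz => cf_rank_edge (hinj y hy) (hinj z hz) (hS.braid y hy z hz hyz) ν)
      x hx x₀ hx₀
    exact (le_of_eq h).trans hr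
  have hne : ∀ x, a ≤ x → x + 1 ≤ b → t x ≠ t (x + 1) := fun x h1 h2 h =>
    hnf (cf_all ha hinj hsurj hS h1 h2 h)
  have m0 := mem a le_rfl (by omega)
  have m1 := mem (a + 1) (by omega) (by omega)
  have hν : ν ≠ 0 := by
    rintro rfl
    have h1 := hrk a m0
    rw [zero_smul, sub_zero, LinearMap.range_eq_top.2 (hsurj a m0), finrank_top] at h1
    have hcm : ∀ p q : Module.End K V, p * q = q * p := by
      intro p q
      by_cases hV : ∃ v : V, v ≠ 0
      · obtain ⟨v, hv⟩ := hV
        have hs : ∀ w : V, ∃ c : K, w = c • v := fun w =>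
          cf_span (W := ⊤) (by rw [finrank_top]; exact h1) Submodule.mem_top hv Submodule.mem_top
        obtain ⟨c, hc⟩ := hs (p v)
        obtain ⟨d, hd⟩ := hs (q v)
        refine LinearMap.ext fun w => ?_
        obtain ⟨k, rfl⟩ := hs w
        simp only [Module.End.mul_apply, map_smul]
        rw [hc, hd, map_smul, map_smul, hc, hd, smul_smul, smul_smul, smul_smul, smul_smul]
        congr 1
        ring
      · push Not at hV
        refine LinearMap.ext fun w => ?_
        rw [hV ((p * q) w), hV ((q * p) w)]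
    exact hne a le_rfl (by omega) (cf_eq (hsurj a m0) (hinj _ m1) (hcm _ _)
      (hS.braid a m0 _ m1 (Or.inl ⟨ha, rfl⟩)))
  -- far products
  have hfar' : ∀ x y, a ≤ x → x + 2 ≤ y → y ≤ b →
      (t x - ν • (1 : Module.End K V)) * (t y - ν • (1 : Module.End K V)) = 0 := by
    intro x y h1 h2 h3
    by_contra hcon
    have mx := mem x h1 (by omega)
    have my := mem y (by omega) h3
    have cxy := hS.comm x mx y my (far_hum (by omega) (by omega) (Or.inl h2))
    have hc : (t x - ν • (1 : Module.End K V)) * (t y - ν • (1 : Module.End K V)) =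
        (t y - ν • (1 : Module.End K V)) * (t x - ν • (1 : Module.End K V)) := by
      rw [sub_mul, mul_sub, mul_sub, sub_mul, mul_sub, mul_sub, cxy]
      simp only [smul_mul_assoc, one_mul, mul_smul_comm, mul_one]
      abel
    obtain ⟨c, hc0, hcc⟩ := cf_prop (hrk x mx) (hrk y my) hc hcon
    -- an operator which commutes with one of the two commutes with the other
    have k1 : ∀ S : Module.End K V, S * t y = t y * S → S * t x = t x * S := by
      intro S h
      have e : t x = ν • 1 + c • (t y - ν • 1) := by rw [← hcc]; abel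
      rw [e, mul_add, add_mul, mul_smul_comm, smul_mul_assoc, mul_smul_comm, smul_mul_assoc,
        mul_sub, sub_mul, h, mul_smul_comm, smul_mul_assoc]
      simp only [mul_one, one_mul]
    have k2 : ∀ S : Module.End K V, S * t x = t x * S → S * t y = t y * S := by
      intro S h
      have e0 : t y - ν • (1 : Module.End K V) = c⁻¹ • (t x - ν • 1) := by
        rw [hcc, smul_smul, inv_mul_cancel₀ hc0, one_smul]
      have e : t y = ν • 1 + c⁻¹ • (t x - ν • 1) := by rw [← e0]; abel
      rw [e, mul_add, add_mul, mul_smul_comm, smul_mul_assoc, mul_smul_comm, smul_mul_assoc,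
        mul_sub, sub_mul, h, mul_smul_comm, smul_mul_assoc]
      simp only [mul_one, one_mul]
    by_cases h4 : x + 3 ≤ y
    · have mz := mem (x + 1) (by omega) (by omega)
      have h5 := k1 (t (x + 1)) (hS.comm _ mz y my (far_hum (by omega) (by omega)
        (Or.inl (by omega))))
      exact hne x h1 (by omega) (cf_eq (hsurj x mx) (hinj _ mz) h5.symm
        (hS.braid x mx _ mz (Or.inl ⟨by omega, rfl⟩)))
    · have h6 : y = x + 2 := by omega
      subst h6
      by_cases h7 : a + 1 ≤ x
      · have mz := mem (x - 1) (by omega) (by omega)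
        have h5 := k1 (t (x - 1)) (hS.comm _ mz _ my (far_hum (by omega) (by omega)
          (Or.inl (by omega))))
        have h8 := hne (x - 1) (by omega) (by omega)
        rw [sub_add_cancel] at h8
        exact h8 (cf_eq (hsurj _ mz) (hinj x mx) h5
          (hS.braid _ mz x mx (Or.inl ⟨by omega, by omega⟩)))
      · have mz := mem (x + 2 + 1) (by omega) (by omega)
        have h5 := k2 (t (x + 2 + 1)) (hS.comm _ mz _ mx (far_hum (by omega) (by omega)
          (Or.inr (by omega))))
        exact hne (x + 2) (by omega) (by omega) (cf_eq (hsurj _ my) (hinj _ mz) h5.symm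
          (hS.braid _ my _ mz (Or.inl ⟨by omega, rfl⟩)))
  -- the chain `[1, m]`, scaled
  obtain ⟨s, hs⟩ : ∃ s : ℤ → Module.End K V, s = fun x => ν⁻¹ • t (x + (a - 1)) := ⟨_, rfl⟩
  have hνi : ν⁻¹ ≠ 0 := inv_ne_zero hν
  have hsx : ∀ x, s x = ν⁻¹ • t (x + (a - 1)) := fun x => by rw [hs]
  have hmem : ∀ z ∈ Set.Icc (1 : ℤ) (b - a + 1), z + (a - 1) ∈ Set.Icc a b := by
    intro z hz
    rw [Set.mem_Icc] at hz ⊢
    omega
  have hd := chain_dim (m := b - a + 1) (s := s) (by omega) ?_ ⟨?_, ?_⟩ ?_ ?_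
  · omega
  · intro z hz v w h
    rw [hsx] at h
    exact hinj _ (hmem z hz) (smul_right_injective V hνi h)
  · intro z hz w hw hzw
    rw [hsx, hsx, smul_mul_smul_comm, smul_mul_smul_comm, hS.comm _ (hmem z hz) _ (hmem w hw)]
    rw [Set.mem_Icc] at hz hw
    unfold Far hum at hzw ⊢
    omega
  · intro z hz w hw hzw
    rw [hsx, hsx, smul_mul_smul_comm, smul_mul_smul_comm, smul_mul_smul_comm, smul_mul_smul_comm,
      hS.braid _ (hmem z hz) _ (hmem w hw)]
    rw [Set.mem_Icc] at hz hw
    unfold hum at hzw ⊢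
    omega
  · intro x h1 h2 h
    rw [hsx, hsx] at h
    have h3 := hne (x + (a - 1)) (by omega) (by omega)
    apply h3
    have e : x + (a - 1) + 1 = x + 1 + (a - 1) := by ring
    rw [e]
    refine LinearMap.ext fun w => ?_
    exact smul_right_injective V hνi (LinearMap.congr_fun h w)
  · intro x hx y hy hxy
    have e : ∀ x, s x - 1 = ν⁻¹ • (t (x + (a - 1)) - ν • (1 : Module.End K V)) := by
      intro x
      rw [hsx, smul_sub, smul_smul, inv_mul_cancel₀ hν, one_smul]
    rw [e, e, smul_mul_smul_comm]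
    rw [Set.mem_Icc] at hx hy
    have h0 : (t (x + (a - 1)) - ν • (1 : Module.End K V)) *
        (t (y + (a - 1)) - ν • (1 : Module.End K V)) = 0 := by
      by_cases h1 : x + 2 ≤ y
      · exact hfar' _ _ (by omega) (by omega) (by omega)
      · have h2 : y + 2 ≤ x := by
          unfold Far hum at hxy
          omega
        have h3 := hfar' (y + (a - 1)) (x + (a - 1)) (by omega) (by omega) (by omega)
        have cxy := hS.comm (x + (a - 1)) (mem _ (by omega) (by omega)) (y + (a - 1))
          (mem _ (by omega) (by omega)) (far_hum (by omega) (by omega) (Or.inr (by omega)))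
        have h4 : (t (x + (a - 1)) - ν • (1 : Module.End K V)) *
            (t (y + (a - 1)) - ν • (1 : Module.End K V)) =
            (t (y + (a - 1)) - ν • (1 : Module.End K V)) *
            (t (x + (a - 1)) - ν • (1 : Module.End K V)) := by
          rw [sub_mul, mul_sub, mul_sub, sub_mul, mul_sub, mul_sub, cxy]
          simp only [smul_mul_assoc, one_mul, mul_smul_comm, mul_one]
          abel
        rw [h4, h3]
    rw [h0, smul_zero]

/-- rank and kernel -/
private theorem cf_rk [FiniteDimensional K V] (T : Module.End K V) {n : ℕ}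
    (h : Module.finrank K V ≤ Module.finrank K (LinearMap.ker T) + n) :
    Module.finrank K (LinearMap.range T) ≤ n := by
  have := LinearMap.finrank_range_add_finrank_ker T
  omega

private theorem cf_ker_pos [FiniteDimensional K V] {T : Module.End K V} {w : V} (hw : w ≠ 0)
    (h : T w = 0) : 1 ≤ Module.finrank K (LinearMap.ker T) := by
  have : Nontrivial (LinearMap.ker T) :=
    ⟨⟨⟨w, h⟩, 0, fun h => hw (congrArg Subtype.val h)⟩⟩
  exact Module.finrank_pos

private theorem cf_ker_mem {T : Module.End K V} {μ : K} {w : V} :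
    w ∈ LinearMap.ker (T - μ • (1 : Module.End K V)) ↔ T w = μ • w := by
  rw [LinearMap.mem_ker, LinearMap.sub_apply, sub_eq_zero]
  rfl

private theorem cf_eigen [IsAlgClosed K] [FiniteDimensional K V] [Nontrivial V]
    (T : Module.End K V) : ∃ (μ : K) (w : V), w ≠ 0 ∧ T w = μ • w := by
  obtain ⟨μ, hμ⟩ := Module.End.exists_eigenvalue T
  obtain ⟨w, hw⟩ := hμ.exists_hasEigenvector
  exact ⟨μ, w, hw.2, hw.apply_eq_smul⟩

/-- length four -/
private theorem cf_four [IsAlgClosed K] : ANab.{v} K hum (Set.Icc 1 (4 : ℤ)) 3 := by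
  intro V _ _ _ t hinj hS hr
  by_contra hnf
  have hnt : Nontrivial V := by
    by_contra hcon
    rw [not_nontrivial_iff_subsingleton] at hcon
    exact hnf fun x _ y _ => LinearMap.ext fun w => Subsingleton.elim _ _
  obtain ⟨μ, w, hw0, hw⟩ := cf_eigen (t 1)
  have h1 := cf_ker_pos (T := t 1 - μ • (1 : Module.End K V)) hw0
    (LinearMap.mem_ker.1 (cf_ker_mem.2 hw))
  have h2 := cf_rk (n := 1) (t 1 - μ • (1 : Module.End K V)) (by omega)
  have h3 := cf_rank (a := 1) (b := 4) le_rfl (by omega) hinj hS hnf (x₀ := 1)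
    ⟨by omega, by omega⟩ h2
  omega

/-- length five -/
private theorem cf_five [IsAlgClosed K] : ANab.{v} K hum (Set.Icc 1 (5 : ℤ)) 4 := by
  intro V _ _ _ t hinj hS hr
  by_contra hnf
  have mem : ∀ y : ℤ, 1 ≤ y → y ≤ 5 → y ∈ Set.Icc (1 : ℤ) 5 := fun y h1 h2 => ⟨h1, h2⟩
  have hsurj : ∀ x ∈ Set.Icc (1 : ℤ) 5, Function.Surjective (t x) := fun x hx =>
    LinearMap.injective_iff_surjective.1 (hinj x hx)
  have hnt : Nontrivial V := by
    by_contra hcon
    rw [not_nontrivial_iff_subsingleton] at hcon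
    exact hnf fun x _ y _ => LinearMap.ext fun w => Subsingleton.elim _ _
  have hrank : ∀ x₀ ∈ Set.Icc (1 : ℤ) 5, ∀ ν : K,
      2 ≤ Module.finrank K (LinearMap.ker (t x₀ - ν • (1 : Module.End K V))) → False := by
    intro x₀ hx₀ ν h
    have h2 := cf_rk (n := 1) (t x₀ - ν • (1 : Module.End K V)) (by omega)
    have h3 := cf_rank (a := 1) (b := 5) le_rfl (by omega) hinj hS hnf hx₀ h2
    omega
  obtain ⟨μ, w, hw0, hw⟩ := cf_eigen (t 1)
  have hwk : w ∈ LinearMap.ker (t 1 - μ • (1 : Module.End K V)) := cf_ker_mem.2 hw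
  have hW1 : Module.finrank K (LinearMap.ker (t 1 - μ • (1 : Module.End K V))) ≤ 1 := by
    by_contra hcon
    exact hrank 1 (mem 1 (by omega) (by omega)) μ (by omega)
  -- `t 3, t 4, t 5` act on `w` by scalars
  have hα : ∀ x : ℤ, 3 ≤ x → x ≤ 5 → ∃ α : K, t x w = α • w := by
    intro x h1 h2
    refine cf_span hW1 hwk hw0 (cf_ker_mem.2 ?_)
    have c := LinearMap.congr_fun (hS.comm 1 (mem 1 (by omega) (by omega)) x
      (mem x (by omega) h2) (far_hum (by omega) (by omega) (Or.inl (by omega)))) w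
    simp only [Module.End.mul_apply] at c
    rw [c, hw, map_smul]
  have hbr : ∀ x ∈ Set.Icc (1 : ℤ) 5, ∀ y ∈ Set.Icc (1 : ℤ) 5, hum x y → ∀ α β : K,
      t x w = α • w → t y w = β • w → α = β := by
    intro x hx y hy hxy α β h1 h2
    have c := LinearMap.congr_fun (hS.braid x hx y hy hxy) w
    simp only [Module.End.mul_apply, h1, h2, map_smul, smul_smul] at c
    have hα0 : α ≠ 0 := by
      rintro rfl
      rw [zero_smul] at h1
      exact hw0 (hinj x hx (by rw [h1, map_zero]))
    have hβ0 : β ≠ 0 := by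
      rintro rfl
      rw [zero_smul] at h2
      exact hw0 (hinj y hy (by rw [h2, map_zero]))
    have h3 : (α * β * (α - β)) • w = 0 := by
      have e : α * β * (α - β) = α * β * α - β * α * β := by ring
      rw [e, sub_smul, sub_eq_zero]
      simpa only [mul_assoc, mul_comm, mul_left_comm] using c
    rcases smul_eq_zero.1 h3 with h4 | h4
    · rcases mul_eq_zero.1 h4 with h5 | h5
      · exact absurd h5 (mul_ne_zero hα0 hβ0)
      · exact sub_eq_zero.1 h5
    · exact absurd h4 hw0
  obtain ⟨α, h4⟩ := hα 4 (by omega) (by omega)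
  obtain ⟨α3, h3⟩ := hα 3 (by omega) (by omega)
  have h34 := hbr 3 (mem 3 (by omega) (by omega)) 4 (mem 4 (by omega) (by omega))
    (Or.inl ⟨by omega, by omega⟩) _ _ h3 h4
  subst h34
  have c42 := LinearMap.congr_fun (hS.comm 4 (mem 4 (by omega) (by omega)) 2
    (mem 2 (by omega) (by omega)) (far_hum (by omega) (by omega) (Or.inr (by omega)))) w
  simp only [Module.End.mul_apply] at c42
  rw [h4, map_smul] at c42
  have hW4 : Module.finrank K (LinearMap.ker (t 4 - α3 • (1 : Module.End K V))) ≤ 1 := by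
    by_contra hcon
    exact hrank 4 (mem 4 (by omega) (by omega)) α3 (by omega)
  obtain ⟨β, hβ⟩ := cf_span hW4 (cf_ker_mem.2 h4) hw0 (cf_ker_mem.2 c42)
  -- `w` is a common eigenvector of `t 1, ..., t 4`
  have h23 := hbr 2 (mem 2 (by omega) (by omega)) 3 (mem 3 (by omega) (by omega))
    (Or.inl ⟨by omega, by omega⟩) _ _ hβ h3
  have h12 := hbr 1 (mem 1 (by omega) (by omega)) 2 (mem 2 (by omega) (by omega))
    (Or.inl ⟨by omega, by omega⟩) _ _ hw hβ
  have hall : ∀ x ∈ Set.Icc (1 : ℤ) 4, t x w = α3 • w := by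
    intro x hx
    rw [Set.mem_Icc] at hx
    have h : x = 1 ∨ x = 2 ∨ x = 3 ∨ x = 4 := by omega
    rcases h with rfl | rfl | rfl | rfl
    · rw [hw, h12, h23]
    · rw [hβ, h23]
    · exact h3
    · exact h4
  have sub4 : Set.Icc (1 : ℤ) 4 ⊆ Set.Icc 1 5 := fun x hx => ⟨hx.1, by have := hx.2; omega⟩
  have hst : ∀ x ∈ Set.Icc (1 : ℤ) 4, ∀ u ∈ (K ∙ w), t x u ∈ (K ∙ w) := by
    intro x hx u hu
    obtain ⟨c, rfl⟩ := Submodule.mem_span_singleton.1 hu
    rw [map_smul, hall x hx]
    exact Submodule.smul_mem _ _ (Submodule.smul_mem _ _ (Submodule.mem_span_singleton_self w))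
  obtain ⟨t', hS', hinj', ht'⟩ := (hS.mono sub4).quot (fun x hx => hinj x (sub4 hx)) (K ∙ w) hst
  have hq : Module.finrank K (V ⧸ (K ∙ w)) < 3 := by
    have h5 := Submodule.finrank_quotient_add_finrank (K ∙ w)
    rw [finrank_span_singleton hw0] at h5
    omega
  have hflat := cf_four (V ⧸ (K ∙ w)) t' hinj' hS' hq
  have hfl := cf_ext (a := 1) (b := 4) le_rfl (by omega) (fun x hx => hinj x (sub4 hx))
    (fun x hx => hsurj x (sub4 hx)) (hS.mono sub4) (K ∙ w)
    (fun x hx y hy u hu => by
      obtain ⟨c, rfl⟩ := Submodule.mem_span_singleton.1 hu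
      rw [map_smul, map_smul, hall x hx, hall y hy])
    (fun x hx y hy u => by
      rw [← Submodule.Quotient.mk_eq_zero, ← Submodule.mkQ_apply, map_sub, ← ht' x hx,
        ← ht' y hy, hflat x hx y hy, sub_self])
  exact hnf (cf_all le_rfl hinj hsurj hS (x := 1) le_rfl (by omega)
    (hfl 1 ⟨by omega, by omega⟩ (1 + 1) ⟨by omega, by omega⟩))

/-- every system on `[1, m]`, `m ≥ 4`, of dimension `< m - 1` is flat -/
theorem chain_four [IsAlgClosed K] : ∀ m : ℕ, 4 ≤ m →
    ANab.{v} K hum (Set.Icc 1 (m : ℤ)) (m - 1) := by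
  intro m
  induction m using Nat.strong_induction_on with
  | _ m ih =>
    intro hm
    by_cases hm4 : m = 4
    · subst hm4
      exact cf_four
    by_cases hm5 : m = 5
    · subst hm5
      exact cf_five
    have hm6 : 6 ≤ m := by omega
    have hN3 : ANab.{v} K hum (Set.Icc 3 (m : ℤ)) (m - 2 - 1) :=
      anab_shift (ih (m - 2) (by omega) (by omega)) (by omega) (by omega)
    have hN1 := ih (m - 1) (by omega) (by omega)
    intro V _ _ _ t hinj hS hr
    by_contra hnf
    have mem : ∀ y : ℤ, 1 ≤ y → y ≤ m → y ∈ Set.Icc (1 : ℤ) m := fun y h1 h2 => ⟨h1, h2⟩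
    have hsurj : ∀ x ∈ Set.Icc (1 : ℤ) m, Function.Surjective (t x) := fun x hx =>
      LinearMap.injective_iff_surjective.1 (hinj x hx)
    have hnt : Nontrivial V := by
      by_contra hcon
      rw [not_nontrivial_iff_subsingleton] at hcon
      exact hnf fun x _ y _ => LinearMap.ext fun w => Subsingleton.elim _ _
    have hbad : ∀ x : ℤ, 1 ≤ x → x + 1 ≤ m → t x = t (x + 1) → False := fun x h1 h2 h =>
      hnf (cf_all le_rfl hinj hsurj hS h1 h2 h)
    -- the dimension is `m - 2`
    have hdim : m - 2 ≤ Module.finrank K V := by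
      by_contra hcon
      have sub1 : Set.Icc (1 : ℤ) ((m - 1 : ℕ) : ℤ) ⊆ Set.Icc (1 : ℤ) m := fun x hx =>
        ⟨hx.1, by have := hx.2; omega⟩
      exact hbad 1 le_rfl (by omega) (hN1 V t (fun x hx => hinj x (sub1 hx)) (hS.mono sub1)
        (by omega) 1 ⟨by omega, by omega⟩ (1 + 1) ⟨by omega, by omega⟩)
    have hrank : ∀ ν : K, m - 3 ≤
        Module.finrank K (LinearMap.ker (t 1 - ν • (1 : Module.End K V))) → False := by
      intro ν h
      have h2 := cf_rk (n := 1) (t 1 - ν • (1 : Module.End K V)) (by omega)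
      have h3 := cf_rank (a := 1) (b := m) le_rfl (by omega) hinj hS hnf
        (mem 1 le_rfl (by omega)) h2
      omega
    have sub3 : Set.Icc (3 : ℤ) m ⊆ Set.Icc (1 : ℤ) m := fun x hx => ⟨by have := hx.1; omega, hx.2⟩
    have hinj3 : ∀ x ∈ Set.Icc (3 : ℤ) m, Function.Injective (t x) := fun x hx => hinj x (sub3 hx)
    have hS3 := hS.mono sub3
    have hc : ∀ x ∈ Set.Icc (3 : ℤ) m, ∀ v, t 1 (t x v) = t x (t 1 v) := by
      intro x hx v
      have h1 := hx.1
      exact LinearMap.congr_fun (hS.comm 1 (mem 1 le_rfl (by omega)) x (sub3 hx)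
        (far_hum (by omega) (by omega) (Or.inl (by omega)))) v
    have hcν : ∀ ν : K, ∀ x ∈ Set.Icc (3 : ℤ) m, ∀ v,
        (t 1 - ν • (1 : Module.End K V)) (t x v) = t x ((t 1 - ν • (1 : Module.End K V)) v) := by
      intro ν x hx v
      show t 1 (t x v) - ν • t x v = t x (t 1 v - ν • v)
      rw [hc x hx, map_sub, map_smul]
    -- the chain `[3, m]` is not flat
    have hnf3 : ¬ ∀ x ∈ Set.Icc (3 : ℤ) m, ∀ y ∈ Set.Icc (3 : ℤ) m, t x = t y := fun h =>
      hbad 3 (by omega) (by omega) (h 3 ⟨by omega, by omega⟩ (3 + 1) ⟨by omega, by omega⟩)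
    obtain ⟨μ, w, hw0, hw⟩ := cf_eigen (t 1)
    obtain ⟨W, hWdef⟩ : ∃ W, W = LinearMap.ker (t 1 - μ • (1 : Module.End K V)) := ⟨_, rfl⟩
    have hWlt : Module.finrank K W < m - 2 - 1 := by
      by_contra hcon
      rw [hWdef] at hcon
      exact hrank μ (by omega)
    have hWpos : 1 ≤ Module.finrank K W := by
      rw [hWdef]
      exact cf_ker_pos hw0 (LinearMap.mem_ker.1 (cf_ker_mem.2 hw))
    have hWst : ∀ x ∈ Set.Icc (3 : ℤ) m, ∀ u ∈ W, t x u ∈ W := by
      intro x hx u hu
      rw [hWdef, LinearMap.mem_ker] at hu ⊢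
      rw [hcν μ x hx, hu, map_zero]
    have hWflat := hN3.flat_on hinj3 hS3 W hWst hWlt
    -- the image
    obtain ⟨U, hUdef⟩ : ∃ U, U = LinearMap.range (t 1 - μ • (1 : Module.End K V)) := ⟨_, rfl⟩
    have hsum : Module.finrank K U + Module.finrank K W = Module.finrank K V := by
      rw [hUdef, hWdef]
      exact LinearMap.finrank_range_add_finrank_ker _
    have hUst : ∀ x ∈ Set.Icc (3 : ℤ) m, ∀ u ∈ U, t x u ∈ U := by
      intro x hx u hu
      rw [hUdef] at hu ⊢
      obtain ⟨v, rfl⟩ := hu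
      exact ⟨t x v, hcν μ x hx v⟩
    -- `U` is not flat
    have hUnf : ¬ ∀ x ∈ Set.Icc (3 : ℤ) m, ∀ y ∈ Set.Icc (3 : ℤ) m, ∀ u ∈ U, t x u = t y u := by
      intro hU
      refine hnf3 (cf_ext (a := 3) (b := m) (by omega) (by omega) hinj3
        (fun x hx => hsurj x (sub3 hx)) hS3 W hWflat ?_)
      intro x hx y hy v
      rw [hWdef, LinearMap.mem_ker, map_sub, hcν μ x hx, hcν μ y hy, sub_eq_zero]
      exact hU x hx y hy _ (by rw [hUdef]; exact ⟨v, rfl⟩)
    -- an eigenvector in `U`
    have hUpos : Nontrivial U := by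
      by_contra hcon
      rw [not_nontrivial_iff_subsingleton] at hcon
      apply hUnf
      intro x _ y _ u hu
      have h1 : (⟨u, hu⟩ : U) = 0 := Subsingleton.elim _ _
      have h2 : u = 0 := congrArg Subtype.val h1
      rw [h2, map_zero, map_zero]
    have hU1 : ∀ u ∈ U, t 1 u ∈ U := by
      intro u hu
      rw [hUdef] at hu ⊢
      obtain ⟨v, rfl⟩ := hu
      refine ⟨t 1 v, ?_⟩
      show t 1 (t 1 v) - μ • t 1 v = t 1 (t 1 v - μ • v)
      rw [map_sub, map_smul]
    obtain ⟨μ', u0, hu0, hu⟩ := cf_eigen ((t 1).restrict hU1)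
    have hu' : t 1 (u0 : V) = μ' • (u0 : V) := congrArg Subtype.val hu
    have hu0' : (u0 : V) ≠ 0 := fun h => hu0 (Subtype.ext h)
    obtain ⟨g, hg⟩ : ∃ g : U →ₗ[K] V, g = (t 1 - μ' • (1 : Module.End K V)).comp U.subtype :=
      ⟨_, rfl⟩
    have hgx : ∀ u : U, g u = (t 1 - μ' • (1 : Module.End K V)) (u : V) := fun u => by rw [hg]; rfl
    have hsum' : Module.finrank K (LinearMap.range g) + Module.finrank K (LinearMap.ker g) =
        Module.finrank K U := LinearMap.finrank_range_add_finrank_ker g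
    have hkpos : 1 ≤ Module.finrank K (LinearMap.ker g) := by
      have : Nontrivial (LinearMap.ker g) := by
        refine ⟨⟨⟨u0, ?_⟩, 0, fun h => hu0 (congrArg Subtype.val h)⟩⟩
        rw [LinearMap.mem_ker, hgx, ← LinearMap.mem_ker]
        exact cf_ker_mem.2 hu'
      exact Module.finrank_pos
    obtain ⟨W', hW'def⟩ : ∃ W', W' = (LinearMap.ker g).map U.subtype := ⟨_, rfl⟩
    have hW'fin : Module.finrank K W' = Module.finrank K (LinearMap.ker g) := by
      rw [hW'def]
      exact (LinearEquiv.finrank_eq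
        (Submodule.equivMapOfInjective _ U.injective_subtype (LinearMap.ker g))).symm
    have hW'mem : ∀ v, v ∈ W' ↔ v ∈ U ∧ t 1 v = μ' • v := by
      intro v
      rw [hW'def, Submodule.mem_map]
      constructor
      · rintro ⟨u, hu, rfl⟩
        rw [LinearMap.mem_ker, hgx, ← LinearMap.mem_ker, cf_ker_mem] at hu
        exact ⟨u.2, hu⟩
      · rintro ⟨h1, h2⟩
        refine ⟨⟨v, h1⟩, ?_, rfl⟩
        rw [LinearMap.mem_ker, hgx, ← LinearMap.mem_ker, cf_ker_mem]
        exact h2
    have hW'le : Module.finrank K W' ≤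
        Module.finrank K (LinearMap.ker (t 1 - μ' • (1 : Module.End K V))) :=
      Submodule.finrank_mono fun v hv => cf_ker_mem.2 ((hW'mem v).1 hv).2
    have hW'lt : Module.finrank K W' < m - 2 - 1 := by
      by_contra hcon
      exact hrank μ' (by omega)
    have hW'st : ∀ x ∈ Set.Icc (3 : ℤ) m, ∀ u ∈ W', t x u ∈ W' := by
      intro x hx u hu
      obtain ⟨h1, h2⟩ := (hW'mem u).1 hu
      refine (hW'mem _).2 ⟨hUst x hx u h1, ?_⟩
      rw [hc x hx, h2, map_smul]
    have hW'flat := hN3.flat_on hinj3 hS3 W' hW'st hW'lt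
    have hRst : ∀ x ∈ Set.Icc (3 : ℤ) m, ∀ u ∈ LinearMap.range g, t x u ∈ LinearMap.range g := by
      rintro x hx _ ⟨u, rfl⟩
      refine ⟨⟨t x u, hUst x hx u u.2⟩, ?_⟩
      rw [hgx, hgx]
      exact hcν μ' x hx u
    have hRflat := hN3.flat_on hinj3 hS3 (LinearMap.range g) hRst (by omega)
    apply hUnf
    refine cf_ext_on (a := 3) (b := m) (by omega) (by omega) hinj3 hS3 U W' hUst hW'flat ?_
    intro x hx y hy v hv
    refine (hW'mem _).2 ⟨U.sub_mem (hUst x hx v hv) (hUst y hy v hv), ?_⟩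
    have h1 := hRflat x hx y hy _ ⟨⟨v, hv⟩, rfl⟩
    rw [hgx, ← hcν μ' x hx, ← hcν μ' y hy] at h1
    rw [← cf_ker_mem, LinearMap.mem_ker, map_sub, h1, sub_self]

/-- compare `chain_nab` and `chain_nab2` -/
theorem chain_nab4 [IsAlgClosed K] {L : ℕ} (hL : 4 ≤ L) {a b : ℤ} (ha : 1 ≤ a)
    (hab : b = a + L - 1) : ANab.{v} K hum (Set.Icc a b) (L - 1) :=
  anab_shift (chain_four L hL) ha hab

end Pool.Agent.Art
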