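import Pool.Agent.Lib.Art.AMixRank
import Pool.Agent.Lib.Art.ChainFour

/-! # (Q) from the rank of one operator -/

namespace Pool.Agent.Art

universe v

variable {K : Type*} [Field K]

/-- the operators of two adjacent vertices are conjugate -/
theorem rank_edge {V : Type*} [AddCommGroup V] [Module K V] [FiniteDimensional K V]
    {a b : Module.End K V} (ha : Function.Injective a) (hb : Function.Injective b)
    (hab : a * b * a = b * a * b) (ν : K) :
    Module.finrank K (LinearMap.range (a - ν • (1 : Module.End K V))) =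
      Module.finrank K (LinearMap.range (b - ν • (1 : Module.End K V))) := by
  have hsurj : Function.Surjective (a * b) := by
    intro y
    obtain ⟨y1, rfl⟩ := LinearMap.injective_iff_surjective.1 ha y
    obtain ⟨y2, rfl⟩ := LinearMap.injective_iff_surjective.1 hb y1
    exact ⟨y2, rfl⟩
  have hinj : Function.Injective (a * b) := LinearMap.injective_iff_surjective.2 hsurj
  have e : (b - ν • (1 : Module.End K V)) * (a * b) = (a * b) * (a - ν • (1 : Module.End K V)) := by
    rw [sub_mul, mul_sub, smul_mul_assoc, one_mul, mul_smul_comm, mul_one, ← mul_assoc, ← hab]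
  have h1 : (LinearMap.range (a - ν • (1 : Module.End K V))).map (a * b) =
      LinearMap.range (b - ν • (1 : Module.End K V)) := by
    ext z
    constructor
    · rintro ⟨_, ⟨y, rfl⟩, rfl⟩
      refine ⟨(a * b) y, ?_⟩
      exact LinearMap.congr_fun e y
    · rintro ⟨y, rfl⟩
      obtain ⟨y', rfl⟩ := hsurj y
      refine ⟨(a - ν • (1 : Module.End K V)) y', ⟨y', rfl⟩, ?_⟩
      exact (LinearMap.congr_fun e y').symm
  rw [← h1]
  exact (LinearEquiv.finrank_eq (Submodule.equivMapOfInjective _ hinj _))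

/-- (Q) if one operator of the tree is near a scalar -/
theorem qq_of_rank [IsAlgClosed K] {V : Type v} [AddCommGroup V] [Module K V]
    [FiniteDimensional K V] {m : ℤ} (hm : 11 ≤ m) {t : ℤ → Module.End K V}
    (hinj : ∀ x ∈ Set.Icc 0 m, Function.Injective (t x)) (hS : ASys hum (Set.Icc 0 m) t)
    {x : ℤ} (hx : x ∈ Set.Icc 0 m) {ν : K}
    (hr : (Module.finrank K (LinearMap.range (t x - ν • (1 : Module.End K V))) : ℤ) < m - 7) :
    QQ t m := by
  have hsub : Set.Icc 1 m ⊆ Set.Icc 0 m := fun y hy => ⟨by have := hy.1; omega, hy.2⟩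
  have h04 : (0 : ℤ) ∈ Set.Icc 0 m := ⟨le_rfl, by omega⟩
  have h44 : (4 : ℤ) ∈ Set.Icc 0 m := ⟨by omega, by omega⟩
  -- the rank is constant
  have hc := conn_const (conn_Icc (a := 1) (b := m) le_rfl)
    (fun y => Module.finrank K (LinearMap.range (t y - ν • (1 : Module.End K V))))
    (fun y hy z hz hyz => rank_edge (hinj y (hsub hy)) (hinj z (hsub hz))
      (hS.braid y (hsub hy) z (hsub hz) hyz) ν)
  have h1 : Module.finrank K (LinearMap.range (t 1 - ν • (1 : Module.End K V))) =
      Module.finrank K (LinearMap.range (t x - ν • (1 : Module.End K V))) := by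
    by_cases h0 : x = 0
    · subst h0
      refine (hc 1 ⟨le_rfl, by omega⟩ 4 ⟨by omega, by omega⟩).trans ?_
      exact rank_edge (hinj 4 h44) (hinj 0 h04) (hS.braid 4 h44 0 h04 (by unfold hum; omega)) ν
    · exact hc 1 ⟨le_rfl, by omega⟩ x ⟨by have := hx.1; omega, hx.2⟩
  have hXY : ∀ y ∈ Set.Icc (1 : ℤ) 5 ∪ Set.Icc 7 m, y ∈ Set.Icc 0 m := by
    rintro y (hy | hy)
    · exact ⟨by have := hy.1; omega, by have := hy.2; omega⟩
    · exact ⟨by have := hy.1; omega, hy.2⟩
  have hN : ANab.{v} K hum (Set.Icc 7 m) ((m - 6).toNat - 1) :=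
    chain_nab4 (by omega) (by omega) (by omega)
  have hz := mix_rank_zero (K := K) (good_Icc (a := 1) (b := 5) le_rfl (by omega))
    (good_Icc (a := 7) (b := m) (by omega) (by omega))
    (fun y hy z hz => far_hum hy.1 (by have := hz.1; omega)
      (by have := hy.2; have := hz.1; omega)) hN
    (t := t) (fun y hy => hinj y (hXY y hy)) (hS.mono hXY) (u₀ := 1) ⟨le_rfl, by omega⟩ (ν := ν)
    (by rw [h1]; omega)
  refine qq_of_pair (fun y hy => LinearMap.injective_iff_surjective.1 (hinj y (hsub hy)))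
    (hS.mono hsub) ⟨1, 7, le_rfl, by omega, by omega, ?_⟩
  exact hz 1 ⟨le_rfl, by omega⟩ (1 + 1) ⟨by omega, by omega⟩ 7 ⟨le_rfl, by omega⟩ (7 + 1)
    ⟨by omega, by omega⟩

end Pool.Agent.Art
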