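import Pool.Agent.Lib.Art.Standard

/-! # Chains with `C 1 ≠ 0`: the standard representation -/

namespace Pool.Agent.Art

variable {K V : Type*} [Field K] [AddCommGroup V] [Module K V]
variable {s : ℤ → Module.End K V} {m : ℤ}

/-- the first vector -/
theorem std_start [IsAlgClosed K] [FiniteDimensional K V] (hm : 3 ≤ m)
    (hinj : ∀ x ∈ Set.Icc 1 m, Function.Injective (s x)) (hS : ASys hum (Set.Icc 1 m) s)
    (hfar : ∀ x ∈ Set.Icc 1 m, ∀ y ∈ Set.Icc 1 m, Far hum x y → (s x - 1) * (s y - 1) = 0)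
    (hC : cE s 1 ≠ 0) :
    ∃ (v1 : V) (τ : K), v1 ≠ 0 ∧ τ ≠ 0 ∧ s 2 (s 2 v1) = τ • v1 ∧
      (∀ k, 3 ≤ k → k ≤ m → s k v1 = v1) ∧
      (∀ k, 1 ≤ k → k ≤ m → k ≠ 2 → k ≠ 3 → s k (s 2 v1) = s 2 v1) := by
  have up := swap_up hinj hS hfar (i := 1) le_rfl (by omega)
  have down := swap_down hinj hS hfar (i := 1) le_rfl (by omega)
  have e11 : (1 : ℤ) + 1 = 2 := by norm_num
  rw [e11] at up down
  have up' : ∀ w, s 2 (cE s 1 w) = cE s 2 ((s 1 * s 2 * s (1 + 2)) w) := fun w =>
    LinearMap.congr_fun up w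
  have down' : ∀ w, s 2 (cE s 2 w) = cE s 1 ((s (1 + 2) * s 2 * s 1) w) := fun w =>
    LinearMap.congr_fun down w
  set L : Submodule K V := LinearMap.range (cE s 1) with hL
  have hmap : ∀ z ∈ L, (s 2 * s 2) z ∈ L := by
    rintro z ⟨w, rfl⟩
    rw [Module.End.mul_apply, up', down']
    exact ⟨_, rfl⟩
  have hne : Nontrivial L := by
    rw [Submodule.nontrivial_iff_ne_bot]
    intro h
    exact hC (LinearMap.range_eq_bot.1 h)
  obtain ⟨τ, hτ⟩ := Module.End.exists_eigenvalue ((s 2 * s 2).restrict hmap)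
  obtain ⟨v, hv⟩ := hτ.exists_hasEigenvector
  have h1 := hv.apply_eq_smul
  have h2 : s 2 (s 2 (v : V)) = τ • (v : V) := congrArg Subtype.val h1
  have hv0 : (v : V) ≠ 0 := fun h => hv.2 (Subtype.ext h)
  obtain ⟨w, hw⟩ := v.2
  refine ⟨v, τ, hv0, ?_, h2, ?_, ?_⟩
  · rintro rfl
    rw [zero_smul] at h2
    have i2 := hinj 2 ⟨by omega, by omega⟩
    apply hv0
    apply i2
    apply i2
    rw [h2, map_zero, map_zero]
  · intro k hk hkm
    rw [← hw]
    exact LinearMap.congr_fun (fix_cE hS hfar (i := 1) (k := k) le_rfl (by omega) (by omega) hkm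
      (by omega) (by omega)) w
  · intro k hk hkm h3 h4
    rw [← hw, up']
    exact LinearMap.congr_fun (fix_cE hS hfar (i := 2) (k := k) (by omega) (by omega) hk hkm
      (by omega) (by omega)) _

/-- the standard representation -/
theorem std_main [IsAlgClosed K] [FiniteDimensional K V] {M : ℕ} (hM : 3 ≤ M)
    (hinj : ∀ x ∈ Set.Icc (1 : ℤ) M, Function.Injective (s x))
    (hS : ASys hum (Set.Icc (1 : ℤ) M) s)
    (hirr : ∀ W : Submodule K V, (∀ x ∈ Set.Icc (1 : ℤ) M, ∀ w ∈ W, s x w ∈ W) → W = ⊥ ∨ W = ⊤)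
    (hfar : ∀ x ∈ Set.Icc (1 : ℤ) M, ∀ y ∈ Set.Icc (1 : ℤ) M, Far hum x y →
      (s x - 1) * (s y - 1) = 0)
    (hC : cE s 1 ≠ 0) :
    ∃ (τ : K) (v : ℤ → V), τ ≠ 0 ∧ τ ≠ 1 ∧
      (∀ j : ℤ, 1 ≤ j → j ≤ M → s j (v (j - 1)) = v j ∧ s j (v j) = τ • v (j - 1)) ∧
      (∀ j k : ℤ, 0 ≤ j → j ≤ M → 1 ≤ k → k ≤ M → k ≠ j → k ≠ j + 1 → s k (v j) = v j) ∧
      LinearIndependent K (fun i : Fin (M + 1) => v (i : ℕ)) ∧
      Submodule.span K (Set.range fun i : Fin (M + 1) => v (i : ℕ)) = ⊤ := by
  obtain ⟨v1, τ, hv1, hτ, h2, f1, f2⟩ := std_start (m := M) (by omega) hinj hS hfar hC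
  obtain ⟨v, hv, hrel, hfix⟩ := std_seq (m := M) (by omega) hS hτ h2 f1 f2
  -- the span
  have hmem : ∀ j : ℤ, 0 ≤ j → j ≤ M →
      v j ∈ Submodule.span K (Set.range fun i : Fin (M + 1) => v (i : ℕ)) := by
    intro j h0 h1
    refine Submodule.subset_span ⟨⟨j.toNat, by omega⟩, ?_⟩
    show v ((j.toNat : ℕ) : ℤ) = v j
    rw [Int.toNat_of_nonneg h0]
  have hspan : Submodule.span K (Set.range fun i : Fin (M + 1) => v (i : ℕ)) = ⊤ := by
    have hst : ∀ x ∈ Set.Icc (1 : ℤ) M,
        ∀ w ∈ Submodule.span K (Set.range fun i : Fin (M + 1) => v (i : ℕ)),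
          s x w ∈ Submodule.span K (Set.range fun i : Fin (M + 1) => v (i : ℕ)) := by
      intro x hx w hw
      obtain ⟨hx1, hx2⟩ := hx
      induction hw using Submodule.span_induction with
      | mem w hw =>
        obtain ⟨i, rfl⟩ := hw
        show s x (v ((i : ℕ) : ℤ)) ∈ _
        have hi := i.2
        by_cases c1 : x = ((i : ℕ) : ℤ)
        · rw [← c1, (hrel x hx1 hx2).2]
          exact Submodule.smul_mem _ _ (hmem _ (by omega) (by omega))
        · by_cases c2 : x = ((i : ℕ) : ℤ) + 1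
          · have h := (hrel x hx1 hx2).1
            have e : x - 1 = ((i : ℕ) : ℤ) := by omega
            rw [e] at h
            rw [h]
            exact hmem _ (by omega) hx2
          · rw [hfix _ x (by omega) (by omega) hx1 hx2 c1 c2]
            exact hmem _ (by omega) (by omega)
      | zero => rw [map_zero]; exact Submodule.zero_mem _
      | add a b _ _ ha hb => rw [map_add]; exact Submodule.add_mem _ ha hb
      | smul c a _ ha => rw [map_smul]; exact Submodule.smul_mem _ _ ha
    rcases hirr _ hst with h | h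
    · exfalso
      have h3 := hmem 1 (by omega) (by omega)
      rw [h, hv] at h3
      exact hv1 ((Submodule.mem_bot K).1 h3)
    · exact h
  -- nonzero vectors
  have r1 := hrel 1 (by omega) (by omega)
  have hj1 : ∀ n : ℕ, (n : ℤ) ≤ M → v n ≠ 0 := by
    intro n
    induction n with
    | zero =>
      intro _ h
      apply hv1
      rw [← hv, ← r1.1]
      have e : (1 : ℤ) - 1 = ((0 : ℕ) : ℤ) := by norm_num
      rw [e, h, map_zero]
    | succ n ih =>
      intro hn h
      push_cast at hn h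
      have h3 := (hrel ((n : ℤ) + 1) (by omega) (by omega)).2
      rw [h, map_zero, add_sub_cancel_right] at h3
      rcases smul_eq_zero.1 h3.symm with h4 | h4
      · exact hτ h4
      · exact ih (by omega) h4
  have hnz : ∀ j : ℤ, 0 ≤ j → j ≤ M → v j ≠ 0 := by
    intro j h0 h1
    have := hj1 j.toNat (by omega)
    rwa [Int.toNat_of_nonneg h0] at this
  -- `τ ≠ 1`
  have hτ1 : τ ≠ 1 := by
    rintro rfl
    apply hC
    refine LinearMap.ext_on hspan ?_
    rintro _ ⟨i, rfl⟩
    show cE s 1 (v ((i : ℕ) : ℤ)) = 0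
    have hi := i.2
    have a1 : s 1 (v 0) = v 1 := by
      have := r1.1
      norm_num at this
      exact this
    have a2 : s 1 (v 1) = v 0 := by
      have := r1.2
      norm_num at this
      exact this
    have a3 : s 2 (v 0) = v 0 := hfix 0 2 (by omega) (by omega) (by omega) (by omega) (by omega)
      (by omega)
    have a4 : s 2 (v 1) = v 2 := by
      have := (hrel 2 (by omega) (by omega)).1
      norm_num at this
      exact this
    have a5 : s 1 (v 2) = v 2 := hfix 2 1 (by omega) (by omega) (by omega) (by omega) (by omega)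
      (by omega)
    have e11 : (1 : ℤ) + 1 = 2 := by norm_num
    have ex : ∀ z, cE s 1 z = (s 1 z - z) + (s 1 (s 1 z - z) - (s 1 z - z)) +
        (s 1 (s 2 (s 1 z - z) - (s 1 z - z)) - (s 2 (s 1 z - z) - (s 1 z - z))) := by
      intro z
      unfold cE
      rw [e11]
      rfl
    rw [ex]
    by_cases c0 : (i : ℕ) = 0
    · rw [c0]
      simp only [Nat.cast_zero, map_sub, a1, a2, a3, a4, a5]
      abel
    · by_cases c1 : (i : ℕ) = 1
      · rw [c1]
        simp only [Nat.cast_one, map_sub, a1, a2, a3, a4, a5]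
        abel
      · have a6 : s 1 (v ((i : ℕ) : ℤ)) = v ((i : ℕ) : ℤ) :=
          hfix _ 1 (by omega) (by omega) (by omega) (by omega) (by omega) (by omega)
        rw [a6]
        simp
  refine ⟨τ, v, hτ, hτ1, hrel, hfix, ?_, hspan⟩
  -- two neighbours are independent
  have pair : ∀ j : ℤ, 1 ≤ j → j ≤ M → ∀ a b : K, a • v (j - 1) + b • v j = 0 → a = 0 ∧ b = 0 := by
    intro j h0 h1 a b hab
    have hA : a = 0 ∨ b = 0 := by
      by_cases hjM : j + 1 ≤ M
      · right
        have g1 := congrArg (s (j + 1)) hab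
        rw [map_add, map_smul, map_smul, map_zero,
          hfix (j - 1) (j + 1) (by omega) (by omega) (by omega) (by omega) (by omega) (by omega)]
          at g1
        have g2 := hrel (j + 1) (by omega) (by omega)
        rw [add_sub_cancel_right] at g2
        rw [g2.1] at g1
        by_contra hb
        have g3 : b • (v (j + 1) - v j) = 0 := by
          rw [smul_sub, sub_eq_zero]
          have g4 := g1.trans hab.symm
          exact add_left_cancel g4
        rcases smul_eq_zero.1 g3 with g4 | g4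
        · exact hb g4
        · have g5 : v (j + 1) = v j := sub_eq_zero.1 g4
          have g6 : s (j + 1) (v j) = v j := by rw [g2.1, g5]
          have g7 := g2.2
          rw [g5, g6] at g7
          have g8 : (τ - 1) • v j = 0 := by rw [sub_smul, one_smul, ← g7, sub_self]
          rcases smul_eq_zero.1 g8 with g9 | g9
          · exact hτ1 (sub_eq_zero.1 g9)
          · exact hnz j (by omega) h1 g9
      · left
        have hjM' : j = M := by omega
        have g1 := congrArg (s (j - 1)) hab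
        have g2 := hrel (j - 1) (by omega) (by omega)
        rw [map_add, map_smul, map_smul, map_zero, g2.2,
          hfix j (j - 1) (by omega) (by omega) (by omega) (by omega) (by omega) (by omega)] at g1
        by_contra ha
        have g3 : a • (τ • v (j - 1 - 1) - v (j - 1)) = 0 := by
          rw [smul_sub, sub_eq_zero]
          have g4 := g1.trans hab.symm
          exact add_right_cancel g4
        rcases smul_eq_zero.1 g3 with g4 | g4
        · exact ha g4
        · have g5 : v (j - 1) = τ • v (j - 1 - 1) := (sub_eq_zero.1 g4).symm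
          have g6 : s (j - 1) (v (j - 1 - 1)) = τ • v (j - 1 - 1) := by rw [g2.1, g5]
          have g7 := g2.2
          rw [g5, map_smul, g6] at g7
          have g8 : ((τ - 1) * τ) • v (j - 1 - 1) = 0 := by
            rw [sub_mul, sub_smul, one_mul, ← smul_smul, g7, sub_self]
          rcases smul_eq_zero.1 g8 with g9 | g9
          · rcases mul_eq_zero.1 g9 with g10 | g10
            · exact hτ1 (sub_eq_zero.1 g10)
            · exact hτ g10
          · exact hnz (j - 1 - 1) (by omega) (by omega) g9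
    rcases hA with hA | hA
    · refine ⟨hA, ?_⟩
      rw [hA, zero_smul, zero_add] at hab
      rcases smul_eq_zero.1 hab with h | h
      · exact h
      · exact absurd h (hnz j (by omega) h1)
    · refine ⟨?_, hA⟩
      rw [hA, zero_smul, add_zero] at hab
      rcases smul_eq_zero.1 hab with h | h
      · exact h
      · exact absurd h (hnz (j - 1) (by omega) (by omega))
  rw [Fintype.linearIndependent_iff]
  intro g hg
  have step : ∀ (n : ℕ) (hn : n + 1 < M + 1), g ⟨n, by omega⟩ = g ⟨n + 1, hn⟩ ∧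
      τ * g ⟨n + 1, hn⟩ = g ⟨n, by omega⟩ := by
    intro n hn
    have h0 := congrArg (fun z => s ((n : ℤ) + 1) z - z) hg
    simp only [map_zero, sub_zero, map_sum, map_smul, ← Finset.sum_sub_distrib, ← smul_sub] at h0
    have hne : (⟨n, by omega⟩ : Fin (M + 1)) ≠ ⟨n + 1, hn⟩ := by
      intro h
      have := congrArg Fin.val h
      simp at this
    rw [Fintype.sum_eq_add (⟨n, by omega⟩ : Fin (M + 1)) ⟨n + 1, hn⟩ hne (by
      rintro x ⟨hx1, hx2⟩
      have hx1' : (x : ℕ) ≠ n := fun h => hx1 (Fin.ext h)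
      have hx2' : (x : ℕ) ≠ n + 1 := fun h => hx2 (Fin.ext h)
      have hx := x.2
      rw [hfix _ ((n : ℤ) + 1) (by omega) (by omega) (by omega) (by omega) (by omega) (by omega),
        sub_self, smul_zero])] at h0
    have r := hrel ((n : ℤ) + 1) (by omega) (by omega)
    rw [add_sub_cancel_right] at r
    have h1 : g ⟨n, by omega⟩ • (s ((n : ℤ) + 1) (v (n : ℤ)) - v (n : ℤ)) +
        g ⟨n + 1, hn⟩ • (s ((n : ℤ) + 1) (v ((n + 1 : ℕ) : ℤ)) - v ((n + 1 : ℕ) : ℤ)) = 0 := h0
    have e1 : ((n + 1 : ℕ) : ℤ) = (n : ℤ) + 1 := by push_cast; ring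
    rw [e1, r.1, r.2] at h1
    have h2 := pair ((n : ℤ) + 1) (by omega) (by omega)
      (τ * g ⟨n + 1, hn⟩ - g ⟨n, by omega⟩) (g ⟨n, by omega⟩ - g ⟨n + 1, hn⟩) (by
        rw [add_sub_cancel_right, ← h1, smul_sub, smul_sub, sub_smul, sub_smul, smul_smul,
          mul_comm τ]
        abel)
    exact ⟨sub_eq_zero.1 h2.2, sub_eq_zero.1 h2.1⟩
  have hz : ∀ (n : ℕ) (hn : n + 1 < M + 1), g ⟨n + 1, hn⟩ = 0 := by
    intro n hn
    obtain ⟨h1, h2⟩ := step n hn
    have h3 : (τ - 1) * g ⟨n + 1, hn⟩ = 0 := by rw [sub_mul, one_mul, h2, h1, sub_self]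
    rcases mul_eq_zero.1 h3 with h4 | h4
    · exact absurd (sub_eq_zero.1 h4) hτ1
    · exact h4
  intro i
  rcases i with ⟨n, hn⟩
  match n, hn with
  | 0, hn =>
    have h1 := (step 0 (by omega)).1
    rw [h1]
    exact hz 0 (by omega)
  | n + 1, hn => exact hz n hn

end Pool.Agent.Art
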