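import Pool.Agent.Lib.Art.APairs
import Pool.Agent.Lib.Art.AMixRank
import Pool.Agent.Lib.Art.RankTree
import Pool.Agent.Lib.Art.Burau
import Pool.Agent.Lib.Art.StandardB

/-! # Irreducible systems on a chain: the braid groups -/

namespace Pool.Agent.Art

universe v

variable {K : Type*} {V : Type v} [Field K] [IsAlgClosed K] [AddCommGroup V] [Module K V]
  [FiniteDimensional K V]

/-- (Q) from the dimension, for a chain -/
theorem qq_of_dim_chain {m s L : ℕ} (hs : 2 ≤ s) (hL : 5 ≤ L) (hsL : s * (L + 1) ≤ m + 1)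
    {t : ℤ → Module.End K V} (hinj : ∀ x ∈ Set.Icc (1 : ℤ) m, Function.Injective (t x))
    (hS : ASys hum (Set.Icc (1 : ℤ) m) t)
    (hr : Module.finrank K V < s * (s - 1) / 2 * (L - 1) ^ 2) : QQ t m := by
  have hmN : 11 ≤ m := by
    have : 2 * (L + 1) ≤ s * (L + 1) := Nat.mul_le_mul_right _ hs
    omega
  have hsurj : ∀ x ∈ Set.Icc (1 : ℤ) m, Function.Surjective (t x) := fun x hx =>
    LinearMap.injective_iff_surjective.1 (hinj x hx)
  have hpos : ∀ i : Fin s, (i : ℕ) * (L + 1) + L ≤ m := by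
    intro i
    have h1 : ((i : ℕ) + 1) * (L + 1) ≤ s * (L + 1) := Nat.mul_le_mul_right _ i.2
    have h2 : ((i : ℕ) + 1) * (L + 1) = (i : ℕ) * (L + 1) + (L + 1) := by ring
    omega
  have hlt : ∀ i j : Fin s, i < j → (i : ℕ) * (L + 1) + L + 2 ≤ (j : ℕ) * (L + 1) + 1 := by
    intro i j hij
    have h1 : ((i : ℕ) + 1) * (L + 1) ≤ (j : ℕ) * (L + 1) :=
      Nat.mul_le_mul_right _ (by exact_mod_cast hij)
    have h2 : ((i : ℕ) + 1) * (L + 1) = (i : ℕ) * (L + 1) + (L + 1) := by ring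
    omega
  set X : Fin s → Set ℤ := fun i =>
    Set.Icc (((i : ℕ) * (L + 1) + 1 : ℕ) : ℤ) (((i : ℕ) * (L + 1) + L : ℕ) : ℤ) with hX
  have hXsub : ∀ i, X i ⊆ Set.Icc (1 : ℤ) m := by
    intro i x hx
    have h1 := hx.1
    have h2 := hx.2
    have h3 := hpos i
    constructor
    · push_cast at h1
      have : (0 : ℤ) ≤ (i : ℕ) * (L + 1) := by positivity
      omega
    · have : (((i : ℕ) * (L + 1) + L : ℕ) : ℤ) ≤ m := by exact_mod_cast h3
      exact h2.trans this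
  have hXfar' : ∀ i j, i < j → ∀ x ∈ X i, ∀ y ∈ X j, x + 2 ≤ y := by
    intro i j hij x hx y hy
    have h1 := hlt i j hij
    have h2 : (((i : ℕ) * (L + 1) + L + 2 : ℕ) : ℤ) ≤ (((j : ℕ) * (L + 1) + 1 : ℕ) : ℤ) := by
      exact_mod_cast h1
    have h3 := hx.2
    have h4 := hy.1
    push_cast at h2 h3 h4 ⊢
    omega
  have hXfar : ∀ i j, i ≠ j → ∀ x ∈ X i, ∀ y ∈ X j, Far hum x y := by
    intro i j hij x hx y hy
    have hx1 := (hXsub i hx).1
    have hy1 := (hXsub j hy).1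
    unfold Far hum
    rcases lt_or_gt_of_ne hij with h | h
    · have := hXfar' i j h x hx y hy
      omega
    · have := hXfar' j i h y hy x hx
      omega
  have hnn : ∀ i : Fin s, (0 : ℤ) ≤ ((i : ℕ) : ℤ) * ((L : ℤ) + 1) := fun i => by positivity
  have hgood : ∀ i, Good hum (X i) := by
    intro i
    have h0 := hnn i
    refine good_Icc ?_ ?_
    · push_cast; omega
    · push_cast; omega
  have hN : ∀ i, ANab.{v} K hum (X i) (L - 1) := by
    intro i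
    have h0 := hnn i
    refine chain_nab4 (by omega) ?_ ?_
    · push_cast; omega
    · push_cast; ring
  obtain ⟨i, j, hij, hpair⟩ := pairs_dim (K := K) (k := L - 1) (by omega) X hgood hN
    hXfar V t (fun i x hx => hinj x (hXsub i hx))
    (hS.mono (by rintro x ⟨i, hx⟩; exact hXsub i hx)) hr
  have hmem : ∀ i : Fin s, (((i : ℕ) * (L + 1) + 1 : ℕ) : ℤ) ∈ X i ∧
      (((i : ℕ) * (L + 1) + 1 : ℕ) : ℤ) + 1 ∈ X i := by
    intro i
    refine ⟨⟨le_refl _, ?_⟩, ⟨by omega, ?_⟩⟩ <;> push_cast <;> omega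
  refine qq_of_pair hsurj hS
      ⟨(((i : ℕ) * (L + 1) + 1 : ℕ) : ℤ), (((j : ℕ) * (L + 1) + 1 : ℕ) : ℤ), ?_, ?_, ?_, ?_⟩
  · exact (hXsub i (hmem i).1).1
  · have := hXfar' i j hij _ (hmem i).2 _ (hmem j).1
    omega
  · exact (hXsub j (hmem j).2).2
  · exact hpair _ (hmem i).1 _ (hmem i).2 _ (hmem j).1 _ (hmem j).2

/-- (Q) from the rank of one operator, for a chain -/
theorem qq_of_rank_chain {m : ℤ} (hm : 11 ≤ m) {t : ℤ → Module.End K V}
    (hinj : ∀ x ∈ Set.Icc 1 m, Function.Injective (t x)) (hS : ASys hum (Set.Icc 1 m) t)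
    {x : ℤ} (hx : x ∈ Set.Icc 1 m) {ν : K}
    (hr : (Module.finrank K (LinearMap.range (t x - ν • (1 : Module.End K V))) : ℤ) < m - 7) :
    QQ t m := by
  have hc := conn_const (conn_Icc (a := 1) (b := m) le_rfl)
    (fun y => Module.finrank K (LinearMap.range (t y - ν • (1 : Module.End K V))))
    (fun y hy z hz hyz => rank_edge (hinj y hy) (hinj z hz) (hS.braid y hy z hz hyz) ν)
  have h1 : Module.finrank K (LinearMap.range (t 1 - ν • (1 : Module.End K V))) =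
      Module.finrank K (LinearMap.range (t x - ν • (1 : Module.End K V))) :=
    hc 1 ⟨le_rfl, by omega⟩ x hx
  have hXY : ∀ y ∈ Set.Icc (1 : ℤ) 5 ∪ Set.Icc 7 m, y ∈ Set.Icc 1 m := by
    rintro y (hy | hy)
    · exact ⟨by have := hy.1; omega, by have := hy.2; omega⟩
    · exact ⟨by have := hy.1; omega, hy.2⟩
  have hN : ANab.{v} K hum (Set.Icc 7 m) ((m - 6).toNat - 1) :=
    chain_nab4 (by omega) (by omega) (by omega)
  have hz := mix_rank_zero (K := K) (good_Icc (a := 1) (b := 5) le_rfl (by omega))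
    (good_Icc (a := 7) (b := m) (by omega) (by omega))
    (fun y hy z hz => far_hum hy.1 (by have := hz.1; omega)
      (by have := hy.2; have := hz.1; omega)) hN
    (t := t) (fun y hy => hinj y (hXY y hy)) (hS.mono hXY) (u₀ := 1) ⟨le_rfl, by omega⟩ (ν := ν)
    (by rw [h1]; omega)
  refine qq_of_pair (fun y hy => LinearMap.injective_iff_surjective.1 (hinj y hy))
    hS ⟨1, 7, le_rfl, by omega, by omega, ?_⟩
  exact hz 1 ⟨le_rfl, by omega⟩ (1 + 1) ⟨by omega, by omega⟩ 7 ⟨le_rfl, by omega⟩ (7 + 1)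
    ⟨by omega, by omega⟩

/-- a chain with (Q): the scalar and the far pairs -/
theorem fine_of_qq {m : ℤ} (hm : 11 ≤ m) {t : ℤ → Module.End K V}
    (hinj : ∀ x ∈ Set.Icc 1 m, Function.Injective (t x)) (hS : ASys hum (Set.Icc 1 m) t)
    (hirr : ∀ W : Submodule K V, (∀ x ∈ Set.Icc 1 m, ∀ w ∈ W, t x w ∈ W) → W = ⊥ ∨ W = ⊤)
    (hnf : ∃ x ∈ Set.Icc 1 m, ∃ y ∈ Set.Icc 1 m, t x ≠ t y) (hQ : QQ t m) :
    ∃ μ : K, μ ≠ 0 ∧ Fine hum (Set.Icc 1 m) (fun x => μ⁻¹ • t x) ∧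
      ∀ x, 1 ≤ x → x + 1 ≤ m → μ⁻¹ • t x ≠ μ⁻¹ • t (x + 1) := by
  have hne : ∀ x, 1 ≤ x → x + 1 ≤ m → t x ≠ t (x + 1) := by
    intro x h1 h2
    exact edge_neT hm (Or.inr rfl) hinj hS hnf x (by rw [Set.mem_Icc]; omega) (x + 1)
      (by rw [Set.mem_Icc]; omega) (Or.inl ⟨h1, rfl⟩)
  obtain ⟨μ, hμ, h1, h2⟩ := exists_muT hm (Or.inr rfl) hinj hS hirr hne hQ
  set s : ℤ → Module.End K V := fun x => μ⁻¹ • t x with hs
  have hst : ∀ x w, s x w = μ⁻¹ • t x w := fun x w => rfl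
  have hSs : ASys hum (Set.Icc 1 m) s := by
    refine ⟨fun x hx y hy h => ?_, fun x hx y hy h => ?_⟩
    · simp only [hs, smul_mul_smul_comm, hS.comm x hx y hy h]
    · simp only [hs, smul_mul_smul_comm, hS.braid x hx y hy h]
  have hinjs : ∀ x ∈ Set.Icc 1 m, Function.Injective (s x) := by
    intro x hx w w' hww
    rw [hst, hst] at hww
    exact hinj x hx (smul_right_injective V (inv_ne_zero hμ) hww)
  have hirrs : ∀ W : Submodule K V, (∀ x ∈ Set.Icc 1 m, ∀ w ∈ W, s x w ∈ W) → W = ⊥ ∨ W = ⊤ := by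
    intro W hW
    refine hirr W fun x hx w hw => ?_
    have h3 := W.smul_mem μ (hW x hx w hw)
    rwa [hst, smul_smul, mul_inv_cancel₀ hμ, one_smul] at h3
  have hnes : ∀ x, 1 ≤ x → x + 1 ≤ m → s x ≠ s (x + 1) := by
    intro x h3 h4 h5
    refine hne x h3 h4 (LinearMap.ext fun w => ?_)
    have h6 := LinearMap.congr_fun h5 w
    rw [hst, hst] at h6
    exact smul_right_injective V (inv_ne_zero hμ) h6
  have hk : ∀ (y u v : ℤ) (w : V), t y (t u w - t v w) = μ • (t u w - t v w) →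
      ((s y - 1) * (s u - s v)) w = 0 := by
    intro y u v w h3
    rw [Module.End.mul_apply, LinearMap.sub_apply, LinearMap.sub_apply, hst, hst, hst,
      ← smul_sub, map_smul, h3, Module.End.one_apply, smul_comm, inv_smul_smul₀ hμ, sub_self]
  have hc := cornerT hm (Or.inr rfl) hSs hirrs hnes
    (fun u hu v hv a b c d => LinearMap.ext fun w => hk 1 u v w (h1 u hu v hv a b c d w))
    (fun u hu v hv a b => LinearMap.ext fun w => hk m u v w (h2 u hu v hv a b w))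
  have hf := far_pairsT hm (Or.inr rfl)
    (fun x hx => LinearMap.injective_iff_surjective.1 (hinjs x hx)) hSs hc
  refine ⟨μ, hμ, ⟨hSs, hinjs, hirrs, ?_, hf⟩, hnes⟩
  exact ⟨1, ⟨le_rfl, by omega⟩, 2, ⟨by omega, by omega⟩, by
    have := hnes 1 le_rfl (by omega)
    norm_num at this
    exact this⟩

/-- the classification -/
theorem chain_main {m : ℕ} (hm : 11 ≤ m) {t : ℤ → Module.End K V}
    (hinj : ∀ x ∈ Set.Icc (1 : ℤ) m, Function.Injective (t x))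
    (hS : ASys hum (Set.Icc (1 : ℤ) m) t)
    (hirr : ∀ W : Submodule K V, (∀ x ∈ Set.Icc (1 : ℤ) m, ∀ w ∈ W, t x w ∈ W) → W = ⊥ ∨ W = ⊤)
    (hnf : ∃ x ∈ Set.Icc (1 : ℤ) m, ∃ y ∈ Set.Icc (1 : ℤ) m, t x ≠ t y) (hQ : QQ t m) :
    (∃ (μ q : K) (u : ℤ → V), μ ≠ 0 ∧ q ≠ 0 ∧ m - 1 ≤ Module.finrank K V ∧
      (∀ x : ℤ, 1 ≤ x → x ≤ m → u x ≠ 0) ∧
      Submodule.span K (Set.range fun i : Fin m => u ((i : ℕ) + 1)) = ⊤ ∧
      (∀ x : ℤ, 1 ≤ x → x ≤ m → t x (u x) = μ • (u x - (1 + q) • u x)) ∧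
      (∀ x : ℤ, 1 ≤ x → x + 1 ≤ m → t (x + 1) (u x) = μ • (u x - u (x + 1))) ∧
      (∀ x : ℤ, 1 ≤ x → x + 1 ≤ m → t x (u (x + 1)) = μ • (u (x + 1) - q • u x)) ∧
      ∀ x y : ℤ, 1 ≤ x → x ≤ m → 1 ≤ y → y ≤ m → (x + 2 ≤ y ∨ y + 2 ≤ x) →
        t x (u y) = μ • u y) ∨
    (∃ (μ τ : K) (v : ℤ → V), μ ≠ 0 ∧ τ ≠ 0 ∧ τ ≠ 1 ∧
      (∀ j : ℤ, 1 ≤ j → j ≤ m → t j (v (j - 1)) = μ • v j ∧ t j (v j) = (μ * τ) • v (j - 1)) ∧
      (∀ j k : ℤ, 0 ≤ j → j ≤ m → 1 ≤ k → k ≤ m → k ≠ j → k ≠ j + 1 → t k (v j) = μ • v j) ∧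
      LinearIndependent K (fun i : Fin (m + 1) => v (i : ℕ)) ∧
      Submodule.span K (Set.range fun i : Fin (m + 1) => v (i : ℕ)) = ⊤) := by
  obtain ⟨μ, hμ, hF, hne⟩ := fine_of_qq (m := m) (by omega) hinj hS hirr hnf hQ
  set s : ℤ → Module.End K V := fun x => μ⁻¹ • t x with hs
  have hts : ∀ x w, t x w = μ • s x w := by
    intro x w
    show t x w = μ • (μ⁻¹ • t x w)
    rw [smul_smul, mul_inv_cancel₀ hμ, one_smul]
  by_cases hC : cE s 1 = 0
  · left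
    have hdim : (m : ℤ) - 1 ≤ (Module.finrank K V : ℤ) := by
      refine chain_dim (by omega) hF.inj hF.sys hne hF.far
    have h12 : s 1 ≠ s 2 := by
      have := hne 1 le_rfl (by omega)
      norm_num at this
      intro h
      apply this
      exact h
    obtain ⟨q, u, hq, hu, hspan, h1, h2, h3, h4⟩ :=
      bur_main (M := m) (by omega) hF.inj hF.sys hF.irr hF.far h12 hC
    refine ⟨μ, q, u, hμ, hq, by omega, hu, hspan, ?_, ?_, ?_, ?_⟩
    · intro x hx hxm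
      rw [hts, h1 x hx hxm]
    · intro x hx hxm
      rw [hts, h2 x hx hxm]
    · intro x hx hxm
      rw [hts, h3 x hx hxm]
    · intro x y hx hxm hy hym hxy
      rw [hts, h4 x y hx hxm hy hym hxy]
  · right
    obtain ⟨τ, v, hτ, hτ1, hrel, hfix, hli, hspan⟩ :=
      std_main (M := m) (by omega) hF.inj hF.sys hF.irr hF.far hC
    refine ⟨μ, τ, v, hμ, hτ, hτ1, ?_, ?_, hli, hspan⟩
    · intro j hj hjm
      rw [hts, hts, (hrel j hj hjm).1, (hrel j hj hjm).2, smul_smul]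
      exact ⟨rfl, rfl⟩
    · intro j k h1 h2 h3 h4 h5 h6
      rw [hts, hfix j k h1 h2 h3 h4 h5 h6]

end Pool.Agent.Art
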