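import Pool.Agent.Lib.Art.Chain

/-! # The far pairs (page mcg70, section 3, (A1)) -/

namespace Pool.Agent.Art

variable {K V : Type*} [Field K] [AddCommGroup V] [Module K V]

/-- one move of one of the two tokens -/
private theorem mtb_move {p q D : Module.End K V} (hp : Function.Surjective p)
    (hq : Function.Surjective q) (hpq : p * q * p = q * p * q) (dp : D * p = p * D)
    (dq : D * q = q * D) (h0 : (p - 1) * D = 0) : (q - 1) * D = 0 := by
  have g1 : q * (p * q) = p * q * p := by rw [hpq, mul_assoc]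
  have dg : D * (p * q) = p * q * D := by rw [← mul_assoc, dp, mul_assoc, dq, mul_assoc]
  have e : (q - 1) * D * (p * q) = 0 := by
    calc (q - 1) * D * (p * q) = (q - 1) * (p * q * D) := by rw [mul_assoc, dg]
      _ = (q * (p * q) - p * q) * D := by rw [← mul_assoc, sub_mul q, one_mul]
      _ = p * q * ((p - 1) * D) := by rw [g1, ← mul_assoc, mul_sub (p * q), mul_one]
      _ = 0 := by rw [h0, mul_zero]
  refine LinearMap.ext fun y => ?_
  obtain ⟨y1, rfl⟩ := hp y
  obtain ⟨y2, rfl⟩ := hq y1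
  exact LinearMap.congr_fun e y2

private theorem mtb_comm {a b : Module.End K V} (h : a * b = b * a) :
    (a - 1) * b = b * (a - 1) := by
  rw [sub_mul, mul_sub, h, one_mul, mul_one]

private theorem mtb_comm2 {a b : Module.End K V} (h : a * b = b * a) :
    (a - 1) * (b - 1) = (b - 1) * (a - 1) := by
  rw [mul_sub, mul_one, mtb_comm h, sub_mul b 1, one_mul]

/-- Schur's lemma -/
private theorem mtb_schur [IsAlgClosed K] [FiniteDimensional K V] [Nontrivial V] {B : Set ℤ}
    {s : ℤ → Module.End K V}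
    (hirr : ∀ W : Submodule K V, (∀ x ∈ B, ∀ w ∈ W, s x w ∈ W) → W = ⊥ ∨ W = ⊤)
    (C : Module.End K V) (hC : ∀ x ∈ B, C * s x = s x * C) : ∃ c : K, ∀ w, C w = c • w := by
  obtain ⟨c, hc⟩ := Module.End.exists_eigenvalue C
  refine ⟨c, fun w => ?_⟩
  have h := hirr (Module.End.eigenspace C c) (fun x hx w hw => by
    rw [Module.End.mem_eigenspace_iff] at hw ⊢
    have h1 := LinearMap.congr_fun (hC x hx) w
    rw [Module.End.mul_apply, Module.End.mul_apply] at h1
    rw [h1, hw, map_smul])
  rcases h with h | h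
  · exact absurd h hc
  · have hw : w ∈ Module.End.eigenspace C c := by
      rw [h]
      exact Submodule.mem_top
    exact Module.End.mem_eigenspace_iff.1 hw

/-- (A1) for the pair `1`, `m` (already scaled: `s = μ⁻¹ • t`) -/
theorem cornerT [IsAlgClosed K] [FiniteDimensional K V] {m β : ℤ} (hm : 11 ≤ m)
    (hβ : β = 0 ∨ β = 1) {s : ℤ → Module.End K V}
    (hS : ASys hum (Set.Icc β m) s)
    (hirr : ∀ W : Submodule K V, (∀ x ∈ Set.Icc β m, ∀ w ∈ W, s x w ∈ W) → W = ⊥ ∨ W = ⊤)
    (hnf : ∀ x, 1 ≤ x → x + 1 ≤ m → s x ≠ s (x + 1))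
    (h1 : ∀ u ∈ Set.Icc β m, ∀ v ∈ Set.Icc β m, u ≠ 1 → u ≠ 2 → v ≠ 1 → v ≠ 2 →
        (s 1 - 1) * (s u - s v) = 0)
    (h2 : ∀ u ∈ Set.Icc β m, ∀ v ∈ Set.Icc β m, u ≤ m - 2 → v ≤ m - 2 →
        (s m - 1) * (s u - s v) = 0) : (s 1 - 1) * (s m - 1) = 0 := by
  have mem : ∀ x : ℤ, 1 ≤ x → x ≤ m → x ∈ Set.Icc β m := fun x a b => ⟨by omega, b⟩
  have m1 := mem 1 (by omega) (by omega)
  have m2 := mem 2 (by omega) (by omega)
  have m4 := mem 4 (by omega) (by omega)
  have mm := mem m (by omega) le_rfl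
  have hnt : Nontrivial V := by
    by_contra hcon
    rw [not_nontrivial_iff_subsingleton] at hcon
    refine hnf 1 le_rfl (by omega) (LinearMap.ext fun w => Subsingleton.elim _ _)
  have c1m : s 1 * s m = s m * s 1 := hS.comm 1 m1 m mm (far_hum (by omega) (by omega) (by omega))
  -- the operator `C`
  have hu : ∀ u ∈ Set.Icc β m, u ≠ 1 → u ≠ 2 → (s 1 - 1) * (s m - 1) = (s 1 - 1) * (s u - 1) := by
    intro u hu a b
    have h := h1 u hu m mm a b (by omega) (by omega)
    have e : s m - 1 = (s u - 1) - (s u - s m) := by abel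
    rw [e, mul_sub (s 1 - 1) (s u - 1), h, sub_zero]
  have hv : ∀ v ∈ Set.Icc β m, v ≤ m - 2 → (s 1 - 1) * (s m - 1) = (s m - 1) * (s v - 1) := by
    intro v hv a
    have h := h2 v hv 1 m1 a (by omega)
    have e : s 1 - 1 = (s v - 1) - (s v - s 1) := by abel
    rw [mtb_comm2 c1m, e, mul_sub (s m - 1) (s v - 1), h, sub_zero]
  have hC : ∀ x ∈ Set.Icc β m, (s 1 - 1) * (s m - 1) * s x = s x * ((s 1 - 1) * (s m - 1)) := by
    intro x hx
    have hx1 := hx.1
    have hx2 := hx.2
    by_cases e1 : x = 1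
    · rw [e1, mul_assoc, mtb_comm c1m.symm, ← mul_assoc, mtb_comm (b := s 1) rfl, mul_assoc]
    by_cases e2 : x = 2
    · rw [e2, hv 4 m4 (by omega), mul_assoc,
        mtb_comm (hS.comm 4 m4 2 m2 (far_hum (by omega) (by omega) (by omega))), ← mul_assoc,
        mtb_comm (hS.comm m mm 2 m2 (far_hum (by omega) (by omega) (by omega))), mul_assoc]
    · -- a vertex `u` far from `x`
      have f1x : Far hum 1 x := by
        unfold Far hum
        omega
      obtain ⟨u, hu1, hu2, hu3, hu4⟩ : ∃ u, u ∈ Set.Icc β m ∧ u ≠ 1 ∧ u ≠ 2 ∧ Far hum u x := by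
        by_cases e3 : x ≤ 6
        · refine ⟨9, mem 9 (by omega) (by omega), by omega, by omega, ?_⟩
          unfold Far hum
          omega
        · refine ⟨3, mem 3 (by omega) (by omega), by omega, by omega, ?_⟩
          unfold Far hum
          omega
      rw [hu u hu1 hu2 hu3, mul_assoc, mtb_comm (hS.comm u hu1 x hx hu4), ← mul_assoc,
        mtb_comm (hS.comm 1 m1 x hx f1x), mul_assoc]
  obtain ⟨c, hc⟩ := mtb_schur hirr _ hC
  by_cases hc0 : c = 0
  · refine LinearMap.ext fun w => ?_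
    rw [hc w, hc0, zero_smul]
    rfl
  · exfalso
    have inj : ∀ w, (s 1 - 1) w = 0 → w = 0 := by
      intro w hw
      have h3 := hc w
      rw [mtb_comm2 c1m, Module.End.mul_apply, hw, map_zero] at h3
      exact (smul_eq_zero.1 h3.symm).resolve_left hc0
    refine hnf 5 (by omega) (by omega) (LinearMap.ext fun w => ?_)
    have h3 := LinearMap.congr_fun (h1 5 (mem 5 (by omega) (by omega)) (5 + 1)
      (mem (5 + 1) (by omega) (by omega)) (by omega) (by omega) (by omega) (by omega)) w
    have h4 := inj ((s 5 - s (5 + 1)) w) h3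
    rw [LinearMap.sub_apply, sub_eq_zero] at h4
    exact h4

/-- all far pairs -/
theorem far_pairsT {m β : ℤ} (hm : 11 ≤ m) (hβ : β = 0 ∨ β = 1) {s : ℤ → Module.End K V}
    (hsurj : ∀ x ∈ Set.Icc β m, Function.Surjective (s x)) (hS : ASys hum (Set.Icc β m) s)
    (h : (s 1 - 1) * (s m - 1) = 0) :
    ∀ x ∈ Set.Icc β m, ∀ y ∈ Set.Icc β m, Far hum x y → (s x - 1) * (s y - 1) = 0 := by
  have mem : ∀ x : ℤ, 1 ≤ x → x ≤ m → x ∈ Set.Icc β m := fun x a b => ⟨by omega, b⟩
  have symm : ∀ x ∈ Set.Icc β m, ∀ y ∈ Set.Icc β m, Far hum x y →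
      (s x - 1) * (s y - 1) = 0 → (s y - 1) * (s x - 1) = 0 := by
    intro x hx y hy hf h0
    rw [← mtb_comm2 (hS.comm x hx y hy hf)]
    exact h0
  -- the move
  have mv : ∀ v ∈ Set.Icc β m, ∀ v' ∈ Set.Icc β m, ∀ w ∈ Set.Icc β m, hum v v' → Far hum w v →
      Far hum w v' → (s v - 1) * (s w - 1) = 0 → (s v' - 1) * (s w - 1) = 0 := by
    intro v hv v' hv' w hw hvv f1 f2 h0
    exact mtb_move (hsurj v hv) (hsurj v' hv') (hS.braid v hv v' hv' hvv)
      (mtb_comm (hS.comm w hw v hv f1)) (mtb_comm (hS.comm w hw v' hv' f2)) h0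
  -- first token
  have a1 : ∀ k : ℕ, (1 : ℤ) + k ≤ m - 2 → (s (1 + k) - 1) * (s m - 1) = 0 := by
    intro k
    induction k with
    | zero =>
      intro _
      rw [Nat.cast_zero, add_zero]
      exact h
    | succ k ih =>
      intro hk
      push_cast at hk ⊢
      refine mv (1 + k) (mem _ (by omega) (by omega)) (1 + (k + 1)) (mem _ (by omega) (by omega))
        m (mem _ (by omega) le_rfl) ?_ (far_hum (by omega) (by omega) (by omega))
        (far_hum (by omega) (by omega) (by omega)) (ih (by omega))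
      unfold hum
      omega
  -- second token
  have a2 : ∀ x : ℤ, 1 ≤ x → ∀ k : ℕ, x + 2 ≤ m - k → (s (m - k) - 1) * (s x - 1) = 0 := by
    intro x hx k
    induction k with
    | zero =>
      intro hk
      rw [Nat.cast_zero, sub_zero] at hk ⊢
      have h3 := a1 (x - 1).toNat (by omega)
      have e : (1 : ℤ) + ((x - 1).toNat : ℤ) = x := by omega
      rw [e] at h3
      exact symm x (mem x hx (by omega)) m (mem m (by omega) le_rfl)
        (far_hum hx (by omega) (by omega)) h3
    | succ k ih =>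
      intro hk
      push_cast at hk ⊢
      refine mv (m - k) (mem _ (by omega) (by omega)) (m - (k + 1)) (mem _ (by omega) (by omega))
        x (mem x hx (by omega)) ?_ (far_hum (by omega) (by omega) (by omega))
        (far_hum (by omega) (by omega) (by omega)) (ih (by omega))
      unfold hum
      omega
  have a3 : ∀ x y : ℤ, 1 ≤ x → x + 2 ≤ y → y ≤ m → (s y - 1) * (s x - 1) = 0 := by
    intro x y hx hxy hy
    have h3 := a2 x hx (m - y).toNat (by omega)
    have e : m - ((m - y).toNat : ℤ) = y := by omega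
    rwa [e] at h3
  have a4 : ∀ x y : ℤ, 1 ≤ x → x ≤ m → 1 ≤ y → y ≤ m → Far hum x y →
      (s x - 1) * (s y - 1) = 0 := by
    intro x y hx hxm hy hym hf
    have hf' := hf
    unfold Far hum at hf'
    by_cases hxy : x ≤ y
    · exact symm y (mem y hy hym) x (mem x hx hxm) (far_hum hy hx (by omega))
        (a3 x y hx (by omega) hym)
    · exact a3 y x hy (by omega) hxm
  -- pairs with `0`
  have a5 : ∀ y : ℤ, 1 ≤ y → y ≤ m → y ≠ 4 → β = 0 → (s 0 - 1) * (s y - 1) = 0 := by
    intro y hy hym hy4 hβ0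
    have m0 : (0 : ℤ) ∈ Set.Icc β m := ⟨by omega, by omega⟩
    have h40 : hum 4 0 := by unfold hum; omega
    have base : ∀ y : ℤ, 1 ≤ y → y ≤ m → y ≤ 2 ∨ 6 ≤ y → (s 0 - 1) * (s y - 1) = 0 := by
      intro y hy hym hc
      refine mv 4 (mem 4 (by omega) (by omega)) 0 m0 y (mem y hy hym) h40
        (far_hum hy (by omega) (by omega)) (far_hum_zero' hy (by omega)) ?_
      exact a4 4 y (by omega) (by omega) hy hym (far_hum (by omega) hy (by omega))
    by_cases hc : y ≤ 2 ∨ 6 ≤ y
    · exact base y hy hym hc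
    · have hc' : y = 3 ∨ y = 5 := by omega
      rcases hc' with rfl | rfl
      · refine symm 3 (mem 3 hy hym) 0 m0 (far_hum_zero' (by omega) (by omega)) ?_
        refine mv 2 (mem 2 (by omega) (by omega)) 3 (mem 3 hy hym) 0 m0 ?_
          (far_hum_zero (by omega) (by omega)) (far_hum_zero (by omega) (by omega)) ?_
        · unfold hum
          omega
        · exact symm 0 m0 2 (mem 2 (by omega) (by omega)) (far_hum_zero (by omega) (by omega))
            (base 2 (by omega) (by omega) (by omega))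
      · refine symm 5 (mem 5 hy hym) 0 m0 (far_hum_zero' (by omega) (by omega)) ?_
        refine mv 6 (mem 6 (by omega) (by omega)) 5 (mem 5 hy hym) 0 m0 ?_
          (far_hum_zero (by omega) (by omega)) (far_hum_zero (by omega) (by omega)) ?_
        · unfold hum
          omega
        · exact symm 0 m0 6 (mem 6 (by omega) (by omega)) (far_hum_zero (by omega) (by omega))
            (base 6 (by omega) (by omega) (by omega))
  intro x hx y hy hf
  have hf' := hf
  unfold Far hum at hf'
  have hx1 := hx.1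
  have hy1 := hy.1
  by_cases hx0 : x = 0
  · rw [hx0]
    exact a5 y (by omega) hy.2 (by omega) (by omega)
  · by_cases hy0 : y = 0
    · rw [hy0]
      have m0 : (0 : ℤ) ∈ Set.Icc β m := ⟨by omega, by omega⟩
      exact symm 0 m0 x hx (far_hum_zero (by omega) (by omega))
        (a5 x (by omega) hx.2 (by omega) (by omega))
    · exact a4 x y (by omega) hx.2 (by omega) hy.2 hf

end Pool.Agent.Art
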