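import Pool.Agent.Lib.Art.ASub
import Pool.Agent.Lib.Art.MuTB
import Pool.Agent.Lib.HypQ.Scalar

/-! # The eigenvalue (page mcg70, section 3) -/

namespace Pool.Agent.Art

/-- a part of the chain which contains `4`, with or without the vertex `0`, is good -/
private theorem good_aux {a b : ℤ} (P : Prop) (ha : 1 ≤ a) (ha4 : a ≤ 4) (hb : 8 ≤ b) :
    Good hum {x : ℤ | (a ≤ x ∧ x ≤ b) ∨ (P ∧ x = 0)} := by
  have h4 : (4 : ℤ) ∈ Set.Icc a b := ⟨ha4, by omega⟩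
  have hmono : ∀ x ∈ Set.Icc a b, ∀ y ∈ Set.Icc a b, Relation.ReflTransGen
      (fun x y => x ∈ {x : ℤ | (a ≤ x ∧ x ≤ b) ∨ (P ∧ x = 0)} ∧
        y ∈ {x : ℤ | (a ≤ x ∧ x ≤ b) ∨ (P ∧ x = 0)} ∧ hum x y) x y := by
    intro x hx y hy
    exact Relation.ReflTransGen.mono (fun u v h => ⟨Or.inl h.1, Or.inl h.2.1, h.2.2⟩) _ _
      (conn_Icc ha x hx y hy)
  refine ⟨hum_symm, ?_, ?_⟩
  · intro x hx y hy
    have h1 : Relation.ReflTransGen
        (fun x y => x ∈ {x : ℤ | (a ≤ x ∧ x ≤ b) ∨ (P ∧ x = 0)} ∧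
          y ∈ {x : ℤ | (a ≤ x ∧ x ≤ b) ∨ (P ∧ x = 0)} ∧ hum x y) x 4 := by
      rcases hx with hx | ⟨hP, rfl⟩
      · exact hmono x hx 4 h4
      · exact Relation.ReflTransGen.single ⟨Or.inr ⟨hP, rfl⟩, Or.inl h4, by unfold hum; omega⟩
    have h2 : Relation.ReflTransGen
        (fun x y => x ∈ {x : ℤ | (a ≤ x ∧ x ≤ b) ∨ (P ∧ x = 0)} ∧
          y ∈ {x : ℤ | (a ≤ x ∧ x ≤ b) ∨ (P ∧ x = 0)} ∧ hum x y) 4 y := by
      rcases hy with hy | ⟨hP, rfl⟩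
      · exact hmono 4 h4 y hy
      · exact Relation.ReflTransGen.single ⟨Or.inl h4, Or.inr ⟨hP, rfl⟩, by unfold hum; omega⟩
    exact h1.trans h2
  · intro x hx y hy hxy
    have hx' : (a ≤ x ∧ x ≤ b) ∨ (P ∧ x = 0) := hx
    have hy' : (a ≤ y ∧ y ≤ b) ∨ (P ∧ y = 0) := hy
    unfold hum at hxy
    by_cases hc : x + 2 ≤ b ∧ y + 2 ≤ b
    · refine ⟨b, Or.inl ⟨by omega, le_rfl⟩, ?_, ?_⟩ <;> (unfold Far hum; omega)
    · refine ⟨a, Or.inl ⟨le_rfl, by omega⟩, ?_, ?_⟩ <;> (unfold Far hum; omega)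

/-- the sets `B - {1, 2}` and `B - {m - 1, m}`, `B = [β, m]`, are good -/
theorem good_X0 {m β : ℤ} (hm : 11 ≤ m) (hβ : β = 0 ∨ β = 1) :
    Good hum {x : ℤ | x ∈ Set.Icc β m ∧ x ≠ 1 ∧ x ≠ 2} := by
  have h : {x : ℤ | x ∈ Set.Icc β m ∧ x ≠ 1 ∧ x ≠ 2} =
      {x : ℤ | (3 ≤ x ∧ x ≤ m) ∨ (β = 0 ∧ x = 0)} := by
    ext x
    simp only [Set.mem_ofPred_eq, Set.mem_Icc]
    omega
  rw [h]
  exact good_aux _ (by omega) (by omega) (by omega)

theorem good_X1 {m β : ℤ} (hm : 11 ≤ m) (hβ : β = 0 ∨ β = 1) :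
    Good hum {x : ℤ | x ∈ Set.Icc β m ∧ x ≤ m - 2} := by
  have h : {x : ℤ | x ∈ Set.Icc β m ∧ x ≤ m - 2} =
      {x : ℤ | (1 ≤ x ∧ x ≤ m - 2) ∨ (β = 0 ∧ x = 0)} := by
    ext x
    simp only [Set.mem_ofPred_eq, Set.mem_Icc]
    omega
  rw [h]
  exact good_aux _ (by omega) (by omega) (by omega)

variable {K V : Type*} [Field K] [IsAlgClosed K] [AddCommGroup V] [Module K V]
  [FiniteDimensional K V] {t : ℤ → Module.End K V}

omit [IsAlgClosed K] [FiniteDimensional K V] in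
/-- from a product of differences to a statement on `NX` -/
private theorem eq_on_NX {X : Set ℤ} {A : Module.End K V}
    (h : ∀ u ∈ X, ∀ v ∈ X, A * (t u - t v) = 0) : ∀ z ∈ NX X t ⊤, A z = 0 := by
  have hle : NX X t (⊤ : Submodule K V) ≤ LinearMap.ker A := by
    refine NX_le_iff.2 fun u hu v hv w _ => ?_
    rw [LinearMap.mem_ker]
    exact LinearMap.congr_fun (h u hu v hv) w
  exact fun z hz => LinearMap.mem_ker.1 (hle hz)

/-- the scalar, by `exists_scalar` -/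
theorem exists_muT {m β : ℤ} (hm : 11 ≤ m) (hβ : β = 0 ∨ β = 1)
    (hinj : ∀ x ∈ Set.Icc β m, Function.Injective (t x)) (hS : ASys hum (Set.Icc β m) t)
    (hirr : ∀ W : Submodule K V, (∀ x ∈ Set.Icc β m, ∀ w ∈ W, t x w ∈ W) → W = ⊥ ∨ W = ⊤)
    (hnf : ∀ x, 1 ≤ x → x + 1 ≤ m → t x ≠ t (x + 1)) (hQ : QQ t m) :
    ∃ μ : K, μ ≠ 0 ∧
      (∀ u ∈ Set.Icc β m, ∀ v ∈ Set.Icc β m, u ≠ 1 → u ≠ 2 → v ≠ 1 → v ≠ 2 →
        ∀ w, t 1 (t u w - t v w) = μ • (t u w - t v w)) ∧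
      (∀ u ∈ Set.Icc β m, ∀ v ∈ Set.Icc β m, u ≤ m - 2 → v ≤ m - 2 →
        ∀ w, t m (t u w - t v w) = μ • (t u w - t v w)) := by
  have mem : ∀ x : ℤ, 1 ≤ x → x ≤ m → x ∈ Set.Icc β m := fun x h1 h2 => ⟨by omega, h2⟩
  have hsurj : ∀ x ∈ Set.Icc β m, Function.Surjective (t x) := fun x hx =>
    LinearMap.injective_iff_surjective.1 (hinj x hx)
  have sub1 : Set.Icc 1 m ⊆ Set.Icc β m := fun x hx => mem x hx.1 hx.2
  obtain ⟨X0, hX0⟩ : ∃ X0 : Set ℤ, X0 = {x : ℤ | x ∈ Set.Icc β m ∧ x ≠ 1 ∧ x ≠ 2} := ⟨_, rfl⟩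
  obtain ⟨X1, hX1⟩ : ∃ X1 : Set ℤ, X1 = {x : ℤ | x ∈ Set.Icc β m ∧ x ≤ m - 2} := ⟨_, rfl⟩
  obtain ⟨X, hX⟩ : ∃ X : Set ℤ, X = {x : ℤ | x ∈ Set.Icc β m ∧ x ≠ 1 ∧ x ≠ 2 ∧ x ≤ m - 2} :=
    ⟨_, rfl⟩
  have gX0 : Good hum X0 := by rw [hX0]; exact good_X0 hm hβ
  have gX1 : Good hum X1 := by rw [hX1]; exact good_X1 hm hβ
  have m0 : ∀ x, x ∈ X0 ↔ (β ≤ x ∧ x ≤ m) ∧ x ≠ 1 ∧ x ≠ 2 := fun x => by rw [hX0]; rfl
  have m1 : ∀ x, x ∈ X1 ↔ (β ≤ x ∧ x ≤ m) ∧ x ≤ m - 2 := fun x => by rw [hX1]; rfl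
  have mX : ∀ x, x ∈ X ↔ (β ≤ x ∧ x ≤ m) ∧ x ≠ 1 ∧ x ≠ 2 ∧ x ≤ m - 2 := fun x => by
    rw [hX]; rfl
  have b0 : X0 ⊆ Set.Icc β m := fun x hx => ((m0 x).1 hx).1
  have b1 : X1 ⊆ Set.Icc β m := fun x hx => ((m1 x).1 hx).1
  have x0 : X ⊆ X0 := fun x hx => by rw [mX] at hx; rw [m0]; omega
  have x1 : X ⊆ X1 := fun x hx => by rw [mX] at hx; rw [m1]; omega
  have eX0 : X0 = X ∪ Set.Icc (m - 2) m := by
    ext x
    rw [Set.mem_union, m0, mX, Set.mem_Icc]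
    omega
  have eX1 : X1 = X ∪ Set.Icc 1 3 := by
    ext x
    rw [Set.mem_union, m1, mX, Set.mem_Icc]
    omega
  have f0 : ∀ x ∈ X0, Far hum 1 x := fun x hx => by
    rw [m0] at hx
    unfold Far hum
    omega
  have f1 : ∀ x ∈ X1, Far hum m x := fun x hx => by
    rw [m1] at hx
    unfold Far hum
    omega
  have i1 := mem 1 le_rfl (by omega)
  have im := mem m (by omega) le_rfl
  have c0 : ∀ x ∈ X0, t 1 * t x = t x * t 1 := fun x hx => hS.comm 1 i1 x (b0 hx) (f0 x hx)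
  have c1 : ∀ x ∈ X1, t m * t x = t x * t m := fun x hx => hS.comm m im x (b1 hx) (f1 x hx)
  have hH : Set.Icc (m - 2) m ⊆ X0 := by rw [eX0]; exact Set.subset_union_right
  have hH' : Set.Icc 1 3 ⊆ X1 := by rw [eX1]; exact Set.subset_union_right
  -- the elements
  have e0 : NX X0 t ⊤ = NX X t ⊤ ⊔ NX (Set.Icc (m - 2) m) t ⊤ := by
    have hn : (X ∩ Set.Icc (m - 2) m).Nonempty :=
      ⟨m - 2, (mX _).2 (by omega), le_rfl, by omega⟩
    rw [eX0]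
    exact NX_union hn ⊤
  have e1 : NX X1 t ⊤ = NX X t ⊤ ⊔ NX (Set.Icc 1 3) t ⊤ := by
    have hn : (X ∩ Set.Icc (1 : ℤ) 3).Nonempty := ⟨3, (mX _).2 (by omega), by omega, le_rfl⟩
    rw [eX1]
    exact NX_union hn ⊤
  have st0 := NX_stable gX0 (hS.mono b0) (W := ⊤) fun _ _ _ _ => Submodule.mem_top
  have st1 := NX_stable gX1 (hS.mono b1) (W := ⊤) fun _ _ _ _ => Submodule.mem_top
  -- `t 1 = t m` on `NX X`
  have hc : ∀ u ∈ X, (t 1 - t m) * (t u - t 4) = 0 := by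
    intro u hu
    rw [mX] at hu
    by_cases h : u = 0
    · subst h
      have hb : β = 0 := by omega
      subst hb
      exact cross_eq_zero hm hsurj hS hQ
    · exact cross_eq hm (fun x hx => hsurj x (sub1 hx)) (hS.mono sub1) hQ u 4 (by omega)
        (by omega) (by omega) (by omega)
  have hT : ∀ z ∈ NX X t ⊤, t 1 z = t m z := by
    intro z hz
    have := eq_on_NX (A := t 1 - t m) (fun u hu v hv => by
      have h3 : t u - t v = (t u - t 4) - (t v - t 4) := by abel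
      rw [h3, mul_sub, hc u hu, hc v hv, sub_zero]) z hz
    rw [LinearMap.sub_apply] at this
    exact sub_eq_zero.1 this
  -- the two corner cases
  have k2 : ∀ z ∈ NX (Set.Icc (m - 2) m) t ⊤, t 2 z = t 1 z := by
    intro z hz
    have := eq_on_NX (A := t 2 - t 1) (fun u hu v hv => by
      rw [Set.mem_Icc] at hu hv
      exact hQ 2 1 u v (by omega) (by omega) (by omega) (by omega) (by omega) (by omega)
        (by omega) (by omega)) z hz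
    rw [LinearMap.sub_apply] at this
    exact sub_eq_zero.1 this
  have kQ : ∀ a ∈ Set.Icc (1 : ℤ) 3, ∀ b ∈ Set.Icc (1 : ℤ) 3, ∀ u ∈ Set.Icc (m - 2) m,
      ∀ v ∈ Set.Icc (m - 2) m, (t a - t b) * (t u - t v) = 0 := by
    intro a ha b hb u hu v hv
    rw [Set.mem_Icc] at ha hb hu hv
    exact hQ a b u v (by omega) (by omega) (by omega) (by omega) (by omega) (by omega)
        (by omega) (by omega)
  have kQ' : ∀ a ∈ Set.Icc (1 : ℤ) 3, ∀ b ∈ Set.Icc (1 : ℤ) 3, ∀ u ∈ Set.Icc (m - 2) m,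
      ∀ v ∈ Set.Icc (m - 2) m, (t u - t v) * (t a - t b) = 0 := by
    intro a ha b hb u hu v hv
    rw [← diff_comm2 hS (b1 (hH' ha)) (b1 (hH' hb)) (b0 (hH hu)) (b0 (hH hv)) ?_ ?_ ?_ ?_]
    · exact kQ a ha b hb u hu v hv
    all_goals
      rw [Set.mem_Icc] at ha hb hu hv
      unfold Far hum
      omega
  have km : ∀ z ∈ NX (Set.Icc 1 3) t ⊤, t (m - 1) z = t m z := by
    intro z hz
    have := eq_on_NX (A := t (m - 1) - t m) (fun a ha b hb =>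
      kQ' a ha b hb (m - 1) ⟨by omega, by omega⟩ m ⟨by omega, le_rfl⟩) z hz
    rw [LinearMap.sub_apply] at this
    exact sub_eq_zero.1 this
  have hne : ∃ z ∈ NX X0 t ⊤, z ≠ 0 := by
    by_contra hcon
    have hcon' : ∀ z ∈ NX X0 t ⊤, z = 0 := fun z hz => by
      by_contra h
      exact hcon ⟨z, hz, h⟩
    apply hnf 3 (by omega) (by omega)
    apply LinearMap.ext
    intro w
    exact sub_eq_zero.1 (hcon' _ (mem_NX ((m0 3).2 (by omega)) ((m0 (3 + 1)).2 (by omega))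
      (Submodule.mem_top (x := w))))
  obtain ⟨z0, hz0, hz0'⟩ := hne
  obtain ⟨μ, hμ0, hμ1⟩ := Pool.Agent.HypLow.exists_scalar
    {S : Module.End K V | ∃ x ∈ Set.Icc β m, S = t x}
    (fun W h => hirr W fun x hx w hw => h (t x) ⟨x, hx, rfl⟩ w hw)
    (t 1) (t m) (NX X0 t ⊤) (NX X1 t ⊤) (NX X t ⊤) (NX (Set.Icc (m - 2) m) t ⊤)
    (NX (Set.Icc 1 3) t ⊤)
    (fun h => hz0' ((Submodule.mem_bot K).1 (h ▸ hz0)))
    e0 e1
    (NX_map (t 1) (fun x hx => c0 x (x0 hx)) fun _ _ => Submodule.mem_top)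
    (NX_map (t m) (fun x hx => c1 x (x1 hx)) fun _ _ => Submodule.mem_top)
    (NX_map (t 1) (fun x hx => c0 x (hH hx)) fun _ _ => Submodule.mem_top)
    (NX_map (t m) (fun x hx => c1 x (hH' hx)) fun _ _ => Submodule.mem_top)
    hT
    (by
      rintro S ⟨x, hx, rfl⟩
      by_cases h : x ∈ X0
      · exact Or.inl ⟨(c0 x h).symm, st0 x h⟩
      · right
        rw [m0] at h
        rw [Set.mem_Icc] at hx
        by_cases h1 : x = 1
        · subst h1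
          exact Or.inl fun _ _ => rfl
        · have h2 : x = 2 := by omega
          subst h2
          have h3 : (2 : ℤ) ∈ X1 := (m1 2).2 (by omega)
          exact Or.inr ⟨(c1 2 h3).symm, st1 2 h3, k2⟩)
    (by
      rintro S ⟨x, hx, rfl⟩
      by_cases h : x ∈ X1
      · exact Or.inl ⟨(c1 x h).symm, st1 x h⟩
      · right
        rw [m1] at h
        rw [Set.mem_Icc] at hx
        by_cases h1 : x = m
        · subst h1
          exact Or.inl fun _ _ => rfl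
        · have h2 : x = m - 1 := by omega
          subst h2
          have h3 : m - 1 ∈ X0 := (m0 _).2 (by omega)
          exact Or.inr ⟨(c0 _ h3).symm, st0 _ h3, km⟩)
    {D : Module.End K V | ∃ u ∈ X, ∃ v ∈ X, D = t u - t v}
    {D : Module.End K V | ∃ u ∈ Set.Icc (m - 2) m, ∃ v ∈ Set.Icc (m - 2) m, D = t u - t v}
    {D : Module.End K V | ∃ u ∈ Set.Icc (1 : ℤ) 3, ∃ v ∈ Set.Icc (1 : ℤ) 3, D = t u - t v}
    (fun W h => NX_le_iff.2 fun u hu v hv w _ => h (t u - t v) ⟨u, hu, v, hv, rfl⟩ w)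
    (fun W h => NX_le_iff.2 fun u hu v hv w _ => h (t u - t v) ⟨u, hu, v, hv, rfl⟩ w)
    (fun W h => NX_le_iff.2 fun u hu v hv w _ => h (t u - t v) ⟨u, hu, v, hv, rfl⟩ w)
    (by
      rintro D ⟨u, hu, v, hv, rfl⟩ w
      exact mem_NX hu hv Submodule.mem_top)
    (by
      rintro D ⟨u, hu, v, hv, rfl⟩
      exact diff_comm1 hS i1 (b0 (x0 hu)) (b0 (x0 hv)) (f0 u (x0 hu)) (f0 v (x0 hv)))
    (by
      rintro D ⟨u, hu, v, hv, rfl⟩
      exact diff_comm1 hS im (b0 (x0 hu)) (b0 (x0 hv)) (f1 u (x1 hu)) (f1 v (x1 hv)))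
    (by
      rintro D ⟨u, hu, v, hv, rfl⟩
      exact diff_comm1 hS i1 (b0 (hH hu)) (b0 (hH hv)) (f0 u (hH hu)) (f0 v (hH hv)))
    (by
      rintro D ⟨u, hu, v, hv, rfl⟩
      exact diff_comm1 hS im (b1 (hH' hu)) (b1 (hH' hv)) (f1 u (hH' hu)) (f1 v (hH' hv)))
    (by
      rintro D ⟨u, hu, v, hv, rfl⟩
      exact eq_on_NX fun a ha b hb => kQ' a ha b hb u hu v hv)
    (by
      rintro D ⟨a, ha, b, hb, rfl⟩
      exact eq_on_NX fun u hu v hv => kQ a ha b hb u hu v hv)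
  refine ⟨μ, ?_, ?_, ?_⟩
  · rintro rfl
    apply hz0'
    apply hinj 1 i1
    rw [hμ0 z0 hz0, zero_smul, map_zero]
  · intro u hu v hv h1 h2 h3 h4 w
    exact hμ0 _ (mem_NX ((m0 u).2 ⟨hu, h1, h2⟩) ((m0 v).2 ⟨hv, h3, h4⟩) Submodule.mem_top)
  · intro u hu v hv h1 h2 w
    exact hμ1 _ (mem_NX ((m1 u).2 ⟨hu, h1⟩) ((m1 v).2 ⟨hv, h2⟩) Submodule.mem_top)

end Pool.Agent.Art
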