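import Pool.Agent.Lib.Art.AMixDim
import Pool.Agent.Lib.Art.MuT
import Pool.Agent.Lib.Art.ChainDim

/-! # The recursion for chains (page mcg70, section 4) -/

namespace Pool.Agent.Art

universe v

variable {K : Type*} [Field K]

/-- translation -/
theorem anab_shift {L : ℕ} {k : ℕ} (h : ANab.{v} K hum (Set.Icc 1 (L : ℤ)) k) {a b : ℤ}
    (ha : 1 ≤ a) (hab : b = a + L - 1) : ANab.{v} K hum (Set.Icc a b) k := by
  intro V _ _ _ t hinj hS hr x hx y hy
  have hmem : ∀ z ∈ Set.Icc (1 : ℤ) (L : ℤ), z + (a - 1) ∈ Set.Icc a b := by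
    intro z hz
    rw [Set.mem_Icc] at hz ⊢
    omega
  have key := h V (fun z => t (z + (a - 1))) (fun z hz => hinj _ (hmem z hz)) ⟨?_, ?_⟩ hr
    (x - (a - 1)) (by rw [Set.mem_Icc] at hx ⊢; omega)
    (y - (a - 1)) (by rw [Set.mem_Icc] at hy ⊢; omega)
  · simpa using key
  · intro z hz w hw hzw
    refine hS.comm _ (hmem z hz) _ (hmem w hw) ?_
    rw [Set.mem_Icc] at hz hw
    obtain ⟨h1, h2⟩ := hzw
    refine ⟨by omega, ?_⟩
    unfold hum at h2 ⊢
    omega
  · intro z hz w hw hzw
    refine hS.braid _ (hmem z hz) _ (hmem w hw) ?_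
    rw [Set.mem_Icc] at hz hw
    unfold hum at hzw ⊢
    omega

private theorem chain_const {α : Type*} {m : ℤ} (f : ℤ → α)
    (h : ∀ x, 1 ≤ x → x + 1 ≤ m → f x = f (x + 1)) :
    ∀ x ∈ Set.Icc 1 m, ∀ y ∈ Set.Icc 1 m, f x = f y := by
  have key : ∀ j : ℕ, 1 + (j : ℤ) ≤ m → f 1 = f (1 + (j : ℤ)) := by
    intro j
    induction j with
    | zero => intro _; simp
    | succ j ih =>
      intro hj
      push_cast at hj ⊢
      rw [ih (by omega), h (1 + (j : ℤ)) (by omega) (by omega), add_assoc]
  have key2 : ∀ x ∈ Set.Icc 1 m, f 1 = f x := by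
    intro x hx
    rw [Set.mem_Icc] at hx
    have h1 := key (x - 1).toNat (by omega)
    have h2 : 1 + ((x - 1).toNat : ℤ) = x := by omega
    rwa [h2] at h1
  intro x hx y hy
  rw [← key2 x hx, ← key2 y hy]

theorem chain_two (m : ℤ) : ANab.{v} K hum (Set.Icc 1 m) 2 := by
  intro V _ _ _ t hinj hS hr
  refine chain_const t fun x hx1 hx2 => ?_
  have hx : x ∈ Set.Icc (1 : ℤ) m := by rw [Set.mem_Icc]; omega
  have hy : x + 1 ∈ Set.Icc (1 : ℤ) m := by rw [Set.mem_Icc]; omega
  have hxy : hum x (x + 1) := Or.inl ⟨hx1, rfl⟩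
  obtain ⟨v, hv⟩ := finrank_le_one_iff.1 (Nat.lt_succ_iff.1 hr)
  obtain ⟨a, ha⟩ := hv (t x v)
  obtain ⟨b, hb⟩ := hv (t (x + 1) v)
  have hcomm : ∀ z, t x (t (x + 1) z) = t (x + 1) (t x z) := by
    intro z
    obtain ⟨c, hc⟩ := hv z
    rw [← hc, map_smul, map_smul, map_smul, map_smul, ← ha, ← hb, map_smul, map_smul, ← ha, ← hb,
      smul_comm b a v]
  refine LinearMap.ext fun z => ?_
  have h := LinearMap.congr_fun (hS.braid x hx (x + 1) hy hxy) z
  simp only [Module.End.mul_apply] at h
  rw [← hcomm (t (x + 1) z)] at h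
  exact hinj (x + 1) hy (hinj x hx h)

private theorem anab_mono {ι : Type*} {adj : ι → ι → Prop} {X : Set ι} {k k' : ℕ} (hk : k' ≤ k)
    (h : ANab.{v} K adj X k) : ANab.{v} K adj X k' := by
  intro V _ _ _ t hinj hS hr
  exact h V t hinj hS (lt_of_lt_of_le hr hk)

private theorem asys_smul {V : Type*} [AddCommGroup V] [Module K V] {ι : Type*}
    {adj : ι → ι → Prop} {B : Set ι} {t : ι → Module.End K V} (hS : ASys adj B t) (c : K) :
    ASys adj B fun x => c • t x := by
  refine ⟨fun x hx y hy h => ?_, fun x hx y hy h => ?_⟩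
  · simp only [smul_mul_smul_comm, hS.comm x hx y hy h]
  · simp only [smul_mul_smul_comm, hS.braid x hx y hy h]

/-- irreducible, not flat, (Q): the dimension is at least `m - 1` -/
private theorem irr_dim [IsAlgClosed K] {V : Type*} [AddCommGroup V] [Module K V]
    [FiniteDimensional K V] {m : ℤ} (hm : 11 ≤ m) {t : ℤ → Module.End K V}
    (hinj : ∀ x ∈ Set.Icc 1 m, Function.Injective (t x)) (hS : ASys hum (Set.Icc 1 m) t)
    (hirr : ∀ W : Submodule K V, (∀ x ∈ Set.Icc 1 m, ∀ w ∈ W, t x w ∈ W) → W = ⊥ ∨ W = ⊤)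
    (hnf : ∃ x ∈ Set.Icc 1 m, ∃ y ∈ Set.Icc 1 m, t x ≠ t y) (hQ : QQ t m) :
    m - 1 ≤ (Module.finrank K V : ℤ) := by
  have hne : ∀ x, 1 ≤ x → x + 1 ≤ m → t x ≠ t (x + 1) := by
    intro x h1 h2
    exact edge_neT hm (Or.inr rfl) hinj hS hnf x (by rw [Set.mem_Icc]; omega) (x + 1)
      (by rw [Set.mem_Icc]; omega) (Or.inl ⟨h1, rfl⟩)
  obtain ⟨μ, hμ, h1, h2⟩ := exists_muT hm (Or.inr rfl) hinj hS hirr hne hQ
  set s : ℤ → Module.End K V := fun x => μ⁻¹ • t x with hs
  have hst : ∀ x w, s x w = μ⁻¹ • t x w := fun x w => rfl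
  have hSs : ASys hum (Set.Icc 1 m) s := asys_smul hS μ⁻¹
  have hinjs : ∀ x ∈ Set.Icc 1 m, Function.Injective (s x) := by
    intro x hx w w' hww
    rw [hst, hst] at hww
    exact hinj x hx (smul_right_injective V (inv_ne_zero hμ) hww)
  have hirrs : ∀ W : Submodule K V, (∀ x ∈ Set.Icc 1 m, ∀ w ∈ W, s x w ∈ W) → W = ⊥ ∨ W = ⊤ := by
    intro W hW
    refine hirr W fun x hx w hw => ?_
    have h3 := W.smul_mem μ (hW x hx w hw)
    rwa [hst, smul_smul, mul_inv_cancel₀ hμ, one_smul] at h3
  have hnes : ∀ x, 1 ≤ x → x + 1 ≤ m → s x ≠ s (x + 1) := by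
    intro x h3 h4 h5
    refine hne x h3 h4 (LinearMap.ext fun w => ?_)
    have h6 := LinearMap.congr_fun h5 w
    rw [hst, hst] at h6
    exact smul_right_injective V (inv_ne_zero hμ) h6
  have hk : ∀ (y u v : ℤ) (w : V), t y (t u w - t v w) = μ • (t u w - t v w) →
      ((s y - 1) * (s u - s v)) w = 0 := by
    intro y u v w h3
    rw [Module.End.mul_apply, LinearMap.sub_apply, LinearMap.sub_apply, hst, hst, hst,
      ← smul_sub, map_smul, h3, Module.End.one_apply, smul_comm, inv_smul_smul₀ hμ, sub_self]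
  have hc := cornerT hm (Or.inr rfl) hSs hirrs hnes
    (fun u hu v hv a b c d => LinearMap.ext fun w => hk 1 u v w (h1 u hu v hv a b c d w))
    (fun u hu v hv a b => LinearMap.ext fun w => hk m u v w (h2 u hu v hv a b w))
  have hf := far_pairsT hm (Or.inr rfl)
    (fun x hx => LinearMap.injective_iff_surjective.1 (hinjs x hx)) hSs hc
  exact chain_dim (by omega) hinjs hSs hnes hf

/-- one step: `m = m1 + m2 + 1` -/
theorem chain_step [IsAlgClosed K] {m1 m2 k1 k2 : ℕ} (h1 : 5 ≤ m1) (h2 : 5 ≤ m2)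
    (hN1 : ANab.{v} K hum (Set.Icc 1 (m1 : ℤ)) k1) (hN2 : ANab.{v} K hum (Set.Icc 1 (m2 : ℤ)) k2) :
    ANab.{v} K hum (Set.Icc 1 ((m1 + m2 + 1 : ℕ) : ℤ)) (min (k1 * k2) (m1 + m2)) := by
  classical
  obtain ⟨m, hmd⟩ : ∃ m : ℤ, m = ((m1 + m2 + 1 : ℕ) : ℤ) := ⟨_, rfl⟩
  rw [← hmd]
  push_cast at hmd
  have key : ∀ r : ℕ, ∀ (V : Type v) [AddCommGroup V] [Module K V] [FiniteDimensional K V]
      (t : ℤ → Module.End K V), (∀ x ∈ Set.Icc 1 m, Function.Injective (t x)) →
      ASys hum (Set.Icc 1 m) t → Module.finrank K V = r → r < min (k1 * k2) (m1 + m2) →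
      ∀ x ∈ Set.Icc 1 m, ∀ y ∈ Set.Icc 1 m, t x = t y := by
    intro r
    induction r using Nat.strong_induction_on with
    | _ r ih =>
      intro V _ _ _ t hinj hS hr hlt
      by_contra hnf
      push Not at hnf
      by_cases hirr : ∀ W : Submodule K V, (∀ x ∈ Set.Icc 1 m, ∀ w ∈ W, t x w ∈ W) →
          W = ⊥ ∨ W = ⊤
      · set X : Set ℤ := Set.Icc 1 (m1 : ℤ) with hX
        set Y : Set ℤ := Set.Icc ((m1 : ℤ) + 2) m with hY
        have hYX : Y ≠ X := by
          intro h
          have h3 : m ∈ Y := by rw [hY, Set.mem_Icc]; omega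
          rw [h, hX, Set.mem_Icc] at h3
          omega
        have hun : un [X, Y] ⊆ Set.Icc 1 m := by
          rintro x ⟨b', hb', hx⟩
          rcases List.mem_cons.1 hb' with h | h
          · rw [h, hX, Set.mem_Icc] at hx
            rw [Set.mem_Icc]
            omega
          · rw [List.mem_singleton.1 h, hY, Set.mem_Icc] at hx
            rw [Set.mem_Icc]
            omega
        have hL : Sets hum [X, Y] := by
          refine ⟨fun b' hb' => ?_, ?_⟩
          · rcases List.mem_cons.1 hb' with h | h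
            · rw [h]
              exact good_Icc le_rfl (by omega)
            · rw [List.mem_singleton.1 h]
              exact good_Icc (by omega) (by omega)
          · refine List.pairwise_pair.2 fun x hx y hy => ?_
            rw [hX, Set.mem_Icc] at hx
            rw [hY, Set.mem_Icc] at hy
            refine ⟨by omega, ?_⟩
            unfold hum
            omega
        have hzero : ∀ x ∈ X, ∀ y ∈ X, ∀ z ∈ Y, ∀ w ∈ Y, (t x - t y) * (t z - t w) = 0 := by
          intro x hx y hy z hz w hw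
          by_contra hne
          have hmix : Mix t [X, Y] ((t x - t y) * (t z - t w)) :=
            ⟨x, hx, y, hy, t z - t w, ⟨z, hz, w, hw, 1, rfl, (mul_one _).symm⟩, rfl⟩
          have h3 := mix_dim (K := K) (fun b' => if b' = X then k1 else k2) [X, Y] hL (by
            intro b' hb'
            rcases List.mem_cons.1 hb' with h | h
            · rw [h, if_pos rfl]
              exact hN1
            · rw [List.mem_singleton.1 h, if_neg hYX]
              exact anab_shift hN2 (by omega) (by omega)) V t (fun x hx => hinj x (hun hx))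
              (hS.mono hun) _ hmix hne
          have h4 : ([X, Y].map (fun b' => if b' = X then k1 else k2)).prod = k1 * k2 := by
            rw [List.map_cons, List.map_cons, List.map_nil, List.prod_cons, List.prod_cons,
              List.prod_nil, if_pos rfl, if_neg hYX, mul_one]
          rw [h4, hr] at h3
          exact absurd (lt_of_lt_of_le hlt (min_le_left _ _)) (not_lt.2 h3)
        have hQ : QQ t m := by
          refine qq_of_pair (fun x hx => LinearMap.injective_iff_surjective.1 (hinj x hx)) hS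
            ⟨1, (m1 : ℤ) + 2, le_rfl, by omega, by omega, ?_⟩
          refine hzero 1 ?_ (1 + 1) ?_ _ ?_ _ ?_
          · rw [hX, Set.mem_Icc]; omega
          · rw [hX, Set.mem_Icc]; omega
          · rw [hY, Set.mem_Icc]; omega
          · rw [hY, Set.mem_Icc]; omega
        have h5 := irr_dim (by omega) hinj hS hirr hnf hQ
        have h6 := lt_of_lt_of_le hlt (min_le_right _ _)
        omega
      · push Not at hirr
        obtain ⟨W, hW, hb', ht'⟩ := hirr
        have hr1 : Module.finrank K W < r := by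
          rw [← hr]
          exact Submodule.finrank_lt ht'
        have hr2 : Module.finrank K (V ⧸ W) < r := by
          have h5 := Submodule.finrank_quotient_add_finrank W
          have h6 : 0 < Module.finrank K W := by
            rw [Module.finrank_pos_iff]
            exact Submodule.nontrivial_iff_ne_bot.2 hb'
          omega
        obtain ⟨t₁, hS₁, ht₁⟩ := hS.restrict W hW
        obtain ⟨t₂, hS₂, hi₂, ht₂⟩ := hS.quot hinj W hW
        have hf₁ := ih _ hr1 W t₁ (fun x hx w w' h => by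
          apply Subtype.ext
          apply hinj x hx
          rw [← ht₁ x hx, ← ht₁ x hx, h]) hS₁ rfl (hr1.trans hlt)
        have hf₂ := ih _ hr2 (V ⧸ W) t₂ hi₂ hS₂ rfl (hr2.trans hlt)
        obtain ⟨x, hx, y, hy, hne⟩ := hnf
        refine hne (ext_flat (good_Icc le_rfl (by omega))
          (fun x hx => LinearMap.injective_iff_surjective.1 (hinj x hx)) hS W ?_ ?_ x hx y hy)
        · intro x hx y hy w hw
          have h7 := ht₁ x hx ⟨w, hw⟩
          have h8 := ht₁ y hy ⟨w, hw⟩
          rw [hf₁ x hx y hy] at h7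
          exact h7.symm.trans h8
        · intro x hx y hy w
          have h7 := ht₂ x hx w
          have h8 := ht₂ y hy w
          rw [hf₂ x hx y hy] at h7
          exact (Submodule.Quotient.eq W).1 (h7.symm.trans h8)
  intro V _ _ _ t hinj hS hr
  exact key _ V t hinj hS rfl hr

theorem chain_pow [IsAlgClosed K] (m : ℕ) (hm : 5 ≤ m) :
    ANab.{v} K hum (Set.Icc 1 (m : ℤ)) (min (2 ^ ((m + 1) / 6)) (m - 1)) := by
  induction m using Nat.strong_induction_on with
  | _ m ih =>
    by_cases h11 : m < 11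
    · have h1 : (m + 1) / 6 = 1 := by omega
      rw [h1]
      exact anab_mono (min_le_left _ _) (chain_two _)
    · have h1 := ih (m - 6) (by omega) (by omega)
      have h2 := chain_step (K := K) (m1 := m - 6) (m2 := 5) (by omega) le_rfl h1
        (chain_two ((5 : ℕ) : ℤ))
      have h3 : m - 6 + 5 + 1 = m := by omega
      rw [h3] at h2
      refine anab_mono ?_ h2
      have h4 : (m + 1) / 6 = (m - 6 + 1) / 6 + 1 := by omega
      rw [h4, pow_succ]
      refine le_min ?_ (by omega)
      rcases le_total (2 ^ ((m - 6 + 1) / 6)) (m - 6 - 1) with h5 | h5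
      · rw [min_eq_left h5]
        exact min_le_left _ _
      · rw [min_eq_right h5]
        by_cases h13 : m < 13
        · have h6 : (m - 6 + 1) / 6 = 1 := by omega
          rw [h6] at h5 ⊢
          refine (min_le_left _ _).trans ?_
          omega
        · refine (min_le_right _ _).trans ?_
          omega

private theorem six_le (q : ℕ) (hq : 6 ≤ q) : 6 * q + 4 ≤ 2 ^ q := by
  induction q, hq using Nat.le_induction with
  | base => norm_num
  | succ q hq ih => rw [pow_succ]; omega

theorem chain_nab [IsAlgClosed K] {L : ℕ} (hL : 35 ≤ L) {a b : ℤ} (ha : 1 ≤ a)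
    (hab : b = a + L - 1) : ANab.{v} K hum (Set.Icc a b) (L - 1) := by
  refine anab_shift ?_ ha hab
  refine anab_mono ?_ (chain_pow L (by omega))
  refine le_min ?_ le_rfl
  have h1 := six_le ((L + 1) / 6) (by omega)
  omega

end Pool.Agent.Art
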