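import Pool.Agent.Lib.Art.AMixDim
import Pool.Agent.Lib.HypLow.Split

/-! # Splitting lemma (L3) for good sets: port of HypLow/Split -/

namespace Pool.Agent.Art

universe v

variable {ι : Type*} {adj : ι → ι → Prop} {K : Type*} {V : Type v} [Field K] [AddCommGroup V]
  [Module K V]

/-- (L3) existence -/
theorem split [IsAlgClosed K] [FiniteDimensional K V] {X : Set ι} (hX : Good adj X) {k : ℕ}
    (hN : ANab.{v} K adj X k)
    {t : ι → Module.End K V} (hinj : ∀ x ∈ X, Function.Injective (t x))
    (hS : ASys adj X t) (hr : Module.finrank K V < 2 * k) (T : Module.End K V)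
    (hT : ∀ x ∈ X, T * t x = t x * T)
    (hnf : ∃ x ∈ X, ∃ y ∈ X, t x ≠ t y) :
    ∃ μ : K, ∀ x ∈ X, ∀ y ∈ X, ∀ w, t x (T w - μ • w) = t y (T w - μ • w) := by
  classical
  set P : List K → Module.End K V := fun L => (L.map fun μ => T - μ • (1 : Module.End K V)).prod
    with hP
  have hPc : ∀ L, ∀ x ∈ X, ∀ w, P L (t x w) = t x (P L w) := by
    intro L x hx w
    exact LinearMap.congr_fun (HypLow.prod_comm (hT x hx) L) w
  have hPT : ∀ L, ∀ w, P L (T w) = T (P L w) := by
    intro L w
    exact LinearMap.congr_fun (HypLow.prod_comm (s := T) rfl L) w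
  have hcons : ∀ μ L w, P (μ :: L) w = T (P L w) - μ • P L w := by
    intro μ L w
    simp [hP]
  -- the step
  have hstep : ∃ μ L, (∀ x ∈ X, ∀ y ∈ X, ∀ w, P L w = 0 → t x w = t y w) ∧
      ¬ (∀ x ∈ X, ∀ y ∈ X, ∀ w, P (μ :: L) w = 0 → t x w = t y w) := by
    by_contra hcon
    push Not at hcon
    have hall : ∀ L : List K, ∀ x ∈ X, ∀ y ∈ X, ∀ w, P L w = 0 → t x w = t y w := by
      intro L
      induction L with
      | nil =>
        intro x _ y _ w hw
        have : w = 0 := by simpa [hP] using hw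
        rw [this, map_zero, map_zero]
      | cons μ L ih => exact hcon μ L ih
    obtain ⟨L, hL⟩ := HypLow.exists_prod_zero (K := K) T
    obtain ⟨x, hx, y, hy, hxy⟩ := hnf
    apply hxy
    ext w
    apply hall L x hx y hy w
    show (L.map fun μ => T - μ • (1 : Module.End K V)).prod w = 0
    rw [hL]
    rfl
  obtain ⟨μ, L, h1, h2⟩ := hstep
  -- the kernel of `P (μ :: L)` is large
  have hker : ¬ Module.finrank K (LinearMap.ker (P (μ :: L))) < k := by
    intro hk
    apply h2
    intro x hx y hy w hw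
    exact hN.flat_on hinj hS (LinearMap.ker (P (μ :: L))) (fun z hz w' hw' => by
      rw [LinearMap.mem_ker] at hw' ⊢
      rw [hPc _ z hz, hw', map_zero]) hk x hx y hy w (LinearMap.mem_ker.2 hw)
  have hran : Module.finrank K (LinearMap.range (P (μ :: L))) < k := by
    have := LinearMap.finrank_range_add_finrank_ker (P (μ :: L))
    omega
  have h3 : ∀ x ∈ X, ∀ y ∈ X, ∀ w ∈ LinearMap.range (P (μ :: L)), t x w = t y w :=
    hN.flat_on hinj hS _ (fun z hz w' hw' => by
      obtain ⟨v, rfl⟩ := hw'
      exact ⟨t z v, hPc _ z hz v⟩) hran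
  -- extension on the image of `T - μ`
  set I : Submodule K V := LinearMap.range (T - μ • (1 : Module.End K V)) with hI
  have hIst : ∀ x ∈ X, ∀ w ∈ I, t x w ∈ I := by
    rintro x hx w ⟨v, rfl⟩
    refine ⟨t x v, ?_⟩
    have e := LinearMap.congr_fun (hT x hx) v
    simp only [Module.End.mul_apply] at e
    simp [e]
  obtain ⟨t', hS', ht'⟩ := hS.restrict I hIst
  have hinj' : ∀ x ∈ X, Function.Injective (t' x) := by
    intro z hz w1 w2 h
    have h' : t z (w1 : V) = t z (w2 : V) := by rw [← ht' z hz, ← ht' z hz, h]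
    exact Subtype.ext (hinj z hz h')
  have hflat := ext_flat hX (t := t') (fun x hx => LinearMap.injective_iff_surjective.1
    (hinj' x hx)) hS' (LinearMap.ker ((P L).comp I.subtype)) (by
      intro x hx y hy w hw
      apply Subtype.ext
      rw [ht' x hx, ht' y hy]
      exact h1 x hx y hy w (by simpa using hw)) (by
      intro x hx y hy w
      rw [LinearMap.mem_ker]
      have e : ((t' x w - t' y w : I) : V) = t x w - t y w := by
        rw [Submodule.coe_sub, ht' x hx, ht' y hy]
      rw [LinearMap.comp_apply, Submodule.subtype_apply, e, map_sub, hPc _ x hx, hPc _ y hy]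
      have hmem : P L (w : V) ∈ LinearMap.range (P (μ :: L)) := by
        obtain ⟨v, hv⟩ := w.2
        refine ⟨v, ?_⟩
        rw [hcons, ← hv]
        simp [hPT]
      rw [h3 x hx y hy _ hmem, sub_self])
  refine ⟨μ, fun x hx y hy w => ?_⟩
  have hw : T w - μ • w ∈ I := ⟨w, by simp⟩
  have h := congrArg (fun g : Module.End K I => ((g ⟨_, hw⟩ : I) : V)) (hflat x hx y hy)
  simpa only [ht' x hx, ht' y hy] using h

end Pool.Agent.Art
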