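import Pool.Agent.Lib.Art.ChainRec
import Pool.Agent.Lib.Art.Split

/-! # The recursion for chains by the splitting lemma: two vertices double the bound -/

namespace Pool.Agent.Art

universe v

variable {K : Type*} [Field K]

theorem two_mono {ι : Type*} {adj : ι → ι → Prop} {X : Set ι} {k k' : ℕ} (hk : k' ≤ k)
    (h : ANab.{v} K adj X k) : ANab.{v} K adj X k' := by
  intro V _ _ _ t hinj hS hr
  exact h V t hinj hS (lt_of_lt_of_le hr hk)

/-- irreducible, not flat, (Q): the dimension is at least `m - 1` -/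
theorem two_irr_dim [IsAlgClosed K] {V : Type*} [AddCommGroup V] [Module K V]
    [FiniteDimensional K V] {m : ℤ} (hm : 11 ≤ m) {t : ℤ → Module.End K V}
    (hinj : ∀ x ∈ Set.Icc 1 m, Function.Injective (t x)) (hS : ASys hum (Set.Icc 1 m) t)
    (hirr : ∀ W : Submodule K V, (∀ x ∈ Set.Icc 1 m, ∀ w ∈ W, t x w ∈ W) → W = ⊥ ∨ W = ⊤)
    (hnf : ∃ x ∈ Set.Icc 1 m, ∃ y ∈ Set.Icc 1 m, t x ≠ t y) (hQ : QQ t m) :
    m - 1 ≤ (Module.finrank K V : ℤ) := by
  have hne : ∀ x, 1 ≤ x → x + 1 ≤ m → t x ≠ t (x + 1) := by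
    intro x h1 h2
    exact edge_neT hm (Or.inr rfl) hinj hS hnf x (by rw [Set.mem_Icc]; omega) (x + 1)
      (by rw [Set.mem_Icc]; omega) (Or.inl ⟨h1, rfl⟩)
  obtain ⟨μ, hμ, h1, h2⟩ := exists_muT hm (Or.inr rfl) hinj hS hirr hne hQ
  set s : ℤ → Module.End K V := fun x => μ⁻¹ • t x with hs
  have hst : ∀ x w, s x w = μ⁻¹ • t x w := fun x w => rfl
  have hSs : ASys hum (Set.Icc 1 m) s := by
    refine ⟨fun x hx y hy h => ?_, fun x hx y hy h => ?_⟩
    · simp only [hs, smul_mul_smul_comm, hS.comm x hx y hy h]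
    · simp only [hs, smul_mul_smul_comm, hS.braid x hx y hy h]
  have hinjs : ∀ x ∈ Set.Icc 1 m, Function.Injective (s x) := by
    intro x hx w w' hww
    rw [hst, hst] at hww
    exact hinj x hx (smul_right_injective V (inv_ne_zero hμ) hww)
  have hirrs : ∀ W : Submodule K V, (∀ x ∈ Set.Icc 1 m, ∀ w ∈ W, s x w ∈ W) → W = ⊥ ∨ W = ⊤ := by
    intro W hW
    refine hirr W fun x hx w hw => ?_
    have h3 := W.smul_mem μ (hW x hx w hw)
    rwa [hst, smul_smul, mul_inv_cancel₀ hμ, one_smul] at h3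
  have hnes : ∀ x, 1 ≤ x → x + 1 ≤ m → s x ≠ s (x + 1) := by
    intro x h3 h4 h5
    refine hne x h3 h4 (LinearMap.ext fun w => ?_)
    have h6 := LinearMap.congr_fun h5 w
    rw [hst, hst] at h6
    exact smul_right_injective V (inv_ne_zero hμ) h6
  have hk : ∀ (y u v : ℤ) (w : V), t y (t u w - t v w) = μ • (t u w - t v w) →
      ((s y - 1) * (s u - s v)) w = 0 := by
    intro y u v w h3
    rw [Module.End.mul_apply, LinearMap.sub_apply, LinearMap.sub_apply, hst, hst, hst,
      ← smul_sub, map_smul, h3, Module.End.one_apply, smul_comm, inv_smul_smul₀ hμ, sub_self]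
  have hc := cornerT hm (Or.inr rfl) hSs hirrs hnes
    (fun u hu v hv a b c d => LinearMap.ext fun w => hk 1 u v w (h1 u hu v hv a b c d w))
    (fun u hu v hv a b => LinearMap.ext fun w => hk m u v w (h2 u hu v hv a b w))
  have hf := far_pairsT hm (Or.inr rfl)
    (fun x hx => LinearMap.injective_iff_surjective.1 (hinjs x hx)) hSs hc
  exact chain_dim (by omega) hinjs hSs hnes hf

/-- (Q) by the splitting lemma -/
theorem two_qq [IsAlgClosed K] {V : Type v} [AddCommGroup V] [Module K V]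
    [FiniteDimensional K V] {m : ℤ} {k : ℕ} (hm : 11 ≤ m)
    (hN : ANab.{v} K hum (Set.Icc 3 m) k) {t : ℤ → Module.End K V}
    (hinj : ∀ x ∈ Set.Icc 1 m, Function.Injective (t x)) (hS : ASys hum (Set.Icc 1 m) t)
    (hr : Module.finrank K V < 2 * k)
    (hnf : ∃ x ∈ Set.Icc 1 m, ∃ y ∈ Set.Icc 1 m, t x ≠ t y) : QQ t m := by
  have hsurj : ∀ x ∈ Set.Icc 1 m, Function.Surjective (t x) := fun x hx =>
    LinearMap.injective_iff_surjective.1 (hinj x hx)
  have mem : ∀ x : ℤ, 1 ≤ x → x ≤ m → x ∈ Set.Icc 1 m := fun x h1 h2 => ⟨h1, h2⟩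
  have hsub : Set.Icc 3 m ⊆ Set.Icc 1 m := fun x hx => ⟨by have := hx.1; omega, hx.2⟩
  have m1 := mem 1 le_rfl (by omega)
  have m2 := mem 2 (by omega) (by omega)
  have m4 := mem 4 (by omega) (by omega)
  have m5 := mem 5 (by omega) (by omega)
  obtain ⟨μ, hμ⟩ := split (good_Icc (a := 3) (b := m) (by omega) (by omega)) hN
    (fun x hx => hinj x (hsub hx)) (hS.mono hsub) hr (t 1) (fun x hx =>
      hS.comm 1 m1 x (hsub hx) (far_hum le_rfl (by have := hx.1; omega)
        (by have := hx.1; omega)))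
    ⟨4, ⟨by omega, by omega⟩, 5, ⟨by omega, by omega⟩,
      edge_neT hm (Or.inr rfl) hinj hS hnf 4 m4 5 m5 (Or.inl ⟨by omega, by omega⟩)⟩
  -- on the image of `t 1 - μ`
  have h1 : (t 4 - t 5) * (t 1 - μ • 1) = 0 := by
    refine LinearMap.ext fun w => ?_
    have h := hμ 4 ⟨by omega, by omega⟩ 5 ⟨by omega, by omega⟩ w
    rw [Module.End.mul_apply, LinearMap.sub_apply, LinearMap.sub_apply, LinearMap.smul_apply,
      Module.End.one_apply, h, sub_self, LinearMap.zero_apply]
  have b12 := hS.braid 1 m1 2 m2 (Or.inl ⟨le_rfl, rfl⟩)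
  have c41 := hS.comm 4 m4 1 m1 (far_hum (by omega) le_rfl (by omega))
  have c42 := hS.comm 4 m4 2 m2 (far_hum (by omega) (by omega) (by omega))
  have c51 := hS.comm 5 m5 1 m1 (far_hum (by omega) le_rfl (by omega))
  have c52 := hS.comm 5 m5 2 m2 (far_hum (by omega) (by omega) (by omega))
  have h2 : (t 4 - t 5) * (t 2 - μ • 1) = 0 := by
    have e : (t 4 - t 5) * (t 2 - μ • 1) * (t 1 * t 2) = 0 := by
      have e1 : (t 2 - μ • 1) * (t 1 * t 2) = (t 1 * t 2) * (t 1 - μ • 1) := by
        rw [sub_mul, mul_sub, smul_mul_assoc, one_mul, mul_smul_comm, mul_one, ← mul_assoc, ← b12]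
      have e2 : (t 4 - t 5) * (t 1 * t 2) = (t 1 * t 2) * (t 4 - t 5) := by
        rw [sub_mul, mul_sub, ← mul_assoc, ← mul_assoc, c41, c51, mul_assoc, mul_assoc, c42, c52,
          mul_assoc, mul_assoc]
      rw [mul_assoc, e1, ← mul_assoc, e2, mul_assoc, h1, mul_zero]
    refine LinearMap.ext fun y => ?_
    obtain ⟨y1, rfl⟩ := hsurj 1 m1 y
    obtain ⟨y2, rfl⟩ := hsurj 2 m2 y1
    exact LinearMap.congr_fun e y2
  have h3 : (t 4 - t 5) * (t 1 - t 2) = 0 := by
    have e : t 1 - t 2 = (t 1 - μ • 1) - (t 2 - μ • 1) := by abel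
    rw [e, mul_sub, h1, h2, sub_zero]
  refine qq_of_pair hsurj hS ⟨1, 4, le_rfl, by omega, by omega, ?_⟩
  have e1 : (1 : ℤ) + 1 = 2 := by norm_num
  have e2 : (4 : ℤ) + 1 = 5 := by norm_num
  rw [e1, e2, diff_comm2 hS m1 m2 m4 m5 (far_hum (by omega) (by omega) (by omega))
    (far_hum (by omega) (by omega) (by omega)) (far_hum (by omega) (by omega) (by omega))
    (far_hum (by omega) (by omega) (by omega))]
  exact h3

/-- one step: two vertices double the bound -/
theorem two_step [IsAlgClosed K] {m k : ℕ} (hm : 9 ≤ m)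
    (hN : ANab.{v} K hum (Set.Icc 1 (m : ℤ)) k) :
    ANab.{v} K hum (Set.Icc 1 ((m + 2 : ℕ) : ℤ)) (min (2 * k) (m + 1)) := by
  obtain ⟨M, hM⟩ : ∃ M : ℤ, M = ((m + 2 : ℕ) : ℤ) := ⟨_, rfl⟩
  rw [← hM]
  push_cast at hM
  have hN3 : ANab.{v} K hum (Set.Icc 3 M) k := anab_shift hN (by omega) (by omega)
  have key : ∀ r : ℕ, ∀ (V : Type v) [AddCommGroup V] [Module K V] [FiniteDimensional K V]
      (t : ℤ → Module.End K V), (∀ x ∈ Set.Icc 1 M, Function.Injective (t x)) →
      ASys hum (Set.Icc 1 M) t → Module.finrank K V = r → r < min (2 * k) (m + 1) →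
      ∀ x ∈ Set.Icc 1 M, ∀ y ∈ Set.Icc 1 M, t x = t y := by
    intro r
    induction r using Nat.strong_induction_on with
    | _ r ih =>
      intro V _ _ _ t hinj hS hr hlt
      by_contra hnf
      push Not at hnf
      by_cases hirr : ∀ W : Submodule K V, (∀ x ∈ Set.Icc 1 M, ∀ w ∈ W, t x w ∈ W) →
          W = ⊥ ∨ W = ⊤
      · have hQ : QQ t M := two_qq (by omega) hN3 hinj hS
          (by rw [hr]; exact lt_of_lt_of_le hlt (min_le_left _ _)) hnf
        have h5 := two_irr_dim (by omega) hinj hS hirr hnf hQ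
        have h6 := lt_of_lt_of_le hlt (min_le_right _ _)
        omega
      · push Not at hirr
        obtain ⟨W, hW, hb', ht'⟩ := hirr
        have hr1 : Module.finrank K W < r := by
          rw [← hr]
          exact Submodule.finrank_lt ht'
        have hr2 : Module.finrank K (V ⧸ W) < r := by
          have h5 := Submodule.finrank_quotient_add_finrank W
          have h6 : 0 < Module.finrank K W := by
            rw [Module.finrank_pos_iff]
            exact Submodule.nontrivial_iff_ne_bot.2 hb'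
          omega
        obtain ⟨t₁, hS₁, ht₁⟩ := hS.restrict W hW
        obtain ⟨t₂, hS₂, hi₂, ht₂⟩ := hS.quot hinj W hW
        have hf₁ := ih _ hr1 W t₁ (fun x hx w w' h => by
          apply Subtype.ext
          apply hinj x hx
          rw [← ht₁ x hx, ← ht₁ x hx, h]) hS₁ rfl (hr1.trans hlt)
        have hf₂ := ih _ hr2 (V ⧸ W) t₂ hi₂ hS₂ rfl (hr2.trans hlt)
        obtain ⟨x, hx, y, hy, hne⟩ := hnf
        refine hne (ext_flat (good_Icc le_rfl (by omega))
          (fun x hx => LinearMap.injective_iff_surjective.1 (hinj x hx)) hS W ?_ ?_ x hx y hy)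
        · intro x hx y hy w hw
          have h7 := ht₁ x hx ⟨w, hw⟩
          have h8 := ht₁ y hy ⟨w, hw⟩
          rw [hf₁ x hx y hy] at h7
          exact h7.symm.trans h8
        · intro x hx y hy w
          have h7 := ht₂ x hx w
          have h8 := ht₂ y hy w
          rw [hf₂ x hx y hy] at h7
          exact (Submodule.Quotient.eq W).1 (h7.symm.trans h8)
  intro V _ _ _ t hinj hS hr
  exact key _ V t hinj hS rfl hr

/-- the bound `m - 1` for all chains of length `m ≥ 15` -/
theorem two_chain [IsAlgClosed K] : ∀ m : ℕ, 15 ≤ m →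
    ANab.{v} K hum (Set.Icc 1 (m : ℤ)) (m - 1) := by
  have h11 := two_step (K := K) (m := 9) (k := 2) le_rfl (chain_two _)
  have h13 := two_step (K := K) (m := 11) (by norm_num) h11
  have h15 := two_step (K := K) (m := 13) (by norm_num) h13
  have h12 := two_step (K := K) (m := 10) (k := 2) (by norm_num) (chain_two _)
  have h14 := two_step (K := K) (m := 12) (by norm_num) h12
  have h16 := two_step (K := K) (m := 14) (by norm_num) h14
  intro m
  induction m using Nat.strong_induction_on with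
  | _ m ih =>
    intro hm
    by_cases h : m = 15
    · subst h
      exact two_mono (by norm_num) h15
    by_cases h' : m = 16
    · subst h'
      exact two_mono (by norm_num) h16
    have h3 := two_step (K := K) (m := m - 2) (by omega) (ih (m - 2) (by omega) (by omega))
    have e : m - 2 + 2 = m := by omega
    rw [e] at h3
    exact two_mono (by rw [le_min_iff]; omega) h3

/-- compare `chain_nab` -/
theorem chain_nab2 [IsAlgClosed K] {L : ℕ} (hL : 15 ≤ L) {a b : ℤ} (ha : 1 ≤ a)
    (hab : b = a + L - 1) : ANab.{v} K hum (Set.Icc a b) (L - 1) :=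
  anab_shift (two_chain L hL) ha hab

end Pool.Agent.Art
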