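import Pool.Agent.Lib.Art.Defs

/-! # The claw and the relation (A2): port of HypLow/ClawZero and rel2 of HypLow/Rel
(page mcg70, section 5) -/

namespace Pool.Agent.Art

variable {K V : Type*} [Field K] [AddCommGroup V] [Module K V]

private theorem ClawT_symm {x y : ℤ} (h : Far hum x y) : Far hum y x :=
  ⟨h.1.symm, fun h' => h.2 (hum_symm _ _ h')⟩

private theorem ClawT_braid {B : Set ℤ}
    {s : ℤ → Module.End K V} (hS : ASys hum B s) {v w : ℤ} (hv : v ∈ B) (hw : w ∈ B)
    (hvw : hum v w) (y : V) :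
    s v (s w (s v y)) = s w (s v (s w y)) := by
  have h := congrArg (fun f : Module.End K V => f y) (hS.braid v hv w hw hvw)
  simpa [Module.End.mul_apply] using h

private theorem ClawT_far {B : Set ℤ}
    {s : ℤ → Module.End K V} (hG : Fine hum B s) {p v : ℤ} (hp : p ∈ B) (hv : v ∈ B)
    (hpv : Far hum p v) {z : V}
    (h1 : z ∈ LinearMap.range (s v - 1)) : s p z = z := by
  obtain ⟨y, rfl⟩ := h1
  have h := congrArg (fun f : Module.End K V => f y) (hG.far p hp v hv hpv)
  simp only [Module.End.mul_apply, LinearMap.zero_apply] at h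
  have h' : s p ((s v - 1) y) - (s v - 1) y = 0 := by
    simpa [LinearMap.sub_apply, Module.End.one_apply] using h
  exact sub_eq_zero.mp h'

private theorem ClawT_self {s : Module.End K V} {z : V}
    (h1 : z ∈ LinearMap.range (s - 1)) : s z ∈ LinearMap.range (s - 1) := by
  obtain ⟨y, rfl⟩ := h1
  refine ⟨s y, ?_⟩
  simp [LinearMap.sub_apply, Module.End.one_apply, map_sub]

private theorem ClawT_fix {B : Set ℤ}
    {s : ℤ → Module.End K V} (hG : Fine hum B s)
    {v w p : ℤ} (hv : v ∈ B) (hw : w ∈ B) (hp : p ∈ B) (hvw : hum v w) (hpw : hum p w)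
    (hpv : Far hum p v) {z : V} (h1 : z ∈ LinearMap.range (s v - 1))
    (h2 : z ∈ LinearMap.range (s w - 1)) : s w (s v z) = s v z := by
  have hq : s p (s v z) = s v z :=
    ClawT_far hG hp hv hpv (ClawT_self h1)
  have hwq : s w (s v z) ∈ LinearMap.range (s v - 1) := by
    obtain ⟨y, rfl⟩ := h2
    refine ⟨s w (s v y), ?_⟩
    have hb := ClawT_braid hG.sys hv hw hvw y
    simp only [LinearMap.sub_apply, Module.End.one_apply, map_sub]
    rw [hb]
  have hp2 : s p (s w (s v z)) = s w (s v z) := ClawT_far hG hp hv hpv hwq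
  have hb := ClawT_braid hG.sys hp hw hpw (s v z)
  rw [hq, hp2] at hb
  exact hG.inj w hw hb.symm

private theorem ClawT_memfix {B : Set ℤ}
    {s : ℤ → Module.End K V} (hG : Fine hum B s)
    {v w : ℤ} (hv : v ∈ B) (hw : w ∈ B) (hvw : hum v w) {z : V}
    (h1 : z ∈ LinearMap.range (s v - 1)) (h2 : s w z = z) :
    s v z ∈ LinearMap.range (s w - 1) := by
  obtain ⟨y, rfl⟩ := h1
  refine ⟨s v (s w y), ?_⟩
  have hb := ClawT_braid hG.sys hv hw hvw y
  have h3 : s v ((s v - 1) y) = s v (s w ((s v - 1) y)) := by rw [h2]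
  rw [h3]
  simp only [LinearMap.sub_apply, Module.End.one_apply, map_sub]
  rw [hb]

/-- `I_v ∩ I_w` -/
private def ClawTX (s : ℤ → Module.End K V) (v w : ℤ) : Submodule K V :=
  LinearMap.range (s v - 1) ⊓ LinearMap.range (s w - 1)

/-- `I_v ∩ Ker (s_w - 1)` -/
private def ClawTZ (s : ℤ → Module.End K V) (v w : ℤ) : Submodule K V :=
  LinearMap.range (s v - 1) ⊓ LinearMap.ker (s w - 1)

private theorem ClawT_ker {f : Module.End K V} {z : V} :
    z ∈ LinearMap.ker (f - 1) ↔ f z = z := by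
  rw [LinearMap.mem_ker, LinearMap.sub_apply, Module.End.one_apply, sub_eq_zero]

private theorem ClawT_rank [FiniteDimensional K V] {P Q : Submodule K V}
    {f : Module.End K V} (hf : Function.Injective f) (h : ∀ z ∈ P, f z ∈ Q) :
    Module.finrank K P ≤ Module.finrank K Q := by
  have h1 : P.map f ≤ Q := by
    rintro _ ⟨z, hz, rfl⟩
    exact h z hz
  have h2 : Module.finrank K (P.map f) = Module.finrank K P :=
    (Submodule.equivMapOfInjective f hf P).finrank_eq.symm
  rw [← h2]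
  exact Submodule.finrank_mono h1

/-- the images of the claw `4; 5, 3, 0`: everything is equal -/
private theorem ClawT_first [FiniteDimensional K V] {m : ℤ} (hm : 11 ≤ m)
    {s : ℤ → Module.End K V} (hG : Fine hum (Set.Icc 0 m) s) : ClawTX s 4 5 = ⊥ := by
  have hv : (4 : ℤ) ∈ Set.Icc 0 m := ⟨by omega, by omega⟩
  have hw1 : (5 : ℤ) ∈ Set.Icc 0 m := ⟨by omega, by omega⟩
  have hw2 : (3 : ℤ) ∈ Set.Icc 0 m := ⟨by omega, by omega⟩
  have hw3 : (0 : ℤ) ∈ Set.Icc 0 m := ⟨by omega, by omega⟩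
  have hp : (6 : ℤ) ∈ Set.Icc 0 m := ⟨by omega, by omega⟩
  have a1 : hum 4 5 := by unfold hum; omega
  have a2 : hum 4 3 := by unfold hum; omega
  have a3 : hum 4 0 := by unfold hum; omega
  have f12 : Far hum 5 3 := by unfold Far hum; omega
  have f13 : Far hum 5 0 := by unfold Far hum; omega
  have f23 : Far hum 3 0 := by unfold Far hum; omega
  have hpw : hum 6 5 := by unfold hum; omega
  have hpv : Far hum 6 4 := by unfold Far hum; omega
  have hall : ∀ z ∈ Set.Icc 0 m, z ≠ 4 → z = 5 ∨ z = 3 ∨ z = 0 ∨ Far hum z 4 := by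
    intro z hz h4
    unfold Far hum
    omega
  -- inclusions `X_{v w} ≤ Z_{v w'}` for far `w`, `w'`
  have hXZ : ∀ w ∈ Set.Icc 0 m, ∀ w' ∈ Set.Icc 0 m, Far hum w' w → ClawTX s 4 w ≤ ClawTZ s 4 w' := by
    intro w hw w' hw' hf z hz
    refine ⟨hz.1, ?_⟩
    exact ClawT_ker.mpr (ClawT_far hG hw' hw hf hz.2)
  -- dimensions
  have hd1 : Module.finrank K (ClawTX s 4 5) ≤ Module.finrank K (ClawTZ s 4 5) :=
    ClawT_rank (hG.inj 4 hv) fun z hz =>
      ⟨ClawT_self hz.1, ClawT_ker.mpr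
        (ClawT_fix hG hv hw1 hp a1 hpw hpv hz.1 hz.2)⟩
  have hZX : ∀ w ∈ Set.Icc 0 m, hum 4 w →
      Module.finrank K (ClawTZ s 4 w) ≤ Module.finrank K (ClawTX s 4 w) := by
    intro w hw hvw
    exact ClawT_rank (hG.inj 4 hv) fun z hz =>
      ⟨ClawT_self hz.1, ClawT_memfix hG hv hw hvw hz.1 (ClawT_ker.mp hz.2)⟩
  have e12 := hXZ 5 hw1 3 hw2 (ClawT_symm f12)
  have e13 := hXZ 5 hw1 0 hw3 (ClawT_symm f13)
  have e21 := hXZ 3 hw2 5 hw1 f12
  have e31 := hXZ 0 hw3 5 hw1 f13
  have e23 := hXZ 3 hw2 0 hw3 (ClawT_symm f23)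
  have e32 := hXZ 0 hw3 3 hw2 f23
  have r12 := Submodule.finrank_mono e12
  have r13 := Submodule.finrank_mono e13
  have r21 := Submodule.finrank_mono e21
  have r31 := Submodule.finrank_mono e31
  have z1 := hZX 5 hw1 a1
  have z2 := hZX 3 hw2 a2
  have z3 := hZX 0 hw3 a3
  have E12 : ClawTX s 4 5 = ClawTZ s 4 3 :=
    Submodule.eq_of_le_of_finrank_le e12 (by omega)
  have E13 : ClawTX s 4 5 = ClawTZ s 4 0 :=
    Submodule.eq_of_le_of_finrank_le e13 (by omega)
  have E21 : ClawTX s 4 3 = ClawTZ s 4 5 :=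
    Submodule.eq_of_le_of_finrank_le e21 (by omega)
  have E31 : ClawTX s 4 0 = ClawTZ s 4 5 :=
    Submodule.eq_of_le_of_finrank_le e31 (by omega)
  have E23 : ClawTX s 4 3 = ClawTZ s 4 0 := by
    refine Submodule.eq_of_le_of_finrank_le e23 ?_
    rw [← E13]; omega
  have E32 : ClawTX s 4 0 = ClawTZ s 4 3 := by
    refine Submodule.eq_of_le_of_finrank_le e32 ?_
    rw [← E12]; omega
  have X12 : ClawTX s 4 5 = ClawTX s 4 3 := by rw [E13, E23]
  have XZ1 : ClawTX s 4 5 = ClawTZ s 4 5 := by rw [X12, E21]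
  -- `Z` is stable
  have hfix : ∀ z ∈ Set.Icc 0 m, z ≠ 4 → ∀ y ∈ ClawTX s 4 5, s z y = y := by
    intro z hz hzv y hy
    rcases hall z hz hzv with h | h | h | h
    · subst h
      rw [XZ1] at hy
      exact ClawT_ker.mp hy.2
    · subst h
      rw [E12] at hy
      exact ClawT_ker.mp hy.2
    · subst h
      rw [E13] at hy
      exact ClawT_ker.mp hy.2
    · exact ClawT_far hG hz hv h hy.1
  have hstab : ∀ x ∈ Set.Icc 0 m, ∀ y ∈ ClawTX s 4 5, s x y ∈ ClawTX s 4 5 := by
    intro x hx y hy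
    by_cases hxv : x = 4
    · subst hxv
      rw [XZ1]
      exact ⟨ClawT_self hy.1, ClawT_ker.mpr
        (ClawT_fix hG hx hw1 hp a1 hpw hpv hy.1 hy.2)⟩
    · rw [hfix x hx hxv y hy]
      exact hy
  rcases hG.irr _ hstab with h | h
  · exact h
  · exfalso
    have hone : ∀ z ∈ Set.Icc 0 m, z ≠ 4 → s z = 1 := by
      intro z hz hzv
      refine LinearMap.ext fun y => ?_
      have hy : y ∈ ClawTX s 4 5 := by rw [h]; trivial
      rw [hfix z hz hzv y hy]
      rfl
    have hv1 : s 4 = 1 := by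
      refine LinearMap.ext fun y => ?_
      have hb := ClawT_braid hG.sys hv hw1 a1 y
      rw [hone 5 hw1 (by omega)] at hb
      simp only [Module.End.one_apply] at hb
      rw [hG.inj 4 hv hb]
      rfl
    obtain ⟨x, hx, y, hy, hxy⟩ := hG.nf
    apply hxy
    have hA : ∀ z ∈ Set.Icc 0 m, s z = 1 := by
      intro z hz
      by_cases hzv : z = 4
      · rw [hzv]; exact hv1
      · exact hone z hz hzv
    rw [hA x hx, hA y hy]

/-- all edges of the tree are reached from the edge `4 - 5` -/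
private theorem ClawT_edge {m : ℤ} (hm : 11 ≤ m) (R : ℤ → ℤ → Prop)
    (symm : ∀ v ∈ Set.Icc 0 m, ∀ w ∈ Set.Icc 0 m, hum v w → R v w → R w v)
    (move : ∀ v ∈ Set.Icc 0 m, ∀ w ∈ Set.Icc 0 m, ∀ z ∈ Set.Icc 0 m, hum v w → hum w z →
      Far hum v z → R v w → R w z) (h : R 4 5) :
    ∀ v ∈ Set.Icc 0 m, ∀ w ∈ Set.Icc 0 m, hum v w → R v w := by
  have up : ∀ k : ℕ, 5 + (k : ℤ) ≤ m → R (4 + k) (5 + k) := by
    intro k
    induction k with
    | zero =>
      intro _
      simpa using h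
    | succ k ih =>
      intro hk
      push_cast at hk ⊢
      have h1 := ih (by omega)
      have h2 := move (4 + k) ⟨by omega, by omega⟩ (5 + k) ⟨by omega, by omega⟩ (6 + k)
        ⟨by omega, by omega⟩ (by unfold hum; omega) (by unfold hum; omega)
        (by unfold Far hum; omega) h1
      have e1 : (4 : ℤ) + (k + 1) = 5 + k := by ring
      have e2 : (5 : ℤ) + (k + 1) = 6 + k := by ring
      rw [e1, e2]
      exact h2
  have h54 : R 5 4 := symm 4 ⟨by omega, by omega⟩ 5 ⟨by omega, by omega⟩ (by unfold hum; omega) h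
  have h43 : R 4 3 := move 5 ⟨by omega, by omega⟩ 4 ⟨by omega, by omega⟩ 3 ⟨by omega, by omega⟩
    (by unfold hum; omega) (by unfold hum; omega) (by unfold Far hum; omega) h54
  have h32 : R 3 2 := move 4 ⟨by omega, by omega⟩ 3 ⟨by omega, by omega⟩ 2 ⟨by omega, by omega⟩
    (by unfold hum; omega) (by unfold hum; omega) (by unfold Far hum; omega) h43
  have h21 : R 2 1 := move 3 ⟨by omega, by omega⟩ 2 ⟨by omega, by omega⟩ 1 ⟨by omega, by omega⟩
    (by unfold hum; omega) (by unfold hum; omega) (by unfold Far hum; omega) h32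
  have h40 : R 4 0 := move 5 ⟨by omega, by omega⟩ 4 ⟨by omega, by omega⟩ 0 ⟨by omega, by omega⟩
    (by unfold hum; omega) (by unfold hum; omega) (by unfold Far hum; omega) h54
  have fwd : ∀ v : ℤ, 1 ≤ v → v + 1 ≤ m → R v (v + 1) ∨ R (v + 1) v := by
    intro v h1 h2
    by_cases h4 : 4 ≤ v
    · left
      have h3 := up (v - 4).toNat (by omega)
      have e1 : (4 : ℤ) + ((v - 4).toNat : ℤ) = v := by omega
      have e2 : (5 : ℤ) + ((v - 4).toNat : ℤ) = v + 1 := by omega
      rw [e1, e2] at h3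
      exact h3
    · right
      have : v = 1 ∨ v = 2 ∨ v = 3 := by omega
      rcases this with rfl | rfl | rfl
      · exact h21
      · exact h32
      · exact h43
  have key : ∀ v ∈ Set.Icc 0 m, ∀ w ∈ Set.Icc 0 m, hum v w → R v w ∨ R w v := by
    intro v hv w hw hvw
    have hv' := hv.2
    have hw' := hw.2
    rcases id hvw with ⟨h1, rfl⟩ | ⟨h1, rfl⟩ | ⟨rfl, rfl⟩ | ⟨rfl, rfl⟩
    · exact fwd v h1 hw'
    · exact (fwd w h1 hv').symm
    · exact Or.inr h40
    · exact Or.inl h40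
  intro v hv w hw hvw
  rcases key v hv w hw hvw with h1 | h1
  · exact h1
  · exact symm w hw v hv (hum_symm _ _ hvw) h1

variable [FiniteDimensional K V]

/-- the claw `4; 5, 3, 0` and `p = 6` -/
theorem claw_zeroT {m : ℤ} (hm : 11 ≤ m) {s : ℤ → Module.End K V}
    (hG : Fine hum (Set.Icc 0 m) s) :
    ∀ v ∈ Set.Icc 0 m, ∀ w ∈ Set.Icc 0 m, hum v w →
      LinearMap.range (s v - 1) ⊓ LinearMap.range (s w - 1) = ⊥ := by
  refine ClawT_edge hm
    (fun v w => LinearMap.range (s v - 1) ⊓ LinearMap.range (s w - 1) = ⊥) ?_ ?_ ?_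
  · intro v _ w _ _ h
    rw [inf_comm]
    exact h
  · intro v hv w hw z hz hvw hwz hvz h
    rw [Submodule.eq_bot_iff]
    rintro y ⟨⟨c, hc⟩, ⟨d, hd⟩⟩
    -- conjugation by `g = s v * s w * s z`
    have hinj : Function.Injective (s v * s w * s z : Module.End K V) := by
      intro x x' hx
      simp only [Module.End.mul_apply] at hx
      exact hG.inj z hz (hG.inj w hw (hG.inj v hv hx))
    have hsurj : Function.Surjective (s v * s w * s z : Module.End K V) :=
      LinearMap.injective_iff_surjective.mp hinj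
    have g1 : ∀ x, s v (s w (s z (s v x))) = s w (s v (s w (s z x))) := by
      intro x
      have hc' : s z (s v x) = s v (s z x) := by
        have := congrArg (fun f : Module.End K V => f x) (hG.sys.comm z hz v hv (ClawT_symm hvz))
        simpa [Module.End.mul_apply] using this
      rw [hc', ClawT_braid hG.sys hv hw hvw]
    have g2 : ∀ x, s v (s w (s z (s w x))) = s z (s v (s w (s z x))) := by
      intro x
      have hc' : ∀ x', s v (s z x') = s z (s v x') := by
        intro x'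
        have := congrArg (fun f : Module.End K V => f x') (hG.sys.comm v hv z hz hvz)
        simpa [Module.End.mul_apply] using this
      rw [ClawT_braid hG.sys hw hz hwz, hc']
    obtain ⟨y', hy'⟩ := hsurj y
    obtain ⟨c', hc'⟩ := hsurj c
    obtain ⟨d', hd'⟩ := hsurj d
    have m1 : y' ∈ LinearMap.range (s v - 1) := by
      refine ⟨c', hinj ?_⟩
      rw [hy', ← hc, ← hc']
      simp only [Module.End.mul_apply, LinearMap.sub_apply, Module.End.one_apply, map_sub]
      rw [g1]
    have m2 : y' ∈ LinearMap.range (s w - 1) := by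
      refine ⟨d', hinj ?_⟩
      rw [hy', ← hd, ← hd']
      simp only [Module.End.mul_apply, LinearMap.sub_apply, Module.End.one_apply, map_sub]
      rw [g2]
    have h0 : y' ∈ (⊥ : Submodule K V) := by
      rw [← h]
      exact ⟨m1, m2⟩
    rw [Submodule.mem_bot] at h0
    rw [← hy', h0, map_zero]
  · exact ClawT_first hm hG

/-- (A2) -/
theorem rel2T {m : ℤ} (hm : 11 ≤ m) {s : ℤ → Module.End K V}
    (hG : Fine hum (Set.Icc 0 m) s) :
    ∀ v ∈ Set.Icc 0 m, ∀ w ∈ Set.Icc 0 m, hum v w →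
      (s v - 1) * (s w - 1) * (s v - 1) = - (s v - 1) - (s v - 1) * (s v - 1) := by
  intro v hv w hw hvw
  have h0 := claw_zeroT hm hG v hv w hw hvw
  have hb := hG.sys.braid v hv w hw hvw
  have h1 : (s v - 1) * (1 + (s v - 1) + (s w - 1) * (s v - 1)) =
      (s w - 1) * (1 + (s w - 1) + (s v - 1) * (s w - 1)) := by
    have e : (s v - 1) * (1 + (s v - 1) + (s w - 1) * (s v - 1)) -
        (s w - 1) * (1 + (s w - 1) + (s v - 1) * (s w - 1)) =
        s v * s w * s v - s w * s v * s w := by noncomm_ring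
    rw [← sub_eq_zero, e, hb, sub_self]
  have h2 : (s v - 1) * (1 + (s v - 1) + (s w - 1) * (s v - 1)) = 0 := by
    ext z
    have h3 : ((s v - 1) * (1 + (s v - 1) + (s w - 1) * (s v - 1))) z ∈
        LinearMap.range (s v - 1) ⊓ LinearMap.range (s w - 1) := by
      refine ⟨⟨_, rfl⟩, ?_⟩
      rw [h1]
      exact ⟨_, rfl⟩
    rw [h0] at h3
    exact h3
  have e : (s v - 1) * (s w - 1) * (s v - 1) =
      (s v - 1) * (1 + (s v - 1) + (s w - 1) * (s v - 1)) - (s v - 1) -
        (s v - 1) * (s v - 1) := by noncomm_ring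
  rw [e, h2, zero_sub]

end Pool.Agent.Art
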