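import Pool.Agent.Lib.Art.Defs

/-! # Chains: the operators `C i = A i + A i ^ 2 + A i * A (i + 1) * A i` (braid groups) -/

namespace Pool.Agent.Art

variable {K V : Type*} [Field K] [AddCommGroup V] [Module K V]

/-- `A i + A i ^ 2 + A i * A (i + 1) * A i`, `A x = s x - 1` -/
def cE (s : ℤ → Module.End K V) (i : ℤ) : Module.End K V :=
  (s i - 1) + (s i - 1) * (s i - 1) + (s i - 1) * (s (i + 1) - 1) * (s i - 1)

/-- the other form -/
theorem cE_eq {s : ℤ → Module.End K V} {i : ℤ}
    (h : s i * s (i + 1) * s i = s (i + 1) * s i * s (i + 1)) :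
    cE s i = (s (i + 1) - 1) + (s (i + 1) - 1) * (s (i + 1) - 1) +
      (s (i + 1) - 1) * (s i - 1) * (s (i + 1) - 1) := by
  have e : cE s i - ((s (i + 1) - 1) + (s (i + 1) - 1) * (s (i + 1) - 1) +
      (s (i + 1) - 1) * (s i - 1) * (s (i + 1) - 1)) =
      s i * s (i + 1) * s i - s (i + 1) * s i * s (i + 1) := by
    unfold cE
    noncomm_ring
  rw [h, sub_self] at e
  exact sub_eq_zero.1 e

variable {s : ℤ → Module.End K V} {m : ℤ}

theorem hum_chain {x : ℤ} (hx : 1 ≤ x) : hum x (x + 1) := Or.inl ⟨hx, rfl⟩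

theorem far_chain {x y : ℤ} (hx : 1 ≤ x) (hy : 1 ≤ y) (h : x + 2 ≤ y ∨ y + 2 ≤ x) :
    Far hum x y := by
  unfold Far hum
  omega

/-- the other operators fix the image of `C i` -/
theorem fix_cE (hS : ASys hum (Set.Icc 1 m) s)
    (hfar : ∀ x ∈ Set.Icc 1 m, ∀ y ∈ Set.Icc 1 m, Far hum x y → (s x - 1) * (s y - 1) = 0)
    {i k : ℤ} (hi : 1 ≤ i) (him : i + 1 ≤ m) (hk : 1 ≤ k) (hkm : k ≤ m) (h1 : k ≠ i)
    (h2 : k ≠ i + 1) : s k * cE s i = cE s i := by
  have h0 : (s k - 1) * cE s i = 0 := by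
    rcases lt_or_ge k i with h | h
    · rw [cE_eq (hS.braid i ⟨hi, by omega⟩ (i + 1) ⟨by omega, him⟩ (hum_chain hi))]
      have h3 := hfar k ⟨hk, hkm⟩ (i + 1) ⟨by omega, him⟩ (far_chain hk (by omega) (by omega))
      calc (s k - 1) * ((s (i + 1) - 1) + (s (i + 1) - 1) * (s (i + 1) - 1) +
            (s (i + 1) - 1) * (s i - 1) * (s (i + 1) - 1))
          = (s k - 1) * (s (i + 1) - 1) + (s k - 1) * (s (i + 1) - 1) * (s (i + 1) - 1) +
            (s k - 1) * (s (i + 1) - 1) * (s i - 1) * (s (i + 1) - 1) := by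
            simp only [mul_add, mul_assoc]
        _ = 0 := by rw [h3]; simp
    · have h3 := hfar k ⟨hk, hkm⟩ i ⟨hi, by omega⟩ (far_chain hk hi (by omega))
      unfold cE
      calc (s k - 1) * ((s i - 1) + (s i - 1) * (s i - 1) +
            (s i - 1) * (s (i + 1) - 1) * (s i - 1))
          = (s k - 1) * (s i - 1) + (s k - 1) * (s i - 1) * (s i - 1) +
            (s k - 1) * (s i - 1) * (s (i + 1) - 1) * (s i - 1) := by
            simp only [mul_add, mul_assoc]
        _ = 0 := by rw [h3]; simp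
  rw [sub_mul, one_mul, sub_eq_zero] at h0
  exact h0

/-- `g = s i * s (i + 1) * s (i + 2)` conjugates `C i` to `C (i + 1)` -/
theorem conj_up (hS : ASys hum (Set.Icc 1 m) s) {i : ℤ} (hi : 1 ≤ i) (him : i + 2 ≤ m) :
    (s i * s (i + 1) * s (i + 2)) * cE s i = cE s (i + 1) * (s i * s (i + 1) * s (i + 2)) := by
  have b1 := hS.braid i ⟨hi, by omega⟩ (i + 1) ⟨by omega, by omega⟩ (hum_chain hi)
  have b2 := hS.braid (i + 1) ⟨by omega, by omega⟩ (i + 1 + 1) ⟨by omega, by omega⟩
    (hum_chain (by omega))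
  have c := hS.comm i ⟨hi, by omega⟩ (i + 1 + 1) ⟨by omega, by omega⟩
    (far_chain hi (by omega) (by omega))
  have e : i + 2 = i + 1 + 1 := by ring
  rw [e]
  unfold cE
  generalize s (i + 1 + 1) = c3 at *
  generalize s (i + 1) = b at *
  generalize s i = a at *
  have g1 : (a * b * c3) * a = b * (a * b * c3) := by
    calc (a * b * c3) * a = a * b * (c3 * a) := by simp only [mul_assoc]
      _ = a * b * a * c3 := by rw [← c]; simp only [mul_assoc]
      _ = b * (a * b * c3) := by rw [b1]; simp only [mul_assoc]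
  have g2 : (a * b * c3) * b = c3 * (a * b * c3) := by
    calc (a * b * c3) * b = a * (b * c3 * b) := by simp only [mul_assoc]
      _ = a * c3 * (b * c3) := by rw [b2]; simp only [mul_assoc]
      _ = c3 * (a * b * c3) := by rw [c]; simp only [mul_assoc]
  generalize a * b * c3 = g at *
  have k1 : g * (a - 1) = (b - 1) * g := by rw [mul_sub, sub_mul, g1, mul_one, one_mul]
  have k2 : g * (b - 1) = (c3 - 1) * g := by rw [mul_sub, sub_mul, g2, mul_one, one_mul]
  have j1 : SemiconjBy g (a - 1) (b - 1) := k1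
  have j2 : SemiconjBy g (b - 1) (c3 - 1) := k2
  exact (j1.add_right (j1.mul_right j1)).add_right ((j1.mul_right j2).mul_right j1)

/-- `g' = s (i + 2) * s (i + 1) * s i` conjugates `C (i + 1)` to `C i` -/
theorem conj_down (hS : ASys hum (Set.Icc 1 m) s) {i : ℤ} (hi : 1 ≤ i) (him : i + 2 ≤ m) :
    (s (i + 2) * s (i + 1) * s i) * cE s (i + 1) = cE s i * (s (i + 2) * s (i + 1) * s i) := by
  have b1 := hS.braid i ⟨hi, by omega⟩ (i + 1) ⟨by omega, by omega⟩ (hum_chain hi)
  have b2 := hS.braid (i + 1) ⟨by omega, by omega⟩ (i + 1 + 1) ⟨by omega, by omega⟩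
    (hum_chain (by omega))
  have c := hS.comm i ⟨hi, by omega⟩ (i + 1 + 1) ⟨by omega, by omega⟩
    (far_chain hi (by omega) (by omega))
  have e : i + 2 = i + 1 + 1 := by ring
  rw [e]
  unfold cE
  generalize s (i + 1 + 1) = c3 at *
  generalize s (i + 1) = b at *
  generalize s i = a at *
  have g1 : (c3 * b * a) * b = a * (c3 * b * a) := by
    calc (c3 * b * a) * b = c3 * (b * a * b) := by simp only [mul_assoc]
      _ = c3 * a * b * a := by rw [← b1]; simp only [mul_assoc]
      _ = a * (c3 * b * a) := by rw [← c]; simp only [mul_assoc]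
  have g2 : (c3 * b * a) * c3 = b * (c3 * b * a) := by
    calc (c3 * b * a) * c3 = c3 * b * (a * c3) := by simp only [mul_assoc]
      _ = c3 * b * c3 * a := by rw [c]; simp only [mul_assoc]
      _ = b * (c3 * b * a) := by rw [← b2]; simp only [mul_assoc]
  generalize c3 * b * a = g at *
  have k1 : g * (b - 1) = (a - 1) * g := by rw [mul_sub, sub_mul, g1, mul_one, one_mul]
  have k2 : g * (c3 - 1) = (b - 1) * g := by rw [mul_sub, sub_mul, g2, mul_one, one_mul]
  have j1 : SemiconjBy g (b - 1) (a - 1) := k1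
  have j2 : SemiconjBy g (c3 - 1) (b - 1) := k2
  exact (j1.add_right (j1.mul_right j1)).add_right ((j1.mul_right j2).mul_right j1)

theorem left_cancel {a f g : Module.End K V} (ha : Function.Injective a) (h : a * f = a * g) :
    f = g := by
  refine LinearMap.ext fun w => ha ?_
  exact LinearMap.congr_fun h w

/-- `s (i + 1)` maps the image of `C i` to the image of `C (i + 1)` -/
theorem swap_up (hinj : ∀ x ∈ Set.Icc 1 m, Function.Injective (s x))
    (hS : ASys hum (Set.Icc 1 m) s)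
    (hfar : ∀ x ∈ Set.Icc 1 m, ∀ y ∈ Set.Icc 1 m, Far hum x y → (s x - 1) * (s y - 1) = 0)
    {i : ℤ} (hi : 1 ≤ i) (him : i + 2 ≤ m) :
    s (i + 1) * cE s i = cE s (i + 1) * (s i * s (i + 1) * s (i + 2)) := by
  refine left_cancel (hinj i ⟨hi, by omega⟩) ?_
  have h1 := conj_up hS hi him
  have h2 := fix_cE hS hfar (i := i) (k := i + 2) hi (by omega) (by omega) him (by omega)
    (by omega)
  have h3 := fix_cE hS hfar (i := i + 1) (k := i) (by omega) (by omega) hi (by omega) (by omega)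
    (by omega)
  calc s i * (s (i + 1) * cE s i) = s i * s (i + 1) * (s (i + 2) * cE s i) := by
        rw [h2, mul_assoc]
    _ = (s i * s (i + 1) * s (i + 2)) * cE s i := by simp only [mul_assoc]
    _ = cE s (i + 1) * (s i * s (i + 1) * s (i + 2)) := h1
    _ = s i * (cE s (i + 1) * (s i * s (i + 1) * s (i + 2))) := by
        rw [← mul_assoc (s i) (cE s (i + 1)), h3]

/-- `s (i + 1)` maps the image of `C (i + 1)` to the image of `C i` -/
theorem swap_down (hinj : ∀ x ∈ Set.Icc 1 m, Function.Injective (s x))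
    (hS : ASys hum (Set.Icc 1 m) s)
    (hfar : ∀ x ∈ Set.Icc 1 m, ∀ y ∈ Set.Icc 1 m, Far hum x y → (s x - 1) * (s y - 1) = 0)
    {i : ℤ} (hi : 1 ≤ i) (him : i + 2 ≤ m) :
    s (i + 1) * cE s (i + 1) = cE s i * (s (i + 2) * s (i + 1) * s i) := by
  refine left_cancel (hinj (i + 2) ⟨by omega, him⟩) ?_
  have h1 := conj_down hS hi him
  have h2 := fix_cE hS hfar (i := i) (k := i + 2) hi (by omega) (by omega) him (by omega)
    (by omega)
  have h3 := fix_cE hS hfar (i := i + 1) (k := i) (by omega) (by omega) hi (by omega) (by omega)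
    (by omega)
  calc s (i + 2) * (s (i + 1) * cE s (i + 1)) =
        s (i + 2) * s (i + 1) * (s i * cE s (i + 1)) := by rw [h3, mul_assoc]
    _ = (s (i + 2) * s (i + 1) * s i) * cE s (i + 1) := by simp only [mul_assoc]
    _ = cE s i * (s (i + 2) * s (i + 1) * s i) := h1
    _ = s (i + 2) * (cE s i * (s (i + 2) * s (i + 1) * s i)) := by
        rw [← mul_assoc (s (i + 2)) (cE s i), h2]

end Pool.Agent.Art
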