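import Mathlib

/-!
# Artin relations for a graph
-/

namespace Pool.Agent.Art

universe v

variable {ι : Type*}

/-- different and not adjacent -/
def Far (adj : ι → ι → Prop) (x y : ι) : Prop := x ≠ y ∧ ¬ adj x y

/-- Artin relations for the graph `adj` between the `t x`, `x ∈ B` -/
structure ASys (adj : ι → ι → Prop) {M : Type*} [Monoid M] (B : Set ι) (t : ι → M) : Prop where
  comm : ∀ x ∈ B, ∀ y ∈ B, Far adj x y → t x * t y = t y * t x
  braid : ∀ x ∈ B, ∀ y ∈ B, adj x y → t x * t y * t x = t y * t x * t y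

theorem ASys.mono {adj : ι → ι → Prop} {M : Type*} [Monoid M] {B B' : Set ι} {t : ι → M}
    (hS : ASys adj B t) (h : B' ⊆ B) : ASys adj B' t :=
  ⟨fun x hx y hy => hS.comm x (h hx) y (h hy), fun x hx y hy => hS.braid x (h hx) y (h hy)⟩

/-- `X` is connected, and each edge of `X` has a vertex of `X` which is far from both ends -/
structure Good (adj : ι → ι → Prop) (X : Set ι) : Prop where
  symm : ∀ x y, adj x y → adj y x
  conn : ∀ x ∈ X, ∀ y ∈ X, Relation.ReflTransGen (fun x y => x ∈ X ∧ y ∈ X ∧ adj x y) x y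
  far : ∀ x ∈ X, ∀ y ∈ X, adj x y → ∃ z ∈ X, Far adj x z ∧ Far adj y z

/-- a function which is constant along the edges is constant -/
theorem conn_const {adj : ι → ι → Prop} {X : Set ι}
    (hc : ∀ x ∈ X, ∀ y ∈ X, Relation.ReflTransGen (fun x y => x ∈ X ∧ y ∈ X ∧ adj x y) x y)
    {α : Type*} (f : ι → α) (h : ∀ x ∈ X, ∀ y ∈ X, adj x y → f x = f y) :
    ∀ x ∈ X, ∀ y ∈ X, f x = f y := by
  intro x hx y hy
  have := hc x hx y hy
  induction this with
  | refl => rfl
  | tail _ h1 ih => exact (ih h1.1).trans (h _ h1.1 _ h1.2.1 h1.2.2)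

/-- every system of dimension `< k` on `X` is flat -/
def ANab (K : Type*) [Field K] (adj : ι → ι → Prop) (X : Set ι) (k : ℕ) : Prop :=
  ∀ (V : Type v) [AddCommGroup V] [Module K V] [FiniteDimensional K V]
    (t : ι → Module.End K V), (∀ x ∈ X, Function.Injective (t x)) → ASys adj X t →
    Module.finrank K V < k → ∀ x ∈ X, ∀ y ∈ X, t x = t y

/-- Humphries' tree on the integers `≥ 0`: the chain `1 - 2 - 3 - ...` and an edge `0 - 4` -/
def hum (x y : ℤ) : Prop :=
  (1 ≤ x ∧ y = x + 1) ∨ (1 ≤ y ∧ x = y + 1) ∨ (x = 0 ∧ y = 4) ∨ (x = 4 ∧ y = 0)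

theorem hum_symm : ∀ x y, hum x y → hum y x := by
  intro x y h
  unfold hum at h ⊢
  omega

/-- the state reached after scaling -/
structure Fine {K V : Type*} [Field K] [AddCommGroup V] [Module K V] (adj : ι → ι → Prop)
    (B : Set ι) (s : ι → Module.End K V) : Prop where
  sys : ASys adj B s
  inj : ∀ x ∈ B, Function.Injective (s x)
  irr : ∀ W : Submodule K V, (∀ x ∈ B, ∀ w ∈ W, s x w ∈ W) → W = ⊥ ∨ W = ⊤
  nf : ∃ x ∈ B, ∃ y ∈ B, s x ≠ s y
  far : ∀ x ∈ B, ∀ y ∈ B, Far adj x y → (s x - 1) * (s y - 1) = 0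

end Pool.Agent.Art
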