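import Pool.Agent.Lib.Art.VecT

/-! # The lantern relation and the symplectic form (page mcg70, section 6) -/

namespace Pool.Agent.Art

variable {K V : Type*} [Field K] [AddCommGroup V] [Module K V] [FiniteDimensional K V]

/-- Seven operators `μ (1 + rank one)` conjugate to each other, a product of three equals a product
of four. `A = c i - 1`, `c i` conjugate to `1 + A0` with `range A0 = K e`, `A0 e = -(1 + q) e`. -/
theorem lantern {μ q : K} (hμ : μ ≠ 0) (hq0 : q ≠ 0) (hr : 8 ≤ Module.finrank K V) {A0 : Module.End K V}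
    {e : V} (he : e ≠ 0) (hA : ∀ w, ∃ c : K, A0 w = c • e) (hq : A0 e = -((1 + q) • e))
    (g h : Fin 7 → Module.End K V) (hgh : ∀ i, g i * h i = 1) (hhg : ∀ i, h i * g i = 1)
    (hrel : (g 0 * (μ • (1 + A0)) * h 0) * (g 1 * (μ • (1 + A0)) * h 1) *
        (g 2 * (μ • (1 + A0)) * h 2) =
      (g 3 * (μ • (1 + A0)) * h 3) * (g 4 * (μ • (1 + A0)) * h 4) *
        (g 5 * (μ • (1 + A0)) * h 5) * (g 6 * (μ • (1 + A0)) * h 6)) :
    μ = 1 ∧ q = -1 := by
  obtain ⟨f, hf⟩ : ∃ f : Module.Dual K V, f e = 1 := Module.Projective.exists_dual_eq_one K he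
  have hA0 : ∀ w, A0 w = f (A0 w) • e := by
    intro w
    obtain ⟨c, hc⟩ := hA w
    rw [hc, map_smul, hf, smul_eq_mul, mul_one]
  -- a common vector of the seven kernels
  have hker : ∃ w : V, w ≠ 0 ∧ ∀ i, A0 (h i w) = 0 := by
    let Φ : V →ₗ[K] (Fin 7 → K) := LinearMap.pi fun i => f ∘ₗ A0 ∘ₗ h i
    have hlt : Module.finrank K (Fin 7 → K) < Module.finrank K V := by
      rw [Module.finrank_fin_fun]
      omega
    obtain ⟨w, hw, hw0⟩ := (Submodule.ne_bot_iff _).1 (LinearMap.ker_ne_bot_of_finrank_lt (f := Φ) hlt)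
    refine ⟨w, hw0, fun i => ?_⟩
    have h1 : Φ w i = 0 := by
      rw [LinearMap.mem_ker] at hw
      rw [hw]
      rfl
    have h2 : f (A0 (h i w)) = 0 := h1
    rw [hA0, h2, zero_smul]
  obtain ⟨w, hw0, hw⟩ := hker
  have hgh' : ∀ i, ∀ x, g i (h i x) = x := by
    intro i x
    have := congrArg (fun F : Module.End K V => F x) (hgh i)
    simpa using this
  have hop : ∀ i, (g i * (μ • (1 + A0)) * h i) w = μ • w := by
    intro i
    simp only [Module.End.mul_apply, LinearMap.smul_apply, LinearMap.add_apply,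
      Module.End.one_apply]
    rw [hw i, add_zero, map_smul, hgh']
  have hop2 : ∀ (i : Fin 7) (c : K), (g i * (μ • (1 + A0)) * h i) (c • w) = (c * μ) • w := by
    intro i c
    rw [map_smul, hop, smul_smul]
  have happ := congrArg (fun F : Module.End K V => F w) hrel
  have h3 : ((g 0 * (μ • (1 + A0)) * h 0) * (g 1 * (μ • (1 + A0)) * h 1) *
      (g 2 * (μ • (1 + A0)) * h 2)) w = (μ * μ * μ) • w := by
    rw [Module.End.mul_apply, Module.End.mul_apply, hop 2, hop2 1, hop2 0]
  have h4 : ((g 3 * (μ • (1 + A0)) * h 3) * (g 4 * (μ • (1 + A0)) * h 4) *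
      (g 5 * (μ • (1 + A0)) * h 5) * (g 6 * (μ • (1 + A0)) * h 6)) w = (μ * μ * μ * μ) • w := by
    rw [Module.End.mul_apply, Module.End.mul_apply, Module.End.mul_apply, hop 6, hop2 5, hop2 4,
      hop2 3]
  have happ' : (μ * μ * μ) • w = (μ * μ * μ * μ) • w := by
    rw [← h3, ← h4]
    exact happ
  have hμ1 : μ = 1 := by
    have h5 : (μ * μ * μ * μ - μ * μ * μ) • w = 0 := by
      rw [sub_smul, happ', sub_self]
    rcases smul_eq_zero.1 h5 with h6 | h6
    · have h7 : μ * μ * μ * (μ - 1) = 0 := by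
        linear_combination h6
      rcases mul_eq_zero.1 h7 with h8 | h8
      · exact absurd h8 (mul_ne_zero (mul_ne_zero hμ hμ) hμ)
      · exact sub_eq_zero.1 h8
    · exact absurd h6 hw0
  refine ⟨hμ1, ?_⟩
  -- the determinant
  have hdetA : LinearMap.det (1 + A0 : Module.End K V) = -q := by
    have h1 : (1 + A0 : Module.End K V) = LinearMap.transvection (f ∘ₗ A0) e := by
      refine LinearMap.ext fun x => ?_
      rw [LinearMap.transvection.apply, LinearMap.add_apply, Module.End.one_apply,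
        LinearMap.comp_apply, ← hA0]
    rw [h1, LinearMap.transvection.det, LinearMap.comp_apply, hq, map_neg, map_smul, hf,
      smul_eq_mul]
    ring
  have hdetg : ∀ i, LinearMap.det (g i * (μ • (1 + A0)) * h i) = -q := by
    intro i
    have h1 : LinearMap.det (g i) * LinearMap.det (h i) = 1 := by
      rw [← map_mul, hgh, map_one]
    rw [map_mul, map_mul, hμ1, one_smul, hdetA]
    calc LinearMap.det (g i) * -q * LinearMap.det (h i)
        = (LinearMap.det (g i) * LinearMap.det (h i)) * -q := by ring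
      _ = -q := by rw [h1, one_mul]
  have hd3 : LinearMap.det ((g 0 * (μ • (1 + A0)) * h 0) * (g 1 * (μ • (1 + A0)) * h 1) *
      (g 2 * (μ • (1 + A0)) * h 2)) = (-q) * (-q) * (-q) := by
    rw [map_mul LinearMap.det (_ * _) (g 2 * (μ • (1 + A0)) * h 2),
      map_mul LinearMap.det (g 0 * (μ • (1 + A0)) * h 0) (g 1 * (μ • (1 + A0)) * h 1),
      hdetg, hdetg, hdetg]
  have hd4 : LinearMap.det ((g 3 * (μ • (1 + A0)) * h 3) * (g 4 * (μ • (1 + A0)) * h 4) *
      (g 5 * (μ • (1 + A0)) * h 5) * (g 6 * (μ • (1 + A0)) * h 6)) =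
      (-q) * (-q) * (-q) * (-q) := by
    rw [map_mul LinearMap.det (_ * _) (g 6 * (μ • (1 + A0)) * h 6),
      map_mul LinearMap.det (_ * _) (g 5 * (μ • (1 + A0)) * h 5),
      map_mul LinearMap.det (g 3 * (μ • (1 + A0)) * h 3) (g 4 * (μ • (1 + A0)) * h 4),
      hdetg, hdetg, hdetg, hdetg]
  have hd : (-q) * (-q) * (-q) = (-q) * (-q) * (-q) * (-q) :=
    hd3.symm.trans ((congrArg LinearMap.det hrel).trans hd4)
  have h9 : q * q * q * (q + 1) = 0 := by
    linear_combination -hd
  rcases mul_eq_zero.1 h9 with h8 | h8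
  · exact absurd h8 (mul_ne_zero (mul_ne_zero hq0 hq0) hq0)
  · exact eq_neg_of_add_eq_zero_left h8

/-- the coefficients of `hmat` at `q = -1` -/
private theorem lantern_hmat {x j : ℤ} (hx : 1 ≤ x) (hj : 1 ≤ j) :
    hmat K (-1 : K) x j = (if j = x + 1 then 1 else 0) - (if j = x - 1 then 1 else 0) := by
  unfold hmat
  split_ifs <;> first | (exfalso; omega) | simp

private theorem lantern_hmat_zero {j : ℤ} (hj : 1 ≤ j) :
    hmat K (-1 : K) 0 j = if j = 4 then 1 else 0 := by
  unfold hmat
  split_ifs <;> first | (exfalso; omega) | simp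

omit [FiniteDimensional K V] in
/-- `A x` of a linear combination of `e 1, …, e N` -/
private theorem lantern_apply {m : ℤ} {A : ℤ → Module.End K V} {e : ℤ → V}
    (hA : ∀ x ∈ Set.Icc 0 m, ∀ y ∈ Set.Icc 0 m, A x (e y) = - (hmat K (-1 : K) x y • e x))
    {N : ℤ} (hN : N ≤ m) (C : ℤ → K) (hC0 : C 0 = 0) (hCN : C (N + 1) = 0) {x : ℤ} (hx : 1 ≤ x)
    (hxN : x ≤ N) :
    A x (∑ j ∈ Finset.Icc 1 N, C j • e j) = (C (x - 1) - C (x + 1)) • e x := by
  rw [map_sum]
  have h1 : ∀ j ∈ Finset.Icc 1 N, A x (C j • e j) =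
      ((if j = x - 1 then C j else 0) - (if j = x + 1 then C j else 0)) • e x := by
    intro j hj
    rw [Finset.mem_Icc] at hj
    rw [map_smul, hA x ⟨by omega, by omega⟩ j ⟨by omega, by omega⟩, lantern_hmat hx hj.1,
      ← neg_smul, smul_smul]
    have h2 : C j * -((if j = x + 1 then 1 else 0) - (if j = x - 1 then 1 else 0)) =
        (if j = x - 1 then C j else 0) - (if j = x + 1 then C j else 0) := by
      split_ifs <;> ring
    rw [h2]
  have h3 : (∑ j ∈ Finset.Icc 1 N, if j = x - 1 then C j else 0) = C (x - 1) := by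
    rw [Finset.sum_ite_eq']
    split_ifs with h
    · rfl
    · rw [Finset.mem_Icc] at h
      have : x - 1 = 0 := by omega
      rw [this, hC0]
  have h4 : (∑ j ∈ Finset.Icc 1 N, if j = x + 1 then C j else 0) = C (x + 1) := by
    rw [Finset.sum_ite_eq']
    split_ifs with h
    · rfl
    · rw [Finset.mem_Icc] at h
      have : x + 1 = N + 1 := by omega
      rw [this, hCN]
  rw [Finset.sum_congr rfl h1, ← Finset.sum_smul, Finset.sum_sub_distrib, h3, h4]

omit [FiniteDimensional K V] in
/-- an invariant vector is zero -/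
private theorem lantern_inv {m : ℤ} (hm : 11 ≤ m) {A : ℤ → Module.End K V}
    (hirr : ∀ W : Submodule K V, (∀ x ∈ Set.Icc 0 m, ∀ w ∈ W, A x w ∈ W) → W = ⊥ ∨ W = ⊤)
    {e : ℤ → V} (he : ∀ x ∈ Set.Icc 0 m, e x ≠ 0)
    (hA : ∀ x ∈ Set.Icc 0 m, ∀ y ∈ Set.Icc 0 m, A x (e y) = - (hmat K (-1 : K) x y • e x))
    {v : V} (hv : ∀ x ∈ Set.Icc 0 m, A x v = 0) : v = 0 := by
  have hst : ∀ x ∈ Set.Icc 0 m, ∀ w ∈ Submodule.span K {v}, A x w ∈ Submodule.span K {v} := by
    intro x hx w hw
    obtain ⟨c, rfl⟩ := Submodule.mem_span_singleton.1 hw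
    rw [map_smul, hv x hx, smul_zero]
    exact Submodule.zero_mem _
  rcases hirr (Submodule.span K {v}) hst with h | h
  · exact Submodule.span_singleton_eq_bot.1 h
  · exfalso
    have h2 : e 2 ∈ Submodule.span K {v} := by
      rw [h]
      exact Submodule.mem_top
    obtain ⟨c, hc⟩ := Submodule.mem_span_singleton.1 h2
    have h3 := hA 1 ⟨by omega, by omega⟩ 2 ⟨by omega, by omega⟩
    rw [← hc, map_smul, hv 1 ⟨by omega, by omega⟩, smul_zero, lantern_hmat (by omega) (by omega)] at h3
    norm_num at h3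
    exact he 1 ⟨by omega, by omega⟩ h3

/-- `q = -1`: the dimension -/
theorem finrank_symp {m : ℤ} (hm : 11 ≤ m) {A : ℤ → Module.End K V}
    (hirr : ∀ W : Submodule K V, (∀ x ∈ Set.Icc 0 m, ∀ w ∈ W, A x w ∈ W) → W = ⊥ ∨ W = ⊤)
    {e : ℤ → V} (he : ∀ x ∈ Set.Icc 0 m, e x ≠ 0)
    (hspan : Submodule.span K (e '' Set.Icc 0 m) = ⊤)
    (hA : ∀ x ∈ Set.Icc 0 m, ∀ y ∈ Set.Icc 0 m, A x (e y) = - (hmat K (-1 : K) x y • e x)) :
    (Module.finrank K V : ℤ) = 2 * (m / 2) := by
  obtain ⟨n, hn⟩ : ∃ n : ℤ, n = 2 * (m / 2) := ⟨_, rfl⟩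
  have hnm : n ≤ m := by omega
  have hmn : m ≤ n + 1 := by omega
  have hn10 : 10 ≤ n := by omega
  obtain ⟨r, hr⟩ : ∃ r : ℤ, n = 2 * r := ⟨_, hn⟩
  -- the first invariant vector
  have h0 : e 0 = e 1 + e 3 := by
    have h : e 0 - e 1 - e 3 = 0 := by
      refine lantern_inv hm hirr he hA fun x hx => ?_
      have hx' : 0 ≤ x ∧ x ≤ m := hx
      rw [map_sub, map_sub, hA x hx 0 ⟨by omega, by omega⟩, hA x hx 1 ⟨by omega, by omega⟩,
        hA x hx 3 ⟨by omega, by omega⟩]
      have h : - (hmat K (-1 : K) x 0) + hmat K (-1 : K) x 1 + hmat K (-1 : K) x 3 = 0 := by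
        unfold hmat
        split_ifs <;> first | (exfalso; omega) | simp
      rw [← neg_smul, ← neg_smul, ← neg_smul, ← sub_smul, ← sub_smul]
      have h' : - (hmat K (-1 : K) x 0) - - (hmat K (-1 : K) x 1) - - (hmat K (-1 : K) x 3) = 0 := by
        rw [sub_neg_eq_add, sub_neg_eq_add, h]
      rw [h', zero_smul]
    have h' : e 0 = e 0 - e 1 - e 3 + (e 1 + e 3) := by abel
    rw [h', h, zero_add]
  -- linear independence
  have hli : LinearIndependent K (fun j : (Finset.Icc (1 : ℤ) n) => e j) := by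
    rw [Fintype.linearIndependent_iff]
    intro c hc
    obtain ⟨C, hC⟩ : ∃ C : ℤ → K, ∀ j, C j = if h : j ∈ Finset.Icc (1 : ℤ) n then c ⟨j, h⟩ else 0 :=
      ⟨_, fun _ => rfl⟩
    have hC0 : C 0 = 0 := by
      rw [hC, dif_neg]
      rw [Finset.mem_Icc]
      omega
    have hCN : C (n + 1) = 0 := by
      rw [hC, dif_neg]
      rw [Finset.mem_Icc]
      omega
    have hsum : ∑ j ∈ Finset.Icc (1 : ℤ) n, C j • e j = 0 := by
      rw [← Finset.sum_coe_sort, ← hc]
      refine Finset.sum_congr rfl fun j _ => ?_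
      rw [hC, dif_pos j.2]
    have hstep : ∀ x : ℤ, 1 ≤ x → x ≤ n → C (x - 1) = C (x + 1) := by
      intro x hx hxn
      have h := lantern_apply hA hnm C hC0 hCN hx hxn
      rw [hsum, map_zero] at h
      rcases smul_eq_zero.1 h.symm with h' | h'
      · exact sub_eq_zero.1 h'
      · exact absurd h' (he x ⟨by omega, by omega⟩)
    have heven : ∀ k : ℕ, 2 * (k : ℤ) ≤ n → C (2 * (k : ℤ)) = 0 := by
      intro k
      induction k with
      | zero => intro _; simpa using hC0
      | succ k ih =>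
        intro hk
        push_cast at hk ⊢
        have h1 := hstep (2 * (k : ℤ) + 1) (by omega) (by omega)
        have h2 := ih (by omega)
        have e1 : 2 * (k : ℤ) + 1 - 1 = 2 * (k : ℤ) := by ring
        have e2 : 2 * (k : ℤ) + 1 + 1 = 2 * ((k : ℤ) + 1) := by ring
        rw [e1, e2, h2] at h1
        exact h1.symm
    have hodd : ∀ k : ℕ, 2 * (k : ℤ) ≤ n → C (n + 1 - 2 * (k : ℤ)) = 0 := by
      intro k
      induction k with
      | zero => intro _; simpa using hCN
      | succ k ih =>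
        intro hk
        push_cast at hk ⊢
        have h1 := hstep (n - 2 * (k : ℤ)) (by omega) (by omega)
        have h2 := ih (by omega)
        have e1 : n - 2 * (k : ℤ) - 1 = n + 1 - 2 * ((k : ℤ) + 1) := by ring
        have e2 : n - 2 * (k : ℤ) + 1 = n + 1 - 2 * (k : ℤ) := by ring
        rw [e1, e2, h2] at h1
        exact h1
    intro j
    have hj := Finset.mem_Icc.1 j.2
    have hCj : C j = c j := by
      rw [hC, dif_pos j.2]
    rw [← hCj]
    rcases Int.even_or_odd' (j : ℤ) with ⟨k, hk | hk⟩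
    · have h := heven k.toNat (by omega)
      have e1 : (2 : ℤ) * (k.toNat : ℤ) = j := by omega
      rwa [e1] at h
    · have h := hodd (r - k).toNat (by omega)
      have e1 : n + 1 - (2 : ℤ) * ((r - k).toNat : ℤ) = j := by omega
      rwa [e1] at h
  -- spanning
  have hmem : ∀ y ∈ Set.Icc (0 : ℤ) m,
      e y ∈ Submodule.span K (Set.range fun j : (Finset.Icc (1 : ℤ) n) => e j) := by
    have hin : ∀ y : ℤ, 1 ≤ y → y ≤ n →
        e y ∈ Submodule.span K (Set.range fun j : (Finset.Icc (1 : ℤ) n) => e j) := fun y h1 h2 =>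
      Submodule.subset_span ⟨⟨y, Finset.mem_Icc.2 ⟨h1, h2⟩⟩, rfl⟩
    intro y hy
    have hy' : 0 ≤ y ∧ y ≤ m := hy
    rcases eq_or_lt_of_le hy'.1 with h | h
    · rw [← h, h0]
      exact Submodule.add_mem _ (hin 1 (by omega) (by omega)) (hin 3 (by omega) (by omega))
    · rcases le_or_gt y n with h' | h'
      · exact hin y (by omega) h'
      · -- `y = m = n + 1` is odd
        have hym : y = n + 1 := by omega
        have hmn' : m = n + 1 := by omega
        obtain ⟨C, hC⟩ : ∃ C : ℤ → K, ∀ j, C j = if Odd j ∧ j ≤ m then 1 else 0 := ⟨_, fun _ => rfl⟩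
        have hC0 : C 0 = 0 := by
          rw [hC, if_neg]
          simp
        have hCN : C (m + 1) = 0 := by
          rw [hC, if_neg]
          omega
        have hv : ∑ j ∈ Finset.Icc (1 : ℤ) m, C j • e j = 0 := by
          refine lantern_inv hm hirr he hA fun x hx => ?_
          have hx' : 0 ≤ x ∧ x ≤ m := hx
          rcases eq_or_lt_of_le hx'.1 with h2 | h2
          · rw [map_sum]
            refine Finset.sum_eq_zero fun j hj => ?_
            rw [Finset.mem_Icc] at hj
            rw [map_smul, ← h2, hA 0 ⟨by omega, by omega⟩ j ⟨by omega, by omega⟩,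
              lantern_hmat_zero hj.1]
            split_ifs with h3
            · have h4 : C j = 0 := by
                rw [hC, if_neg]
                rintro ⟨h5, _⟩
                rw [h3] at h5
                revert h5
                decide
              rw [h4, zero_smul]
            · simp
          · rw [lantern_apply hA le_rfl C hC0 hCN (by omega) hx'.2]
            have h3 : C (x - 1) = C (x + 1) := by
              rw [hC, hC]
              by_cases h4 : Odd (x + 1) ∧ x + 1 ≤ m
              · have h5 : Odd (x - 1) ∧ x - 1 ≤ m := by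
                  obtain ⟨⟨k, hk⟩, h6⟩ := h4
                  exact ⟨⟨k - 1, by omega⟩, by omega⟩
                rw [if_pos h4, if_pos h5]
              · have h5 : ¬ (Odd (x - 1) ∧ x - 1 ≤ m) := by
                  rintro ⟨⟨k, hk⟩, h6⟩
                  exact h4 ⟨⟨k + 1, by omega⟩, by omega⟩
                rw [if_neg h4, if_neg h5]
            rw [h3, sub_self, zero_smul]
        have hsplit : Finset.Icc (1 : ℤ) m = insert m (Finset.Icc (1 : ℤ) n) := by
          ext j
          rw [Finset.mem_insert, Finset.mem_Icc, Finset.mem_Icc]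
          omega
        have hnot : m ∉ Finset.Icc (1 : ℤ) n := by
          rw [Finset.mem_Icc]
          omega
        rw [hsplit, Finset.sum_insert hnot] at hv
        have hCm : C m = 1 := by
          rw [hC, if_pos]
          exact ⟨⟨r, by omega⟩, le_rfl⟩
        rw [hCm, one_smul] at hv
        have hem : e m = - ∑ j ∈ Finset.Icc (1 : ℤ) n, C j • e j := eq_neg_of_add_eq_zero_left hv
        rw [hym, ← hmn', hem]
        refine Submodule.neg_mem _ (Submodule.sum_mem _ fun j hj => Submodule.smul_mem _ _ ?_)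
        rw [Finset.mem_Icc] at hj
        exact hin j hj.1 hj.2
  have htop : ⊤ ≤ Submodule.span K (Set.range fun j : (Finset.Icc (1 : ℤ) n) => e j) := by
    rw [← hspan, Submodule.span_le]
    rintro z ⟨y, hy, rfl⟩
    exact hmem y hy
  have hfin := Module.finrank_eq_card_basis (Module.Basis.mk hli htop)
  rw [hfin, Fintype.card_coe, Int.card_Icc, ← hn]
  omega

end Pool.Agent.Art
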