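import Pool.Agent.Lib.Art.LeafDefs
import Pool.Agent.Lib.Art.MuTB

/-! # The pair `1`, `m`, with more leaves: port of `cornerT` -/

namespace Pool.Agent.Art

variable {K V : Type*} [Field K] [AddCommGroup V] [Module K V]

private theorem lcor_comm {a b : Module.End K V} (h : a * b = b * a) :
    (a - 1) * b = b * (a - 1) := by
  rw [sub_mul, mul_sub, h, one_mul, mul_one]

private theorem lcor_comm2 {a b : Module.End K V} (h : a * b = b * a) :
    (a - 1) * (b - 1) = (b - 1) * (a - 1) := by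
  rw [mul_sub, mul_one, lcor_comm h, sub_mul b 1, one_mul]

/-- Schur's lemma -/
private theorem lcor_schur [IsAlgClosed K] [FiniteDimensional K V] [Nontrivial V] {B : Set ℤ}
    {s : ℤ → Module.End K V}
    (hirr : ∀ W : Submodule K V, (∀ x ∈ B, ∀ w ∈ W, s x w ∈ W) → W = ⊥ ∨ W = ⊤)
    (C : Module.End K V) (hC : ∀ x ∈ B, C * s x = s x * C) : ∃ c : K, ∀ w, C w = c • w := by
  obtain ⟨c, hc⟩ := Module.End.exists_eigenvalue C
  refine ⟨c, fun w => ?_⟩
  have h := hirr (Module.End.eigenspace C c) (fun x hx w hw => by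
    rw [Module.End.mem_eigenspace_iff] at hw ⊢
    have h1 := LinearMap.congr_fun (hC x hx) w
    rw [Module.End.mul_apply, Module.End.mul_apply] at h1
    rw [h1, hw, map_smul])
  rcases h with h | h
  · exact absurd h hc
  · have hw : w ∈ Module.End.eigenspace C c := by
      rw [h]
      exact Submodule.mem_top
    exact Module.End.mem_eigenspace_iff.1 hw

theorem cornerL [IsAlgClosed K] [FiniteDimensional K V] {m N : ℤ} (hm : 11 ≤ m) (hN : m ≤ N)
    {s : ℤ → Module.End K V}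
    (hS : ASys (humL m) (Set.Icc 0 N) s)
    (hirr : ∀ W : Submodule K V, (∀ x ∈ Set.Icc 0 N, ∀ w ∈ W, s x w ∈ W) → W = ⊥ ∨ W = ⊤)
    (hnf : ∀ x, 1 ≤ x → x + 1 ≤ m → s x ≠ s (x + 1))
    (h1 : ∀ u ∈ Set.Icc 0 N, ∀ v ∈ Set.Icc 0 N, u ≠ 1 → u ≠ 2 → v ≠ 1 → v ≠ 2 →
        (s 1 - 1) * (s u - s v) = 0)
    (h2 : ∀ u ∈ Set.Icc 0 N, ∀ v ∈ Set.Icc 0 N, u ≤ m - 2 → v ≤ m - 2 →
        (s m - 1) * (s u - s v) = 0) : (s 1 - 1) * (s m - 1) = 0 := by
  have mem : ∀ x : ℤ, 0 ≤ x → x ≤ m → x ∈ Set.Icc 0 N := fun x a b => ⟨a, b.trans hN⟩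
  have m1 := mem 1 (by omega) (by omega)
  have m2 := mem 2 (by omega) (by omega)
  have m4 := mem 4 (by omega) (by omega)
  have mm := mem m (by omega) le_rfl
  have hnt : Nontrivial V := by
    by_contra hcon
    rw [not_nontrivial_iff_subsingleton] at hcon
    refine hnf 1 le_rfl (by omega) (LinearMap.ext fun w => Subsingleton.elim _ _)
  have c1m : s 1 * s m = s m * s 1 := hS.comm 1 m1 m mm (by unfold Far humL; omega)
  -- the operator `C`
  have hu : ∀ u ∈ Set.Icc 0 N, u ≠ 1 → u ≠ 2 → (s 1 - 1) * (s m - 1) = (s 1 - 1) * (s u - 1) := by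
    intro u hu a b
    have h := h1 u hu m mm a b (by omega) (by omega)
    have e : s m - 1 = (s u - 1) - (s u - s m) := by abel
    rw [e, mul_sub (s 1 - 1) (s u - 1), h, sub_zero]
  have hv : ∀ v ∈ Set.Icc 0 N, v ≤ m - 2 → (s 1 - 1) * (s m - 1) = (s m - 1) * (s v - 1) := by
    intro v hv a
    have h := h2 v hv 1 m1 a (by omega)
    have e : s 1 - 1 = (s v - 1) - (s v - s 1) := by abel
    rw [lcor_comm2 c1m, e, mul_sub (s m - 1) (s v - 1), h, sub_zero]
  have hC : ∀ x ∈ Set.Icc 0 N, (s 1 - 1) * (s m - 1) * s x = s x * ((s 1 - 1) * (s m - 1)) := by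
    intro x hx
    have hx1 := hx.1
    have hx2 := hx.2
    by_cases e1 : x = 1
    · rw [e1, mul_assoc, lcor_comm c1m.symm, ← mul_assoc, lcor_comm (b := s 1) rfl, mul_assoc]
    by_cases e2 : x = 2
    · rw [e2, hv 4 m4 (by omega), mul_assoc,
        lcor_comm (hS.comm 4 m4 2 m2 (by unfold Far humL; omega)), ← mul_assoc,
        lcor_comm (hS.comm m mm 2 m2 (by unfold Far humL; omega)), mul_assoc]
    · -- a vertex `u` far from `x`
      have f1x : Far (humL m) 1 x := by
        unfold Far humL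
        omega
      obtain ⟨u, hu1, hu2, hu3, hu4⟩ : ∃ u, u ∈ Set.Icc 0 N ∧ u ≠ 1 ∧ u ≠ 2 ∧
          Far (humL m) u x := by
        by_cases e3 : x ≤ 6
        · refine ⟨9, mem 9 (by omega) (by omega), by omega, by omega, ?_⟩
          unfold Far humL
          omega
        · refine ⟨3, mem 3 (by omega) (by omega), by omega, by omega, ?_⟩
          unfold Far humL
          omega
      rw [hu u hu1 hu2 hu3, mul_assoc, lcor_comm (hS.comm u hu1 x hx hu4), ← mul_assoc,
        lcor_comm (hS.comm 1 m1 x hx f1x), mul_assoc]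
  obtain ⟨c, hc⟩ := lcor_schur hirr _ hC
  by_cases hc0 : c = 0
  · refine LinearMap.ext fun w => ?_
    rw [hc w, hc0, zero_smul]
    rfl
  · exfalso
    have inj : ∀ w, (s 1 - 1) w = 0 → w = 0 := by
      intro w hw
      have h3 := hc w
      rw [lcor_comm2 c1m, Module.End.mul_apply, hw, map_zero] at h3
      exact (smul_eq_zero.1 h3.symm).resolve_left hc0
    refine hnf 5 (by omega) (by omega) (LinearMap.ext fun w => ?_)
    have h3 := LinearMap.congr_fun (h1 5 (mem 5 (by omega) (by omega)) (5 + 1)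
      (mem (5 + 1) (by omega) (by omega)) (by omega) (by omega) (by omega) (by omega)) w
    have h4 := inj ((s 5 - s (5 + 1)) w) h3
    rw [LinearMap.sub_apply, sub_eq_zero] at h4
    exact h4

end Pool.Agent.Art
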