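import Pool.Agent.Lib.Art.Chain

/-!
# Humphries' tree with more leaves

The chain `1 - ... - (m - 1)`, an edge `0 - 4`, and an edge from `m - 1` to every vertex `≥ m`.
-/

namespace Pool.Agent.Art

def humL (m x y : ℤ) : Prop :=
  (1 ≤ x ∧ y = x + 1 ∧ y ≤ m) ∨ (1 ≤ y ∧ x = y + 1 ∧ x ≤ m) ∨ (x = m - 1 ∧ m ≤ y) ∨
    (y = m - 1 ∧ m ≤ x) ∨ (x = 0 ∧ y = 4) ∨ (x = 4 ∧ y = 0)

/-- the family with the leaf `m` replaced by the leaf `y` -/
def lf {α : Type*} (t : ℤ → α) (m y : ℤ) : ℤ → α := fun x => if x = m then t y else t x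

/-- `(p, q)` is conjugate to `(t₁, t₃)` -/
def Apart {M : Type*} [Monoid M] (t₁ t₃ p q : M) : Prop :=
  ∃ g h : M, g * h = 1 ∧ h * g = 1 ∧ p = g * t₁ * h ∧ q = g * t₃ * h

/-- `p` is the boundary curve of a lantern whose other six curves are apart from `q` -/
def Lan {M : Type*} [Monoid M] (t₁ t₃ p q : M) : Prop :=
  ∃ a b c u v w : M, Apart t₁ t₃ a q ∧ Apart t₁ t₃ b q ∧ Apart t₁ t₃ c q ∧ Apart t₁ t₃ u q ∧
    Apart t₁ t₃ v q ∧ Apart t₁ t₃ w q ∧ p * u * v * w = a * b * c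

theorem lf_sys {M : Type*} [Monoid M] {m N : ℤ} (hm : 11 ≤ m) {t : ℤ → M}
    (hS : ASys (humL m) (Set.Icc 0 N) t) {y : ℤ} (hy : y ∈ Set.Icc m N) :
    ASys hum (Set.Icc 0 m) (lf t m y) := by
  have hy1 := hy.1
  have hy2 := hy.2
  have key : ∀ x ∈ Set.Icc 0 m, ∃ x' ∈ Set.Icc 0 N, lf t m y x = t x' ∧
      ((x = m ∧ x' = y) ∨ (x ≠ m ∧ x' = x)) := by
    intro x hx
    rw [Set.mem_Icc] at hx
    by_cases h : x = m
    · refine ⟨y, ⟨by omega, hy2⟩, ?_, Or.inl ⟨h, rfl⟩⟩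
      unfold lf
      rw [if_pos h]
    · refine ⟨x, ⟨by omega, by omega⟩, ?_, Or.inr ⟨h, rfl⟩⟩
      unfold lf
      rw [if_neg h]
  constructor
  · intro x hx z hz h
    obtain ⟨x', hx', ex, cx⟩ := key x hx
    obtain ⟨z', hz', ez, cz⟩ := key z hz
    rw [ex, ez]
    refine hS.comm x' hx' z' hz' ?_
    rw [Set.mem_Icc] at hx hz
    unfold Far hum at h
    unfold Far humL
    omega
  · intro x hx z hz h
    obtain ⟨x', hx', ex, cx⟩ := key x hx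
    obtain ⟨z', hz', ez, cz⟩ := key z hz
    rw [ex, ez]
    refine hS.braid x' hx' z' hz' ?_
    rw [Set.mem_Icc] at hx hz
    unfold hum at h
    unfold humL
    omega

end Pool.Agent.Art
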