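import Pool.Agent.Lib.Art.LeafDefs
import Pool.Agent.Lib.Art.MuT

/-! # The scalar, with more leaves: port of `exists_muT` -/

namespace Pool.Agent.Art

/-- a part of the chain which contains `4`, the vertex `0`, and some of the leaves -/
private theorem good_auxL {m : ℤ} (hm : 11 ≤ m) {X : Set ℤ} {a b : ℤ} (ha : 1 ≤ a) (ha4 : a ≤ 3)
    (hb : 9 ≤ b) (hbm : b ≤ m) (h0 : (0 : ℤ) ∈ X) (hI : Set.Icc a b ⊆ X)
    (hX : ∀ x ∈ X, x = 0 ∨ (a ≤ x ∧ x ≤ b) ∨ (b = m ∧ m ≤ x)) : Good (humL m) X := by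
  have h4 : (4 : ℤ) ∈ Set.Icc a b := ⟨by omega, by omega⟩
  have sy : ∀ x y, humL m x y → humL m y x := by
    intro x y h
    unfold humL at h ⊢
    omega
  have hmono : ∀ x ∈ Set.Icc a b, ∀ y ∈ Set.Icc a b,
      Relation.ReflTransGen (fun x y => x ∈ X ∧ y ∈ X ∧ humL m x y) x y := by
    intro x hx y hy
    refine Relation.ReflTransGen.mono (fun u v h => ⟨hI h.1, hI h.2.1, ?_⟩) _ _
      (conn_Icc ha x hx y hy)
    obtain ⟨hu, hv, huv⟩ := h
    rw [Set.mem_Icc] at hu hv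
    unfold hum at huv
    unfold humL
    omega
  have hto : ∀ x ∈ X, Relation.ReflTransGen (fun x y => x ∈ X ∧ y ∈ X ∧ humL m x y) x 4 := by
    intro x hx
    rcases hX x hx with rfl | h | ⟨hbm', h⟩
    · exact Relation.ReflTransGen.single ⟨hx, hI h4, by unfold humL; omega⟩
    · exact hmono x h 4 h4
    · have hm1 : m - 1 ∈ Set.Icc a b := ⟨by omega, by omega⟩
      exact Relation.ReflTransGen.head ⟨hx, hI hm1, by unfold humL; omega⟩
        (hmono (m - 1) hm1 4 h4)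
  have hfrom : ∀ x ∈ X, Relation.ReflTransGen (fun x y => x ∈ X ∧ y ∈ X ∧ humL m x y) 4 x := by
    intro x hx
    rcases hX x hx with rfl | h | ⟨hbm', h⟩
    · exact Relation.ReflTransGen.single ⟨hI h4, hx, by unfold humL; omega⟩
    · exact hmono 4 h4 x h
    · have hm1 : m - 1 ∈ Set.Icc a b := ⟨by omega, by omega⟩
      exact Relation.ReflTransGen.tail (hmono 4 h4 (m - 1) hm1)
        ⟨hI hm1, hx, by unfold humL; omega⟩
  refine ⟨sy, fun x hx y hy => (hto x hx).trans (hfrom y hy), ?_⟩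
  intro x hx y hy hxy
  have hx' := hX x hx
  have hy' := hX y hy
  unfold humL at hxy
  by_cases hc : x = 4 ∨ y = 4
  · refine ⟨b, hI ⟨by omega, le_rfl⟩, ?_, ?_⟩ <;> (unfold Far humL; omega)
  · refine ⟨0, h0, ?_, ?_⟩ <;> (unfold Far humL; omega)

variable {K V : Type*} [Field K] [IsAlgClosed K] [AddCommGroup V] [Module K V]
  [FiniteDimensional K V] {t : ℤ → Module.End K V}

omit [IsAlgClosed K] [FiniteDimensional K V] in
private theorem eq_on_NXL {X : Set ℤ} {A : Module.End K V}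
    (h : ∀ u ∈ X, ∀ v ∈ X, A * (t u - t v) = 0) : ∀ z ∈ NX X t ⊤, A z = 0 := by
  have hle : NX X t (⊤ : Submodule K V) ≤ LinearMap.ker A := by
    refine NX_le_iff.2 fun u hu v hv w _ => ?_
    rw [LinearMap.mem_ker]
    exact LinearMap.congr_fun (h u hu v hv) w
  exact fun z hz => LinearMap.mem_ker.1 (hle hz)

omit [IsAlgClosed K] [FiniteDimensional K V] in
private theorem diffL1 {x z w : ℤ} (h1 : t x * t z = t z * t x) (h2 : t x * t w = t w * t x) :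
    (t z - t w) * t x = t x * (t z - t w) := by
  rw [sub_mul, mul_sub, h1, h2]

theorem exists_muL {m N : ℤ} (hm : 11 ≤ m) (hN : m ≤ N)
    (hinj : ∀ x ∈ Set.Icc 0 N, Function.Injective (t x)) (hS : ASys (humL m) (Set.Icc 0 N) t)
    (hirr : ∀ W : Submodule K V, (∀ x ∈ Set.Icc 0 N, ∀ w ∈ W, t x w ∈ W) → W = ⊥ ∨ W = ⊤)
    (hnf : ∀ x, 1 ≤ x → x + 1 ≤ m → t x ≠ t (x + 1))
    (hQ : ∀ y ∈ Set.Icc m N, QQ (lf t m y) m) :
    ∃ μ : K, μ ≠ 0 ∧
      (∀ u ∈ Set.Icc 0 N, ∀ v ∈ Set.Icc 0 N, u ≠ 1 → u ≠ 2 → v ≠ 1 → v ≠ 2 →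
        ∀ w, t 1 (t u w - t v w) = μ • (t u w - t v w)) ∧
      (∀ u ∈ Set.Icc 0 N, ∀ v ∈ Set.Icc 0 N, u ≤ m - 2 → v ≤ m - 2 →
        ∀ w, t m (t u w - t v w) = μ • (t u w - t v w)) := by
  have hlf : lf t m m = t := by
    funext x
    unfold lf
    split_ifs with h
    · rw [h]
    · rfl
  have hsys : ASys hum (Set.Icc 0 m) t := by
    have h := lf_sys hm hS (y := m) ⟨le_rfl, hN⟩
    rwa [hlf] at h
  have hQm : QQ t m := by
    have h := hQ m ⟨le_rfl, hN⟩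
    rwa [hlf] at h
  have subm : Set.Icc 0 m ⊆ Set.Icc 0 N := fun x hx => ⟨hx.1, hx.2.trans hN⟩
  have sub1 : Set.Icc 1 m ⊆ Set.Icc 0 m := fun x hx => ⟨by have := hx.1; omega, hx.2⟩
  have hsurj : ∀ x ∈ Set.Icc 0 m, Function.Surjective (t x) := fun x hx =>
    LinearMap.injective_iff_surjective.1 (hinj x (subm hx))
  have mem : ∀ x : ℤ, 0 ≤ x → x ≤ N → x ∈ Set.Icc 0 N := fun x h1 h2 => ⟨h1, h2⟩
  obtain ⟨X0, hX0⟩ : ∃ X0 : Set ℤ, X0 = {x : ℤ | x ∈ Set.Icc 0 N ∧ x ≠ 1 ∧ x ≠ 2} := ⟨_, rfl⟩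
  obtain ⟨X1, hX1⟩ : ∃ X1 : Set ℤ, X1 = {x : ℤ | x ∈ Set.Icc 0 N ∧ x ≤ m - 2} := ⟨_, rfl⟩
  obtain ⟨X, hX⟩ : ∃ X : Set ℤ, X = {x : ℤ | x ∈ Set.Icc 0 N ∧ x ≠ 1 ∧ x ≠ 2 ∧ x ≤ m - 2} :=
    ⟨_, rfl⟩
  have m0 : ∀ x, x ∈ X0 ↔ (0 ≤ x ∧ x ≤ N) ∧ x ≠ 1 ∧ x ≠ 2 := fun x => by rw [hX0]; rfl
  have m1 : ∀ x, x ∈ X1 ↔ (0 ≤ x ∧ x ≤ N) ∧ x ≤ m - 2 := fun x => by rw [hX1]; rfl
  have mX : ∀ x, x ∈ X ↔ (0 ≤ x ∧ x ≤ N) ∧ x ≠ 1 ∧ x ≠ 2 ∧ x ≤ m - 2 := fun x => by
    rw [hX]; rfl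
  have gX0 : Good (humL m) X0 := by
    refine good_auxL hm (a := 3) (b := m) (by omega) le_rfl (by omega) le_rfl
      ((m0 0).2 (by omega)) (fun x hx => ?_) (fun x hx => ?_)
    · rw [Set.mem_Icc] at hx
      rw [m0]
      omega
    · rw [m0] at hx
      omega
  have gX1 : Good (humL m) X1 := by
    refine good_auxL hm (a := 1) (b := m - 2) le_rfl (by omega) (by omega) (by omega)
      ((m1 0).2 (by omega)) (fun x hx => ?_) (fun x hx => ?_)
    · rw [Set.mem_Icc] at hx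
      rw [m1]
      omega
    · rw [m1] at hx
      omega
  have b0 : X0 ⊆ Set.Icc 0 N := fun x hx => ((m0 x).1 hx).1
  have b1 : X1 ⊆ Set.Icc 0 N := fun x hx => ((m1 x).1 hx).1
  have x0 : X ⊆ X0 := fun x hx => by rw [mX] at hx; rw [m0]; omega
  have x1 : X ⊆ X1 := fun x hx => by rw [mX] at hx; rw [m1]; omega
  have eX0 : X0 = X ∪ Set.Icc (m - 2) N := by
    ext x
    rw [Set.mem_union, m0, mX, Set.mem_Icc]
    omega
  have eX1 : X1 = X ∪ Set.Icc 1 3 := by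
    ext x
    rw [Set.mem_union, m1, mX, Set.mem_Icc]
    omega
  have i1 := mem 1 (by omega) (by omega)
  have im := mem m (by omega) hN
  have c0 : ∀ x ∈ X0, t 1 * t x = t x * t 1 := fun x hx => hS.comm 1 i1 x (b0 hx) (by
    rw [m0] at hx
    unfold Far humL
    omega)
  have c1 : ∀ x ∈ X1, t m * t x = t x * t m := fun x hx => hS.comm m im x (b1 hx) (by
    rw [m1] at hx
    unfold Far humL
    omega)
  have hH : Set.Icc (m - 2) N ⊆ X0 := by rw [eX0]; exact Set.subset_union_right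
  have hH' : Set.Icc 1 3 ⊆ X1 := by rw [eX1]; exact Set.subset_union_right
  -- the elements
  have e0 : NX X0 t ⊤ = NX X t ⊤ ⊔ NX (Set.Icc (m - 2) N) t ⊤ := by
    have hn : (X ∩ Set.Icc (m - 2) N).Nonempty :=
      ⟨m - 2, (mX _).2 (by omega), le_rfl, by omega⟩
    rw [eX0]
    exact NX_union hn ⊤
  have e1 : NX X1 t ⊤ = NX X t ⊤ ⊔ NX (Set.Icc 1 3) t ⊤ := by
    have hn : (X ∩ Set.Icc (1 : ℤ) 3).Nonempty := ⟨3, (mX _).2 (by omega), by omega, le_rfl⟩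
    rw [eX1]
    exact NX_union hn ⊤
  have st0 := NX_stable gX0 (hS.mono b0) (W := ⊤) fun _ _ _ _ => Submodule.mem_top
  have st1 := NX_stable gX1 (hS.mono b1) (W := ⊤) fun _ _ _ _ => Submodule.mem_top
  -- `t 1 = t m` on `NX X`
  have hc : ∀ u ∈ X, (t 1 - t m) * (t u - t 4) = 0 := by
    intro u hu
    rw [mX] at hu
    by_cases h : u = 0
    · subst h
      exact cross_eq_zero hm hsurj hsys hQm
    · exact cross_eq hm (fun x hx => hsurj x (sub1 hx)) (hsys.mono sub1) hQm u 4 (by omega)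
        (by omega) (by omega) (by omega)
  have hT : ∀ z ∈ NX X t ⊤, t 1 z = t m z := by
    intro z hz
    have := eq_on_NXL (A := t 1 - t m) (fun u hu v hv => by
      have h3 : t u - t v = (t u - t 4) - (t v - t 4) := by abel
      rw [h3, mul_sub, hc u hu, hc v hv, sub_zero]) z hz
    rw [LinearMap.sub_apply] at this
    exact sub_eq_zero.1 this
  -- the products of the differences at the two ends
  have kQ1 : ∀ a ∈ Set.Icc (1 : ℤ) 3, ∀ b ∈ Set.Icc (1 : ℤ) 3, ∀ u ∈ Set.Icc (m - 2) N,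
      (t a - t b) * (t u - t (m - 1)) = 0 := by
    intro a ha b hb u hu
    rw [Set.mem_Icc] at ha hb hu
    by_cases h : u < m
    · exact hQm a b u (m - 1) (by omega) (by omega) (by omega) (by omega) (by omega) (by omega)
        (by omega) (by omega)
    · have h1 := hQ u ⟨by omega, hu.2⟩ a b m (m - 1) (by omega) (by omega) (by omega) (by omega)
        (by omega) (by omega) (by omega) (by omega)
      have e1 : lf t m u a = t a := by unfold lf; rw [if_neg (by omega)]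
      have e2 : lf t m u b = t b := by unfold lf; rw [if_neg (by omega)]
      have e3 : lf t m u (m - 1) = t (m - 1) := by unfold lf; rw [if_neg (by omega)]
      have e4 : lf t m u m = t u := by unfold lf; rw [if_pos rfl]
      rwa [e1, e2, e3, e4] at h1
  have kQ : ∀ a ∈ Set.Icc (1 : ℤ) 3, ∀ b ∈ Set.Icc (1 : ℤ) 3, ∀ u ∈ Set.Icc (m - 2) N,
      ∀ v ∈ Set.Icc (m - 2) N, (t a - t b) * (t u - t v) = 0 := by
    intro a ha b hb u hu v hv
    have h3 : t u - t v = (t u - t (m - 1)) - (t v - t (m - 1)) := by abel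
    rw [h3, mul_sub, kQ1 a ha b hb u hu, kQ1 a ha b hb v hv, sub_zero]
  have cc : ∀ a ∈ Set.Icc (1 : ℤ) 3, ∀ u ∈ Set.Icc (m - 2) N, t a * t u = t u * t a := by
    intro a ha u hu
    refine hS.comm a (b1 (hH' ha)) u (b0 (hH hu)) ?_
    rw [Set.mem_Icc] at ha hu
    unfold Far humL
    omega
  have kQ' : ∀ a ∈ Set.Icc (1 : ℤ) 3, ∀ b ∈ Set.Icc (1 : ℤ) 3, ∀ u ∈ Set.Icc (m - 2) N,
      ∀ v ∈ Set.Icc (m - 2) N, (t u - t v) * (t a - t b) = 0 := by
    intro a ha b hb u hu v hv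
    have h := kQ a ha b hb u hu v hv
    rw [sub_mul, ← diffL1 (cc a ha u hu) (cc a ha v hv), ← diffL1 (cc b hb u hu) (cc b hb v hv),
      ← mul_sub] at h
    exact h
  have k2 : ∀ z ∈ NX (Set.Icc (m - 2) N) t ⊤, t 2 z = t 1 z := by
    intro z hz
    have := eq_on_NXL (A := t 2 - t 1) (fun u hu v hv =>
      kQ 2 ⟨by omega, by omega⟩ 1 ⟨le_rfl, by omega⟩ u hu v hv) z hz
    rw [LinearMap.sub_apply] at this
    exact sub_eq_zero.1 this
  have km : ∀ x ∈ Set.Icc (m - 1) N, ∀ z ∈ NX (Set.Icc 1 3) t ⊤, t x z = t m z := by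
    intro x hx z hz
    have := eq_on_NXL (A := t x - t m) (fun a ha b hb =>
      kQ' a ha b hb x ⟨by have := hx.1; omega, hx.2⟩ m ⟨by omega, hN⟩) z hz
    rw [LinearMap.sub_apply] at this
    exact sub_eq_zero.1 this
  have hne : ∃ z ∈ NX X0 t ⊤, z ≠ 0 := by
    by_contra hcon
    have hcon' : ∀ z ∈ NX X0 t ⊤, z = 0 := fun z hz => by
      by_contra h
      exact hcon ⟨z, hz, h⟩
    apply hnf 3 (by omega) (by omega)
    apply LinearMap.ext
    intro w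
    exact sub_eq_zero.1 (hcon' _ (mem_NX ((m0 3).2 (by omega)) ((m0 (3 + 1)).2 (by omega))
      (Submodule.mem_top (x := w))))
  obtain ⟨z0, hz0, hz0'⟩ := hne
  obtain ⟨μ, hμ0, hμ1⟩ := Pool.Agent.HypLow.exists_scalar
    {S : Module.End K V | ∃ x ∈ Set.Icc 0 N, S = t x}
    (fun W h => hirr W fun x hx w hw => h (t x) ⟨x, hx, rfl⟩ w hw)
    (t 1) (t m) (NX X0 t ⊤) (NX X1 t ⊤) (NX X t ⊤) (NX (Set.Icc (m - 2) N) t ⊤)
    (NX (Set.Icc 1 3) t ⊤)
    (fun h => hz0' ((Submodule.mem_bot K).1 (h ▸ hz0)))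
    e0 e1
    (NX_map (t 1) (fun x hx => c0 x (x0 hx)) fun _ _ => Submodule.mem_top)
    (NX_map (t m) (fun x hx => c1 x (x1 hx)) fun _ _ => Submodule.mem_top)
    (NX_map (t 1) (fun x hx => c0 x (hH hx)) fun _ _ => Submodule.mem_top)
    (NX_map (t m) (fun x hx => c1 x (hH' hx)) fun _ _ => Submodule.mem_top)
    hT
    (by
      rintro S ⟨x, hx, rfl⟩
      by_cases h : x ∈ X0
      · exact Or.inl ⟨(c0 x h).symm, st0 x h⟩
      · right
        rw [m0] at h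
        rw [Set.mem_Icc] at hx
        by_cases h1 : x = 1
        · subst h1
          exact Or.inl fun _ _ => rfl
        · have h2 : x = 2 := by omega
          subst h2
          have h3 : (2 : ℤ) ∈ X1 := (m1 2).2 (by omega)
          exact Or.inr ⟨(c1 2 h3).symm, st1 2 h3, k2⟩)
    (by
      rintro S ⟨x, hx, rfl⟩
      by_cases h : x ∈ X1
      · exact Or.inl ⟨(c1 x h).symm, st1 x h⟩
      · right
        rw [m1] at h
        rw [Set.mem_Icc] at hx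
        by_cases h1 : x = m
        · subst h1
          exact Or.inl fun _ _ => rfl
        · have h3 : x ∈ X0 := (m0 _).2 (by omega)
          exact Or.inr ⟨(c0 _ h3).symm, st0 _ h3, km x ⟨by omega, hx.2⟩⟩)
    {D : Module.End K V | ∃ u ∈ X, ∃ v ∈ X, D = t u - t v}
    {D : Module.End K V | ∃ u ∈ Set.Icc (m - 2) N, ∃ v ∈ Set.Icc (m - 2) N, D = t u - t v}
    {D : Module.End K V | ∃ u ∈ Set.Icc (1 : ℤ) 3, ∃ v ∈ Set.Icc (1 : ℤ) 3, D = t u - t v}
    (fun W h => NX_le_iff.2 fun u hu v hv w _ => h (t u - t v) ⟨u, hu, v, hv, rfl⟩ w)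
    (fun W h => NX_le_iff.2 fun u hu v hv w _ => h (t u - t v) ⟨u, hu, v, hv, rfl⟩ w)
    (fun W h => NX_le_iff.2 fun u hu v hv w _ => h (t u - t v) ⟨u, hu, v, hv, rfl⟩ w)
    (by
      rintro D ⟨u, hu, v, hv, rfl⟩ w
      exact mem_NX hu hv Submodule.mem_top)
    (by
      rintro D ⟨u, hu, v, hv, rfl⟩
      exact diffL1 (c0 u (x0 hu)) (c0 v (x0 hv)))
    (by
      rintro D ⟨u, hu, v, hv, rfl⟩
      exact diffL1 (c1 u (x1 hu)) (c1 v (x1 hv)))
    (by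
      rintro D ⟨u, hu, v, hv, rfl⟩
      exact diffL1 (c0 u (hH hu)) (c0 v (hH hv)))
    (by
      rintro D ⟨u, hu, v, hv, rfl⟩
      exact diffL1 (c1 u (hH' hu)) (c1 v (hH' hv)))
    (by
      rintro D ⟨u, hu, v, hv, rfl⟩
      exact eq_on_NXL fun a ha b hb => kQ' a ha b hb u hu v hv)
    (by
      rintro D ⟨a, ha, b, hb, rfl⟩
      exact eq_on_NXL fun u hu v hv => kQ a ha b hb u hu v hv)
  refine ⟨μ, ?_, ?_, ?_⟩
  · rintro rfl
    apply hz0'
    apply hinj 1 i1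
    rw [hμ0 z0 hz0, zero_smul, map_zero]
  · intro u hu v hv h1 h2 h3 h4 w
    exact hμ0 _ (mem_NX ((m0 u).2 ⟨hu, h1, h2⟩) ((m0 v).2 ⟨hv, h3, h4⟩) Submodule.mem_top)
  · intro u hu v hv h1 h2 w
    exact hμ1 _ (mem_NX ((m1 u).2 ⟨hu, h1⟩) ((m1 v).2 ⟨hv, h2⟩) Submodule.mem_top)

end Pool.Agent.Art
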