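import Pool.Agent.Lib.Art.LeafDefs

/-! # The lantern relation and the leaves -/

namespace Pool.Agent.Art

section Ring

variable {R : Type*} [Ring R]

/-- the braid relation for `1 + a`, `1 + b` with `a² = b² = 0` -/
private theorem lo_braid {a b : R} (ha : a * a = 0) (hb : b * b = 0)
    (h : (1 + a) * (1 + b) * (1 + a) = (1 + b) * (1 + a) * (1 + b)) :
    a + a * b * a = b + b * a * b := by
  have e1 : (1 + a) * (1 + b) * (1 + a) =
      (1 + a + b + a * b + b * a + a * a) + (a + a * b * a) := by noncomm_ring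
  have e2 : (1 + b) * (1 + a) * (1 + b) =
      (1 + a + b + a * b + b * a + b * b) + (b + b * a * b) := by noncomm_ring
  rw [e1, e2, ha, hb] at h
  exact add_left_cancel h

end Ring

variable {K V : Type*} [Field K] [AddCommGroup V] [Module K V]

/-- a neighbour of a scalar is the same scalar -/
private theorem lo_scal {a b : Module.End K V} {μ : K} (hμ : μ ≠ 0)
    (hb : Function.Injective b) (hab : a * b * a = b * a * b) (h : a = μ • 1) : b = μ • 1 := by
  refine LinearMap.ext fun w => ?_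
  have h1 := LinearMap.congr_fun hab w
  rw [h] at h1
  have h2 : μ • b (μ • w) = b (μ • b w) := h1
  rw [map_smul, map_smul] at h2
  have h3 := smul_right_injective V hμ h2
  rw [← map_smul] at h3
  exact (hb h3).symm

/-- squares of neighbours -/
private theorem lo_sq {a b : Module.End K V} (ha : Function.Surjective a)
    (hb : Function.Surjective b) (hab : a * b * a = b * a * b) (h : (a - 1) * (a - 1) = 0) :
    (b - 1) * (b - 1) = 0 := by
  have e : (b - 1) * (b - 1) * (a * b) = (a * b) * ((a - 1) * (a - 1)) := by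
    have e1 : b * (a * b) = (a * b) * a := by rw [← mul_assoc, ← hab]
    have e2 : (b - 1) * (a * b) = (a * b) * (a - 1) := by
      rw [sub_mul, mul_sub, e1, one_mul, mul_one]
    rw [mul_assoc, e2, ← mul_assoc, e2, mul_assoc]
  rw [h, mul_zero] at e
  refine LinearMap.ext fun w => ?_
  obtain ⟨w1, rfl⟩ := ha w
  obtain ⟨w2, rfl⟩ := hb w1
  exact LinearMap.congr_fun e w2

/-- an operator apart from `q` is `μ` on the image of `q - μ` -/
private theorem lo_apart {t₁ t₃ p q : Module.End K V} {μ : K}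
    (h13 : (t₁ - μ • 1) * (t₃ - μ • 1) = 0) (h : Apart t₁ t₃ p q) (w : V) :
    p ((q - μ • 1) w) = μ • ((q - μ • 1) w) := by
  obtain ⟨g, k, hgk, hkg, rfl, rfl⟩ := h
  have e1 : g * t₁ * k - μ • 1 = g * (t₁ - μ • 1) * k := by
    rw [mul_sub, sub_mul, mul_smul_comm, mul_one, smul_mul_assoc, hgk]
  have e3 : g * t₃ * k - μ • 1 = g * (t₃ - μ • 1) * k := by
    rw [mul_sub, sub_mul, mul_smul_comm, mul_one, smul_mul_assoc, hgk]
  have e : (g * t₁ * k - μ • 1) * (g * t₃ * k - μ • 1) = 0 := by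
    rw [e1, e3]
    calc g * (t₁ - μ • 1) * k * (g * (t₃ - μ • 1) * k)
        = g * (t₁ - μ • 1) * (k * g) * (t₃ - μ • 1) * k := by simp only [mul_assoc]
      _ = g * ((t₁ - μ • 1) * (t₃ - μ • 1)) * k := by rw [hkg, mul_one]; simp only [mul_assoc]
      _ = 0 := by rw [h13, mul_zero, zero_mul]
  have h1 := LinearMap.congr_fun e w
  have h2 : (g * t₁ * k) ((g * t₃ * k - μ • 1) w) - μ • ((g * t₃ * k - μ • 1) w) = 0 := h1
  exact sub_eq_zero.1 h2

/-- the lantern relation on the image of `q - μ` -/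
private theorem lo_lan {t₁ t₃ p q : Module.End K V} {μ : K}
    (h13 : (t₁ - μ • 1) * (t₃ - μ • 1) = 0) (h : Lan t₁ t₃ p q) (w : V) :
    p (μ • μ • μ • ((q - μ • 1) w)) = μ • μ • μ • ((q - μ • 1) w) := by
  obtain ⟨a, b, c, u, v, x, ha, hb, hc, hu, hv, hx, h⟩ := h
  have e := LinearMap.congr_fun h ((q - μ • 1) w)
  have e2 : p (u (v (x ((q - μ • 1) w)))) = a (b (c ((q - μ • 1) w))) := e
  rw [lo_apart h13 hx, map_smul, map_smul, map_smul, lo_apart h13 hv, map_smul, map_smul,
    lo_apart h13 hu, lo_apart h13 hc, map_smul, map_smul, lo_apart h13 hb, map_smul, map_smul,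
    lo_apart h13 ha] at e2
  simpa only [map_smul] using e2

/-- The lantern relations give `μ = 1`; all leaves have the same operator. -/
theorem leaf_one [FiniteDimensional K V] {m N : ℤ} (hm : 11 ≤ m) (hN : m ≤ N)
    {t : ℤ → Module.End K V}
    (hinj : ∀ x ∈ Set.Icc 0 N, Function.Injective (t x)) (hS : ASys (humL m) (Set.Icc 0 N) t)
    (hirr : ∀ W : Submodule K V, (∀ x ∈ Set.Icc 0 N, ∀ w ∈ W, t x w ∈ W) → W = ⊥ ∨ W = ⊤)
    (hnf : ∃ x ∈ Set.Icc 0 m, ∃ y ∈ Set.Icc 0 m, t x ≠ t y)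
    (hL : ∀ x ∈ Set.Icc 0 N, x = 1 ∨ m ≤ x → ∀ y ∈ Set.Icc m N, Lan (t 1) (t 3) (t x) (t y))
    {μ : K} (hμ : μ ≠ 0)
    (hfar : ∀ x ∈ Set.Icc 0 N, ∀ y ∈ Set.Icc 0 N, Far (humL m) x y →
      (x < m ∨ y < m) → (t x - μ • 1) * (t y - μ • 1) = 0) :
    μ = 1 ∧ (∀ x ∈ Set.Icc 0 N, (t x - 1) * (t x - 1) = 0) ∧ ∀ y ∈ Set.Icc m N, t y = t m := by
  have mem : ∀ x : ℤ, 0 ≤ x → x ≤ N → x ∈ Set.Icc 0 N := fun x h1 h2 => ⟨h1, h2⟩
  have hsurj : ∀ x ∈ Set.Icc 0 N, Function.Surjective (t x) := fun x hx =>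
    LinearMap.injective_iff_surjective.1 (hinj x hx)
  -- a property which passes to neighbours holds on `[0, m]`
  have hall : ∀ Q : ℤ → Prop, (∀ x ∈ Set.Icc 0 N, ∀ y ∈ Set.Icc 0 N, humL m x y → Q x → Q y) →
      Q m → ∀ x ∈ Set.Icc 0 m, Q x := by
    intro Q hQ h0
    have h1 : ∀ k : ℕ, (k : ℤ) ≤ m - 1 → Q (m - k) := by
      intro k
      induction k with
      | zero => intro _; simpa using h0
      | succ k ih =>
        intro hk
        push_cast at hk
        refine hQ (m - k) (mem _ (by omega) (by omega)) _ (mem _ (by push_cast; omega)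
          (by push_cast; omega)) ?_ (ih (by omega))
        unfold humL
        push_cast
        omega
    have h2 : ∀ x, 1 ≤ x → x ≤ m → Q x := by
      intro x hx1 hx2
      have h := h1 (m - x).toNat (by omega)
      have e : m - ((m - x).toNat : ℤ) = x := by omega
      rwa [e] at h
    intro x hx
    rw [Set.mem_Icc] at hx
    by_cases e : x = 0
    · subst e
      refine hQ 4 (mem _ (by omega) (by omega)) 0 (mem _ le_rfl (by omega)) ?_
        (h2 4 (by omega) (by omega))
      unfold humL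
      omega
    · exact h2 x (by omega) hx.2
  -- a vector
  have hne : t m - μ • 1 ≠ 0 := by
    intro h
    obtain ⟨x, hx, y, hy, hxy⟩ := hnf
    have h1 := hall (fun x => t x = μ • 1) (fun x hx y hy hxy h =>
      lo_scal hμ (hinj y hy) (hS.braid x hx y hy hxy) h) (sub_eq_zero.1 h)
    exact hxy ((h1 x hx).trans (h1 y hy).symm)
  obtain ⟨w0, hw0⟩ : ∃ w, (t m - μ • 1) w ≠ 0 := by
    by_contra hcon
    push Not at hcon
    exact hne (LinearMap.ext hcon)
  have h13 : (t 1 - μ • 1) * (t 3 - μ • 1) = 0 := by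
    refine hfar 1 (mem _ (by omega) (by omega)) 3 (mem _ (by omega) (by omega)) ?_
      (Or.inl (by omega))
    unfold Far humL
    omega
  have h1m : (t 1 - μ • 1) * (t m - μ • 1) = 0 := by
    refine hfar 1 (mem _ (by omega) (by omega)) m (mem _ (by omega) (by omega)) ?_
      (Or.inl (by omega))
    unfold Far humL
    omega
  have hμ1 : μ = 1 := by
    have h1 := lo_lan h13 (hL 1 (mem _ (by omega) (by omega)) (Or.inl rfl) m ⟨le_rfl, hN⟩) w0
    have h2 : t 1 ((t m - μ • 1) w0) - μ • ((t m - μ • 1) w0) = 0 := LinearMap.congr_fun h1m w0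
    rw [map_smul, map_smul, map_smul, sub_eq_zero.1 h2] at h1
    have h3 := smul_right_injective V hμ h1
    have h4 := smul_right_injective V hμ h3
    have h5 := smul_right_injective V hμ h4
    have h6 : (μ - 1) • ((t m - μ • 1) w0) = 0 := by rw [sub_smul, one_smul, h5, sub_self]
    rcases smul_eq_zero.1 h6 with h7 | h7
    · exact sub_eq_zero.1 h7
    · exact absurd h7 hw0
  subst hμ1
  simp only [one_smul] at hfar h13
  -- products of leaves
  have hleaf : ∀ x ∈ Set.Icc m N, ∀ y ∈ Set.Icc m N, (t x - 1) * (t y - 1) = 0 := by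
    intro x hx y hy
    refine LinearMap.ext fun w => ?_
    have h := lo_lan (μ := (1 : K)) (by rw [one_smul]; exact h13)
      (hL x (mem _ (by have := hx.1; omega) hx.2) (Or.inr hx.1) y hy) w
    simp only [one_smul] at h
    show t x ((t y - 1) w) - (t y - 1) w = 0
    rw [h, sub_self]
  have hsq : ∀ x ∈ Set.Icc 0 N, (t x - 1) * (t x - 1) = 0 := by
    intro x hx
    by_cases e : m ≤ x
    · exact hleaf x ⟨e, hx.2⟩ x ⟨e, hx.2⟩
    · exact hall (fun x => (t x - 1) * (t x - 1) = 0) (fun x hx y hy hxy h =>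
        lo_sq (hsurj x hx) (hsurj y hy) (hS.braid x hx y hy hxy) h)
        (hleaf m ⟨le_rfl, hN⟩ m ⟨le_rfl, hN⟩) x ⟨hx.1, by omega⟩
  -- products with a leaf
  have hprod : ∀ x ∈ Set.Icc 0 N, x ≠ m - 1 → ∀ y ∈ Set.Icc m N, (t x - 1) * (t y - 1) = 0 := by
    intro x hx e y hy
    rw [Set.mem_Icc] at hx hy
    by_cases e2 : m ≤ x
    · exact hleaf x ⟨e2, hx.2⟩ y hy
    · refine hfar x hx y ⟨by omega, hy.2⟩ ?_ (Or.inl (by omega))
      unfold Far humL
      omega
  have hprod' : ∀ x ∈ Set.Icc 0 N, x ≠ m - 1 → ∀ y ∈ Set.Icc m N, (t y - 1) * (t x - 1) = 0 := by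
    intro x hx e y hy
    rw [Set.mem_Icc] at hx hy
    by_cases e2 : m ≤ x
    · exact hleaf y hy x ⟨e2, hx.2⟩
    · refine hfar y ⟨by omega, hy.2⟩ x hx ?_ (Or.inr (by omega))
      unfold Far humL
      omega
  -- no fixed vectors
  have hfix : ∀ w, (∀ x ∈ Set.Icc 0 N, (t x - 1) w = 0) → w = 0 := by
    intro w hw
    let W : Submodule K V :=
      { carrier := {v | ∀ x ∈ Set.Icc 0 N, (t x - 1) v = 0}
        add_mem' := fun {a b} ha hb x hx => by rw [map_add, ha x hx, hb x hx, add_zero]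
        zero_mem' := fun x _ => by rw [map_zero]
        smul_mem' := fun c v hv x hx => by rw [map_smul, hv x hx, smul_zero] }
    rcases hirr W (fun x hx v hv => by
      have h : (t x - 1) v = 0 := hv x hx
      have h2 : t x v = v := sub_eq_zero.1 h
      rw [h2]
      exact hv) with h | h
    · have : w ∈ W := hw
      rw [h] at this
      exact (Submodule.mem_bot K).1 this
    · exfalso
      obtain ⟨x, hx, y, hy, hxy⟩ := hnf
      refine hxy (LinearMap.ext fun v => ?_)
      have hv : v ∈ W := by rw [h]; exact Submodule.mem_top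
      have h1 : (t x - 1) v = 0 := hv x ⟨hx.1, hx.2.trans hN⟩
      have h2 : (t y - 1) v = 0 := hv y ⟨hy.1, hy.2.trans hN⟩
      have h3 : t x v = v := sub_eq_zero.1 h1
      have h4 : t y v = v := sub_eq_zero.1 h2
      rw [h3, h4]
  have hfix' : ∀ E : Module.End K V, (∀ x ∈ Set.Icc 0 N, (t x - 1) * E = 0) → E = 0 := by
    intro E hE
    refine LinearMap.ext fun w => ?_
    exact hfix (E w) fun x hx => LinearMap.congr_fun (hE x hx) w
  have mm1 : m - 1 ∈ Set.Icc 0 N := mem _ (by omega) (by omega)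
  -- `a + a b a = 0`
  have hE : ∀ y ∈ Set.Icc m N, (t (m - 1) - 1) + (t (m - 1) - 1) * (t y - 1) * (t (m - 1) - 1) = 0 := by
    intro y hy
    have hyN : y ∈ Set.Icc 0 N := ⟨by have := hy.1; omega, hy.2⟩
    obtain ⟨a, ha⟩ : ∃ a, a = t (m - 1) - 1 := ⟨_, rfl⟩
    obtain ⟨b, hb⟩ : ∃ b, b = t y - 1 := ⟨_, rfl⟩
    have ea : t (m - 1) = 1 + a := by rw [ha]; abel
    have eb : t y = 1 + b := by rw [hb]; abel
    have haa : a * a = 0 := by rw [ha]; exact hsq _ mm1
    have hbb : b * b = 0 := by rw [hb]; exact hsq _ hyN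
    have hbr := hS.braid (m - 1) mm1 y hyN (by
      have := hy.1
      unfold humL
      omega)
    rw [ea, eb] at hbr
    have hEE := lo_braid haa hbb hbr
    rw [← ha, ← hb]
    apply hfix'
    intro x hx
    by_cases e : x = m - 1
    · subst e
      rw [← ha, mul_add, haa, ← mul_assoc, ← mul_assoc, haa, zero_mul, zero_mul, add_zero]
    · have h := hprod x hx e y hy
      rw [← hb] at h
      rw [hEE, mul_add, h, ← mul_assoc, ← mul_assoc, h, zero_mul, zero_mul, add_zero]
  refine ⟨rfl, hsq, ?_⟩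
  intro y hy
  have hmN : m ∈ Set.Icc m N := ⟨le_rfl, hN⟩
  obtain ⟨D, hD⟩ : ∃ D, D = t y - t m := ⟨_, rfl⟩
  have hD2 : D = (t y - 1) - (t m - 1) := by rw [hD]; abel
  have l1 : ∀ x ∈ Set.Icc 0 N, x ≠ m - 1 → (t x - 1) * D = 0 := by
    intro x hx e
    rw [hD2, mul_sub, hprod x hx e y hy, hprod x hx e m hmN, sub_zero]
  have l2 : ∀ x ∈ Set.Icc 0 N, x ≠ m - 1 → D * (t x - 1) = 0 := by
    intro x hx e
    rw [hD2, sub_mul, hprod' x hx e y hy, hprod' x hx e m hmN, sub_zero]
  have l3 : D * (t (m - 1) - 1) = 0 := by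
    apply hfix'
    intro x hx
    by_cases e : x = m - 1
    · subst e
      have h1 := hE y hy
      have h2 := hE m hmN
      have h3 : (t (m - 1) - 1) * (D * (t (m - 1) - 1)) =
          ((t (m - 1) - 1) + (t (m - 1) - 1) * (t y - 1) * (t (m - 1) - 1)) -
            ((t (m - 1) - 1) + (t (m - 1) - 1) * (t m - 1) * (t (m - 1) - 1)) := by
        rw [hD2]
        noncomm_ring
      rw [h3, h1, h2, sub_zero]
    · rw [← mul_assoc, l1 x hx e, zero_mul]
  have l4 : ∀ x ∈ Set.Icc 0 N, D * (t x - 1) = 0 := by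
    intro x hx
    by_cases e : x = m - 1
    · subst e
      exact l3
    · exact l2 x hx e
  rcases hirr (LinearMap.ker D) (fun x hx v hv => by
    rw [LinearMap.mem_ker] at hv ⊢
    have h1 : D ((t x - 1) v) = 0 := LinearMap.congr_fun (l4 x hx) v
    have h2 : t x v = (t x - 1) v + v := by
      show t x v = t x v - v + v
      rw [sub_add_cancel]
    rw [h2, map_add, h1, hv, add_zero]) with h | h
  · exfalso
    have hz : ∀ x ∈ Set.Icc 0 N, t x = 1 := by
      intro x hx
      refine sub_eq_zero.1 (LinearMap.ext fun v => ?_)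
      have h1 : (t x - 1) v ∈ LinearMap.ker D := LinearMap.congr_fun (l4 x hx) v
      rw [h] at h1
      exact (Submodule.mem_bot K).1 h1
    obtain ⟨x, hx, z, hz', hxz⟩ := hnf
    exact hxz ((hz x ⟨hx.1, hx.2.trans hN⟩).trans (hz z ⟨hz'.1, hz'.2.trans hN⟩).symm)
  · have h0 : D = 0 := LinearMap.ker_eq_top.1 h
    rw [hD] at h0
    exact sub_eq_zero.1 h0

end Pool.Agent.Art
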