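import Pool.Agent.Lib.Art.TreeMain
import Pool.Agent.Lib.Art.LeafMu
import Pool.Agent.Lib.Art.LeafCorner

/-! # All far pairs, with more leaves -/

namespace Pool.Agent.Art

universe v

variable {K : Type*} {V : Type v} [Field K] [IsAlgClosed K] [AddCommGroup V] [Module K V]
  [FiniteDimensional K V]

/-- (Q) from the dimension: part of the proof of `tree_main` -/
theorem qq_of_dim {m s L : ℕ} (hs : 2 ≤ s) (hL : 5 ≤ L) (hsL : s * (L + 1) ≤ m + 1)
    {t : ℤ → Module.End K V} (hinj : ∀ x ∈ Set.Icc (0 : ℤ) m, Function.Injective (t x))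
    (hS : ASys hum (Set.Icc (0 : ℤ) m) t)
    (hr : Module.finrank K V < s * (s - 1) / 2 * (L - 1) ^ 2) : QQ t m := by
  have hmN : 11 ≤ m := by
    have : 2 * (L + 1) ≤ s * (L + 1) := Nat.mul_le_mul_right _ hs
    omega
  have hm : (11 : ℤ) ≤ m := by omega
  have hsub1 : Set.Icc (1 : ℤ) m ⊆ Set.Icc (0 : ℤ) m := fun x hx => ⟨by have := hx.1; omega, hx.2⟩
  have hsurj : ∀ x ∈ Set.Icc (0 : ℤ) m, Function.Surjective (t x) := fun x hx =>
    LinearMap.injective_iff_surjective.1 (hinj x hx)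
  -- section 7: one pair of far edges
  have hpos : ∀ i : Fin s, (i : ℕ) * (L + 1) + L ≤ m := by
    intro i
    have h1 : ((i : ℕ) + 1) * (L + 1) ≤ s * (L + 1) := Nat.mul_le_mul_right _ i.2
    have h2 : ((i : ℕ) + 1) * (L + 1) = (i : ℕ) * (L + 1) + (L + 1) := by ring
    omega
  have hlt : ∀ i j : Fin s, i < j → (i : ℕ) * (L + 1) + L + 2 ≤ (j : ℕ) * (L + 1) + 1 := by
    intro i j hij
    have h1 : ((i : ℕ) + 1) * (L + 1) ≤ (j : ℕ) * (L + 1) :=
      Nat.mul_le_mul_right _ (by exact_mod_cast hij)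
    have h2 : ((i : ℕ) + 1) * (L + 1) = (i : ℕ) * (L + 1) + (L + 1) := by ring
    omega
  set X : Fin s → Set ℤ := fun i =>
    Set.Icc (((i : ℕ) * (L + 1) + 1 : ℕ) : ℤ) (((i : ℕ) * (L + 1) + L : ℕ) : ℤ) with hX
  have hXsub : ∀ i, X i ⊆ Set.Icc (1 : ℤ) m := by
    intro i x hx
    have h1 := hx.1
    have h2 := hx.2
    have h3 := hpos i
    constructor
    · push_cast at h1
      have : (0 : ℤ) ≤ (i : ℕ) * (L + 1) := by positivity
      omega
    · have : (((i : ℕ) * (L + 1) + L : ℕ) : ℤ) ≤ m := by exact_mod_cast h3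
      exact h2.trans this
  have hXfar' : ∀ i j, i < j → ∀ x ∈ X i, ∀ y ∈ X j, x + 2 ≤ y := by
    intro i j hij x hx y hy
    have h1 := hlt i j hij
    have h2 : (((i : ℕ) * (L + 1) + L + 2 : ℕ) : ℤ) ≤ (((j : ℕ) * (L + 1) + 1 : ℕ) : ℤ) := by
      exact_mod_cast h1
    have h3 := hx.2
    have h4 := hy.1
    push_cast at h2 h3 h4 ⊢
    omega
  have hXfar : ∀ i j, i ≠ j → ∀ x ∈ X i, ∀ y ∈ X j, Far hum x y := by
    intro i j hij x hx y hy
    have hx1 := (hXsub i hx).1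
    have hy1 := (hXsub j hy).1
    unfold Far hum
    rcases lt_or_gt_of_ne hij with h | h
    · have := hXfar' i j h x hx y hy
      omega
    · have := hXfar' j i h y hy x hx
      omega
  have hnn : ∀ i : Fin s, (0 : ℤ) ≤ ((i : ℕ) : ℤ) * ((L : ℤ) + 1) := fun i => by positivity
  have hgood : ∀ i, Good hum (X i) := by
    intro i
    have h0 := hnn i
    refine good_Icc ?_ ?_
    · push_cast; omega
    · push_cast; omega
  have hN : ∀ i, ANab.{v} K hum (X i) (L - 1) := by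
    intro i
    have h0 := hnn i
    refine chain_nab4 (by omega) ?_ ?_
    · push_cast; omega
    · push_cast; ring
  obtain ⟨i, j, hij, hpair⟩ := pairs_dim (K := K) (k := L - 1) (by omega) X hgood hN
    hXfar V t (fun i x hx => hinj x (hsub1 (hXsub i hx)))
    (hS.mono (by rintro x ⟨i, hx⟩; exact hsub1 (hXsub i hx))) hr
  have hmem : ∀ i : Fin s, (((i : ℕ) * (L + 1) + 1 : ℕ) : ℤ) ∈ X i ∧
      (((i : ℕ) * (L + 1) + 1 : ℕ) : ℤ) + 1 ∈ X i := by
    intro i
    refine ⟨⟨le_refl _, ?_⟩, ⟨by omega, ?_⟩⟩ <;> push_cast <;> omega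
  refine qq_of_pair (fun x hx => hsurj x (hsub1 hx)) (hS.mono hsub1)
    ⟨(((i : ℕ) * (L + 1) + 1 : ℕ) : ℤ), (((j : ℕ) * (L + 1) + 1 : ℕ) : ℤ), ?_, ?_, ?_, ?_⟩
  · exact (hXsub i (hmem i).1).1
  · have := hXfar' i j hij _ (hmem i).2 _ (hmem j).1
    omega
  · exact (hXsub j (hmem j).2).2
  · exact hpair _ (hmem i).1 _ (hmem i).2 _ (hmem j).1 _ (hmem j).2

omit [IsAlgClosed K] [FiniteDimensional K V] in
private theorem lq_smul {ι : Type*} {adj : ι → ι → Prop} {B : Set ι} {t : ι → Module.End K V}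
    (hS : ASys adj B t) (c : K) : ASys adj B (fun x => c • t x) := by
  constructor
  · intro x hx y hy hf
    show (c • t x) * (c • t y) = (c • t y) * (c • t x)
    rw [smul_mul_smul_comm, smul_mul_smul_comm, hS.comm x hx y hy hf]
  · intro x hx y hy hf
    show (c • t x) * (c • t y) * (c • t x) = (c • t y) * (c • t x) * (c • t y)
    rw [smul_mul_smul_comm, smul_mul_smul_comm, smul_mul_smul_comm, smul_mul_smul_comm,
      hS.braid x hx y hy hf]

/-- the scalar, and the products of all far pairs: from `exists_muL`, `cornerL`, `far_pairsT` (for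
`lf s m y`, `y ∈ [m, N]`) -/
theorem far_leaf {m N : ℤ} (hm : 11 ≤ m) (hN : m ≤ N) {t : ℤ → Module.End K V}
    (hinj : ∀ x ∈ Set.Icc 0 N, Function.Injective (t x)) (hS : ASys (humL m) (Set.Icc 0 N) t)
    (hirr : ∀ W : Submodule K V, (∀ x ∈ Set.Icc 0 N, ∀ w ∈ W, t x w ∈ W) → W = ⊥ ∨ W = ⊤)
    (hnf : ∃ x ∈ Set.Icc 0 m, ∃ y ∈ Set.Icc 0 m, t x ≠ t y)
    (hQ : ∀ y ∈ Set.Icc m N, QQ (lf t m y) m) :
    ∃ μ : K, μ ≠ 0 ∧ ∀ x ∈ Set.Icc 0 N, ∀ y ∈ Set.Icc 0 N, Far (humL m) x y →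
      (x < m ∨ y < m) → (t x - μ • 1) * (t y - μ • 1) = 0 := by
  have hlf : ∀ u : ℤ → Module.End K V, lf u m m = u := by
    intro u
    funext x
    unfold lf
    split_ifs with h
    · rw [h]
    · rfl
  have subm : Set.Icc 0 m ⊆ Set.Icc 0 N := fun x hx => ⟨hx.1, hx.2.trans hN⟩
  have hsys : ASys hum (Set.Icc 0 m) t := by
    have h := lf_sys hm hS (y := m) ⟨le_rfl, hN⟩
    rwa [hlf] at h
  have hedge := edge_neT hm (Or.inl rfl) (fun x hx => hinj x (subm hx)) hsys hnf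
  have hnf' : ∀ x : ℤ, 1 ≤ x → x + 1 ≤ m → t x ≠ t (x + 1) := by
    intro x h1 h2
    refine hedge x ⟨by omega, by omega⟩ (x + 1) ⟨by omega, by omega⟩ ?_
    unfold hum
    omega
  obtain ⟨μ, hμ, hμ1, hμ2⟩ := exists_muL hm hN hinj hS hirr hnf' hQ
  have hμi : μ⁻¹ ≠ 0 := inv_ne_zero hμ
  set σ : ℤ → Module.End K V := fun x => μ⁻¹ • t x with hσ
  have hSσ : ASys (humL m) (Set.Icc 0 N) σ := lq_smul hS μ⁻¹
  have hσinj : ∀ x ∈ Set.Icc 0 N, Function.Injective (σ x) := by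
    intro x hx v w h
    have h' : μ⁻¹ • t x v = μ⁻¹ • t x w := h
    exact hinj x hx (smul_right_injective V hμi h')
  have hσsurj : ∀ x ∈ Set.Icc 0 N, Function.Surjective (σ x) := fun x hx =>
    LinearMap.injective_iff_surjective.1 (hσinj x hx)
  have hirrσ : ∀ W : Submodule K V, (∀ x ∈ Set.Icc 0 N, ∀ w ∈ W, σ x w ∈ W) →
      W = ⊥ ∨ W = ⊤ := by
    intro W hW
    refine hirr W fun x hx w hw => ?_
    have h := W.smul_mem μ (hW x hx w hw)
    have h' : μ • (σ x w) = t x w := by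
      show μ • (μ⁻¹ • t x w) = t x w
      rw [smul_smul, mul_inv_cancel₀ hμ, one_smul]
    rwa [h'] at h
  have hne : ∀ x y, t x ≠ t y → σ x ≠ σ y := by
    intro x y hxy h
    refine hxy ?_
    have h' : μ⁻¹ • t x = μ⁻¹ • t y := h
    ext w
    have h2 : μ⁻¹ • t x w = μ⁻¹ • t y w := LinearMap.congr_fun h' w
    exact smul_right_injective V hμi h2
  have hdiff : ∀ a : ℤ, ∀ D : V, t a D = μ • D → (σ a - 1) D = 0 := by
    intro a D h
    show μ⁻¹ • t a D - D = 0
    rw [h, smul_smul, inv_mul_cancel₀ hμ, one_smul, sub_self]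
  have hprod : ∀ a u v : ℤ, (∀ w, t a (t u w - t v w) = μ • (t u w - t v w)) →
      (σ a - 1) * (σ u - σ v) = 0 := by
    intro a u v h
    ext w
    have h1 : (σ u - σ v) w = μ⁻¹ • (t u w - t v w) := by
      show μ⁻¹ • t u w - μ⁻¹ • t v w = _
      rw [smul_sub]
    show (σ a - 1) ((σ u - σ v) w) = 0
    rw [h1, map_smul, hdiff a _ (h w), smul_zero]
  have hc1 : ∀ u ∈ Set.Icc 0 N, ∀ v ∈ Set.Icc 0 N, u ≠ 1 → u ≠ 2 → v ≠ 1 → v ≠ 2 →
      (σ 1 - 1) * (σ u - σ v) = 0 := by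
    intro u hu v hv h1 h2 h3 h4
    exact hprod 1 u v (hμ1 u hu v hv h1 h2 h3 h4)
  have hcorner : (σ 1 - 1) * (σ m - 1) = 0 := by
    refine cornerL hm hN hSσ hirrσ (fun x h1 h2 => hne _ _ (hnf' x h1 h2)) hc1 ?_
    intro u hu v hv h1 h2
    exact hprod m u v (hμ2 u hu v hv h1 h2)
  -- the trees `lf σ m y`
  have htree : ∀ y ∈ Set.Icc m N, ∀ x ∈ Set.Icc 0 m, ∀ z ∈ Set.Icc 0 m, Far hum x z →
      (lf σ m y x - 1) * (lf σ m y z - 1) = 0 := by
    intro y hy
    have hy1 := hy.1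
    have hy2 := hy.2
    have hmm : m ∈ Set.Icc 0 N := ⟨by omega, hN⟩
    have hyN : y ∈ Set.Icc 0 N := ⟨by omega, hy2⟩
    refine far_pairsT hm (Or.inl rfl) ?_ (lf_sys hm hSσ hy) ?_
    · intro x hx
      unfold lf
      split_ifs with h
      · exact hσsurj y hyN
      · exact hσsurj x (subm hx)
    · have e1 : lf σ m y 1 = σ 1 := by
        unfold lf
        rw [if_neg (by omega)]
      have e2 : lf σ m y m = σ y := by
        unfold lf
        rw [if_pos rfl]
      rw [e1, e2]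
      have h := hc1 y hyN m hmm (by omega) (by omega) (by omega) (by omega)
      have e : σ y - 1 = (σ y - σ m) + (σ m - 1) := by abel
      rw [e, mul_add, h, hcorner, add_zero]
  have hfarσ : ∀ x ∈ Set.Icc 0 N, ∀ y ∈ Set.Icc 0 N, Far (humL m) x y →
      (x < m ∨ y < m) → (σ x - 1) * (σ y - 1) = 0 := by
    intro x hx y hy hf hlt
    rw [Set.mem_Icc] at hx hy
    have hmN' : m ∈ Set.Icc m N := ⟨le_rfl, hN⟩
    by_cases hxm : x < m
    · have ex : ∀ z, lf σ m z x = σ x := by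
        intro z
        unfold lf
        rw [if_neg (by omega)]
      by_cases hym : y < m
      · have h := htree m hmN' x ⟨hx.1, hxm.le⟩ y ⟨hy.1, hym.le⟩
          (by unfold Far hum; unfold Far humL at hf; omega)
        rwa [hlf] at h
      · have h := htree y ⟨by omega, hy.2⟩ x ⟨hx.1, hxm.le⟩ m ⟨by omega, le_rfl⟩
          (by unfold Far hum; unfold Far humL at hf; omega)
        have ey : lf σ m y m = σ y := by
          unfold lf
          rw [if_pos rfl]
        rwa [ex, ey] at h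
    · have hym : y < m := by omega
      have h := htree x ⟨by omega, hx.2⟩ m ⟨by omega, le_rfl⟩ y ⟨hy.1, hym.le⟩
        (by unfold Far hum; unfold Far humL at hf; omega)
      have e1 : lf σ m x m = σ x := by
        unfold lf
        rw [if_pos rfl]
      have e2 : lf σ m x y = σ y := by
        unfold lf
        rw [if_neg (by omega)]
      rwa [e1, e2] at h
  refine ⟨μ, hμ, ?_⟩
  intro x hx y hy hf hlt
  have e : ∀ z, t z - μ • (1 : Module.End K V) = μ • (σ z - 1) := by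
    intro z
    show t z - μ • (1 : Module.End K V) = μ • (μ⁻¹ • t z - 1)
    rw [smul_sub, smul_smul, mul_inv_cancel₀ hμ, one_smul]
  rw [e, e, smul_mul_smul_comm, hfarσ x hx y hy hf hlt, smul_zero]

end Pool.Agent.Art
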