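import Pool.Agent.Lib.Art.Crossed

/-! # Chains: the standard representation of the braid group -/

namespace Pool.Agent.Art

variable {K V : Type*} [Field K] [AddCommGroup V] [Module K V]
variable {s : ℤ → Module.End K V} {m : ℤ}

/-- the vectors `v (n + 1)` -/
def wS (s : ℤ → Module.End K V) (v1 : V) : ℕ → V
  | 0 => v1
  | n + 1 => s ((n : ℤ) + 2) (wS s v1 n)

theorem std_fix (hS : ASys hum (Set.Icc 1 m) s) {v1 : V}
    (f1 : ∀ k, 3 ≤ k → k ≤ m → s k v1 = v1)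
    (f2 : ∀ k, 1 ≤ k → k ≤ m → k ≠ 2 → k ≠ 3 → s k (s 2 v1) = s 2 v1) :
    ∀ n : ℕ, (n : ℤ) + 1 ≤ m → ∀ k, 1 ≤ k → k ≤ m → k ≠ (n : ℤ) + 1 → k ≠ (n : ℤ) + 2 →
      s k (wS s v1 n) = wS s v1 n := by
  intro n
  induction n using Nat.strong_induction_on with
  | _ n ih =>
    intro hn k hk hkm h1 h2
    match n, ih, hn, h1, h2 with
    | 0, _, _, h1, h2 =>
      push_cast at h1 h2
      exact f1 k (by omega) hkm
    | 1, _, _, h1, h2 =>
      push_cast at h1 h2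
      have e : wS s v1 1 = s 2 v1 := by
        show s (((0 : ℕ) : ℤ) + 2) v1 = s 2 v1
        norm_num
      rw [e]
      exact f2 k hk hkm (by omega) (by omega)
    | n + 2, ih, hn, h1, h2 =>
      push_cast at hn h1 h2
      have e2 : wS s v1 (n + 2) = s ((n : ℤ) + 3) (wS s v1 (n + 1)) := by
        have e0 : (((n + 1 : ℕ) : ℤ) + 2) = (n : ℤ) + 3 := by push_cast; ring
        show s (((n + 1 : ℕ) : ℤ) + 2) (wS s v1 (n + 1)) = _
        rw [e0]
      have e1 : wS s v1 (n + 1) = s ((n : ℤ) + 2) (wS s v1 n) := rfl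
      have i0 := ih n (by omega) (by omega)
      have i1 := ih (n + 1) (by omega) (by push_cast; omega)
      push_cast at i1
      rw [e2]
      by_cases hk2 : k = (n : ℤ) + 2
      · subst hk2
        have b := hS.braid ((n : ℤ) + 2) ⟨by omega, by omega⟩ ((n : ℤ) + 2 + 1)
          ⟨by omega, by omega⟩ (hum_chain (by omega))
        have e : (n : ℤ) + 2 + 1 = n + 3 := by ring
        rw [e] at b
        have b' := LinearMap.congr_fun b (wS s v1 n)
        simp only [Module.End.mul_apply] at b'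
        rw [e1, b', i0 ((n : ℤ) + 3) (by omega) (by omega) (by omega) (by omega)]
      · have c := hS.comm k ⟨hk, hkm⟩ ((n : ℤ) + 3) ⟨by omega, by omega⟩
          (far_chain hk (by omega) (by omega))
        have c' := LinearMap.congr_fun c (wS s v1 (n + 1))
        simp only [Module.End.mul_apply] at c'
        rw [c', i1 k hk hkm (by omega) (by omega)]

theorem std_sq (hS : ASys hum (Set.Icc 1 m) s) {v1 : V} {τ : K}
    (h2 : s 2 (s 2 v1) = τ • v1)
    (f1 : ∀ k, 3 ≤ k → k ≤ m → s k v1 = v1)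
    (f2 : ∀ k, 1 ≤ k → k ≤ m → k ≠ 2 → k ≠ 3 → s k (s 2 v1) = s 2 v1) :
    ∀ n : ℕ, (n : ℤ) + 2 ≤ m →
      s ((n : ℤ) + 2) (s ((n : ℤ) + 2) (wS s v1 n)) = τ • wS s v1 n := by
  intro n
  induction n with
  | zero =>
    intro _
    show s (((0 : ℕ) : ℤ) + 2) (s (((0 : ℕ) : ℤ) + 2) v1) = τ • v1
    norm_num
    exact h2
  | succ n ih =>
    intro hn
    push_cast at hn ⊢
    have i := ih (by omega)
    have f := std_fix hS f1 f2 n (by omega) ((n : ℤ) + 3) (by omega) (by omega) (by omega)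
      (by omega)
    have b := hS.braid ((n : ℤ) + 2) ⟨by omega, by omega⟩ ((n : ℤ) + 2 + 1)
      ⟨by omega, by omega⟩ (hum_chain (by omega))
    have e : (n : ℤ) + 2 + 1 = n + 3 := by ring
    rw [e] at b
    have e3 : (n : ℤ) + 1 + 2 = n + 3 := by ring
    rw [e3]
    have e1 : wS s v1 (n + 1) = s ((n : ℤ) + 2) (wS s v1 n) := rfl
    have hb : ∀ z, s ((n : ℤ) + 2) (s ((n : ℤ) + 3) (s ((n : ℤ) + 2) z)) =
        s ((n : ℤ) + 3) (s ((n : ℤ) + 2) (s ((n : ℤ) + 3) z)) := fun z => by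
      have := LinearMap.congr_fun b z
      simpa only [Module.End.mul_apply] using this
    rw [e1]
    calc s ((n : ℤ) + 3) (s ((n : ℤ) + 3) (s ((n : ℤ) + 2) (wS s v1 n)))
        = s ((n : ℤ) + 3) (s ((n : ℤ) + 3) (s ((n : ℤ) + 2) (s ((n : ℤ) + 3) (wS s v1 n)))) := by
          rw [f]
      _ = s ((n : ℤ) + 3) (s ((n : ℤ) + 2) (s ((n : ℤ) + 3) (s ((n : ℤ) + 2) (wS s v1 n)))) := by
          rw [← hb (wS s v1 n)]
      _ = s ((n : ℤ) + 2) (s ((n : ℤ) + 3) (s ((n : ℤ) + 2) (s ((n : ℤ) + 2) (wS s v1 n)))) := by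
          rw [hb (s ((n : ℤ) + 2) (wS s v1 n))]
      _ = τ • s ((n : ℤ) + 2) (wS s v1 n) := by
          rw [i, map_smul, map_smul, f]

/-- the whole sequence -/
theorem std_seq (hm : 3 ≤ m) (hS : ASys hum (Set.Icc 1 m) s) {v1 : V} {τ : K} (hτ : τ ≠ 0)
    (h2 : s 2 (s 2 v1) = τ • v1)
    (f1 : ∀ k, 3 ≤ k → k ≤ m → s k v1 = v1)
    (f2 : ∀ k, 1 ≤ k → k ≤ m → k ≠ 2 → k ≠ 3 → s k (s 2 v1) = s 2 v1) :
    ∃ v : ℤ → V, v 1 = v1 ∧
      (∀ j, 1 ≤ j → j ≤ m → s j (v (j - 1)) = v j ∧ s j (v j) = τ • v (j - 1)) ∧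
      ∀ j k, 0 ≤ j → j ≤ m → 1 ≤ k → k ≤ m → k ≠ j → k ≠ j + 1 → s k (v j) = v j := by
  have b12 := hS.braid 1 ⟨by omega, by omega⟩ 2 ⟨by omega, by omega⟩ (Or.inl ⟨by omega, by omega⟩)
  have hb : ∀ z, s 1 (s 2 (s 1 z)) = s 2 (s 1 (s 2 z)) := fun z => by
    have := LinearMap.congr_fun b12 z
    simpa only [Module.End.mul_apply] using this
  have f12 : s 1 (s 2 v1) = s 2 v1 := f2 1 (by omega) (by omega) (by omega) (by omega)
  -- `s 1` has the same square on `v1`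
  have h1 : s 1 (s 1 v1) = τ • v1 := by
    have e : τ • s 1 (s 1 v1) = τ • (τ • v1) := by
      calc τ • s 1 (s 1 v1) = s 1 (s 1 (τ • v1)) := by rw [map_smul, map_smul]
        _ = s 1 (s 1 (s 2 (s 1 (s 2 v1)))) := by rw [f12, h2]
        _ = s 1 (s 2 (s 1 (s 2 (s 2 v1)))) := by rw [← hb (s 2 v1)]
        _ = s 2 (s 1 (s 2 (s 2 (s 2 v1)))) := by rw [hb]
        _ = s 2 (s 1 (τ • s 2 v1)) := by rw [h2, map_smul]
        _ = τ • (τ • v1) := by rw [map_smul, map_smul, f12, h2]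
    exact smul_right_injective V hτ e
  -- `s 2` fixes `s 1 v1`
  have g2 : s 2 (s 1 v1) = s 1 v1 := by
    have e : τ • s 2 (s 1 v1) = τ • s 1 v1 := by
      calc τ • s 2 (s 1 v1) = s 2 (s 1 (s 2 (s 2 v1))) := by rw [h2, map_smul, map_smul]
        _ = s 1 (s 2 (s 1 (s 2 v1))) := by rw [hb]
        _ = τ • s 1 v1 := by rw [f12, h2, map_smul]
    exact smul_right_injective V hτ e
  have fix := std_fix hS f1 f2
  have sq := std_sq hS h2 f1 f2
  refine ⟨fun x => if x ≤ 0 then τ⁻¹ • s 1 v1 else wS s v1 (x - 1).toNat, ?_, ?_, ?_⟩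
  · show (if (1 : ℤ) ≤ 0 then τ⁻¹ • s 1 v1 else wS s v1 ((1 : ℤ) - 1).toNat) = v1
    rw [if_neg (by omega)]
    rfl
  · intro j hj hjm
    by_cases hj1 : j = 1
    · subst hj1
      have ea : (fun x : ℤ => if x ≤ 0 then τ⁻¹ • s 1 v1 else wS s v1 (x - 1).toNat) (1 - 1) =
          τ⁻¹ • s 1 v1 := if_pos (by omega)
      have eb : (fun x : ℤ => if x ≤ 0 then τ⁻¹ • s 1 v1 else wS s v1 (x - 1).toNat) 1 = v1 :=
        if_neg (by omega)
      rw [ea, eb]
      constructor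
      · rw [map_smul, h1, smul_smul, inv_mul_cancel₀ hτ, one_smul]
      · rw [smul_smul, mul_inv_cancel₀ hτ, one_smul]
    · obtain ⟨n, hn⟩ : ∃ n : ℕ, j = (n : ℤ) + 2 := ⟨(j - 2).toNat, by omega⟩
      subst hn
      have ea : (fun x : ℤ => if x ≤ 0 then τ⁻¹ • s 1 v1 else wS s v1 (x - 1).toNat)
          ((n : ℤ) + 2 - 1) = wS s v1 n := by
        have e : ((n : ℤ) + 2 - 1 - 1).toNat = n := by omega
        show (if (n : ℤ) + 2 - 1 ≤ 0 then _ else wS s v1 ((n : ℤ) + 2 - 1 - 1).toNat) = _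
        rw [if_neg (by omega), e]
      have eb : (fun x : ℤ => if x ≤ 0 then τ⁻¹ • s 1 v1 else wS s v1 (x - 1).toNat)
          ((n : ℤ) + 2) = wS s v1 (n + 1) := by
        have e : ((n : ℤ) + 2 - 1).toNat = n + 1 := by omega
        show (if (n : ℤ) + 2 ≤ 0 then _ else wS s v1 ((n : ℤ) + 2 - 1).toNat) = _
        rw [if_neg (by omega), e]
      rw [ea, eb]
      exact ⟨rfl, sq n hjm⟩
  · intro j k hj hjm hk hkm h3 h4
    by_cases hj0 : j = 0
    · subst hj0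
      have ea : (fun x : ℤ => if x ≤ 0 then τ⁻¹ • s 1 v1 else wS s v1 (x - 1).toNat) 0 =
          τ⁻¹ • s 1 v1 := if_pos (by omega)
      rw [ea, map_smul]
      congr 1
      by_cases hk2 : k = 2
      · rw [hk2]
        exact g2
      · have c := hS.comm k ⟨hk, hkm⟩ 1 ⟨by omega, by omega⟩
          (far_chain hk (by omega) (by omega))
        have c' := LinearMap.congr_fun c v1
        simp only [Module.End.mul_apply] at c'
        rw [c', f1 k (by omega) hkm]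
    · obtain ⟨n, hn⟩ : ∃ n : ℕ, j = (n : ℤ) + 1 := ⟨(j - 1).toNat, by omega⟩
      subst hn
      have ea : (fun x : ℤ => if x ≤ 0 then τ⁻¹ • s 1 v1 else wS s v1 (x - 1).toNat)
          ((n : ℤ) + 1) = wS s v1 n := by
        have e : ((n : ℤ) + 1 - 1).toNat = n := by omega
        show (if (n : ℤ) + 1 ≤ 0 then _ else wS s v1 ((n : ℤ) + 1 - 1).toNat) = _
        rw [if_neg (by omega), e]
      rw [ea]
      exact fix n hjm k hk hkm (by omega) (by omega)

end Pool.Agent.Art
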