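import Pool.Agent.Lib.Art.Defs

/-! # The vectors (page mcg70, section 5): compare HypLow/VecA -/

namespace Pool.Agent.Art

variable {K V : Type*} [Field K] [AddCommGroup V] [Module K V]

/-- the matrix of the tree: `A x (e y) = - M x y • e x` -/
noncomputable def hmat (K : Type*) [Field K] (q : K) (x y : ℤ) : K := by
  classical
  exact if x = y then 1 + q
    else if (1 ≤ x ∧ y = x + 1) ∨ (x = 0 ∧ y = 4) then 1
    else if (1 ≤ y ∧ x = y + 1) ∨ (x = 4 ∧ y = 0) then q
    else 0

/-- the next vertex on the way to the end of the tree -/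
def par (x : ℤ) : ℤ := if x = 0 then 4 else x + 1

theorem par_spec (x : ℤ) : (x = 0 ∧ par x = 4) ∨ (x ≠ 0 ∧ par x = x + 1) := by
  unfold par
  split_ifs with h
  · exact Or.inl ⟨h, rfl⟩
  · exact Or.inr ⟨h, rfl⟩

theorem par_mem {m : ℤ} (hm : 11 ≤ m) {x : ℤ} (hx : x ∈ Set.Icc 0 m) (hne : x ≠ m) :
    par x ∈ Set.Icc 0 m := by
  obtain ⟨h0, h1⟩ := hx
  rcases par_spec x with ⟨h2, h3⟩ | ⟨h2, h3⟩
  · rw [h3]
    constructor <;> omega
  · rw [h3]
    constructor <;> omega

theorem lt_par (x : ℤ) : x < par x := by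
  rcases par_spec x with ⟨h2, h3⟩ | ⟨h2, h3⟩ <;> omega

theorem hum_par {m : ℤ} {x : ℤ} (hx : x ∈ Set.Icc 0 m) : hum x (par x) := by
  obtain ⟨h0, h1⟩ := hx
  unfold hum
  rcases par_spec x with ⟨h2, h3⟩ | ⟨h2, h3⟩ <;> omega

theorem cases_par {m : ℤ} {x y : ℤ} (hx : x ∈ Set.Icc 0 m) (hy : y ∈ Set.Icc 0 m) :
    x = y ∨ (y = par x ∧ x ≠ m) ∨ (x = par y ∧ y ≠ m) ∨ Far hum x y := by
  obtain ⟨h0, h1⟩ := hx
  obtain ⟨h0', h1'⟩ := hy
  unfold Far hum
  rcases par_spec x with ⟨h2, h3⟩ | ⟨h2, h3⟩ <;> rcases par_spec y with ⟨h4, h5⟩ | ⟨h4, h5⟩ <;>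
    rw [h3, h5] <;> omega

/-- induction along the tree, from the end -/
theorem tree_ind {m : ℤ} (hm : 11 ≤ m) (P : ℤ → Prop) (h0 : P m)
    (h : ∀ x ∈ Set.Icc 0 m, x ≠ m → P (par x) → P x) : ∀ x ∈ Set.Icc 0 m, P x := by
  have key : ∀ N : ℕ, ∀ x ∈ Set.Icc 0 m, (m - x).toNat = N → P x := by
    intro N
    induction N using Nat.strong_induction_on with
    | _ N ih =>
      intro x hx hN
      by_cases hxm : x = m
      · rw [hxm]
        exact h0
      · have h1 := lt_par x
        have h2 := par_mem hm hx hxm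
        have h3 := h2.2
        exact h x hx hxm (ih (m - par x).toNat (by omega) _ h2 rfl)
  exact fun x hx => key _ x hx rfl

open Classical in
/-- the vectors, as an iteration of length `k` -/
noncomputable def vecsT (m : ℤ) (A : ℤ → Module.End K V) (v : V) : ℕ → ℤ → V
  | 0, _ => v
  | k + 1, x => if x = m then v else - A x (vecsT m A v k (par x))

theorem vecsT_succ {m : ℤ} (hm : 11 ≤ m) (A : ℤ → Module.End K V) (v : V) (k : ℕ) :
    ∀ x ∈ Set.Icc 0 m, m - x ≤ k → vecsT m A v (k + 1) x = vecsT m A v k x := by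
  induction k with
  | zero =>
    intro x hx hk
    have hxu : x = m := by
      have := hx.2
      push_cast at hk
      omega
    simp [vecsT, hxu]
  | succ k ih =>
    intro x hx hk
    by_cases hxu : x = m
    · simp [vecsT, hxu]
    · have h1 := lt_par x
      have h3 := ih _ (par_mem hm hx hxu) (by push_cast at hk; omega)
      rw [vecsT, if_neg hxu, h3, vecsT, if_neg hxu]

/-- there are vectors with `e m = v` and `e x = - A x (e (par x))` -/
theorem exists_vecsT {m : ℤ} (hm : 11 ≤ m) (A : ℤ → Module.End K V) (v : V) :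
    ∃ e : ℤ → V, e m = v ∧ ∀ x ∈ Set.Icc 0 m, x ≠ m → e x = - A x (e (par x)) := by
  refine ⟨fun x => vecsT m A v m.toNat x, ?_, ?_⟩
  · cases h : m.toNat <;> simp [vecsT]
  · intro x hx hne
    have h1 := lt_par x
    have h2 := par_mem hm hx hne
    obtain ⟨k, hk⟩ : ∃ k, m.toNat = k + 1 := ⟨m.toNat - 1, by omega⟩
    have h0 := hx.1
    simp only [hk]
    rw [vecsT_succ hm A v k (par x) h2 (by omega), vecsT, if_neg hne]

theorem exists_vecT [IsAlgClosed K] [FiniteDimensional K V] {m : ℤ} (hm : 11 ≤ m)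
    {A : ℤ → Module.End K V}
    (hinj : ∀ x ∈ Set.Icc 0 m, Function.Injective ⇑(A x + 1 : Module.End K V))
    (hirr : ∀ W : Submodule K V, (∀ x ∈ Set.Icc 0 m, ∀ w ∈ W, A x w ∈ W) → W = ⊥ ∨ W = ⊤)
    (hne : ∃ x ∈ Set.Icc 0 m, A x ≠ 0)
    (h1 : ∀ x ∈ Set.Icc 0 m, ∀ y ∈ Set.Icc 0 m, Far hum x y → A x * A y = 0)
    (h2 : ∀ x ∈ Set.Icc 0 m, ∀ y ∈ Set.Icc 0 m, hum x y → A x * A y * A x = - A x - A x * A x) :
    ∃ (q : K) (e : ℤ → V), q ≠ 0 ∧ (∀ x ∈ Set.Icc 0 m, e x ≠ 0) ∧
      Submodule.span K (e '' Set.Icc 0 m) = ⊤ ∧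
      ∀ x ∈ Set.Icc 0 m, ∀ y ∈ Set.Icc 0 m, A x (e y) = - (hmat K q x y • e x) := by
  have hu : m ∈ Set.Icc 0 m := ⟨by omega, le_refl _⟩
  -- no `A x` is zero
  have hz : ∀ x ∈ Set.Icc 0 m, A x ≠ 0 := by
    have step : ∀ x ∈ Set.Icc 0 m, ∀ y ∈ Set.Icc 0 m, hum x y → A x = 0 → A y = 0 := by
      intro x hx y hy hxy h0
      have h3 := h2 y hy x hx (hum_symm _ _ hxy)
      rw [h0, mul_zero, zero_mul] at h3
      ext v
      apply hinj y hy
      have h4 := congrArg (fun f : Module.End K V => f v) h3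
      simp only [LinearMap.zero_apply, LinearMap.sub_apply, LinearMap.neg_apply,
        Module.End.mul_apply] at h4
      simp only [LinearMap.add_apply, Module.End.one_apply, LinearMap.zero_apply, map_zero]
      have h5 : A y (A y v) + A y v = -(-(A y v) - A y (A y v)) := by abel
      rw [h5, ← h4, neg_zero]
    have hc : ∀ x ∈ Set.Icc 0 m, (A x = 0 ↔ A m = 0) := by
      refine tree_ind hm (fun x => (A x = 0 ↔ A m = 0)) Iff.rfl ?_
      intro x hx hxm ih
      have hp := par_mem hm hx hxm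
      exact Iff.trans ⟨step x hx _ hp (hum_par hx), step _ hp x hx (hum_symm _ _ (hum_par hx))⟩ ih
    obtain ⟨x, hx, h0⟩ := hne
    intro y hy hy0
    exact h0 ((hc x hx).mpr ((hc y hy).mp hy0))
  -- the eigenvector
  obtain ⟨a, v0, m0, ma, w, hw⟩ : ∃ (a : K) (v : V), v ≠ 0 ∧ A m v = a • v ∧ ∃ w, v = A m w := by
    have hr : ∀ v ∈ LinearMap.range (A m), A m v ∈ LinearMap.range (A m) := fun v _ => ⟨v, rfl⟩
    have hnt : Nontrivial (LinearMap.range (A m)) := by
      rw [Submodule.nontrivial_iff_ne_bot]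
      intro h0
      exact hz m hu (LinearMap.range_eq_bot.mp h0)
    obtain ⟨a, ha⟩ := Module.End.exists_eigenvalue ((A m).restrict hr)
    obtain ⟨v, hv⟩ := ha.exists_hasEigenvector
    refine ⟨a, v, fun h => hv.2 (Subtype.ext h), ?_, ?_⟩
    · have := hv.apply_eq_smul
      have h5 := congrArg Subtype.val this
      simpa using h5
    · obtain ⟨w, hw⟩ := v.2
      exact ⟨w, hw.symm⟩
  obtain ⟨e, e0, e1⟩ := exists_vecsT hm A v0
  have him : ∀ x ∈ Set.Icc 0 m, ∃ w, e x = A x w := by
    intro x hx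
    by_cases hxu : x = m
    · subst hxu
      exact ⟨w, e0.trans hw⟩
    · exact ⟨- e (par x), by rw [e1 x hx hxu, map_neg]⟩
  -- the relations
  have up' : ∀ x ∈ Set.Icc 0 m, x ≠ m → A x (e (par x)) = - e x := by
    intro x hx hxm
    rw [e1 x hx hxm, neg_neg]
  have h3 : ∀ x ∈ Set.Icc 0 m, ∀ y ∈ Set.Icc 0 m, hum x y →
      A x * A x * A y = A x * A y * A y := by
    intro x hx y hy h
    have h5 := congrArg (fun f => f * A y) (h2 x hx y hy h)
    have h6 := congrArg (fun f => A x * f) (h2 y hy x hx (hum_symm _ _ h))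
    have h7 : A x * A x * A y = - (A x * A y * A x * A y) - A x * A y := by
      rw [h5]
      noncomm_ring
    have h8 : A x * A y * A y = - (A x * (A y * A x * A y)) - A x * A y := by
      rw [h6]
      noncomm_ring
    rw [h7, h8]
    noncomm_ring
  have self' : ∀ x ∈ Set.Icc 0 m, A x (e x) = a • e x := by
    refine tree_ind hm (fun x => A x (e x) = a • e x) (by simp only [e0, ma]) ?_
    intro x hx hxm ih
    have hzB := par_mem hm hx hxm
    obtain ⟨w', hw'⟩ := him _ hzB
    have h6 := congrArg (fun f : Module.End K V => f w') (h3 x hx _ hzB (hum_par hx))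
    simp only [Module.End.mul_apply] at h6
    rw [← hw', ih, up' x hx hxm, map_neg, map_smul, up' x hx hxm, smul_neg, neg_inj] at h6
    exact h6
  have down : ∀ x ∈ Set.Icc 0 m, x ≠ m → A (par x) (e x) = (1 + a) • e (par x) := by
    intro x hx hxm
    have hy := par_mem hm hx hxm
    obtain ⟨w', hw'⟩ := him _ hy
    have h6 := congrArg (fun f : Module.End K V => f w')
      (h2 _ hy x hx (hum_symm _ _ (hum_par hx)))
    simp only [LinearMap.neg_apply, LinearMap.sub_apply, Module.End.mul_apply] at h6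
    rw [← hw', up' x hx hxm, map_neg, self' _ hy] at h6
    rw [add_smul, one_smul]
    have h7 : A (par x) (e x) = - (- (A (par x) (e x))) := (neg_neg _).symm
    rw [h7, h6]
    abel
  have far : ∀ x ∈ Set.Icc 0 m, ∀ y ∈ Set.Icc 0 m, Far hum x y → A x (e y) = 0 := by
    intro x hx y hy h
    obtain ⟨w', hw'⟩ := him y hy
    have h6 := congrArg (fun f : Module.End K V => f w') (h1 x hx y hy h)
    simp only [LinearMap.zero_apply, Module.End.mul_apply] at h6
    rw [hw', h6]
  have span : Submodule.span K (e '' Set.Icc 0 m) = ⊤ := by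
    refine (hirr _ ?_).resolve_left ?_
    · intro x hx v hv
      induction hv using Submodule.span_induction with
      | mem v hv =>
        obtain ⟨y, hy, rfl⟩ := hv
        have hex : e x ∈ Submodule.span K (e '' Set.Icc 0 m) := Submodule.subset_span ⟨x, hx, rfl⟩
        rcases cases_par hx hy with rfl | ⟨h, h'⟩ | ⟨h, h'⟩ | h
        · rw [self' x hx]
          exact Submodule.smul_mem _ _ hex
        · rw [h, up' x hx h']
          exact Submodule.neg_mem _ hex
        · have h5 := down y hy h'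
          rw [← h] at h5
          rw [h5]
          exact Submodule.smul_mem _ _ hex
        · rw [far x hx y hy h]
          exact Submodule.zero_mem _
      | zero =>
        rw [map_zero]
        exact Submodule.zero_mem _
      | add v v' _ _ h h' =>
        rw [map_add]
        exact Submodule.add_mem _ h h'
      | smul c v _ h =>
        rw [map_smul]
        exact Submodule.smul_mem _ _ h
    · intro h0
      have : v0 ∈ Submodule.span K (e '' Set.Icc 0 m) := Submodule.subset_span ⟨m, hu, e0⟩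
      rw [h0] at this
      exact m0 ((Submodule.mem_bot K).mp this)
  refine ⟨-(1 + a), e, ?_, ?_, span, ?_⟩
  · intro h0
    apply m0
    apply hinj m hu
    have h5 : (1 : K) + a = 0 := by
      rw [← neg_eq_zero]
      exact h0
    rw [LinearMap.add_apply, Module.End.one_apply, ma, map_zero]
    have h6 : a • v0 + v0 = (1 + a) • v0 := by
      rw [add_smul, one_smul]
      abel
    rw [h6, h5, zero_smul]
  · intro x hx h0
    apply hz x hx
    have : ∀ v ∈ Submodule.span K (e '' Set.Icc 0 m), A x v = 0 := by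
      intro v hv
      induction hv using Submodule.span_induction with
      | mem v hv =>
        obtain ⟨y, hy, rfl⟩ := hv
        rcases cases_par hx hy with rfl | ⟨h, h'⟩ | ⟨h, h'⟩ | h
        · rw [self' x hx, h0, smul_zero]
        · rw [h, up' x hx h', h0, neg_zero]
        · have h5 := down y hy h'
          rw [← h] at h5
          rw [h5, h0, smul_zero]
        · exact far x hx y hy h
      | zero => exact map_zero _
      | add v v' _ _ h h' => rw [map_add, h, h', add_zero]
      | smul c v _ h => rw [map_smul, h, smul_zero]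
    ext v
    rw [LinearMap.zero_apply]
    exact this v (by rw [span]; trivial)
  · intro x hx y hy
    have hx0 := hx.1
    have hy0 := hy.1
    rcases cases_par hx hy with h | ⟨h, h'⟩ | ⟨h, h'⟩ | h
    · subst h
      rw [self' x hx, hmat, if_pos rfl, ← neg_smul]
      congr 1
      ring
    · have h3 : x ≠ y := by
        have := lt_par x
        omega
      have h4 : (1 ≤ x ∧ y = x + 1) ∨ (x = 0 ∧ y = 4) := by
        rcases par_spec x with ⟨h5, h6⟩ | ⟨h5, h6⟩ <;> omega
      rw [hmat, if_neg h3, if_pos h4, one_smul, h, up' x hx h']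
    · have h3 : x ≠ y := by
        have := lt_par y
        omega
      have h4 : ¬ ((1 ≤ x ∧ y = x + 1) ∨ (x = 0 ∧ y = 4)) := by
        rcases par_spec y with ⟨h5, h6⟩ | ⟨h5, h6⟩ <;> omega
      have h5 : (1 ≤ y ∧ x = y + 1) ∨ (x = 4 ∧ y = 0) := by
        rcases par_spec y with ⟨h5, h6⟩ | ⟨h5, h6⟩ <;> omega
      have h6 := down y hy h'
      rw [← h] at h6
      rw [hmat, if_neg h3, if_neg h4, if_pos h5, h6, ← neg_smul, neg_neg]
    · have h3 := h.1
      have h6 := h.2
      unfold hum at h6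
      have h4 : ¬ ((1 ≤ x ∧ y = x + 1) ∨ (x = 0 ∧ y = 4)) := by
        intro h7
        apply h6
        tauto
      have h5 : ¬ ((1 ≤ y ∧ x = y + 1) ∨ (x = 4 ∧ y = 0)) := by
        intro h7
        apply h6
        tauto
      rw [hmat, if_neg h3, if_neg h4, if_neg h5, far x hx y hy h, zero_smul, neg_zero]

end Pool.Agent.Art
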