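import Pool.Agent.Lib.Art.APairs
import Pool.Agent.Lib.Art.ChainFour
import Pool.Agent.Lib.Art.ClawT
import Pool.Agent.Lib.Art.VecT
import Pool.Agent.Lib.Art.MuTB
import Pool.Agent.Lib.Art.RankTree

/-! # Irreducible systems on the tree (page mcg70, sections 5, 7) -/

namespace Pool.Agent.Art

universe v

variable {K : Type*} {V : Type v} [Field K] [IsAlgClosed K] [AddCommGroup V] [Module K V]
  [FiniteDimensional K V]

omit [IsAlgClosed K] [FiniteDimensional K V] in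
private theorem tm_smul {ι : Type*} {adj : ι → ι → Prop} {B : Set ι} {t : ι → Module.End K V}
    (hS : ASys adj B t) (c : K) : ASys adj B (fun x => c • t x) := by
  constructor
  · intro x hx y hy hf
    show (c • t x) * (c • t y) = (c • t y) * (c • t x)
    rw [smul_mul_smul_comm, smul_mul_smul_comm, hS.comm x hx y hy hf]
  · intro x hx y hy hf
    show (c • t x) * (c • t y) * (c • t x) = (c • t y) * (c • t x) * (c • t y)
    rw [smul_mul_smul_comm, smul_mul_smul_comm, smul_mul_smul_comm, smul_mul_smul_comm,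
      hS.braid x hx y hy hf]

/-- the tree from (Q) -/
theorem tree_of_qq {m : ℕ} (hmN : 11 ≤ m)
    {t : ℤ → Module.End K V} (hinj : ∀ x ∈ Set.Icc (0 : ℤ) m, Function.Injective (t x))
    (hS : ASys hum (Set.Icc (0 : ℤ) m) t)
    (hirr : ∀ W : Submodule K V, (∀ x ∈ Set.Icc (0 : ℤ) m, ∀ w ∈ W, t x w ∈ W) → W = ⊥ ∨ W = ⊤)
    (hnf : ∃ x ∈ Set.Icc (0 : ℤ) m, ∃ y ∈ Set.Icc (0 : ℤ) m, t x ≠ t y) (hQ : QQ t m) :
    ∃ (μ q : K) (e : ℤ → V), μ ≠ 0 ∧ q ≠ 0 ∧ m - 1 ≤ Module.finrank K V ∧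
      (∀ x ∈ Set.Icc (0 : ℤ) m, e x ≠ 0) ∧ Submodule.span K (e '' Set.Icc (0 : ℤ) m) = ⊤ ∧
      ∀ x ∈ Set.Icc (0 : ℤ) m, ∀ y ∈ Set.Icc (0 : ℤ) m,
        t x (e y) = μ • (e y - hmat K q x y • e x) := by
  have hm : (11 : ℤ) ≤ m := by omega
  have hsub1 : Set.Icc (1 : ℤ) m ⊆ Set.Icc (0 : ℤ) m := fun x hx => ⟨by have := hx.1; omega, hx.2⟩
  have hsurj : ∀ x ∈ Set.Icc (0 : ℤ) m, Function.Surjective (t x) := fun x hx =>
    LinearMap.injective_iff_surjective.1 (hinj x hx)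
  have hedge := edge_neT hm (Or.inl rfl) hinj hS hnf
  have hnf' : ∀ x : ℤ, 1 ≤ x → x + 1 ≤ m → t x ≠ t (x + 1) := by
    intro x h1 h2
    refine hedge x ⟨by omega, by omega⟩ (x + 1) ⟨by omega, by omega⟩ ?_
    unfold hum
    omega
  -- the scalar
  obtain ⟨μ, hμ, hμ1, hμ2⟩ := exists_muT hm (Or.inl rfl) hinj hS hirr hnf' hQ
  have hμi : μ⁻¹ ≠ 0 := inv_ne_zero hμ
  set σ : ℤ → Module.End K V := fun x => μ⁻¹ • t x with hσ
  have hSσ : ASys hum (Set.Icc (0 : ℤ) m) σ := tm_smul hS μ⁻¹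
  have hσinj : ∀ x ∈ Set.Icc (0 : ℤ) m, Function.Injective (σ x) := by
    intro x hx v w h
    have h' : μ⁻¹ • t x v = μ⁻¹ • t x w := h
    exact hinj x hx (smul_right_injective V hμi h')
  have hσsurj : ∀ x ∈ Set.Icc (0 : ℤ) m, Function.Surjective (σ x) := fun x hx =>
    LinearMap.injective_iff_surjective.1 (hσinj x hx)
  have hirrσ : ∀ W : Submodule K V, (∀ x ∈ Set.Icc (0 : ℤ) m, ∀ w ∈ W, σ x w ∈ W) →
      W = ⊥ ∨ W = ⊤ := by
    intro W hW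
    refine hirr W fun x hx w hw => ?_
    have h := W.smul_mem μ (hW x hx w hw)
    have h' : μ • (σ x w) = t x w := by
      show μ • (μ⁻¹ • t x w) = t x w
      rw [smul_smul, mul_inv_cancel₀ hμ, one_smul]
    rwa [h'] at h
  have hne : ∀ x y, t x ≠ t y → σ x ≠ σ y := by
    intro x y hxy h
    refine hxy ?_
    have h' : μ⁻¹ • t x = μ⁻¹ • t y := h
    ext w
    have h2 : μ⁻¹ • t x w = μ⁻¹ • t y w := LinearMap.congr_fun h' w
    exact smul_right_injective V hμi h2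
  have hdiff : ∀ a : ℤ, ∀ D : V, t a D = μ • D → (σ a - 1) D = 0 := by
    intro a D h
    show μ⁻¹ • t a D - D = 0
    rw [h, smul_smul, inv_mul_cancel₀ hμ, one_smul, sub_self]
  have hprod : ∀ a u v : ℤ, (∀ w, t a (t u w - t v w) = μ • (t u w - t v w)) →
      (σ a - 1) * (σ u - σ v) = 0 := by
    intro a u v h
    ext w
    have h1 : (σ u - σ v) w = μ⁻¹ • (t u w - t v w) := by
      show μ⁻¹ • t u w - μ⁻¹ • t v w = _
      rw [smul_sub]
    show (σ a - 1) ((σ u - σ v) w) = 0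
    rw [h1, map_smul, hdiff a _ (h w), smul_zero]
  have hcorner : (σ 1 - 1) * (σ m - 1) = 0 := by
    refine cornerT hm (Or.inl rfl) hSσ hirrσ (fun x h1 h2 => hne _ _ (hnf' x h1 h2)) ?_ ?_
    · intro u hu v hv h1 h2 h3 h4
      exact hprod 1 u v (hμ1 u hu v hv h1 h2 h3 h4)
    · intro u hu v hv h1 h2
      exact hprod m u v (hμ2 u hu v hv h1 h2)
  have hfar := far_pairsT hm (Or.inl rfl) hσsurj hSσ hcorner
  have hFine : Fine hum (Set.Icc (0 : ℤ) m) σ := by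
    refine ⟨hSσ, hσinj, hirrσ, ?_, hfar⟩
    obtain ⟨x, hx, y, hy, hxy⟩ := hnf
    exact ⟨x, hx, y, hy, hne _ _ hxy⟩
  have hA2 := rel2T hm hFine
  have hdim : (m : ℤ) - 1 ≤ (Module.finrank K V : ℤ) := by
    refine chain_dim (by omega) (fun x hx => hσinj x (hsub1 hx)) (hSσ.mono hsub1)
      (fun x h1 h2 => hne _ _ (hnf' x h1 h2)) ?_
    intro x hx y hy hxy
    exact hfar x (hsub1 hx) y (hsub1 hy) hxy
  obtain ⟨q, e, hq, he, hspan, hact⟩ := exists_vecT (A := fun x => σ x - 1) hm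
    (by
      intro x hx
      show Function.Injective ⇑((σ x - 1 : Module.End K V) + 1)
      rw [sub_add_cancel]
      exact hσinj x hx)
    (by
      intro W hW
      refine hirrσ W fun x hx w hw => ?_
      have h : σ x w = (σ x - 1 : Module.End K V) w + w := by
        show σ x w = σ x w - w + w
        rw [sub_add_cancel]
      rw [h]
      exact W.add_mem (hW x hx w hw) hw)
    (by
      obtain ⟨x, hx, y, hy, hxy⟩ := hFine.nf
      by_contra hcon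
      push Not at hcon
      exact hxy (by rw [sub_eq_zero.1 (hcon x hx), sub_eq_zero.1 (hcon y hy)]))
    hfar hA2
  refine ⟨μ, q, e, hμ, hq, by omega, he, hspan, ?_⟩
  intro x hx y hy
  have h1 : (σ x - 1 : Module.End K V) (e y) = - (hmat K q x y • e x) := hact x hx y hy
  have h2 : σ x (e y) = e y - hmat K q x y • e x := by
    have h3 : (σ x - 1 : Module.End K V) (e y) = σ x (e y) - e y := rfl
    rw [h3] at h1
    rw [sub_eq_iff_eq_add.1 h1]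
    abel
  have h4 : μ • (σ x (e y)) = t x (e y) := by
    show μ • (μ⁻¹ • t x (e y)) = t x (e y)
    rw [smul_smul, mul_inv_cancel₀ hμ, one_smul]
  rw [← h4, h2]

theorem tree_main {m s L : ℕ} (hs : 2 ≤ s) (hL : 5 ≤ L) (hsL : s * (L + 1) ≤ m + 1)
    {t : ℤ → Module.End K V} (hinj : ∀ x ∈ Set.Icc (0 : ℤ) m, Function.Injective (t x))
    (hS : ASys hum (Set.Icc (0 : ℤ) m) t)
    (hirr : ∀ W : Submodule K V, (∀ x ∈ Set.Icc (0 : ℤ) m, ∀ w ∈ W, t x w ∈ W) → W = ⊥ ∨ W = ⊤)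
    (hr : Module.finrank K V < s * (s - 1) / 2 * (L - 1) ^ 2) :
    (∀ x ∈ Set.Icc (0 : ℤ) m, ∀ y ∈ Set.Icc (0 : ℤ) m, t x = t y) ∨
    ∃ (μ q : K) (e : ℤ → V), μ ≠ 0 ∧ q ≠ 0 ∧ m - 1 ≤ Module.finrank K V ∧
      (∀ x ∈ Set.Icc (0 : ℤ) m, e x ≠ 0) ∧ Submodule.span K (e '' Set.Icc (0 : ℤ) m) = ⊤ ∧
      ∀ x ∈ Set.Icc (0 : ℤ) m, ∀ y ∈ Set.Icc (0 : ℤ) m,
        t x (e y) = μ • (e y - hmat K q x y • e x) := by
  by_cases hflat : ∀ x ∈ Set.Icc (0 : ℤ) m, ∀ y ∈ Set.Icc (0 : ℤ) m, t x = t y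
  · exact Or.inl hflat
  right
  have hnf : ∃ x ∈ Set.Icc (0 : ℤ) m, ∃ y ∈ Set.Icc (0 : ℤ) m, t x ≠ t y := by
    by_contra hcon
    push Not at hcon
    exact hflat hcon
  have hmN : 11 ≤ m := by
    have : 2 * (L + 1) ≤ s * (L + 1) := Nat.mul_le_mul_right _ hs
    omega
  have hm : (11 : ℤ) ≤ m := by omega
  have hsub1 : Set.Icc (1 : ℤ) m ⊆ Set.Icc (0 : ℤ) m := fun x hx => ⟨by have := hx.1; omega, hx.2⟩
  have hsurj : ∀ x ∈ Set.Icc (0 : ℤ) m, Function.Surjective (t x) := fun x hx =>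
    LinearMap.injective_iff_surjective.1 (hinj x hx)
  -- section 7: one pair of far edges
  have hpos : ∀ i : Fin s, (i : ℕ) * (L + 1) + L ≤ m := by
    intro i
    have h1 : ((i : ℕ) + 1) * (L + 1) ≤ s * (L + 1) := Nat.mul_le_mul_right _ i.2
    have h2 : ((i : ℕ) + 1) * (L + 1) = (i : ℕ) * (L + 1) + (L + 1) := by ring
    omega
  have hlt : ∀ i j : Fin s, i < j → (i : ℕ) * (L + 1) + L + 2 ≤ (j : ℕ) * (L + 1) + 1 := by
    intro i j hij
    have h1 : ((i : ℕ) + 1) * (L + 1) ≤ (j : ℕ) * (L + 1) :=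
      Nat.mul_le_mul_right _ (by exact_mod_cast hij)
    have h2 : ((i : ℕ) + 1) * (L + 1) = (i : ℕ) * (L + 1) + (L + 1) := by ring
    omega
  set X : Fin s → Set ℤ := fun i =>
    Set.Icc (((i : ℕ) * (L + 1) + 1 : ℕ) : ℤ) (((i : ℕ) * (L + 1) + L : ℕ) : ℤ) with hX
  have hXsub : ∀ i, X i ⊆ Set.Icc (1 : ℤ) m := by
    intro i x hx
    have h1 := hx.1
    have h2 := hx.2
    have h3 := hpos i
    constructor
    · push_cast at h1
      have : (0 : ℤ) ≤ (i : ℕ) * (L + 1) := by positivity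
      omega
    · have : (((i : ℕ) * (L + 1) + L : ℕ) : ℤ) ≤ m := by exact_mod_cast h3
      exact h2.trans this
  have hXfar' : ∀ i j, i < j → ∀ x ∈ X i, ∀ y ∈ X j, x + 2 ≤ y := by
    intro i j hij x hx y hy
    have h1 := hlt i j hij
    have h2 : (((i : ℕ) * (L + 1) + L + 2 : ℕ) : ℤ) ≤ (((j : ℕ) * (L + 1) + 1 : ℕ) : ℤ) := by
      exact_mod_cast h1
    have h3 := hx.2
    have h4 := hy.1
    push_cast at h2 h3 h4 ⊢
    omega
  have hXfar : ∀ i j, i ≠ j → ∀ x ∈ X i, ∀ y ∈ X j, Far hum x y := by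
    intro i j hij x hx y hy
    have hx1 := (hXsub i hx).1
    have hy1 := (hXsub j hy).1
    unfold Far hum
    rcases lt_or_gt_of_ne hij with h | h
    · have := hXfar' i j h x hx y hy
      omega
    · have := hXfar' j i h y hy x hx
      omega
  have hnn : ∀ i : Fin s, (0 : ℤ) ≤ ((i : ℕ) : ℤ) * ((L : ℤ) + 1) := fun i => by positivity
  have hgood : ∀ i, Good hum (X i) := by
    intro i
    have h0 := hnn i
    refine good_Icc ?_ ?_
    · push_cast; omega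
    · push_cast; omega
  have hN : ∀ i, ANab.{v} K hum (X i) (L - 1) := by
    intro i
    have h0 := hnn i
    refine chain_nab4 (by omega) ?_ ?_
    · push_cast; omega
    · push_cast; ring
  obtain ⟨i, j, hij, hpair⟩ := pairs_dim (K := K) (k := L - 1) (by omega) X hgood hN
    hXfar V t (fun i x hx => hinj x (hsub1 (hXsub i hx)))
    (hS.mono (by rintro x ⟨i, hx⟩; exact hsub1 (hXsub i hx))) hr
  have hmem : ∀ i : Fin s, (((i : ℕ) * (L + 1) + 1 : ℕ) : ℤ) ∈ X i ∧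
      (((i : ℕ) * (L + 1) + 1 : ℕ) : ℤ) + 1 ∈ X i := by
    intro i
    refine ⟨⟨le_refl _, ?_⟩, ⟨by omega, ?_⟩⟩ <;> push_cast <;> omega
  have hQ : QQ t m := by
    refine qq_of_pair (fun x hx => hsurj x (hsub1 hx)) (hS.mono hsub1)
      ⟨(((i : ℕ) * (L + 1) + 1 : ℕ) : ℤ), (((j : ℕ) * (L + 1) + 1 : ℕ) : ℤ), ?_, ?_, ?_, ?_⟩
    · exact (hXsub i (hmem i).1).1
    · have := hXfar' i j hij _ (hmem i).2 _ (hmem j).1
      omega
    · exact (hXsub j (hmem j).2).2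
    · exact hpair _ (hmem i).1 _ (hmem i).2 _ (hmem j).1 _ (hmem j).2
  exact tree_of_qq (by omega) hinj hS hirr hnf hQ

/-- the tree if one operator is near a scalar -/
theorem tree_rank {m : ℕ} (hmN : 11 ≤ m)
    {t : ℤ → Module.End K V} (hinj : ∀ x ∈ Set.Icc (0 : ℤ) m, Function.Injective (t x))
    (hS : ASys hum (Set.Icc (0 : ℤ) m) t)
    (hirr : ∀ W : Submodule K V, (∀ x ∈ Set.Icc (0 : ℤ) m, ∀ w ∈ W, t x w ∈ W) → W = ⊥ ∨ W = ⊤)
    (hr : ∃ x ∈ Set.Icc (0 : ℤ) m, ∃ ν : K,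
      (Module.finrank K (LinearMap.range (t x - ν • (1 : Module.End K V))) : ℤ) < m - 7) :
    (∀ x ∈ Set.Icc (0 : ℤ) m, ∀ y ∈ Set.Icc (0 : ℤ) m, t x = t y) ∨
    ∃ (μ q : K) (e : ℤ → V), μ ≠ 0 ∧ q ≠ 0 ∧ m - 1 ≤ Module.finrank K V ∧
      (∀ x ∈ Set.Icc (0 : ℤ) m, e x ≠ 0) ∧ Submodule.span K (e '' Set.Icc (0 : ℤ) m) = ⊤ ∧
      ∀ x ∈ Set.Icc (0 : ℤ) m, ∀ y ∈ Set.Icc (0 : ℤ) m,
        t x (e y) = μ • (e y - hmat K q x y • e x) := by
  by_cases hflat : ∀ x ∈ Set.Icc (0 : ℤ) m, ∀ y ∈ Set.Icc (0 : ℤ) m, t x = t y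
  · exact Or.inl hflat
  right
  have hnf : ∃ x ∈ Set.Icc (0 : ℤ) m, ∃ y ∈ Set.Icc (0 : ℤ) m, t x ≠ t y := by
    by_contra hcon
    push Not at hcon
    exact hflat hcon
  obtain ⟨x, hx, ν, hν⟩ := hr
  exact tree_of_qq (by omega) hinj hS hirr hnf (qq_of_rank (by omega) hinj hS hx hν)

end Pool.Agent.Art
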